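import Pool.Agent.RST.Stmts
import Pool.Agent.GML.CMP
import Pool.Agent.GML.AGR
import Pool.Agent.GML.DEG
import Pool.Agent.GML.FRE
import Pool.Agent.GML.DIM
import Pool.Agent.GML.QUO
import Pool.Agent.GML.GRO

/-!
# RST: module GAM (sections outside of `P`)
-/

set_option autoImplicit false

namespace Pool.Agent.RST

open MvPolynomial Pool.Agent.GML

noncomputable section

namespace GAM_

/-! ## generalities -/

section gen

variable {κ : Type} [Field κ] {n : ℕ}

lemma emb_X (c : Fin n) : emb κ n (X c) = X (Fin.castSucc c) := by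
  unfold emb
  rw [rename_X]

/-- the action of `a F` on `E` -/
lemma E_kill {D : XD κ n} {c : ℕ} {z : Fin 3 → Po κ n} {M : GMod κ n} (hK : Kil M (aF D c))
    {E : Type} [AddCommGroup E] [Module (Po κ (n + 1)) E] {ι : M.M →+ E} (hE : Eta D z M E ι)
    {f : Po κ n} (hf : f ∈ aF D c) (u : E) : emb κ n f • u = 0 := by
  obtain ⟨p, hp, m, hm⟩ := hE.gen u
  apply hE.inj p hp
  rw [smul_comm, hm, ← hE.smul, hK f hf, map_zero]

/-- `g` is injective on `E` -/
lemma g_inj {D : XD κ n} {c : ℕ} {z : Fin 3 → Po κ n} {v : Fin n → κ} (hGG : GG D c z v)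
    {M : GMod κ n} (hK : Kil M (aF D c))
    {E : Type} [AddCommGroup E] [Module (Po κ (n + 1)) E] {ι : M.M →+ E} (hE : Eta D z M E ι)
    (u : E) (h : emb κ n (lin v) • u = 0) : u = 0 := by
  obtain ⟨-, g', r, hr, hg⟩ := hGG
  apply hE.inj r hr
  have h1 := E_kill hK hE hg u
  rw [map_sub, sub_smul, mul_comm, map_mul, mul_smul, h, smul_zero, zero_sub, neg_eq_zero] at h1
  exact h1

/-- `g` is surjective on `E` -/
lemma g_surj {D : XD κ n} {c : ℕ} {z : Fin 3 → Po κ n} {v : Fin n → κ} (hGG : GG D c z v)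
    {M : GMod κ n} (hK : Kil M (aF D c))
    {E : Type} [AddCommGroup E] [Module (Po κ (n + 1)) E] {ι : M.M →+ E} (hE : Eta D z M E ι)
    (u : E) : ∃ u' : E, emb κ n (lin v) • u' = u := by
  obtain ⟨-, g', r, hr, hg⟩ := hGG
  obtain ⟨u', hu'⟩ := hE.surj r hr u
  refine ⟨emb κ n g' • u', ?_⟩
  have h1 := E_kill hK hE hg u'
  rw [map_sub, sub_smul, map_mul, mul_smul, sub_eq_zero] at h1
  rw [h1, hu']

lemma pow_inj {E : Type} [AddCommGroup E] [Module (Po κ (n + 1)) E] {g : Po κ (n + 1)}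
    (h : ∀ u : E, g • u = 0 → u = 0) (k : ℕ) : ∀ u : E, g ^ k • u = 0 → u = 0 := by
  induction k with
  | zero =>
    intro u hu
    simpa using hu
  | succ k ih =>
    intro u hu
    rw [pow_succ, mul_smul] at hu
    exact h _ (ih _ hu)

lemma pow_surj {E : Type} [AddCommGroup E] [Module (Po κ (n + 1)) E] {g : Po κ (n + 1)}
    (h : ∀ u : E, ∃ u', g • u' = u) (k : ℕ) : ∀ u : E, ∃ u', g ^ k • u' = u := by
  induction k with
  | zero =>
    intro u
    exact ⟨u, by simp⟩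
  | succ k ih =>
    intro u
    obtain ⟨u', hu'⟩ := ih u
    obtain ⟨u'', hu''⟩ := h u'
    exact ⟨u'', by rw [pow_succ, mul_smul, hu'', hu']⟩

/-- a power of `g` is in the ideal of the powers -/
lemma g_pow (A : Set (Fin n)) (v : Fin n → κ) (hv : ∀ i, i ∉ A → v i = 0) (N : ℕ)
    [Fintype A] : ∃ (k : ℕ) (h : A → Po κ n), ∑ c : A, h c * X (c : Fin n) ^ N = lin v ^ k := by
  classical
  have h1 : lin v ∈ (Ideal.span (Set.range fun c : A => (X (c : Fin n) : Po κ n) ^ N)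
      ).radical := by
    refine Submodule.sum_mem _ fun c _ => ?_
    by_cases hc : c ∈ A
    · refine Ideal.mul_mem_left _ _ ⟨N, Ideal.subset_span ⟨⟨c, hc⟩, rfl⟩⟩
    · rw [hv c hc, map_zero, zero_mul]
      exact Submodule.zero_mem _
  obtain ⟨k, hk⟩ := h1
  obtain ⟨a, ha⟩ := (Ideal.mem_span_range_iff_exists_fun).1 hk
  exact ⟨k, a, ha⟩

/-- a power of a linear form in `X` is in the ideal of the powers, modulo `I'` -/
lemma z_pow (D : XD κ n) (z : Po κ n) (hz : z.IsHomogeneous 1) (N : ℕ) [Fintype D.A] :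
    ∃ (k : ℕ) (h : D.A → Po κ (n + 1)),
      emb κ n z ^ k - ∑ c : D.A, h c * X (Fin.castSucc (c : Fin n)) ^ N ∈ D.I' := by
  classical
  set J : Ideal (Po κ (n + 1)) :=
    Ideal.span (Set.range fun c : D.A => (X (Fin.castSucc (c : Fin n)) : Po κ (n + 1)) ^ N) ⊔ D.I'
    with hJ
  have h1 : ∀ c : Fin n, (X (Fin.castSucc c) : Po κ (n + 1)) ∈ J.radical := by
    intro c
    obtain ⟨e, he⟩ := D.xA c
    have h2 : Ideal.span ((fun c => (X (Fin.castSucc c) : Po κ (n + 1))) '' D.A) ⊔ D.I' ≤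
        J.radical := by
      refine sup_le ?_ (le_sup_right.trans Ideal.le_radical)
      rw [Ideal.span_le]
      rintro _ ⟨c, hc, rfl⟩
      exact ⟨N, Ideal.mem_sup_left (Ideal.subset_span ⟨⟨c, hc⟩, rfl⟩)⟩
    have h3 := h2 he
    exact (Ideal.radical_isRadical J) ⟨e, h3⟩
  have h2 : emb κ n z ∈ J.radical := by
    have h3 : z ∈ Ideal.span ((X : Fin n → Po κ n) '' Set.univ) := by
      rw [mem_ideal_span_X_image]
      intro m hm
      by_contra h4
      push Not at h4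
      have h5 : m = 0 := by
        ext i
        exact h4 i (Set.mem_univ i)
      have h6 := hz (mem_support_iff.1 hm)
      rw [h5, map_zero] at h6
      exact absurd h6 (by norm_num)
    have h4 : Ideal.span ((X : Fin n → Po κ n) '' Set.univ) ≤ J.radical.comap (emb κ n) := by
      rw [Ideal.span_le]
      rintro _ ⟨c, -, rfl⟩
      show emb κ n (X c) ∈ J.radical
      rw [emb_X]
      exact h1 c
    exact h4 h3
  obtain ⟨k, hk⟩ := h2
  rw [hJ, Submodule.mem_sup] at hk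
  obtain ⟨a, ha, b, hb, hab⟩ := hk
  obtain ⟨h, hh⟩ := (Ideal.mem_span_range_iff_exists_fun).1 ha
  refine ⟨k, h, ?_⟩
  rw [hh, ← hab, add_sub_cancel_left]
  exact hb

end gen

/-! ## the data -/

/-- the data after the construction of `M'` and of the basis -/
structure Dat {κ : Type} [Field κ] {n : ℕ} (D : XD κ n) (z : Fin 3 → Po κ n)
    (v : Fin n → κ) (w : Fin 3 → Po κ (n + 1)) (M : GMod κ n) (E : Type) [AddCommGroup E]
    [Module (Po κ (n + 1)) E] (ι : M.M →+ E) where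
  hv : ∀ i, i ∉ D.A → v i = 0
  ginj : ∀ u : E, emb κ n (lin v) • u = 0 → u = 0
  gsurj : ∀ u : E, ∃ u', emb κ n (lin v) • u' = u
  smul : ∀ (p : Po κ n) (m : M.M), ι (p • m) = emb κ n p • ι m
  kill : ∀ f ∈ D.I', ∀ u : E, f • u = 0
  M' : GMod κ (n + 1)
  j : M.M →+ M'.M
  hY : Ymd D v M M' j
  j' : M'.M →ₗ[Po κ (n + 1)] E
  jj : ∀ m, j' (j m) = ι m
  j'inj : Function.Injective j'
  N3 : GMod κ 3
  e : M'.M ≃+ N3.M
  es : ∀ (P : Po κ 3) (m : M'.M), e ((aeval w P : Po κ (n + 1)) • m) = P • e m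
  ea : ∀ (a : κ) (m : M'.M), e (a • m) = a • e m
  eg : ∀ (k : ℤ) (m : M'.M), m ∈ M'.gr k ↔ e m ∈ N3.gr k
  k : ℕ
  b : Fin k → N3.M
  d : Fin k → ℤ
  f : Po κ 3
  e0 : ℕ
  li : LinearIndependent (Po κ 3) b
  bd : ∀ i, b i ∈ N3.gr (d i)
  f0 : f ≠ 0
  fh : f.IsHomogeneous e0
  fs : ∀ x : N3.M, f • x ∈ Submodule.span (Po κ 3) (Set.range b)
  wtf : ∀ p : Po κ 3, p ≠ 0 → ∀ u : E, (aeval w p : Po κ (n + 1)) • u = 0 → u = 0
  w1 : w 1 = emb κ n (z 1)
  w2 : w 2 = emb κ n (z 2)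
  zh : ∀ i, (z i).IsHomogeneous 1

section dat

variable {κ : Type} [Field κ] {n : ℕ} {D : XD κ n} {z : Fin 3 → Po κ n}
    {v : Fin n → κ} {w : Fin 3 → Po κ (n + 1)} {M : GMod κ n} {E : Type} [AddCommGroup E]
    [Module (Po κ (n + 1)) E] {ι : M.M →+ E} (T : Dat D z v w M E ι)

/-- the polynomials of `w` on `M'` -/
lemma wtf' (T : Dat D z v w M E ι) (p : Po κ 3) (hp : p ≠ 0) (x : T.M'.M)
    (h : (aeval w p : Po κ (n + 1)) • x = 0) : x = 0 := by
  apply T.j'inj
  rw [map_zero]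
  apply T.wtf p hp
  rw [← map_smul, h, map_zero]

/-- uniqueness -/
lemma uniq (T : Dat D z v w M E ι) (N : ℕ) (x : T.M'.M)
    (h : ∀ c ∈ D.A, (X (Fin.castSucc c) : Po κ (n + 1)) ^ N • x = 0) : x = 0 := by
  classical
  have : Finite D.A := Subtype.finite
  have := Fintype.ofFinite D.A
  obtain ⟨k, a, ha⟩ := g_pow D.A v T.hv N
  have h1 : emb κ n (lin v) ^ k • x = 0 := by
    rw [← map_pow, ← ha, map_sum, Finset.sum_smul]
    refine Finset.sum_eq_zero fun c _ => ?_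
    rw [map_mul, map_pow, emb_X, mul_smul, h c c.2, smul_zero]
  exact pow_inj T.hY.ginj k _ h1

/-- existence in `E` -/
lemma ex_E (T : Dat D z v w M E ι) (N m : ℕ) (f : Fin n → M.M) (hf : f ∈ Gam D.A M N m) :
    ∃ u : E, ∀ c ∈ D.A, (X (Fin.castSucc c) : Po κ (n + 1)) ^ N • u = ι (f c) := by
  classical
  have : Finite D.A := Subtype.finite
  have := Fintype.ofFinite D.A
  obtain ⟨k, a, ha⟩ := g_pow D.A v T.hv N
  obtain ⟨u, hu⟩ := pow_surj T.gsurj k (∑ c : D.A, emb κ n (a c) • ι (f c))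
  refine ⟨u, fun c hc => ?_⟩
  have h1 : emb κ n (lin v) ^ k • ((X (Fin.castSucc c) : Po κ (n + 1)) ^ N • u - ι (f c)) = 0 := by
    rw [smul_sub, smul_comm, hu, sub_eq_zero, ← map_pow, ← ha, map_sum, Finset.sum_smul,
      Finset.smul_sum]
    refine Finset.sum_congr rfl fun c' _ => ?_
    have h2 : (X (Fin.castSucc c) : Po κ (n + 1)) ^ N = emb κ n (X c ^ N) := by
      rw [map_pow, emb_X]
    rw [h2, smul_comm, ← T.smul, ← T.smul, ← T.smul, mul_smul, hf.2.2 c' c'.2 c hc]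
  exact sub_eq_zero.1 (pow_inj T.ginj k _ h1)

/-- existence in `M'` -/
lemma ex_M (T : Dat D z v w M E ι) (N m : ℕ) (f : Fin n → M.M) (hf : f ∈ Gam D.A M N m) :
    ∃ x : T.M'.M, (∀ c ∈ D.A, (X (Fin.castSucc c) : Po κ (n + 1)) ^ N • x =
      (aeval w T.f : Po κ (n + 1)) • T.j (f c)) ∧
      T.e x ∈ Submodule.span (Po κ 3) (Set.range T.b) := by
  classical
  have : Finite D.A := Subtype.finite
  have := Fintype.ofFinite D.A
  obtain ⟨u, hu⟩ := ex_E T N m f hf
  -- multiples of `u` in `M'`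
  have key : ∀ i : Fin 3, ∃ (k : ℕ) (y : T.M'.M), T.j' y = emb κ n (z i) ^ k • u := by
    intro i
    obtain ⟨k, h, hk⟩ := z_pow D (z i) (T.zh i) N
    refine ⟨k, ∑ c : D.A, h c • T.j (f c), ?_⟩
    have h1 := T.kill _ hk u
    rw [sub_smul, sub_eq_zero] at h1
    rw [h1, map_sum, Finset.sum_smul]
    refine Finset.sum_congr rfl fun c _ => ?_
    rw [map_smul, T.jj, mul_smul, hu c c.2]
  obtain ⟨k1, y1, hy1⟩ := key 1
  obtain ⟨k2, y2, hy2⟩ := key 2
  obtain ⟨P, hP⟩ := (Submodule.mem_span_range_iff_exists_fun (Po κ 3)).1 (T.fs (T.e y1))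
  obtain ⟨Q, hQ⟩ := (Submodule.mem_span_range_iff_exists_fun (Po κ 3)).1 (T.fs (T.e y2))
  have hw1 : (aeval w (X 1 ^ k1 : Po κ 3) : Po κ (n + 1)) = emb κ n (z 1) ^ k1 := by
    rw [map_pow, aeval_X, T.w1]
  have hw2 : (aeval w (X 2 ^ k2 : Po κ 3) : Po κ (n + 1)) = emb κ n (z 2) ^ k2 := by
    rw [map_pow, aeval_X, T.w2]
  have h12 : (X 2 ^ k2 : Po κ 3) • T.e y1 = (X 1 ^ k1 : Po κ 3) • T.e y2 := by
    rw [← T.es, ← T.es]
    congr 1
    apply T.j'inj
    rw [map_smul, map_smul, hy1, hy2, hw1, hw2, smul_comm]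
  have hPQ : ∀ i, X 2 ^ k2 * P i = X 1 ^ k1 * Q i := by
    have h1 : ∑ i, (X 2 ^ k2 * P i) • T.b i = ∑ i, (X 1 ^ k1 * Q i) • T.b i := by
      have h2 : (X 2 ^ k2 : Po κ 3) • (T.f • T.e y1) = (X 1 ^ k1 : Po κ 3) • (T.f • T.e y2) := by
        rw [smul_comm, h12, smul_comm]
      rw [← hP, ← hQ, Finset.smul_sum, Finset.smul_sum] at h2
      simpa only [mul_smul] using h2
    have h3 := linearIndependent_iff'ₛ.1 T.li Finset.univ _ _ h1
    exact fun i => h3 i (Finset.mem_univ i)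
  have hdvd : ∀ i, ∃ R : Po κ 3, P i = X 1 ^ k1 * R := by
    intro i
    have hpr : Prime (X 1 : Po κ 3) := X_prime
    refine hpr.pow_dvd_of_dvd_mul_left (a := (X 2 : Po κ 3) ^ k2) k1 ?_ ⟨Q i, hPQ i⟩
    intro h
    have h1 := hpr.dvd_of_dvd_pow h
    rw [X_dvd_X] at h1
    exact absurd h1 (by decide)
  choose R hR using hdvd
  have hx0 : (X 1 ^ k1 : Po κ 3) • ∑ i, R i • T.b i = T.f • T.e y1 := by
    rw [← hP, Finset.smul_sum]
    refine Finset.sum_congr rfl fun i _ => ?_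
    rw [hR, mul_smul]
  set x : T.M'.M := T.e.symm (∑ i, R i • T.b i) with hx
  have hex : T.e x = ∑ i, R i • T.b i := T.e.apply_symm_apply _
  have hxu : T.j' x = (aeval w T.f : Po κ (n + 1)) • u := by
    have h1 : (aeval w (X 1 ^ k1 : Po κ 3) : Po κ (n + 1)) • x =
        (aeval w T.f : Po κ (n + 1)) • y1 := by
      apply T.e.injective
      rw [T.es, T.es, hex, hx0]
    have h2 : (aeval w (X 1 ^ k1 : Po κ 3) : Po κ (n + 1)) •
        (T.j' x - (aeval w T.f : Po κ (n + 1)) • u) = 0 := by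
      rw [smul_sub, ← map_smul, h1, map_smul, hy1, smul_comm, hw1, sub_self]
    exact sub_eq_zero.1 (T.wtf _ (pow_ne_zero _ (X_ne_zero 1)) _ h2)
  refine ⟨x, fun c hc => ?_, ?_⟩
  · apply T.j'inj
    rw [map_smul, map_smul, hxu, T.jj, smul_comm, hu c hc]
  · rw [hex]
    exact Submodule.sum_mem _ fun i _ => Submodule.smul_mem _ _ (Submodule.subset_span ⟨i, rfl⟩)

/-- the relation between a family and its element -/
def Rel (T : Dat D z v w M E ι) (N : ℕ) (f : Fin n → M.M) (x : T.M'.M) : Prop :=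
  ∀ c ∈ D.A, (X (Fin.castSucc c) : Po κ (n + 1)) ^ N • x =
    (aeval w T.f : Po κ (n + 1)) • T.j (f c)

lemma rel_uniq (T : Dat D z v w M E ι) {N : ℕ} {f : Fin n → M.M} {x x' : T.M'.M}
    (h : Rel T N f x) (h' : Rel T N f x') : x = x' := by
  rw [← sub_eq_zero]
  refine uniq T N _ fun c hc => ?_
  rw [smul_sub, h c hc, h' c hc, sub_self]

lemma rel_add (T : Dat D z v w M E ι) {N : ℕ} {f f' : Fin n → M.M} {x x' : T.M'.M}
    (h : Rel T N f x) (h' : Rel T N f' x') : Rel T N (f + f') (x + x') := by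
  intro c hc
  rw [smul_add, h c hc, h' c hc, Pi.add_apply, map_add, smul_add]

lemma C_smul {r : ℕ} (M : GMod κ r) (a : κ) (x : M.M) : (C a : Po κ r) • x = a • x := by
  have h : (C a : Po κ r) = a • (1 : Po κ r) := by
    rw [Algebra.smul_def, mul_one]
    rfl
  rw [h, smul_assoc, one_smul]

lemma j_smul (T : Dat D z v w M E ι) (a : κ) (m : M.M) : T.j (a • m) = a • T.j m := by
  rw [← C_smul, T.hY.smul]
  have h : emb κ n (C a) = C a := by
    unfold emb
    rw [rename_C]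
  rw [h, C_smul]

lemma rel_smul (T : Dat D z v w M E ι) {N : ℕ} {f : Fin n → M.M} {x : T.M'.M} (a : κ)
    (h : Rel T N f x) : Rel T N (a • f) (a • x) := by
  intro c hc
  rw [smul_comm, h c hc, Pi.smul_apply, j_smul, smul_comm]

lemma cmp_pow (M : GMod κ n) (i : Fin n) (N : ℕ) (k : ℤ) (x : M.M) :
    M.cmp (k + N) ((X i : Po κ n) ^ N • x) = (X i : Po κ n) ^ N • M.cmp k x := by
  induction N with
  | zero => simp
  | succ N ih =>
    have h6 := (cmp_proof κ n M).2.2.2.2.2.1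
    have e1 : k + ((N + 1 : ℕ) : ℤ) = k + N + 1 := by push_cast; ring
    rw [e1, pow_succ', mul_smul, h6, ih, mul_smul]

/-- degree of the element -/
lemma rel_deg (T : Dat D z v w M E ι) {N m : ℕ} {f : Fin n → M.M} (hf : f ∈ Gam D.A M N m)
    {x : T.M'.M} (h : Rel T N f x) : x ∈ T.M'.gr ((m : ℤ) + T.e0) := by
  obtain ⟨h1, h2, h3, -, -, -, h7, -⟩ := cmp_proof κ (n + 1) T.M'
  have h4 : ∀ c ∈ D.A, (aeval w T.f : Po κ (n + 1)) • T.j (f c) ∈
      T.M'.gr ((m : ℤ) + N + T.e0) := by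
    intro c hc
    rw [T.eg, T.es]
    refine GRO_.hom_mem T.N3 T.f T.e0 T.fh _ _ ?_
    rw [← T.eg]
    exact T.hY.deg _ _ (hf.2.1 c hc)
  have h5 : ∀ k : ℤ, k ≠ (m : ℤ) + T.e0 → T.M'.cmp k x = 0 := by
    intro k hk
    refine uniq T N _ fun c hc => ?_
    rw [← cmp_pow, h c hc]
    exact h3 _ _ _ (h4 c hc) (by omega)
  obtain ⟨S, hS, -⟩ := h7 x
  rw [hS]
  refine Submodule.sum_mem _ fun k _ => ?_
  by_cases hk : k = (m : ℤ) + T.e0
  · rw [hk]
    exact h1 _ _
  · rw [h5 k hk]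
    exact Submodule.zero_mem _

/-- injectivity -/
lemma rel_zero (T : Dat D z v w M E ι) {N m : ℕ} {f : Fin n → M.M} (hf : f ∈ Gam D.A M N m)
    (h : Rel T N f 0) : f = 0 := by
  funext c
  by_cases hc : c ∈ D.A
  · have h1 := h c hc
    rw [smul_zero] at h1
    have h2 := wtf' T T.f T.f0 _ h1.symm
    apply T.hY.inj
    rw [h2, Pi.zero_apply, map_zero]
  · exact hf.1 c hc

/-- the bound -/
lemma bound (T : Dat D z v w M E ι) (hfin : Module.Finite (Po κ 3) T.N3.M) (N m : ℕ) :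
    Module.finrank κ (Gam D.A M N m) ≤
      ∑ i, if T.d i ≤ (m : ℤ) + T.e0 then
        (((m : ℤ) + T.e0 - T.d i).toNat + 2).choose 2 else 0 := by
  classical
  have hdim := dim_proof agr_proof cmp_proof κ 3 (by norm_num) T.N3 T.k T.b T.d T.li T.bd
    ((m : ℤ) + T.e0)
  have h32 : 3 - 1 = 2 := rfl
  rw [h32] at hdim
  rw [← hdim]
  have hgr : Module.Finite κ (T.N3.gr ((m : ℤ) + T.e0)) :=
    (gro_proof agr_proof cmp_proof (fre_proof cmp_proof (deg_proof cmp_proof))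
      (dim_proof agr_proof cmp_proof) (deg_proof cmp_proof) (quo_proof cmp_proof)
      κ 1 T.N3 hfin).1 _
  set W : Submodule κ T.N3.M := T.N3.gr ((m : ℤ) + T.e0) ⊓
    (Submodule.span (Po κ 3) (Set.range T.b)).restrictScalars κ with hW
  have hWf : Module.Finite κ W := Submodule.finiteDimensional_of_le inf_le_left
  have hex : ∀ f : Gam D.A M N m, ∃ x : T.M'.M, Rel T N f x ∧
      T.e x ∈ Submodule.span (Po κ 3) (Set.range T.b) := fun f => ex_M T N m f f.2
  choose x hx hxs using hex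
  have hxW : ∀ f, T.e (x f) ∈ W := fun f =>
    ⟨(T.eg _ _).1 (rel_deg T f.2 (hx f)), hxs f⟩
  let Θ : Gam D.A M N m →ₗ[κ] W :=
    { toFun := fun f => ⟨T.e (x f), hxW f⟩
      map_add' := by
        intro f f'
        apply Subtype.ext
        show T.e (x (f + f')) = T.e (x f) + T.e (x f')
        rw [← map_add]
        congr 1
        exact rel_uniq T (hx (f + f')) (rel_add T (hx f) (hx f'))
      map_smul' := by
        intro a f
        apply Subtype.ext
        show T.e (x (a • f)) = a • T.e (x f)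
        rw [← T.ea]
        congr 1
        exact rel_uniq T (hx (a • f)) (rel_smul T a (hx f)) }
  have hΘ : Function.Injective Θ := by
    rw [injective_iff_map_eq_zero]
    intro f hf
    have h1 : T.e (x f) = 0 := congrArg Subtype.val hf
    have h2 : x f = 0 := by
      apply T.e.injective
      rw [h1, map_zero]
    have h3 := hx f
    rw [h2] at h3
    exact Subtype.ext (rel_zero T f.2 h3)
  exact LinearMap.finrank_le_finrank_of_injective hΘ

end dat

lemma choose_bd (e0 : ℕ) (d : ℤ) : ∃ C : ℕ, ∀ m : ℕ,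
    (((if d ≤ (m : ℤ) + e0 then (((m : ℤ) + e0 - d).toNat + 2).choose 2 else 0 : ℕ)) : ℚ) ≤
      (m : ℚ) ^ 2 / 2 + C * ((m : ℚ) + 1) := by
  set B : ℕ := e0 + d.natAbs with hB
  refine ⟨(2 * B + 3) + (B + 2) * (B + 1), fun m => ?_⟩
  have h0 : (0 : ℚ) ≤ (m : ℚ) := Nat.cast_nonneg m
  have hB0 : (0 : ℚ) ≤ (B : ℚ) := Nat.cast_nonneg B
  split_ifs with h
  · have h1 : ((m : ℤ) + e0 - d).toNat ≤ m + B := by omega
    have h2 : (((m : ℤ) + e0 - d).toNat + 2).choose 2 ≤ (m + B + 2).choose 2 :=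
      Nat.choose_le_choose 2 (by omega)
    have h3 : (((((m : ℤ) + e0 - d).toNat + 2).choose 2 : ℕ) : ℚ) ≤
        (((m + B + 2).choose 2 : ℕ) : ℚ) := by exact_mod_cast h2
    refine h3.trans ?_
    rw [Nat.cast_choose_two]
    push_cast
    nlinarith [mul_nonneg h0 hB0, mul_nonneg h0 (mul_nonneg hB0 hB0)]
  · push_cast
    positivity

end GAM_

open GAM_ in
/-- **GAM**: sections outside of `P` -/
theorem gam_proof (hWFN : Stmt_WFN) (hRSC : Stmt_RSC) (hYMD : Stmt_YMD) (hYLF : Stmt_YLF)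
    (hRWL : Stmt_RWL) (hPTF : Stmt_PTF) : Stmt_GAM := by
  classical
  intro κ _ n D c z v w hc hZp hGG hWG M hfin hK hZ E _ _ ι hE
  have hιinj : Function.Injective ι := by
    rw [injective_iff_map_eq_zero]
    intro m hm
    obtain ⟨p, hp, h⟩ := hE.ker m hm
    exact hZ p hp m h
  have hgM : ∀ m : M.M, lin v • m = 0 → m = 0 := by
    intro m hm
    apply hιinj
    rw [map_zero]
    apply g_inj hGG hK hE
    rw [← hE.smul, hm, map_zero]
  have hKI : Kil M D.IX := fun p hp m => hK p (Ideal.mem_sup_left hp) m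
  obtain ⟨M', j, hY⟩ := hYMD κ n D v hGG.1 M hKI hgM
  obtain ⟨j', hjj, hj'inj, hj'r⟩ := hYLF κ n D c z v hGG M hK M' j hY E ι hE
  have hj'i := hj'inj hιinj
  -- `M'` is finite
  have hM'fin : Module.Finite (Po κ (n + 1)) M'.M := by
    obtain ⟨s, hs⟩ := hfin
    refine ⟨⟨s.image j, ?_⟩⟩
    rw [eq_top_iff, ← hY.gen, Submodule.span_le]
    rintro _ ⟨m, rfl⟩
    have hm : m ∈ Submodule.span (Po κ n) (s : Set M.M) := by
      rw [hs]
      trivial
    rw [SetLike.mem_coe]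
    induction hm using Submodule.span_induction with
    | mem m hm =>
      refine Submodule.subset_span ?_
      rw [Finset.coe_image]
      exact ⟨m, hm, rfl⟩
    | zero =>
      rw [map_zero]
      exact Submodule.zero_mem _
    | add a b _ _ ha hb =>
      rw [map_add]
      exact Submodule.add_mem _ ha hb
    | smul a b _ hb =>
      rw [hY.smul]
      exact Submodule.smul_mem _ _ hb
  have hX : ∀ x : M'.M, (X (Fin.castSucc D.c₀) : Po κ (n + 1)) ^ c • x = 0 := by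
    intro x
    have hx : x ∈ Submodule.span (Po κ (n + 1)) (Set.range j) := by
      rw [hY.gen]
      trivial
    induction hx using Submodule.span_induction with
    | mem x hx =>
      obtain ⟨m, rfl⟩ := hx
      have h1 : (X (Fin.castSucc D.c₀) : Po κ (n + 1)) ^ c = emb κ n (X D.c₀ ^ c) := by
        rw [map_pow, emb_X]
      rw [h1, ← hY.smul, hK _ (Ideal.mem_sup_right (Ideal.mem_span_singleton_self _)), map_zero]
    | zero => exact smul_zero _
    | add a b _ _ ha hb => rw [smul_add, ha, hb, add_zero]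
    | smul a b _ hb => rw [smul_comm, hb, smul_zero]
  obtain ⟨S, hS⟩ := hWFN.1 κ n D z w hZp hWG M'.M hM'fin hY.kill ⟨c, hX⟩
  have hzh := hZp.1
  obtain ⟨⟨a, b', hw0⟩, hw1, hw2, -⟩ := id hWG
  have hwh : ∀ i, (w i).IsHomogeneous 1 := by
    have h1 : ∀ i, (emb κ n (z i)).IsHomogeneous 1 := fun i =>
      IsHomogeneous.rename_isHomogeneous (hzh i)
    intro i
    fin_cases i
    · show (w 0).IsHomogeneous 1
      rw [hw0]
      exact ((h1 0).C_mul a).add ((isHomogeneous_X κ _).C_mul b')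
    · show (w 1).IsHomogeneous 1
      rw [hw1]
      exact h1 1
    · show (w 2).IsHomogeneous 1
      rw [hw2]
      exact h1 2
  obtain ⟨N3, e, es, ea, eg, hrk, hfin3⟩ := hRSC κ (n + 1) w hwh M'
  have hfin3' := hfin3 ⟨S, hS⟩
  obtain ⟨k, b, d, f, e0, li, bd, f0, fh, fs, hk⟩ :=
    fre_proof cmp_proof (deg_proof cmp_proof) κ 3 N3 hfin3'
  obtain ⟨-, -, hwtf⟩ := hPTF κ n D c z v w hc hZp hGG hWG M hfin hK E ι hE
  -- ranks
  have hFw : Fw w M'.M := by
    unfold Fw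
    let _ : Module (Po κ 3) M'.M :=
      Module.compHom M'.M (aeval w : Po κ 3 →ₐ[κ] Po κ (n + 1)).toRingHom
    have h1 : Module.Finite (Po κ 3) M'.M := by
      refine ⟨⟨S, ?_⟩⟩
      rw [eq_top_iff]
      intro x _
      obtain ⟨P, hP⟩ := hS x
      rw [hP]
      refine Submodule.sum_mem _ fun t ht => ?_
      exact Submodule.smul_mem _ (P t) (Submodule.subset_span ht)
    exact Module.rank_lt_aleph0 (Po κ 3) M'.M
  have hrkE : rkw w E = rkw w M'.M := by
    refine (hRWL κ (n + 1) w {s | ∃ p : Po κ 3, p ≠ 0 ∧ s = emb κ n (aeval z p)} ?_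
      M'.M E j' ?_ ?_ hFw).2.2 hj'i
    · rintro _ ⟨p, hp, rfl⟩ _ ⟨p', hp', rfl⟩
      exact ⟨p * p', mul_ne_zero hp hp', by rw [map_mul, map_mul]⟩
    · rintro _ ⟨p, hp, rfl⟩ u hu
      exact hE.inj p hp u hu
    · intro u
      obtain ⟨p, hp, h⟩ := hj'r u
      exact ⟨_, ⟨p, hp, rfl⟩, h⟩
  let T : Dat D z v w M E ι :=
    { hv := hGG.1
      ginj := g_inj hGG hK hE
      gsurj := g_surj hGG hK hE
      smul := hE.smul
      kill := hE.kill
      M' := M'
      j := j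
      hY := hY
      j' := j'
      jj := hjj
      j'inj := hj'i
      N3 := N3
      e := e
      es := es
      ea := ea
      eg := eg
      k := k
      b := b
      d := d
      f := f
      e0 := e0
      li := li
      bd := bd
      f0 := f0
      fh := fh
      fs := fs
      wtf := hwtf
      w1 := hw1
      w2 := hw2
      zh := hzh }
  choose C hC using fun i : Fin k => choose_bd e0 (d i)
  refine ⟨∑ i, C i, fun N m => ?_⟩
  have h1 := bound T hfin3' N m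
  have h2 : (Module.finrank κ (Gam D.A M N m) : ℚ) ≤
      ((∑ i, if d i ≤ (m : ℤ) + e0 then
        (((m : ℤ) + e0 - d i).toNat + 2).choose 2 else 0 : ℕ) : ℚ) := by exact_mod_cast h1
  refine h2.trans ?_
  rw [Nat.cast_sum]
  have h3 : ∑ i : Fin k, (((if d i ≤ (m : ℤ) + e0 then
      (((m : ℤ) + e0 - d i).toNat + 2).choose 2 else 0 : ℕ)) : ℚ) ≤
      ∑ i : Fin k, ((m : ℚ) ^ 2 / 2 + C i * ((m : ℚ) + 1)) :=
    Finset.sum_le_sum fun i _ => hC i m
  refine h3.trans ?_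
  rw [Finset.sum_add_distrib, Finset.sum_const, Finset.card_univ, Fintype.card_fin,
    ← Finset.sum_mul, hrkE, ← hrk, ← hk]
  push_cast
  rw [nsmul_eq_mul]
  apply le_of_eq
  ring

end

end Pool.Agent.RST
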