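import Pool.Agent.RST.Stmts
import Pool.Agent.GML.All

/-!
# RST, module PTF: `E` is torsion free over `κ[w]`, of finite rank
-/

set_option autoImplicit false

open MvPolynomial Pool.Agent.GML

namespace Pool.Agent.RST

noncomputable section

namespace PTF_

variable {κ : Type} [Field κ]

lemma cmp_sum' {r : ℕ} (M : GMod κ r) (s : Finset ℤ) (x : ℤ → M.M) (n : ℤ) :
    M.cmp n (∑ i ∈ s, x i) = ∑ i ∈ s, M.cmp n (x i) := by
  classical
  obtain ⟨-, -, -, hadd, hsm, -⟩ := a_cmp κ r M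
  induction s using Finset.induction_on with
  | empty =>
    have := hsm n 0 0
    simpa using this
  | insert a s ha ih => rw [Finset.sum_insert ha, Finset.sum_insert ha, hadd, ih]

lemma cmp_zero' {r : ℕ} (M : GMod κ r) (n : ℤ) : M.cmp n 0 = 0 := by
  obtain ⟨-, -, -, -, hsm, -⟩ := a_cmp κ r M
  have := hsm n 0 0
  simpa using this

/-- multiplication by a homogeneous polynomial and components -/
lemma cmp_hom {r : ℕ} (M : GMod κ r) (f : Po κ r) (e : ℕ) (hf : f.IsHomogeneous e) (k : ℤ)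
    (m : M.M) : M.cmp (k + e) (f • m) = f • M.cmp k m := by
  classical
  obtain ⟨h1, h2, h3, h4, h5, h6, h7, -⟩ := a_cmp κ r M
  obtain ⟨S, hS, hS'⟩ := h7 m
  have hc : ∀ n : ℤ, f • M.cmp n m ∈ M.gr (n + e) := fun n =>
    FRE_.hom_smul M hf n _ (h1 n m)
  conv_lhs => rw [hS, Finset.smul_sum, cmp_sum']
  by_cases hk : k ∈ S
  · rw [Finset.sum_eq_single_of_mem k hk, h2 _ _ (hc k)]
    intro b _ hb
    exact h3 _ _ _ (hc b) (by omega)
  · rw [hS' k hk, smul_zero]
    refine Finset.sum_eq_zero fun b hb => h3 _ _ _ (hc b) ?_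
    intro h
    apply hk
    have : b = k := by omega
    rwa [← this]

/-- a homogeneous polynomial which kills all torsion elements -/
lemma tor_ann {r : ℕ} (N : GMod κ r) (hN : Module.Finite (Po κ r) N.M) :
    ∃ (f : Po κ r) (e : ℕ), f ≠ 0 ∧ f.IsHomogeneous e ∧
      ∀ y : N.M, (∃ p : Po κ r, p ≠ 0 ∧ p • y = 0) → f • y = 0 := by
  classical
  obtain ⟨k, b, d, f, e, hb, -, hf, hfe, hsp, -⟩ := a_fre κ r N hN
  refine ⟨f, e, hf, hfe, ?_⟩
  rintro y ⟨p, hp, hpy⟩
  obtain ⟨c, hc⟩ := (Submodule.mem_span_range_iff_exists_fun (Po κ r)).1 (hsp y)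
  have h1 : ∑ i, (p * c i) • b i = 0 := by
    have : p • (f • y) = 0 := by rw [smul_comm, hpy, smul_zero]
    rw [← hc, Finset.smul_sum] at this
    rw [← this]
    exact Finset.sum_congr rfl fun i _ => by rw [mul_smul]
  have h2 := Fintype.linearIndependent_iff.1 hb _ h1
  rw [← hc]
  refine Finset.sum_eq_zero fun i _ => ?_
  have := (mul_eq_zero.1 (h2 i)).resolve_left hp
  rw [this, zero_smul]

lemma fw_of_fin {r : ℕ} (w : Fin 3 → Po κ r) (E : Type) [AddCommGroup E] [Module (Po κ r) E]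
    (h : ∃ T : Finset E, ∀ v : E, ∃ P : E → Po κ 3, v = ∑ t ∈ T, (aeval w (P t) : Po κ r) • t) :
    Fw w E := by
  obtain ⟨T, hT⟩ := h
  unfold Fw
  let _ : Module (Po κ 3) E := Module.compHom E (aeval w : Po κ 3 →ₐ[κ] Po κ r).toRingHom
  have : Module.Finite (Po κ 3) E := by
    refine ⟨⟨T, ?_⟩⟩
    rw [eq_top_iff]
    rintro v -
    obtain ⟨P, hP⟩ := hT v
    rw [hP]
    exact Submodule.sum_mem _ fun t ht =>
      Submodule.smul_mem (Submodule.span (Po κ 3) (T : Set E)) (P t) (Submodule.subset_span ht)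
  exact Module.rank_lt_aleph0 _ _

lemma emb_hom {n : ℕ} {p : Po κ n} {e : ℕ} (hp : p.IsHomogeneous e) :
    (emb κ n p).IsHomogeneous e := hp.rename_isHomogeneous

lemma aeval_hom {r : ℕ} {z : Fin 3 → Po κ r} (hz : ∀ i, (z i).IsHomogeneous 1) {f : Po κ 3}
    {e : ℕ} (hf : f.IsHomogeneous e) : (aeval z f : Po κ r).IsHomogeneous e := by
  have := hf.aeval (R := κ) z hz
  simpa using this

lemma wg_hom {n : ℕ} {D : XD κ n} {z : Fin 3 → Po κ n} {w : Fin 3 → Po κ (n + 1)} (hz : Zp D z)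
    (hw : WG D z w) (i : Fin 3) : (w i).IsHomogeneous 1 := by
  obtain ⟨⟨a, b, h0⟩, h1, h2, -⟩ := hw
  fin_cases i
  · change (w 0).IsHomogeneous 1
    rw [h0]
    refine IsHomogeneous.add ?_ ?_
    · have := (isHomogeneous_C (Fin (n + 1)) a).mul (emb_hom (hz.1 0))
      simpa using this
    · have := (isHomogeneous_C (Fin (n + 1)) b).mul (isHomogeneous_X κ (Fin.last n))
      simpa [Yv] using this
  · change (w 1).IsHomogeneous 1
    rw [h1]
    exact emb_hom (hz.1 1)
  · change (w 2).IsHomogeneous 1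
    rw [h2]
    exact emb_hom (hz.1 2)

/-- the contradiction by dimensions -/
lemma dims (hWFN : Stmt_WFN) (hRSC : Stmt_RSC) {n : ℕ} (D : XD κ n) (c : ℕ)
    (z : Fin 3 → Po κ n) (w : Fin 3 → Po κ (n + 1)) (hz : Zp D z) (hw : WG D z w)
    (P : GMod κ (n + 1)) (x : P.M) (d : ℤ) (hx : x ∈ P.gr d)
    (hsp : Submodule.span (Po κ (n + 1)) {x} = ⊤)
    (hI : ∀ f ∈ D.I', ∀ y : P.M, f • y = 0)
    (hF : ∀ y : P.M, (X (Fin.castSucc D.c₀) : Po κ (n + 1)) ^ c • y = 0)
    (f : Po κ 3) (hf : f ≠ 0) (hfx : (aeval w f : Po κ (n + 1)) • x = 0)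
    (hfree : ∀ q : Po κ 3, emb κ n (aeval z q) • x = 0 → q = 0) : False := by
  classical
  have : Module.Finite (Po κ (n + 1)) P.M := ⟨⟨{x}, by rw [Finset.coe_singleton]; exact hsp⟩⟩
  obtain ⟨N, e, hN1, hN2, hN3, -, hN5⟩ := hRSC κ (n + 1) w (wg_hom hz hw) P
  have hNf : Module.Finite (Po κ 3) N.M := hN5 (hWFN.1 κ n D z w hz hw P.M inferInstance hI ⟨c, hF⟩)
  have hkill : ∀ y : N.M, f • y = 0 := by
    intro y
    obtain ⟨y', rfl⟩ := e.surjective y
    have : y' ∈ Submodule.span (Po κ (n + 1)) {x} := by rw [hsp]; trivial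
    obtain ⟨g, rfl⟩ := Submodule.mem_span_singleton.1 this
    rw [← hN1, smul_comm, hfx, smul_zero, map_zero]
  have hrk : Module.finrank (Po κ 3) N.M = 0 := by
    rw [Module.finrank_eq_zero_iff_isTorsion]
    intro y
    exact ⟨⟨f, mem_nonZeroDivisors_of_ne_zero hf⟩, hkill y⟩
  obtain ⟨hfin, -, C, hC⟩ := a_gro κ 1 N hNf
  have hxg : ∀ (m : ℕ) (q : Po κ 3), q ∈ Agr κ 3 (m : ℤ) →
      e (emb κ n (aeval z q) • x) ∈ N.gr (d + m) := by
    intro m q hq
    rw [← hN3]
    have hq' : q.IsHomogeneous m := by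
      have : Agr κ 3 (m : ℤ) = homogeneousSubmodule (Fin 3) κ m := by
        unfold Agr
        rw [if_pos (by positivity), Int.toNat_natCast]
      rw [this] at hq
      exact hq
    exact FRE_.hom_smul P (emb_hom (aeval_hom hz.1 hq')) d x hx
  have key : ∀ m : ℕ, ((m + 2).choose 2 : ℕ) ≤ Module.finrank κ (N.gr (d + m)) := by
    intro m
    let φ : Agr κ 3 (m : ℤ) →ₗ[κ] N.gr (d + m) :=
      { toFun := fun q => ⟨e (emb κ n (aeval z (q : Po κ 3)) • x), hxg m q q.2⟩
        map_add' := fun q q' => by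
          apply Subtype.ext
          simp only [Submodule.coe_add, map_add, add_smul]
        map_smul' := fun a q => by
          apply Subtype.ext
          simp only [SetLike.val_smul, RingHom.id_apply, map_smul, smul_assoc]
          rw [hN2] }
    have hφ : Function.Injective φ := by
      rw [injective_iff_map_eq_zero]
      intro q hq
      have h1 : e (emb κ n (aeval z (q : Po κ 3)) • x) = 0 := congrArg Subtype.val hq
      have h2 : emb κ n (aeval z (q : Po κ 3)) • x = 0 := by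
        have := e.injective (h1.trans (map_zero e).symm)
        exact this
      exact Subtype.ext (hfree _ h2)
    have := hfin (d + m)
    have h1 := LinearMap.finrank_le_finrank_of_injective hφ
    have h2 := ((a_agr.2.2 κ 3 (by norm_num) (m : ℤ)).2)
    rw [h2, if_pos (by positivity), Int.toNat_natCast] at h1
    exact h1
  set a := d.natAbs with ha
  set m : ℕ := 2 * C * (a + 2) + a with hm
  have hdm : 0 ≤ d + m := by
    have : (m : ℤ) = 2 * C * (a + 2) + a := by rw [hm]; push_cast; ring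
    have h2 : -(a : ℤ) ≤ d := by omega
    have h3 : (0 : ℤ) ≤ 2 * C * (a + 2) := by positivity
    linarith
  obtain ⟨k, hk⟩ := Int.eq_ofNat_of_zero_le hdm
  have h1 := key m
  have h2 := hC k
  rw [hrk] at h2
  rw [hk] at h1
  have h3 : (Module.finrank κ (N.gr (k : ℤ)) : ℤ) ≤ C * ((k : ℤ) + 1) := by
    have := (abs_le.1 h2).2
    simpa using this
  have h4 : ((m + 2).choose 2 : ℤ) ≤ C * ((k : ℤ) + 1) := le_trans (by exact_mod_cast h1) h3
  have h5 : 2 * ((m + 2).choose 2 : ℤ) = (m + 2) * (m + 1) := by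
    have := Nat.triangle_succ (m + 1)
    have h6 : (m + 2).choose 2 * 2 = (m + 2) * (m + 1) := by
      rw [Nat.choose_two_right, Nat.div_mul_cancel]
      · simp
      · have := Nat.even_mul_pred_self (m + 2)
        exact this.two_dvd
    have h7 : 2 * (m + 2).choose 2 = (m + 2) * (m + 1) := by rw [mul_comm]; exact h6
    exact_mod_cast h7
  have h6 : (k : ℤ) ≤ m + a := by
    have h2 : d ≤ (a : ℤ) := by omega
    linarith
  have h7 : (m : ℤ) = 2 * C * (a + 2) + a := by rw [hm]; push_cast; ring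
  have h8 : (C : ℤ) * ((k : ℤ) + 1) ≤ C * (m + a + 1) := by
    have : (0 : ℤ) ≤ C := by positivity
    nlinarith
  have h9 : ((m : ℤ) + 2) * (m + 1) ≤ 2 * (C * (m + a + 1)) := by linarith
  have h10 : (0 : ℤ) ≤ C := by positivity
  have h11 : (0 : ℤ) ≤ a := by positivity
  have h12 : (0 : ℤ) ≤ m := by positivity
  have h13 : 2 * (C : ℤ) * (a + 2) * (m + 1) ≤ (m + 2) * (m + 1) - 2 * (m + 1) := by
    have : 2 * (C : ℤ) * (a + 2) ≤ m := by rw [h7]; linarith
    nlinarith
  have h14 : (C : ℤ) * (m + a + 1) ≤ C * ((a + 2) * (m + 1)) := by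
    apply mul_le_mul_of_nonneg_left _ h10
    nlinarith
  nlinarith

/-- the torsion submodule is homogeneous -/
lemma torT (hWFN : Stmt_WFN) (hRSC : Stmt_RSC) {n : ℕ} (D : XD κ n) (c : ℕ)
    (z : Fin 3 → Po κ n) (hz : Zp D z) (M : GMod κ n) (hMf : Module.Finite (Po κ n) M.M)
    (hMk : Kil M (aF D c)) (E : Type) [AddCommGroup E] [Module (Po κ (n + 1)) E] (ι : M.M →+ E)
    (hE : Eta D z M E ι) :
    ∃ T : Submodule (Po κ n) M.M, (∀ m, m ∈ T ↔ ι m = 0) ∧ IsHom M T := by
  classical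
  obtain ⟨N, e, hN1, -, -, -, hN5⟩ := hRSC κ n z hz.1 M
  have hNf : Module.Finite (Po κ 3) N.M := hN5 (hWFN.2 κ n D c z hz M.M hMf hMk)
  obtain ⟨f, d, hf, hfd, hkill⟩ := tor_ann N hNf
  let T : Submodule (Po κ n) M.M :=
    { carrier := {m | ι m = 0}
      add_mem' := fun {a b} ha hb => by
        have ha' : ι a = 0 := ha
        have hb' : ι b = 0 := hb
        change ι (a + b) = 0
        rw [map_add, ha', hb', add_zero]
      zero_mem' := map_zero ι
      smul_mem' := fun p m hm => by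
        have hm' : ι m = 0 := hm
        change ι (p • m) = 0
        rw [hE.smul, hm', smul_zero] }
  refine ⟨T, fun m => Iff.rfl, ?_⟩
  obtain ⟨-, -, -, -, -, -, -, -, h9, -⟩ := a_cmp κ n M
  rw [h9]
  intro m hm k
  have hm' : ι m = 0 := hm
  obtain ⟨p, hp, hpm⟩ := hE.ker m hm'
  have h1 : f • e m = 0 := hkill _ ⟨p, hp, by rw [← hN1, hpm, map_zero]⟩
  rw [← hN1] at h1
  have h2 : (aeval z f : Po κ n) • m = 0 := e.injective (h1.trans (map_zero e).symm)
  have h3 : (aeval z f : Po κ n) • M.cmp k m = 0 := by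
    rw [← cmp_hom M _ d (aeval_hom hz.1 hfd), h2, cmp_zero']
  change ι (M.cmp k m) = 0
  apply hE.inj f hf
  rw [← hE.smul, h3, map_zero]

end PTF_

open PTF_ in
theorem ptf_proof (hWFN : Stmt_WFN) (hRSC : Stmt_RSC) (hYMD : Stmt_YMD) (hYLF : Stmt_YLF)
    (hRWL : Stmt_RWL) : Stmt_PTF := by
  classical
  intro κ _ n D c z v w hc hz hg hw M hMf hMk E _ _ ι hE
  obtain ⟨T, hT, hTh⟩ := torT hWFN hRSC D c z hz M hMf hMk E ι hE
  obtain ⟨Q, q, hqs, hqk, hqg⟩ := a_quo κ n M T hTh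
  have hcomp : ∀ m m' : M.M, q.f m = q.f m' → ι m = ι m' := by
    intro m m' h
    have h1 : m - m' ∈ LinearMap.ker q.f := by rw [LinearMap.mem_ker, map_sub, h, sub_self]
    rw [hqk] at h1
    have h2 := (hT _).1 h1
    rw [map_sub] at h2
    exact sub_eq_zero.1 h2
  let ι1 : Q.M →+ E := AddMonoidHom.mk' (fun y => ι (Function.surjInv hqs y)) (by
    intro a b
    rw [← map_add]
    apply hcomp
    rw [Function.surjInv_eq hqs, map_add, Function.surjInv_eq hqs, Function.surjInv_eq hqs])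
  have hι1 : ∀ m, ι1 (q.f m) = ι m := fun m => hcomp _ _ (Function.surjInv_eq hqs _)
  have hE1 : Eta D z Q E ι1 :=
    { smul := by
        intro p y
        obtain ⟨m, rfl⟩ := hqs y
        rw [← map_smul, hι1, hι1, hE.smul]
      ker := by
        intro y hy
        obtain ⟨m, rfl⟩ := hqs y
        rw [hι1] at hy
        refine ⟨1, one_ne_zero, ?_⟩
        have h1 : m ∈ T := (hT m).2 hy
        rw [← hqk] at h1
        rw [LinearMap.mem_ker.1 h1, smul_zero]
      inj := hE.inj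
      surj := hE.surj
      gen := by
        intro u
        obtain ⟨p, hp, m, h⟩ := hE.gen u
        exact ⟨p, hp, q.f m, by rw [hι1]; exact h⟩
      kill := hE.kill }
  have hinj1 : Function.Injective ι1 := by
    rw [injective_iff_map_eq_zero]
    intro y hy
    obtain ⟨m, rfl⟩ := hqs y
    rw [hι1] at hy
    have h1 : m ∈ T := (hT m).2 hy
    rw [← hqk] at h1
    exact h1
  have hQf : Module.Finite (Po κ n) Q.M := Module.Finite.of_surjective q.f hqs
  have hQk : Kil Q (aF D c) := by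
    intro p hp y
    obtain ⟨m, rfl⟩ := hqs y
    rw [← map_smul, hMk p hp m, map_zero]
  obtain ⟨hv, g', r, hr, hgr⟩ := hg
  have hginj : ∀ y : Q.M, lin v • y = 0 → y = 0 := by
    intro y hy
    have h1 := hQk _ hgr y
    rw [sub_smul, mul_comm, mul_smul, hy, smul_zero, zero_sub, neg_eq_zero] at h1
    have h2 : emb κ n (aeval z r) • ι1 y = 0 := by rw [← hE1.smul, h1, map_zero]
    have h3 := hE1.inj r hr _ h2
    exact hinj1 (h3.trans (map_zero ι1).symm)
  obtain ⟨M', j, hY⟩ := hYMD κ n D v hv Q (fun p hp y => hQk p (Ideal.mem_sup_left hp) y) hginj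
  obtain ⟨j', hj1, hj2, hj3⟩ := hYLF κ n D c z v ⟨hv, g', r, hr, hgr⟩ Q hQk M' j hY E ι1 hE1
  have hj2 := hj2 hinj1
  have hM'f : Module.Finite (Po κ (n + 1)) M'.M := by
    obtain ⟨S, hS⟩ := hQf.1
    refine ⟨⟨S.image j, ?_⟩⟩
    rw [eq_top_iff, ← hY.gen, Submodule.span_le]
    rintro _ ⟨y, rfl⟩
    have hy : y ∈ Submodule.span (Po κ n) (S : Set Q.M) := by rw [hS]; trivial
    refine Submodule.span_induction (p := fun y _ => j y ∈
      Submodule.span (Po κ (n + 1)) ((S.image j : Finset M'.M) : Set M'.M)) ?_ ?_ ?_ ?_ hy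
    · intro s hs
      exact Submodule.subset_span (by rw [Finset.coe_image]; exact ⟨s, hs, rfl⟩)
    · rw [map_zero]; exact Submodule.zero_mem _
    · intro a b _ _ ha hb
      rw [map_add]; exact Submodule.add_mem _ ha hb
    · intro p a _ ha
      rw [hY.smul]; exact Submodule.smul_mem _ _ ha
  have hM'F : ∀ x : M'.M, (X (Fin.castSucc D.c₀) : Po κ (n + 1)) ^ c • x = 0 := by
    intro x
    have hx : x ∈ Submodule.span (Po κ (n + 1)) (Set.range j) := by rw [hY.gen]; trivial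
    refine Submodule.span_induction (p := fun x _ =>
      (X (Fin.castSucc D.c₀) : Po κ (n + 1)) ^ c • x = 0) ?_ ?_ ?_ ?_ hx
    · rintro _ ⟨y, rfl⟩
      have h1 : (X (Fin.castSucc D.c₀) : Po κ (n + 1)) ^ c = emb κ n (X D.c₀ ^ c) := by
        rw [map_pow]; simp [emb]
      rw [h1, ← hY.smul, hQk _ (Ideal.mem_sup_right (Ideal.subset_span rfl)) y, map_zero]
    · rw [smul_zero]
    · intro a b _ _ ha hb
      rw [smul_add, ha, hb, add_zero]
    · intro p a _ ha
      rw [smul_comm, ha, smul_zero]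
  have hfin := hWFN.1 κ n D z w hz hw M'.M hM'f hY.kill ⟨c, hM'F⟩
  have hFw' : Fw w M'.M := fw_of_fin w M'.M hfin
  have hFw : Fw w E := by
    refine (hRWL κ (n + 1) w {s | ∃ p : Po κ 3, p ≠ 0 ∧ s = emb κ n (aeval z p)} ?_ M'.M E j'
      ?_ ?_ hFw').1
    · rintro _ ⟨p, hp, rfl⟩ _ ⟨p', hp', rfl⟩
      exact ⟨p * p', mul_ne_zero hp hp', by rw [map_mul, map_mul]⟩
    · rintro _ ⟨p, hp, rfl⟩ u hu
      exact hE.inj p hp u hu
    · intro u
      obtain ⟨p, hp, h⟩ := hj3 u
      exact ⟨_, ⟨p, hp, rfl⟩, h⟩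
  refine ⟨hFw, ?_, ?_⟩
  · have hFz : Fw z M.M := fw_of_fin z M.M (hWFN.2 κ n D c z hz M.M hMf hMk)
    let I1 : Module (Po κ n) E := Module.compHom E (emb κ n).toRingHom
    let ιl : M.M →ₗ[Po κ n] E :=
      { toFun := ι
        map_add' := map_add ι
        map_smul' := fun p m => hE.smul p m }
    have h1 : Fw z E := by
      refine (hRWL κ n z {s | ∃ p : Po κ 3, p ≠ 0 ∧ s = aeval z p} ?_ M.M E ιl ?_ ?_ hFz).1
      · rintro _ ⟨p, hp, rfl⟩ _ ⟨p', hp', rfl⟩
        exact ⟨p * p', mul_ne_zero hp hp', by rw [map_mul]⟩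
      · rintro _ ⟨p, hp, rfl⟩ u hu
        exact hE.inj p hp u hu
      · intro u
        obtain ⟨p, hp, m, h⟩ := hE.gen u
        exact ⟨_, ⟨p, hp, rfl⟩, ⟨m, h.symm⟩⟩
    have h2 : (aeval (fun i => emb κ n (z i)) : Po κ 3 →ₐ[κ] Po κ (n + 1)) =
        (emb κ n).comp (aeval z) := by
      apply MvPolynomial.algHom_ext
      intro i
      simp
    unfold Fw
    rw [h2]
    exact h1
  · intro p hp u hu
    by_contra hu0
    obtain ⟨p', hp', ⟨x, hx⟩⟩ := hj3 u
    have hx0 : x ≠ 0 := by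
      rintro rfl
      rw [map_zero] at hx
      exact hu0 (hE.inj p' hp' u hx.symm)
    have hpx : (aeval w p : Po κ (n + 1)) • x = 0 := by
      apply hj2
      rw [map_smul, hx, smul_comm, hu, smul_zero, map_zero]
    obtain ⟨N, e, hN1, -, -, -, hN5⟩ := hRSC κ (n + 1) w (wg_hom hz hw) M'
    obtain ⟨f, d, hf, hfd, hkill⟩ := tor_ann N (hN5 hfin)
    have h1 : f • e x = 0 := hkill _ ⟨p, hp, by rw [← hN1, hpx, map_zero]⟩
    rw [← hN1] at h1
    have h2 : (aeval w f : Po κ (n + 1)) • x = 0 := e.injective (h1.trans (map_zero e).symm)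
    obtain ⟨c1, -, -, -, -, -, -, c8, -, -⟩ := a_cmp κ (n + 1) M'
    have h3 : ∃ k, M'.cmp k x ≠ 0 := by
      by_contra h
      push Not at h
      exact hx0 (c8 x h)
    obtain ⟨k, hk⟩ := h3
    set x0 := M'.cmp k x with hx0d
    have hx0g : x0 ∈ M'.gr k := c1 k x
    have h4 : (aeval w f : Po κ (n + 1)) • x0 = 0 := by
      rw [hx0d, ← cmp_hom M' _ d (aeval_hom (wg_hom hz hw) hfd), h2, cmp_zero']
    have hPh : IsHom M' (Submodule.span (Po κ (n + 1)) {x0}) :=
      (a_deg κ (n + 1) M' M' ⟨LinearMap.id, fun _ _ h => h⟩).2.2.2.2.2.2.2 {x0}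
        (fun y hy => ⟨k, by rw [Set.mem_singleton_iff.1 hy]; exact hx0g⟩)
    obtain ⟨P, fP, hPi, hPr, hPg⟩ := a_sub κ (n + 1) M' _ hPh
    have hx0m : x0 ∈ LinearMap.range fP.f := by
      rw [hPr]; exact Submodule.mem_span_singleton_self x0
    obtain ⟨x', hx'⟩ := hx0m
    refine dims hWFN hRSC D c z w hz hw P x' k (hPg k x' (by rw [hx']; exact hx0g)) ?_ ?_ ?_ f hf
      ?_ ?_
    · rw [eq_top_iff]
      rintro y -
      have : fP.f y ∈ Submodule.span (Po κ (n + 1)) {x0} := by rw [← hPr]; exact ⟨y, rfl⟩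
      obtain ⟨g, hg⟩ := Submodule.mem_span_singleton.1 this
      rw [Submodule.mem_span_singleton]
      exact ⟨g, hPi (by rw [map_smul, hx', hg])⟩
    · intro h hh y
      apply hPi
      rw [map_smul, hY.kill h hh, map_zero]
    · intro y
      apply hPi
      rw [map_smul, hM'F, map_zero]
    · apply hPi
      rw [map_smul, hx', h4, map_zero]
    · intro s hs
      by_contra hs0
      have h5 : emb κ n (aeval z s) • x0 = 0 := by
        rw [← hx', ← map_smul, hs, map_zero]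
      have h6 : emb κ n (aeval z s) • j' x0 = 0 := by rw [← map_smul, h5, map_zero]
      have h7 := hE.inj s hs0 _ h6
      exact hk (hj2 (h7.trans (map_zero j').symm))

end

end Pool.Agent.RST
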