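import Pool.Agent.RST.AllPart
import Pool.Agent.RST.PTF
import Pool.Agent.RST.GAM

/-!
# RST: the full counts, without hypotheses
-/

set_option autoImplicit false

namespace Pool.Agent.RST

theorem a_ptf : Stmt_PTF := ptf_proof a_wfn a_rsc a_ymd a_ylf a_rwl
theorem a_gam : Stmt_GAM := gam_proof a_wfn a_rsc a_ymd a_ylf a_rwl a_ptf
theorem a_lwi : Stmt_LWI := lwi_proof a_etx a_etf a_rwa a_lws a_ptf
theorem a_eee : Stmt_EEE :=
  eee_proof a_gen a_wzr a_etx a_etf a_rwa a_ptf a_gam a_lwi a_zrk a_upe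

/-- **The full counts on the normal model.** -/
theorem a_rst : Stmt_RST :=
  rst_proof a_cut a_eee a_cst a_qmx a_msq a_seq a_qqq a_sss a_gnb a_wfs a_wmn a_tel

end Pool.Agent.RST
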