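import Pool.Agent.GML.Stmts

/-!
# RST: sections with poles in a tube, restricted to an exact surface (definitions)

Part 1: graded modules over the special fibre.  `Po κ n = κ[X_0, …, X_(n-1)]` is the ring of the
coordinates, `Po κ (n + 1)` has one more variable `Y`, a section of `L` with poles along the
surface at the centre of the tube.
Part 2: the normal graded domain `B` over the complete discrete valuation ring `V`.
-/

namespace Pool.Agent.RST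

open MvPolynomial Pool.Agent.GML

noncomputable section

/-! ## part 1: the special fibre -/

section one

variable {κ : Type} [Field κ] {n : ℕ}

/-- the inclusion `κ[X] → κ[X, Y]` -/
def emb (κ : Type) [Field κ] (n : ℕ) : Po κ n →ₐ[κ] Po κ (n + 1) := rename Fin.castSucc

/-- the variable `Y` -/
def Yv (κ : Type) [Field κ] (n : ℕ) : Po κ (n + 1) := X (Fin.last n)

/-- homogeneous ideals -/
def HomI {r : ℕ} (I : Ideal (Po κ r)) : Prop := ∀ p ∈ I, ∀ d : ℕ, homogeneousComponent d p ∈ I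

/-- dimension of the component of degree `m` of `κ[X] / I` -/
def hf {r : ℕ} (I : Ideal (Po κ r)) (m : ℕ) : ℕ :=
  Module.finrank κ ((homogeneousSubmodule (Fin r) κ m).map (Ideal.Quotient.mkₐ κ I).toLinearMap)

/-- the ideal generated by the variables `X c`, `c ∈ A` -/
def VI (κ : Type) [Field κ] {n : ℕ} (A : Set (Fin n)) : Ideal (Po κ n) :=
  Ideal.span ((fun c => (X c : Po κ n)) '' A)

/-- **The special fibre.**  `I'`: the prime ideal of `R' = R[y]` in `κ[X, Y]`, `R` the ring of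
`X`; `J'`: the prime ideal of `R_S[y]`, `R_S` the ring of the surface `S` (on which `X c = 0` for
`c ∈ W`); `A`: the variables which vanish on the surface `P` at the centre of the tube. -/
structure XD (κ : Type) [Field κ] (n : ℕ) where
  I' : Ideal (Po κ (n + 1))
  J' : Ideal (Po κ (n + 1))
  A : Set (Fin n)
  W : Set (Fin n)
  c₀ : Fin n
  e' : ℕ
  s₁ : ℕ
  s₂ : ℕ
  prime : I'.IsPrime
  hom : HomI I'
  primeJ : J'.IsPrime
  homJ : HomI J'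
  le : I' ≤ J'
  /-- `y` times a product of `N` elements of the ideal of `P` is in `R` -/
  yA : ∃ N : ℕ, ∀ f ∈ VI κ A ^ N, ∃ a : Po κ n, Yv κ n * emb κ n f - emb κ n a ∈ I'
  /-- only one point of `Proj R'` lies over `P` -/
  xA : ∀ c, ∃ N : ℕ, (X (Fin.castSucc c) : Po κ (n + 1)) ^ N ∈
    Ideal.span ((fun c => (X (Fin.castSucc c) : Po κ (n + 1))) '' A) ⊔ I'
  c₀W : c₀ ∈ W
  c₀I : (X (Fin.castSucc c₀) : Po κ (n + 1)) ∉ I'
  /-- `X c₀` does not vanish on `P` -/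
  small : ∃ C : ℕ, ∀ m : ℕ,
    hf (I'.comap (emb κ n) ⊔ VI κ A ⊔ Ideal.span {(X c₀ : Po κ n)}) m ≤ C * (m + 1)
  big : ∀ C : ℕ, ∃ m : ℕ, C * (m + 1) ^ 2 < hf (I'.comap (emb κ n)) m
  par : ∃ z : Fin 3 → Po κ n, (∀ i, (z i).IsHomogeneous 1) ∧ ∀ c, ∃ N : ℕ,
    (X c : Po κ n) ^ N ∈
      I'.comap (emb κ n) ⊔ Ideal.span {(X c₀ : Po κ n)} ⊔ Ideal.span (Set.range z)
  JX : J'.comap (emb κ n) = I'.comap (emb κ n) ⊔ VI κ W
  JA : ∃ c ∈ A, (X (Fin.castSucc c) : Po κ (n + 1)) ∉ J'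
  s₂pos : 0 < s₂
  gI : ∃ C : ℕ, ∀ m : ℕ, (hf I' m : ℚ) ≤ e' * (m : ℚ) ^ 3 / 6 + C * ((m : ℚ) + 1) ^ 2
  gJ' : ∃ C : ℕ, ∀ m : ℕ, s₁ * (m : ℚ) ^ 2 / 2 ≤ hf J' m + C * ((m : ℚ) + 1)
  gJ : ∃ C : ℕ, ∀ m : ℕ, (hf (J'.comap (emb κ n)) m : ℚ) ≤ s₂ * (m : ℚ) ^ 2 / 2 +
    C * ((m : ℚ) + 1)

/-- the ideal of `R` in `κ[X]` -/
abbrev XD.IX (D : XD κ n) : Ideal (Po κ n) := D.I'.comap (emb κ n)

/-- the ideal `(X c₀ ^ c)` of `R`, in `κ[X]` -/
def aF (D : XD κ n) (c : ℕ) : Ideal (Po κ n) := D.IX ⊔ Ideal.span {(X D.c₀ : Po κ n) ^ c}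

/-- `z` are three linear forms, parameters for `R / (X c₀)` -/
def Zp (D : XD κ n) (z : Fin 3 → Po κ n) : Prop :=
  (∀ i, (z i).IsHomogeneous 1) ∧ ∀ c, ∃ N : ℕ, (X c : Po κ n) ^ N ∈
    D.IX ⊔ Ideal.span {(X D.c₀ : Po κ n)} ⊔ Ideal.span (Set.range z)

/-- the ideal `𝔞` kills the module -/
def Kil {r : ℕ} (M : GMod κ r) (𝔞 : Ideal (Po κ r)) : Prop := ∀ p ∈ 𝔞, ∀ m : M.M, p • m = 0

/-- torsion free over `κ[z]` -/
def ZTf (z : Fin 3 → Po κ n) (M : GMod κ n) : Prop :=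
  ∀ p : Po κ 3, p ≠ 0 → ∀ m : M.M, (aeval z p : Po κ n) • m = 0 → m = 0

/-- torsion over `κ[z]` -/
def ZTor (z : Fin 3 → Po κ n) (M : GMod κ n) : Prop :=
  ∀ m : M.M, ∃ p : Po κ 3, p ≠ 0 ∧ (aeval z p : Po κ n) • m = 0

/-- the linear form `∑ v c X c` -/
def lin (v : Fin n → κ) : Po κ n := ∑ c, C (v c) * X c

/-- `g` is a linear form which vanishes on `P`, invertible modulo `(X c₀ ^ c)` and up to
`κ[z]` -/
def GG (D : XD κ n) (c : ℕ) (z : Fin 3 → Po κ n) (v : Fin n → κ) : Prop :=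
  (∀ i, i ∉ D.A → v i = 0) ∧ ∃ (g' : Po κ n) (r : Po κ 3), r ≠ 0 ∧
    lin v * g' - aeval z r ∈ aF D c

/-- `w = (w_0, z_1, z_2)`, parameters for `R' / (X c₀)`, `w_0 = a z_0 + b Y` -/
def WG (D : XD κ n) (z : Fin 3 → Po κ n) (w : Fin 3 → Po κ (n + 1)) : Prop :=
  (∃ a b : κ, w 0 = C a * emb κ n (z 0) + C b * Yv κ n) ∧ w 1 = emb κ n (z 1) ∧
    w 2 = emb κ n (z 2) ∧
    ∀ i : Fin (n + 1), ∃ N : ℕ, (X i : Po κ (n + 1)) ^ N ∈
      D.I' ⊔ Ideal.span {(X (Fin.castSucc D.c₀) : Po κ (n + 1))} ⊔ Ideal.span (Set.range w)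

/-- `E` is the localisation of `M` at the nonzero polynomials in `z`, with the action of `Y` -/
structure Eta (D : XD κ n) (z : Fin 3 → Po κ n) (M : GMod κ n) (E : Type) [AddCommGroup E]
    [Module (Po κ (n + 1)) E] (ι : M.M →+ E) : Prop where
  smul : ∀ (p : Po κ n) (m : M.M), ι (p • m) = emb κ n p • ι m
  ker : ∀ m : M.M, ι m = 0 → ∃ p : Po κ 3, p ≠ 0 ∧ (aeval z p : Po κ n) • m = 0
  inj : ∀ p : Po κ 3, p ≠ 0 → ∀ v : E, emb κ n (aeval z p) • v = 0 → v = 0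
  surj : ∀ p : Po κ 3, p ≠ 0 → ∀ v : E, ∃ v' : E, emb κ n (aeval z p) • v' = v
  gen : ∀ v : E, ∃ p : Po κ 3, p ≠ 0 ∧ ∃ m : M.M, emb κ n (aeval z p) • v = ι m
  kill : ∀ f ∈ D.I', ∀ v : E, f • v = 0

/-- the rank of a module over `κ[w_0, w_1, w_2]` -/
def rkw {r : ℕ} (w : Fin 3 → Po κ r) (E : Type) [AddCommGroup E] [Module (Po κ r) E] : ℕ :=
  letI : Module (Po κ 3) E := Module.compHom E (aeval w : Po κ 3 →ₐ[κ] Po κ r).toRingHom
  Module.finrank (Po κ 3) E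

/-- finite rank over `κ[w_0, w_1, w_2]` -/
def Fw {r : ℕ} (w : Fin 3 → Po κ r) (E : Type) [AddCommGroup E] [Module (Po κ r) E] : Prop :=
  letI : Module (Po κ 3) E := Module.compHom E (aeval w : Po κ 3 →ₐ[κ] Po κ r).toRingHom
  Module.rank (Po κ 3) E < Cardinal.aleph0

/-- sections of degree `m` of `M` outside of `P`: families `f c = X_c ^ N s`, `c ∈ A` -/
def Gam (A : Set (Fin n)) (M : GMod κ n) (N m : ℕ) : Submodule κ (Fin n → M.M) where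
  carrier := {f | (∀ c, c ∉ A → f c = 0) ∧ (∀ c ∈ A, f c ∈ M.gr ((m : ℤ) + N)) ∧
    ∀ c ∈ A, ∀ c' ∈ A, (X c' : Po κ n) ^ N • f c = (X c : Po κ n) ^ N • f c'}
  add_mem' := by
    rintro f g ⟨h1, h2, h3⟩ ⟨h1', h2', h3'⟩
    refine ⟨fun c hc => by rw [Pi.add_apply, h1 c hc, h1' c hc, add_zero],
      fun c hc => Submodule.add_mem _ (h2 c hc) (h2' c hc), fun c hc c' hc' => ?_⟩
    rw [Pi.add_apply, Pi.add_apply, smul_add, smul_add, h3 c hc c' hc', h3' c hc c' hc']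
  zero_mem' := ⟨fun _ _ => rfl, fun _ _ => Submodule.zero_mem _, fun _ _ _ _ => by simp⟩
  smul_mem' := by
    rintro v f ⟨h1, h2, h3⟩
    refine ⟨fun c hc => by rw [Pi.smul_apply, h1 c hc, smul_zero],
      fun c hc => Submodule.smul_mem _ _ (h2 c hc), fun c hc c' hc' => ?_⟩
    rw [Pi.smul_apply, Pi.smul_apply, smul_comm _ v, smul_comm _ v, h3 c hc c' hc']

/-- `M` (killed by the ideal of `R`) is torsion free over `R` -/
def RTf (D : XD κ n) (M : GMod κ n) : Prop :=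
  ∀ p : Po κ n, p ∉ D.IX → ∀ m : M.M, p • m = 0 → m = 0

/-- `M` has rank `≤ r` over `R`: `r` homogeneous elements generate it up to torsion -/
def RRk (D : XD κ n) (M : GMod κ n) (r : ℕ) : Prop :=
  ∃ (b : Fin r → M.M) (d : Fin r → ℤ) (f : Po κ n) (k : ℕ), (∀ i, b i ∈ M.gr (d i)) ∧
    f ∉ D.IX ∧ f.IsHomogeneous k ∧ ∀ m : M.M, f • m ∈ Submodule.span (Po κ n) (Set.range b)

/-- `M' = R' M`, inside the localisation of `M` at the linear form `lin v` -/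
structure Ymd (D : XD κ n) (v : Fin n → κ) (M : GMod κ n) (M' : GMod κ (n + 1))
    (j : M.M →+ M'.M) : Prop where
  inj : Function.Injective j
  smul : ∀ (p : Po κ n) (m : M.M), j (p • m) = emb κ n p • j m
  deg : ∀ (k : ℤ) (m : M.M), m ∈ M.gr k → j m ∈ M'.gr k
  gen : Submodule.span (Po κ (n + 1)) (Set.range j) = ⊤
  kill : ∀ f ∈ D.I', ∀ x : M'.M, f • x = 0
  back : ∀ (k : ℤ) (x : M'.M), x ∈ M'.gr k → ∃ (N : ℕ) (m : M.M), m ∈ M.gr (k + N) ∧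
    emb κ n (lin v) ^ N • x = j m
  ginj : ∀ x : M'.M, emb κ n (lin v) • x = 0 → x = 0

end one

/-! ## part 2: over the discrete valuation ring -/

section two

/-- homogeneous fractions `b` of degree `m` of the graded domain `B` with `J b ⊆ P` for some ideal
`J` of the family `JJ`; `JJ` is closed under products; `L` is the field of fractions of `B` -/
def WP {K B L : Type} [Field K] [CommRing B] [Algebra K B] [Field L] [Algebra B L] [Algebra K L]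
    [IsScalarTower K B L] (ℬ : ℕ → Submodule K B)
    (JJ : Set (Ideal B)) (hne : JJ.Nonempty) (hmul : ∀ J ∈ JJ, ∀ J' ∈ JJ, J * J' ∈ JJ)
    (P : Ideal B) (m : ℕ) : Submodule K L where
  carrier := {b | ∃ J ∈ JJ, ∀ (i : ℕ), ∀ j ∈ J, j ∈ ℬ i → ∃ b' ∈ P, b' ∈ ℬ (i + m) ∧
    algebraMap B L j * b = algebraMap B L b'}
  add_mem' := by
    rintro b c ⟨J, hJ, h⟩ ⟨J', hJ', h'⟩
    refine ⟨J * J', hmul J hJ J' hJ', fun i j hj hji => ?_⟩
    have hj2 : j ∈ J ⊓ J' := Ideal.mul_le_inf hj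
    obtain ⟨b', hb', hbd, hb⟩ := h i j hj2.1 hji
    obtain ⟨c', hc', hcd, hc⟩ := h' i j hj2.2 hji
    refine ⟨b' + c', P.add_mem hb' hc', Submodule.add_mem _ hbd hcd, ?_⟩
    rw [mul_add, hb, hc, map_add]
  zero_mem' := by
    obtain ⟨J, hJ⟩ := hne
    refine ⟨J, hJ, fun i j _ _ => ⟨0, P.zero_mem, Submodule.zero_mem _, ?_⟩⟩
    rw [mul_zero, map_zero]
  smul_mem' := by
    rintro v b ⟨J, hJ, h⟩
    refine ⟨J, hJ, fun i j hj hji => ?_⟩
    obtain ⟨b', hb', hbd, hb⟩ := h i j hj hji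
    refine ⟨v • b', ?_, Submodule.smul_mem _ _ hbd, ?_⟩
    · rw [Algebra.smul_def]
      exact P.mul_mem_left _ hb'
    · rw [Algebra.smul_def, Algebra.smul_def, map_mul, ← IsScalarTower.algebraMap_apply K B L,
        mul_left_comm, hb]

/-- **The normal model.**  `B` is a normal graded domain over the field of fractions `K` of the
complete discrete valuation ring `V`, `S` the lattice of integral elements, `S / ϖ S` a torsion
free module of rank `r` over the ring `R` of the special fibre.  `JJ` is the family of ideals of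
the compact surfaces of the tube of `P`, and `q` is the prime ideal of the exact surface. -/
structure Ctx where
  V : Type
  [crV : CommRing V]
  [domV : IsDomain V]
  [dvrV : IsDiscreteValuationRing V]
  [cplV : IsAdicComplete (IsLocalRing.maximalIdeal V) V]
  κ : Type
  [fκ : Field κ]
  [iκ : Infinite κ]
  K : Type
  [fK : Field K]
  [aVK : Algebra V K]
  [frK : IsFractionRing V K]
  σ : V →+* κ
  ϖ : V
  irr : Irreducible ϖ
  surjσ : Function.Surjective σ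
  kerσ : RingHom.ker σ = Ideal.span {ϖ}
  B : Type
  [crB : CommRing B]
  [domB : IsDomain B]
  [icB : IsIntegrallyClosed B]
  [aKB : Algebra K B]
  [aVB : Algebra V B]
  [towB : IsScalarTower V K B]
  L : Type
  [fL : Field L]
  [aBL : Algebra B L]
  [frL : IsFractionRing B L]
  [aKL : Algebra K L]
  [towL : IsScalarTower K B L]
  ℬ : ℕ → Submodule K B
  [grB : GradedAlgebra ℬ]
  n : ℕ
  x : Fin n → B
  S : Subalgebra V B
  D : XD κ n
  r : ℕ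
  x_mem : ∀ c, x c ∈ S
  x_deg : ∀ c, x c ∈ ℬ 1
  S_hom : ∀ y ∈ S, ∀ m, GradedRing.proj ℬ m y ∈ S
  S_lat : ∀ b : B, ∃ k : ℕ, ϖ ^ k • b ∈ S
  S_fin : ∃ T : Finset B, (∀ t ∈ T, t ∈ S) ∧ ∀ s ∈ S, ∃ G : B → Po V n,
    s = ∑ t ∈ T, aeval x (G t) * t
  S_one : ∀ s ∈ S, ϖ • s ≠ 1
  red0 : ∀ G : Po V n, MvPolynomial.map σ G ∈ D.IX → ∃ s ∈ S, aeval x G = ϖ • s
  red1 : ∀ G : Po V n, MvPolynomial.map σ G ∉ D.IX → ∀ s ∈ S,
    (∃ s' ∈ S, aeval x G * s = ϖ • s') → ∃ s' ∈ S, s = ϖ • s'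
  rank : ∃ (b : Fin r → B) (d : Fin r → ℕ) (f : Po V n) (k : ℕ),
    (∀ i, b i ∈ S ∧ b i ∈ ℬ (d i)) ∧ f.IsHomogeneous k ∧ MvPolynomial.map σ f ∉ D.IX ∧
    ∀ s ∈ S, ∃ G : Fin r → Po V n, ∃ s' ∈ S, aeval x f * s = ∑ i, aeval x (G i) * b i + ϖ • s'
  JJ : Set (Ideal B)
  JJ_ne : JJ.Nonempty
  JJ_mul : ∀ J ∈ JJ, ∀ J' ∈ JJ, J * J' ∈ JJ
  JJ_hom : ∀ J ∈ JJ, J.IsHomogeneous ℬ
  JJ_pow : ∀ J ∈ JJ, ∀ v : Fin n → V, (∀ c, c ∉ D.A → v c = 0) → ∃ (m : ℕ) (G : Po V n),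
    0 < m ∧ G.IsHomogeneous m ∧
      MvPolynomial.map σ G = (∑ c, C (σ (v c)) * X c) ^ m ∧ aeval x G ∈ J
  q : Ideal B
  q_prime : q.IsPrime
  q_hom : q.IsHomogeneous ℬ
  q_exact : ∀ c ∈ D.W, ∃ (m : ℕ) (G : Po V n), 0 < m ∧ G.IsHomogeneous m ∧
    MvPolynomial.map σ G = X c ^ m ∧ aeval x G ∈ q
  δ : ℕ
  q_grow : ∃ C : ℕ, ∀ m : ℕ, δ * (m : ℚ) ^ 2 / 2 ≤
    Module.finrank K ((ℬ m).map (Ideal.Quotient.mkₐ K q).toLinearMap) + C * ((m : ℚ) + 1)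
  W_fin : ∀ m, Module.Finite K (WP (L := L) ℬ JJ JJ_ne JJ_mul ⊤ m)
  W_grow : ∃ C : ℕ, ∀ m : ℕ,
    |(Module.finrank K (WP (L := L) ℬ JJ JJ_ne JJ_mul ⊤ m) : ℚ) - r * D.e' * (m : ℚ) ^ 3 / 6| ≤
      C * ((m : ℚ) + 1) ^ 2

attribute [instance] Ctx.crV Ctx.domV Ctx.dvrV Ctx.cplV Ctx.fκ Ctx.iκ Ctx.fK Ctx.aVK Ctx.frK
  Ctx.crB Ctx.domB Ctx.icB Ctx.aKB Ctx.aVB Ctx.towB Ctx.fL Ctx.aBL Ctx.frL Ctx.aKL Ctx.towL
  Ctx.grB

variable (X : Ctx)

/-- the space of fractions with poles in the tube, with values in the ideal `P` -/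
abbrev Ctx.WP' (P : Ideal X.B) (m : ℕ) : Submodule X.K X.L :=
  WP X.ℬ X.JJ X.JJ_ne X.JJ_mul P m

/-- The choice of the element `F = x(G)` of `q`, a lift of `X c₀ ^ c`, and of parameters `z`. -/
structure Cut (X : Ctx) where
  c : ℕ
  c_pos : 0 < c
  G : Po X.V X.n
  G_hom : G.IsHomogeneous c
  G_red : MvPolynomial.map X.σ G = MvPolynomial.X X.D.c₀ ^ c
  G_mem : aeval X.x G ∈ X.q
  z : Fin 3 → Po X.V X.n
  z_hom : ∀ i, (z i).IsHomogeneous 1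
  z_par : Zp X.D fun i => MvPolynomial.map X.σ (z i)

variable {X}

/-- the element `F` of `B` -/
def Cut.F (Y : Cut X) : X.B := aeval X.x Y.G

/-- the parameters in `B` -/
def Cut.zb (Y : Cut X) (i : Fin 3) : X.B := aeval X.x (Y.z i)

/-- the parameters in the special fibre -/
def Cut.zk (Y : Cut X) (i : Fin 3) : Po X.κ X.n := MvPolynomial.map X.σ (Y.z i)

/-- homogeneous `V`-submodules of `B` which are stable under the coordinates -/
structure St (M : Submodule X.V X.B) : Prop where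
  mul : ∀ (G : Po X.V X.n), ∀ y ∈ M, aeval X.x G * y ∈ M
  hom : ∀ y ∈ M, ∀ m, GradedRing.proj X.ℬ m y ∈ M

/-- `Q` (with `p`) is the quotient `M₀ / M₁`, a graded module over `κ[X]` -/
structure QM (M₀ M₁ : Submodule X.V X.B) (Q : GMod X.κ X.n) (p : M₀ →+ Q.M) : Prop where
  surj : Function.Surjective p
  ker : ∀ y : M₀, p y = 0 ↔ (y : X.B) ∈ M₁
  smul : ∀ (G : Po X.V X.n) (y y' : M₀), (y' : X.B) = aeval X.x G * (y : X.B) →
    p y' = MvPolynomial.map X.σ G • p y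
  deg : ∀ (m : ℕ) (y : M₀), (y : X.B) ∈ X.ℬ m → p y ∈ Q.gr m
  gr : ∀ (m : ℤ) (u : Q.M), u ∈ Q.gr m → u = 0 ∨ ∃ m' : ℕ, m = m' ∧
    ∃ y : M₀, (y : X.B) ∈ X.ℬ m' ∧ p y = u
  stab : ∀ (G : Po X.V X.n), ∀ y ∈ M₀, aeval X.x G * y ∈ M₀

/-- `S` -/
def mS (X : Ctx) : Submodule X.V X.B := Subalgebra.toSubmodule X.S

/-- `ϖ S` -/
def mW (X : Ctx) : Submodule X.V X.B where
  carrier := {y | ∃ s ∈ X.S, y = X.ϖ • s}
  add_mem' := by
    rintro _ _ ⟨s, hs, rfl⟩ ⟨s', hs', rfl⟩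
    exact ⟨s + s', X.S.add_mem hs hs', by rw [smul_add]⟩
  zero_mem' := ⟨0, X.S.zero_mem, by simp⟩
  smul_mem' := by
    rintro v _ ⟨s, hs, rfl⟩
    exact ⟨v • s, X.S.smul_mem hs v, by rw [smul_comm]⟩

/-- `F S + ϖ S` -/
def mF (Y : Cut X) : Submodule X.V X.B where
  carrier := {y | ∃ s ∈ X.S, ∃ s' ∈ X.S, y = Y.F * s + X.ϖ • s'}
  add_mem' := by
    rintro _ _ ⟨s, hs, s', hs', rfl⟩ ⟨u, hu, u', hu', rfl⟩
    exact ⟨s + u, X.S.add_mem hs hu, s' + u', X.S.add_mem hs' hu', by rw [smul_add]; ring⟩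
  zero_mem' := ⟨0, X.S.zero_mem, 0, X.S.zero_mem, by simp⟩
  smul_mem' := by
    rintro v _ ⟨s, hs, s', hs', rfl⟩
    exact ⟨v • s, X.S.smul_mem hs v, v • s', X.S.smul_mem hs' v, by
      rw [smul_add, mul_smul_comm, smul_comm v]⟩

/-- `(q ∩ S) + ϖ S` -/
def mQ (X : Ctx) : Submodule X.V X.B where
  carrier := {y | ∃ s ∈ X.S, s ∈ X.q ∧ ∃ s' ∈ X.S, y = s + X.ϖ • s'}
  add_mem' := by
    rintro _ _ ⟨s, hs, hq, s', hs', rfl⟩ ⟨u, hu, hq', u', hu', rfl⟩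
    exact ⟨s + u, X.S.add_mem hs hu, X.q.add_mem hq hq', s' + u', X.S.add_mem hs' hu', by
      rw [smul_add]; abel⟩
  zero_mem' := ⟨0, X.S.zero_mem, X.q.zero_mem, 0, X.S.zero_mem, by simp⟩
  smul_mem' := by
    rintro v _ ⟨s, hs, hq, s', hs', rfl⟩
    refine ⟨v • s, X.S.smul_mem hs v, ?_, v • s', X.S.smul_mem hs' v, by
      rw [smul_add, smul_comm v]⟩
    rw [Algebra.smul_def]
    exact X.q.mul_mem_left _ hq

/-- the saturation of `(q ∩ S) + F B` in `q`: elements with a multiple by a homogeneous polynomial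
in `z`, nonzero modulo `ϖ`, in `S + F B` -/
def mM (Y : Cut X) : Submodule X.V X.B where
  carrier := {y | y ∈ X.q ∧ ∃ (k : ℕ) (P : Po X.V 3), P.IsHomogeneous k ∧
    MvPolynomial.map X.σ P ≠ 0 ∧ ∃ s ∈ X.S, ∃ b : X.B, aeval Y.zb P * y = s + Y.F * b}
  add_mem' := by
    rintro y y' ⟨hq, k, P, hk, hP, s, hs, b, h⟩ ⟨hq', k', P', hk', hP', s', hs', b', h'⟩
    refine ⟨X.q.add_mem hq hq', k + k', P * P', hk.mul hk',
      by rw [map_mul]; exact mul_ne_zero hP hP',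
      aeval Y.zb P' * s + aeval Y.zb P * s', ?_, aeval Y.zb P' * b + aeval Y.zb P * b', ?_⟩
    · have hz : ∀ T : Po X.V 3, aeval Y.zb T ∈ X.S := by
        intro T
        have h1 : ∀ i, Y.zb i ∈ X.S := fun i => by
          have h2 := (Algebra.adjoin_le (S := X.S) (by rintro _ ⟨c, rfl⟩; exact X.x_mem c) :
            Algebra.adjoin X.V (Set.range X.x) ≤ X.S)
          apply h2
          rw [Algebra.adjoin_range_eq_range_aeval]
          exact ⟨Y.z i, rfl⟩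
        have h3 := (Algebra.adjoin_le (S := X.S) (by rintro _ ⟨i, rfl⟩; exact h1 i) :
          Algebra.adjoin X.V (Set.range Y.zb) ≤ X.S)
        apply h3
        rw [Algebra.adjoin_range_eq_range_aeval]
        exact ⟨T, rfl⟩
      exact X.S.add_mem (X.S.mul_mem (hz _) hs) (X.S.mul_mem (hz _) hs')
    · rw [map_mul]
      calc aeval Y.zb P * aeval Y.zb P' * (y + y')
          = aeval Y.zb P' * (aeval Y.zb P * y) + aeval Y.zb P * (aeval Y.zb P' * y') := by ring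
        _ = _ := by rw [h, h']; ring
  zero_mem' := ⟨X.q.zero_mem, 0, 1, isHomogeneous_one _ _,
    by rw [map_one]; exact one_ne_zero, 0, X.S.zero_mem, 0, by simp⟩
  smul_mem' := by
    rintro v y ⟨hq, k, P, hk, hP, s, hs, b, h⟩
    refine ⟨?_, k, P, hk, hP, v • s, X.S.smul_mem hs v, v • b, ?_⟩
    · rw [Algebra.smul_def]
      exact X.q.mul_mem_left _ hq
    · rw [mul_smul_comm, h, smul_add, mul_smul_comm]

/-- `ϖ M + F B` -/
def mM1 (Y : Cut X) : Submodule X.V X.B where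
  carrier := {y | ∃ m ∈ mM Y, ∃ b : X.B, y = X.ϖ • m + Y.F * b}
  add_mem' := by
    rintro _ _ ⟨s, hs, s', rfl⟩ ⟨u, hu, u', rfl⟩
    exact ⟨s + u, Submodule.add_mem _ hs hu, s' + u', by rw [smul_add]; ring⟩
  zero_mem' := ⟨0, Submodule.zero_mem _, 0, by simp⟩
  smul_mem' := by
    rintro v _ ⟨s, hs, s', rfl⟩
    exact ⟨v • s, Submodule.smul_mem _ v hs, v • s', by
      rw [smul_add, mul_smul_comm, smul_comm v]⟩

end two

end

end Pool.Agent.RST
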