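import Pool.Agent.RST.ZPC
import Pool.Agent.GML.AGR

/-!
# RST, module CAI: `z_0, z_1, z_2, F` are algebraically independent
-/

set_option autoImplicit false

open MvPolynomial Pool.Agent.GML

namespace Pool.Agent.RST

namespace CAI_

variable {κ : Type} [Field κ] {n : ℕ}

theorem fr4 (k : ℕ) : Module.finrank κ (homogeneousSubmodule (Fin 4) κ k) = (k + 3).choose 3 := by
  have h := (agr_proof.2.2 κ 4 (by norm_num) k).2
  have e : Agr κ 4 k = homogeneousSubmodule (Fin 4) κ k := by
    unfold Agr
    simp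
  rw [e] at h
  simpa using h

theorem ch (a t : ℕ) : (a + t).choose 3 ≤ a.choose 3 + t * (a + t).choose 2 := by
  induction t with
  | zero => simp
  | succ t ih =>
    have h1 : (a + (t + 1)).choose 3 = (a + t).choose 2 + (a + t).choose 3 := by
      rw [← add_assoc, Nat.choose_succ_succ]
    have h2 : (a + t).choose 2 ≤ (a + (t + 1)).choose 2 :=
      Nat.choose_le_choose 2 (by omega)
    have h3 : t * (a + t).choose 2 ≤ t * (a + (t + 1)).choose 2 := Nat.mul_le_mul_left _ h2
    rw [h1, add_mul, one_mul]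
    omega

theorem ch2 (k : ℕ) : (k + 3).choose 2 ≤ 9 * (k + 1) ^ 2 := by
  refine (Nat.choose_le_pow _ _).trans ?_
  have : 9 * (k + 1) ^ 2 = (3 * (k + 1)) ^ 2 := by ring
  rw [this]
  exact Nat.pow_le_pow_left (by omega) _

/-- the image of the forms of degree `k` under a map which kills a nonzero form -/
theorem img_bd {A : Type} [CommRing A] [Algebra κ A] (φ : Po κ 4 →ₐ[κ] A) (p : Po κ 4) (d : ℕ)
    (hp : p.IsHomogeneous d) (hp0 : p ≠ 0) (h : φ p = 0) (k : ℕ) :
    Module.finrank κ ((homogeneousSubmodule (Fin 4) κ k).map φ.toLinearMap) ≤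
      9 * d * (k + 1) ^ 2 := by
  have hfin : ∀ j, Module.Finite κ (homogeneousSubmodule (Fin 4) κ j) := fun j =>
    Module.Finite.iff_fg.2 (homogeneousSubmodule_fg (Fin 4) κ j)
  have f1 := hfin k
  by_cases hk : d ≤ k
  · obtain ⟨e, rfl⟩ := Nat.exists_eq_add_of_le hk
    have f2 := hfin e
    let L : homogeneousSubmodule (Fin 4) κ (d + e) →ₗ[κ] A :=
      φ.toLinearMap.comp (homogeneousSubmodule (Fin 4) κ (d + e)).subtype
    have hr : LinearMap.range L = (homogeneousSubmodule (Fin 4) κ (d + e)).map φ.toLinearMap := by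
      rw [LinearMap.range_comp, Submodule.range_subtype]
    rw [← hr]
    have h1 := LinearMap.finrank_range_add_finrank_ker L
    let M : homogeneousSubmodule (Fin 4) κ e →ₗ[κ] LinearMap.ker L :=
      { toFun := fun q => ⟨⟨p * (q : Po κ 4), hp.mul q.2⟩, by
          show φ (p * (q : Po κ 4)) = 0
          rw [map_mul, h, zero_mul]⟩
        map_add' := fun a b => by
          ext1; ext1
          show p * ((a : Po κ 4) + b) = p * a + p * b
          ring
        map_smul' := fun v a => by
          ext1; ext1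
          show p * (v • (a : Po κ 4)) = v • (p * (a : Po κ 4))
          rw [mul_smul_comm] }
    have hM : Function.Injective M := by
      intro a b hab
      have h2 : p * (a : Po κ 4) = p * b := 
        congrArg Subtype.val (congrArg Subtype.val hab)
      exact Subtype.ext (mul_left_cancel₀ hp0 h2)
    have h2 := LinearMap.finrank_le_finrank_of_injective hM
    rw [fr4] at h1 h2
    have h3 := ch (e + 3) d
    have h4 : e + 3 + d = d + e + 3 := by ring
    rw [h4] at h3
    have h5 := Nat.mul_le_mul_left d (ch2 (d + e))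
    have h6 : d * (9 * (d + e + 1) ^ 2) = 9 * d * (d + e + 1) ^ 2 := by ring
    omega
  · have h1 := Submodule.finrank_map_le φ.toLinearMap (homogeneousSubmodule (Fin 4) κ k)
    rw [fr4] at h1
    have h3 := ch 2 (k + 1)
    have h4 : 2 + (k + 1) = k + 3 := by ring
    rw [h4] at h3
    have h5 := Nat.mul_le_mul (by omega : k + 1 ≤ d) (ch2 k)
    have h6 : d * (9 * (k + 1) ^ 2) = 9 * d * (k + 1) ^ 2 := by ring
    have h7 : (2 : ℕ).choose 3 = 0 := by decide
    omega

theorem fin_mul {A : Type} [CommRing A] [Algebra κ A] (M N : Submodule κ A) [Module.Finite κ M]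
    [Module.Finite κ N] :
    Module.finrank κ (M * N : Submodule κ A) ≤ Module.finrank κ M * Module.finrank κ N := by
  rw [← Submodule.mulMap_range, ← Module.finrank_tensorProduct]
  exact LinearMap.finrank_range_le _

theorem hc_aeval (w : Fin 4 → Po κ n) (hw : ∀ i, (w i).IsHomogeneous 1) (d : ℕ) (p : Po κ 4) :
    aeval w (homogeneousComponent d p) = homogeneousComponent d (aeval w p) := by
  have key : ∀ (j : ℕ) (q : Po κ 4), q.IsHomogeneous j → (aeval w q).IsHomogeneous j := by
    intro j q hq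
    have := hq.aeval w hw
    rwa [one_mul] at this
  conv_rhs => rw [← sum_homogeneousComponent p]
  rw [map_sum, map_sum]
  by_cases hd : d ∈ Finset.range (p.totalDegree + 1)
  · rw [Finset.sum_eq_single d]
    · rw [homogeneousComponent_of_mem (key d _ (homogeneousComponent_isHomogeneous d p)),
        if_pos rfl]
    · intro j _ hj
      rw [homogeneousComponent_of_mem (key j _ (homogeneousComponent_isHomogeneous j p)),
        if_neg (Ne.symm hj)]
    · intro h; exact absurd hd h
  · rw [Finset.sum_eq_zero]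
    · rw [homogeneousComponent_eq_zero, map_zero]
      rw [Finset.mem_range] at hd
      omega
    · intro j hj
      rw [homogeneousComponent_of_mem (key j _ (homogeneousComponent_isHomogeneous j p)),
        if_neg]
      rintro rfl
      exact hd hj

theorem growth (I : Ideal (Po κ n)) (hI : HomI I) (w : Fin 4 → Po κ n)
    (hw : ∀ i, (w i).IsHomogeneous 1) (N : ℕ)
    (hN : ∀ c, (X c : Po κ n) ^ N ∈ I ⊔ Ideal.span (Set.range w))
    (p : Po κ 4) (hp0 : p ≠ 0) (hp : aeval w p ∈ I) :
    ∃ C : ℕ, ∀ m : ℕ, hf I m ≤ C * (m + 1) ^ 2 := by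
  obtain ⟨d, hd⟩ : ∃ d, homogeneousComponent d p ≠ 0 := by
    by_contra h
    push Not at h
    apply hp0
    rw [← sum_homogeneousComponent p]
    exact Finset.sum_eq_zero fun i _ => h i
  have hpd : aeval w (homogeneousComponent d p) ∈ I := by
    rw [hc_aeval w hw]
    exact hI _ hp d
  let π : Po κ n →ₐ[κ] Po κ n ⧸ I := Ideal.Quotient.mkₐ κ I
  have hπ : ∀ f, f ∈ I → π f = 0 := fun f hf => Ideal.Quotient.eq_zero_iff_mem.2 hf
  let φ : Po κ 4 →ₐ[κ] Po κ n ⧸ I := π.comp (aeval w)
  have hφ : φ (homogeneousComponent d p) = 0 := hπ _ hpd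
  let R : ℕ → Submodule κ (Po κ n ⧸ I) := fun m =>
    (homogeneousSubmodule (Fin n) κ m).map π.toLinearMap
  let A : ℕ → Submodule κ (Po κ n ⧸ I) := fun m =>
    (homogeneousSubmodule (Fin 4) κ m).map φ.toLinearMap
  have fR : ∀ m, Module.Finite κ (R m) := fun m =>
    Module.Finite.iff_fg.2 ((homogeneousSubmodule_fg (Fin n) κ m).map _)
  have fA : ∀ m, Module.Finite κ (A m) := fun m =>
    Module.Finite.iff_fg.2 ((homogeneousSubmodule_fg (Fin 4) κ m).map _)
  have hA1 : ∀ k, ∀ a ∈ A k, ∀ i, a * π (w i) ∈ A (k + 1) := by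
    rintro k _ ⟨q, hq, rfl⟩ i
    refine ⟨q * X i, (show (q * X i).IsHomogeneous (k + 1) from
      (show q.IsHomogeneous k from hq).mul (isHomogeneous_X κ i)), ?_⟩
    show φ (q * X i) = φ q * π (w i)
    rw [map_mul]
    congr 1
    show π (aeval w (X i)) = _
    rw [aeval_X]
  have hAR : ∀ k, R (n * N + k) ≤ A k * R (n * N) := by
    intro k
    induction k with
    | zero =>
      intro r hr
      have h1 : (1 : Po κ n ⧸ I) ∈ A 0 := ⟨1, isHomogeneous_one _ _, map_one φ⟩
      have := Submodule.mul_mem_mul h1 hr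
      rwa [one_mul] at this
    | succ k ih =>
      rintro _ ⟨f, hf', rfl⟩
      have hf : f.IsHomogeneous (n * N + (k + 1)) := hf'
      have h1 := ZPC_.big_mem _ N hN (by omega : n * N < n * N + (k + 1)) hf
      obtain ⟨a, ha, b, hb, hab⟩ := Submodule.mem_sup.1 h1
      obtain ⟨h, hh⟩ := (Ideal.mem_span_range_iff_exists_fun).1 hb
      have h2 : f = homogeneousComponent (n * N + (k + 1)) a +
          ∑ i, homogeneousComponent (n * N + k) (h i) * w i := by
        have h3 : homogeneousComponent (n * N + (k + 1)) f = f := by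
          rw [homogeneousComponent_of_mem hf, if_pos rfl]
        rw [← h3, ← hab, map_add, ← hh, map_sum]
        congr 1
        refine Finset.sum_congr rfl fun i _ => ?_
        rw [mul_comm (h i), show n * N + (k + 1) = 1 + (n * N + k) by ring, ZPC_.hc_mul (hw i),
          mul_comm]
      have h4 : π f = ∑ i, π (homogeneousComponent (n * N + k) (h i)) * π (w i) := by
        rw [h2, map_add, hπ _ (hI a ha _), zero_add, map_sum]
        exact Finset.sum_congr rfl fun i _ => map_mul _ _ _
      show π f ∈ _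
      rw [h4]
      refine Submodule.sum_mem _ fun i _ => ?_
      have h5 : π (homogeneousComponent (n * N + k) (h i)) ∈ A k * R (n * N) :=
        ih ⟨_, homogeneousComponent_isHomogeneous _ _, rfl⟩
      refine Submodule.mul_induction_on h5 ?_ ?_
      · intro a ha r hr
        rw [mul_right_comm]
        exact Submodule.mul_mem_mul (hA1 k a ha i) hr
      · intro x y hx hy
        rw [add_mul]
        exact Submodule.add_mem _ hx hy
  obtain ⟨K, hK⟩ : ∃ K : ℕ, ∀ m, m ≤ n * N → hf I m ≤ K := by
    refine ⟨∑ m ∈ Finset.range (n * N + 1), hf I m, fun m hm => ?_⟩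
    exact Finset.single_le_sum (f := fun m => hf I m) (fun _ _ => Nat.zero_le _)
      (Finset.mem_range.2 (by omega))
  refine ⟨K + 9 * d * Module.finrank κ (R (n * N)), fun m => ?_⟩
  by_cases hm : m ≤ n * N
  · refine (hK m hm).trans ?_
    have h1 : 1 ≤ (m + 1) ^ 2 := Nat.one_le_pow _ _ (by omega)
    exact (Nat.le_add_right _ _).trans (Nat.le_mul_of_pos_right _ h1)
  · obtain ⟨k, rfl⟩ := Nat.exists_eq_add_of_le (not_le.1 hm).le
    have g1 := fR (n * N)
    have g2 := fA k
    have h1 : hf I (n * N + k) ≤ Module.finrank κ (A k * R (n * N) : Submodule κ (Po κ n ⧸ I)) := by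
      have g3 : Module.Finite κ (A k * R (n * N) : Submodule κ (Po κ n ⧸ I)) := by
        rw [← Submodule.mulMap_range]
        infer_instance
      exact Submodule.finrank_mono (hAR k)
    have h2 := fin_mul (A k) (R (n * N))
    have h3 : Module.finrank κ (A k) ≤ 9 * d * (k + 1) ^ 2 :=
      img_bd φ _ d (homogeneousComponent_isHomogeneous d p) hd hφ k
    have h4 := Nat.mul_le_mul_right (Module.finrank κ (R (n * N))) h3
    have h5 : 9 * d * (k + 1) ^ 2 * Module.finrank κ (R (n * N)) ≤
        9 * d * (n * N + k + 1) ^ 2 * Module.finrank κ (R (n * N)) :=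
      Nat.mul_le_mul_right _ (Nat.mul_le_mul_left _ (Nat.pow_le_pow_left (by omega) _))
    refine (h1.trans (h2.trans (h4.trans h5))).trans ?_
    have : (K + 9 * d * Module.finrank κ (R (n * N))) * (n * N + k + 1) ^ 2 =
      K * (n * N + k + 1) ^ 2 +
        9 * d * (n * N + k + 1) ^ 2 * Module.finrank κ (R (n * N)) := by ring
    rw [this]
    exact Nat.le_add_left _ _

theorem homI_IX (D : XD κ n) : HomI D.IX := by
  intro p hp d
  show emb κ n (homogeneousComponent d p) ∈ D.I'
  have h1 : emb κ n (homogeneousComponent d p) = homogeneousComponent d (emb κ n p) :=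
    rename_homogeneousComponent d p
  rw [h1]
  exact D.hom _ hp d

/-- division by a power of the uniformizer -/
theorem prim {V B : Type} [CommRing V] [IsDomain V] [IsDiscreteValuationRing V] [CommRing B]
    [IsDomain B] [Algebra V B] (ϖ : V) (σ : V →+* κ) (irr : Irreducible ϖ)
    (ker : RingHom.ker σ = Ideal.span {ϖ}) (h0 : algebraMap V B ϖ ≠ 0) (y : Fin 4 → B)
    (P : MvPolynomial (Fin 4) V) (hP : P ≠ 0) (hy : aeval y P = 0) :
    ∃ P1 : MvPolynomial (Fin 4) V, MvPolynomial.map σ P1 ≠ 0 ∧ aeval y P1 = 0 := by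
  obtain ⟨β, hβ⟩ := MvPolynomial.ne_zero_iff.1 hP
  obtain ⟨j, hj⟩ := FiniteMultiplicity.of_not_isUnit irr.not_isUnit hβ
  obtain ⟨i, hi⟩ : ∃ i, i = j + 1 := ⟨_, rfl⟩
  rw [← hi] at hj
  clear hi hβ hP
  induction i generalizing P with
  | zero => exact absurd (by rw [pow_zero]; exact one_dvd _) hj
  | succ i ih =>
    by_cases h1 : MvPolynomial.map σ P = 0
    · have h2 : C ϖ ∣ P := by
        rw [C_dvd_iff_dvd_coeff]
        intro γ
        have h3 : σ (coeff γ P) = 0 := by
          have := congrArg (coeff γ) h1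
          rwa [coeff_map, coeff_zero] at this
        have h4 : coeff γ P ∈ Ideal.span {ϖ} := by
          rw [← ker]
          exact h3
        exact Ideal.mem_span_singleton.1 h4
      obtain ⟨P', rfl⟩ := h2
      refine ih P' ?_ ?_
      · rw [map_mul, algHom_C] at hy
        exact (mul_eq_zero.1 hy).resolve_left h0
      · intro h5
        apply hj
        rw [coeff_C_mul, pow_succ']
        exact mul_dvd_mul_left _ h5
    · exact ⟨P, h1, hy⟩

end CAI_

open CAI_ in
theorem cai_proof (hCFS : Stmt_CFS) : Stmt_CAI := by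
  intro Z Y
  have hinj : Function.Injective (algebraMap Z.V Z.B) := by
    rw [IsScalarTower.algebraMap_eq Z.V Z.K Z.B]
    exact (algebraMap Z.K Z.B).injective.comp (IsFractionRing.injective Z.V Z.K)
  have hV : AlgebraicIndependent Z.V ![Y.zb 0, Y.zb 1, Y.zb 2, Y.F] := by
    rw [algebraicIndependent_iff]
    intro P hP
    by_contra hP0
    have h0 : algebraMap Z.V Z.B Z.ϖ ≠ 0 := by
      intro h
      exact Z.irr.ne_zero (hinj (by rw [h, map_zero]))
    obtain ⟨P1, hP1, hP2⟩ := prim Z.ϖ Z.σ Z.irr Z.kerσ h0 _ P hP0 hP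
    obtain ⟨wV, hwV⟩ : ∃ wV : Fin 4 → Po Z.V Z.n, wV = ![Y.z 0, Y.z 1, Y.z 2, Y.G] := ⟨_, rfl⟩
    obtain ⟨wk, hwk⟩ : ∃ wk : Fin 4 → Po Z.κ Z.n,
      wk = ![Y.zk 0, Y.zk 1, Y.zk 2, X Z.D.c₀ ^ Y.c] := ⟨_, rfl⟩
    obtain ⟨w, hw⟩ : ∃ w : Fin 4 → Po Z.κ Z.n,
      w = ![Y.zk 0, Y.zk 1, Y.zk 2, X Z.D.c₀] := ⟨_, rfl⟩
    have h3 : aeval Z.x (aeval wV P1) = 0 := by
      rw [← hP2, ← AlgHom.comp_apply, comp_aeval]
      congr 2
      funext i
      rw [hwV]
      fin_cases i <;> rfl
    have h4 : MvPolynomial.map Z.σ (aeval wV P1) ∈ Z.D.IX := by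
      by_contra h
      exact (hCFS.1 Z _ h).1 h3
    have h5 : MvPolynomial.map Z.σ (aeval wV P1) = aeval wk (MvPolynomial.map Z.σ P1) := by
      have h6 : (MvPolynomial.map Z.σ).comp (aeval wV : _ →ₐ[Z.V] Po Z.V Z.n).toRingHom =
          (aeval wk : _ →ₐ[Z.κ] Po Z.κ Z.n).toRingHom.comp (MvPolynomial.map Z.σ) := by
        refine MvPolynomial.ringHom_ext (fun v => ?_) (fun i => ?_)
        · show MvPolynomial.map Z.σ (aeval wV (C v)) = aeval wk (MvPolynomial.map Z.σ (C v))
          rw [algHom_C, map_C, algHom_C, algebraMap_eq, algebraMap_eq, map_C]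
        · show MvPolynomial.map Z.σ (aeval wV (X i)) = aeval wk (MvPolynomial.map Z.σ (X i))
          rw [aeval_X, map_X, aeval_X, hwV, hwk]
          fin_cases i
          · rfl
          · rfl
          · rfl
          · exact Y.G_red
      exact congrArg (fun f : _ →+* _ => f P1) h6
    rw [h5] at h4
    obtain ⟨f, hf⟩ : ∃ f : Fin 4 → Polynomial Z.κ,
      f = ![Polynomial.X, Polynomial.X, Polynomial.X, Polynomial.X ^ Y.c] := ⟨_, rfl⟩
    have hft : ∀ i, Transcendental Z.κ (f i) := by
      intro i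
      rw [hf]
      fin_cases i
      · exact Polynomial.transcendental_X Z.κ
      · exact Polynomial.transcendental_X Z.κ
      · exact Polynomial.transcendental_X Z.κ
      · exact (Polynomial.transcendental_X Z.κ).pow Y.c_pos
    have h7 := algebraicIndependent_polynomial_aeval_X f hft
    have h8 : aeval (fun i ↦ Polynomial.aeval (X i : MvPolynomial (Fin 4) Z.κ) (f i))
        (MvPolynomial.map Z.σ P1) ≠ 0 := fun h => hP1 ((algebraicIndependent_iff.1 h7) _ h)
    have h9 : aeval w (aeval (fun i ↦ Polynomial.aeval (X i : MvPolynomial (Fin 4) Z.κ) (f i))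
        (MvPolynomial.map Z.σ P1)) ∈ Z.D.IX := by
      rw [← AlgHom.comp_apply, comp_aeval]
      have : (fun i => aeval w (Polynomial.aeval (X i : MvPolynomial (Fin 4) Z.κ) (f i))) = wk := by
        funext i
        rw [← Polynomial.aeval_algHom_apply, aeval_X, hf, hw, hwk]
        fin_cases i
        · exact Polynomial.aeval_X _
        · exact Polynomial.aeval_X _
        · exact Polynomial.aeval_X _
        · show Polynomial.aeval (X Z.D.c₀ : Po Z.κ Z.n) (Polynomial.X ^ Y.c) = _
          rw [map_pow, Polynomial.aeval_X]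
          rfl
      rw [this]
      exact h4
    have hw1 : ∀ i, (w i).IsHomogeneous 1 := by
      intro i
      rw [hw]
      fin_cases i
      · exact Y.z_par.1 0
      · exact Y.z_par.1 1
      · exact Y.z_par.1 2
      · exact isHomogeneous_X _ _
    have hpar := Y.z_par.2
    choose N hN using hpar
    have hle : Ideal.span {(X Z.D.c₀ : Po Z.κ Z.n)} ⊔
        Ideal.span (Set.range fun i => MvPolynomial.map Z.σ (Y.z i)) ≤
        Ideal.span (Set.range w) := by
      refine sup_le ?_ ?_
      · rw [Ideal.span_singleton_le_iff_mem]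
        refine Ideal.subset_span ⟨3, ?_⟩
        rw [hw]
        rfl
      · rw [Ideal.span_le]
        rintro _ ⟨i, rfl⟩
        refine Ideal.subset_span ⟨i.castSucc, ?_⟩
        rw [hw]
        fin_cases i <;> rfl
    obtain ⟨C, hC⟩ := growth Z.D.IX (homI_IX Z.D) w hw1 (∑ i, N i) (fun c => by
      have h := hN c
      rw [sup_assoc] at h
      have h' := (sup_le_sup_left hle Z.D.IX) h
      exact Ideal.pow_mem_of_pow_mem _ h'
        (Finset.single_le_sum (f := fun i => N i) (fun _ _ => Nat.zero_le _)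
          (Finset.mem_univ c))) _ h8 h9
    obtain ⟨m, hm⟩ := Z.D.big C
    exact absurd (hC m) (not_le.2 hm)
  have : Algebra.IsAlgebraic Z.V Z.K := IsLocalization.isAlgebraic Z.K (nonZeroDivisors Z.V)
  exact hV.extendScalars Z.K

end Pool.Agent.RST
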