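import Pool.Agent.RST.Stmts

/-!
# RST, module CFI: `S` is finite over `V[z_0, z_1, z_2, F]`
-/

set_option autoImplicit false

namespace Pool.Agent.RST

open MvPolynomial Pool.Agent.GML

noncomputable section

namespace CFI_

open DirectSum in
/-- homogeneous components -/
def pr (Z : Ctx) (m : ℕ) (y : Z.B) : Z.B := GradedRing.proj Z.ℬ m y

variable (Z : Ctx)

theorem pr_eq (m : ℕ) (y : Z.B) : pr Z m y = (DirectSum.decompose Z.ℬ y m : Z.B) := rfl

theorem pr_mem (m : ℕ) (y : Z.B) : pr Z m y ∈ Z.ℬ m := SetLike.coe_mem _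

theorem pr_add (m : ℕ) (y y' : Z.B) : pr Z m (y + y') = pr Z m y + pr Z m y' := map_add _ _ _

theorem pr_sum {ι : Type} (m : ℕ) (s : Finset ι) (f : ι → Z.B) :
    pr Z m (∑ i ∈ s, f i) = ∑ i ∈ s, pr Z m (f i) := map_sum _ _ _

theorem pr_same {m : ℕ} {y : Z.B} (hy : y ∈ Z.ℬ m) : pr Z m y = y :=
  DirectSum.decompose_of_mem_same Z.ℬ hy

theorem pr_ne {m i : ℕ} {y : Z.B} (hy : y ∈ Z.ℬ i) (h : i ≠ m) : pr Z m y = 0 :=
  DirectSum.decompose_of_mem_ne Z.ℬ hy h

theorem pr_mul {i m : ℕ} {a : Z.B} (ha : a ∈ Z.ℬ i) (h : i ≤ m) (y : Z.B) :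
    pr Z m (a * y) = a * pr Z (m - i) y :=
  DirectSum.coe_decompose_mul_of_left_mem_of_le Z.ℬ ha h

theorem const_mem (v : Z.V) : algebraMap Z.V Z.B v ∈ Z.ℬ 0 := by
  rw [IsScalarTower.algebraMap_apply Z.V Z.K Z.B]
  exact SetLike.algebraMap_mem_graded Z.ℬ _

theorem pr_smul (m : ℕ) (v : Z.V) (y : Z.B) : pr Z m (v • y) = v • pr Z m y := by
  rw [Algebra.smul_def, pr_mul Z (const_mem Z v) (Nat.zero_le _), Nat.sub_zero,
    ← Algebra.smul_def]

theorem smul_deg (v : Z.V) {m : ℕ} {y : Z.B} (hy : y ∈ Z.ℬ m) : v • y ∈ Z.ℬ m := by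
  rw [← algebraMap_smul Z.K v y]
  exact Submodule.smul_mem _ _ hy

theorem aev_mem (G : Po Z.V Z.n) : aeval Z.x G ∈ Z.S := by
  have h2 := (Algebra.adjoin_le (S := Z.S) (by rintro _ ⟨c, rfl⟩; exact Z.x_mem c) :
    Algebra.adjoin Z.V (Set.range Z.x) ≤ Z.S)
  apply h2
  rw [Algebra.adjoin_range_eq_range_aeval]
  exact ⟨G, rfl⟩

/-- monomials -/
def mon (d : Fin Z.n →₀ ℕ) : Z.B := aeval Z.x (monomial d (1 : Z.V))

theorem mon_mem (d : Fin Z.n →₀ ℕ) : mon Z d ∈ Z.S := aev_mem Z _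

theorem mon_add (d e : Fin Z.n →₀ ℕ) : mon Z (d + e) = mon Z d * mon Z e := by
  unfold mon
  rw [← map_mul, monomial_mul, one_mul]

theorem mon_single (c : Fin Z.n) (e : ℕ) : mon Z (Finsupp.single c e) = Z.x c ^ e := by
  unfold mon
  rw [← X_pow_eq_monomial, map_pow, aeval_X]

theorem mon_deg (d : Fin Z.n →₀ ℕ) : mon Z d ∈ Z.ℬ d.degree := by
  induction d using Finsupp.induction_linear with
  | zero =>
    have h : mon Z 0 = 1 := by
      unfold mon
      have : (monomial (0 : Fin Z.n →₀ ℕ) (1 : Z.V)) = 1 := rfl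
      rw [this, map_one]
    rw [h, map_zero]
    exact SetLike.GradedOne.one_mem
  | add f g hf hg =>
    rw [mon_add, map_add]
    exact SetLike.mul_mem_graded hf hg
  | single c e =>
    rw [mon_single, Finsupp.degree_single]
    have h := SetLike.pow_mem_graded e (Z.x_deg c)
    rwa [smul_eq_mul, mul_one] at h

theorem aev_monomial (d : Fin Z.n →₀ ℕ) (a : Z.V) :
    aeval Z.x (monomial d a) = a • mon Z d := by
  unfold mon
  rw [← map_smul, smul_monomial, smul_eq_mul, mul_one]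

theorem aev_deg {G : Po Z.V Z.n} {k : ℕ} (hG : G.IsHomogeneous k) : aeval Z.x G ∈ Z.ℬ k := by
  rw [G.as_sum, map_sum]
  refine Submodule.sum_mem _ fun d hd => ?_
  have h1 : d.degree = k := by
    rw [Finsupp.degree_eq_weight_one]
    exact hG (mem_support_iff.1 hd)
  rw [aev_monomial, ← h1]
  exact smul_deg Z _ (mon_deg Z d)

/-- elements of `S` of degree `m` -/
def Sm (m : ℕ) : Submodule Z.V Z.B where
  carrier := {y | y ∈ Z.S ∧ y ∈ Z.ℬ m}
  add_mem' h h' := ⟨Z.S.add_mem h.1 h'.1, Submodule.add_mem _ h.2 h'.2⟩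
  zero_mem' := ⟨Z.S.zero_mem, Submodule.zero_mem _⟩
  smul_mem' v _ h := ⟨Z.S.smul_mem h.1 v, smul_deg Z v h.2⟩

theorem mem_Sm {m : ℕ} {y : Z.B} : y ∈ Sm Z m ↔ y ∈ Z.S ∧ y ∈ Z.ℬ m := Iff.rfl

theorem pr_Sm {y : Z.B} (hy : y ∈ Z.S) (m : ℕ) : pr Z m y ∈ Sm Z m :=
  ⟨Z.S_hom y hy m, pr_mem Z m y⟩

/-- generators of `S` in degree `m` -/
def gens (T0 : Finset Z.B) (j0 m : ℕ) : Set Z.B :=
  {b | ∃ t ∈ T0, ∃ j ≤ j0, ∃ d : Fin Z.n →₀ ℕ, d.degree + j = m ∧ b = mon Z d * pr Z j t}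

theorem gens_finite (T0 : Finset Z.B) (j0 m : ℕ) : (gens Z T0 j0 m).Finite := by
  have h1 : ((T0 : Set Z.B) ×ˢ (Set.Iic j0 ×ˢ {d : Fin Z.n →₀ ℕ | d.degree ≤ m})).Finite :=
    T0.finite_toSet.prod ((Set.finite_Iic j0).prod (Finsupp.finite_of_degree_le m))
  refine (h1.image fun q => mon Z q.2.2 * pr Z q.2.1 q.1).subset ?_
  rintro b ⟨t, ht, j, hj, d, hd, rfl⟩
  refine ⟨(t, j, d), ⟨ht, hj, ?_⟩, rfl⟩
  change d.degree ≤ m
  omega

theorem exists_gens : ∃ (T0 : Finset Z.B) (j0 : ℕ), (∀ t ∈ T0, t ∈ Z.S) ∧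
    ∀ m, Sm Z m = Submodule.span Z.V (gens Z T0 j0 m) := by
  classical
  obtain ⟨T0, hT0, hG⟩ := Z.S_fin
  refine ⟨T0, T0.sup fun t => (DirectSum.decompose Z.ℬ t).support.sup id, hT0, fun m => ?_⟩
  apply le_antisymm
  · intro s hs
    obtain ⟨G, hs'⟩ := hG s hs.1
    rw [← pr_same Z hs.2, hs', pr_sum]
    refine Submodule.sum_mem _ fun t ht => ?_
    have ht1 : t = ∑ j ∈ (DirectSum.decompose Z.ℬ t).support, pr Z j t :=
      (DirectSum.sum_support_decompose Z.ℬ t).symm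
    have ht2 : aeval Z.x (G t) * t = ∑ d ∈ (G t).support,
        ∑ j ∈ (DirectSum.decompose Z.ℬ t).support, coeff d (G t) • (mon Z d * pr Z j t) := by
      have hGt : aeval Z.x (G t) = ∑ d ∈ (G t).support, coeff d (G t) • mon Z d := by
        conv_lhs => rw [(G t).as_sum, map_sum]
        exact Finset.sum_congr rfl fun d _ => aev_monomial Z d _
      refine (congrArg₂ (· * ·) hGt ht1).trans ?_
      change (∑ d ∈ (G t).support, coeff d (G t) • mon Z d) *
        (∑ j ∈ (DirectSum.decompose Z.ℬ t).support, pr Z j t) = _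
      rw [Finset.sum_mul_sum]
      refine Finset.sum_congr rfl fun d _ => Finset.sum_congr rfl fun j _ => ?_
      rw [smul_mul_assoc]
    rw [ht2, pr_sum]
    refine Submodule.sum_mem _ fun d _ => ?_
    rw [pr_sum]
    refine Submodule.sum_mem _ fun j hj => ?_
    have h1 : mon Z d * pr Z j t ∈ Z.ℬ (d.degree + j) :=
      SetLike.mul_mem_graded (mon_deg Z d) (pr_mem Z j t)
    rw [pr_smul]
    refine Submodule.smul_mem _ _ ?_
    by_cases h2 : d.degree + j = m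
    · rw [pr_same Z (h2 ▸ h1)]
      refine Submodule.subset_span ⟨t, ht, j, ?_, d, h2, rfl⟩
      exact (Finset.le_sup (f := id) hj).trans
        (Finset.le_sup (f := fun t => (DirectSum.decompose Z.ℬ t).support.sup id) ht)
    · rw [pr_ne Z h1 h2]
      exact Submodule.zero_mem _
  · rw [Submodule.span_le]
    rintro b ⟨t, ht, j, hj, d, hd, rfl⟩
    refine ⟨Z.S.mul_mem (mon_mem Z d) (Z.S_hom t (hT0 t ht) j), ?_⟩
    rw [← hd]
    exact SetLike.mul_mem_graded (mon_deg Z d) (pr_mem Z j t)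

variable {Z} (Y : Cut Z)

theorem F_mem : Y.F ∈ Z.S := aev_mem Z _
theorem F_deg : Y.F ∈ Z.ℬ Y.c := aev_deg Z Y.G_hom
theorem zb_mem (i : Fin 3) : Y.zb i ∈ Z.S := aev_mem Z _
theorem zb_deg (i : Fin 3) : Y.zb i ∈ Z.ℬ 1 := aev_deg Z (Y.z_hom i)

/-- powers of the coordinates -/
theorem key_pow (c : Fin Z.n) : ∃ N : ℕ, ∃ g ∈ Z.S, ∃ h : Fin 3 → Z.B, (∀ i, h i ∈ Z.S) ∧
    ∃ s ∈ Z.S, Z.x c ^ N = Y.F * g + ∑ i, Y.zb i * h i + Z.ϖ • s := by
  obtain ⟨N, hN⟩ := Y.z_par.2 c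
  obtain ⟨u, hu, e, he, hue⟩ := Submodule.mem_sup.1 hN
  obtain ⟨a, ha, b, hb, hab⟩ := Submodule.mem_sup.1 hu
  obtain ⟨b', rfl⟩ := Ideal.mem_span_singleton'.1 hb
  have h0 : (X c : Po Z.κ Z.n) ^ N - b' * X Z.D.c₀ ∈
      Z.D.IX ⊔ Ideal.span (Set.range fun i => MvPolynomial.map Z.σ (Y.z i)) := by
    have e1 : (X c : Po Z.κ Z.n) ^ N - b' * X Z.D.c₀ = a + e := by
      rw [← hue, ← hab]; ring
    rw [e1]
    exact add_mem (Ideal.mem_sup_left ha) (Ideal.mem_sup_right he)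
  have h1 : ((X c : Po Z.κ Z.n) ^ N) ^ Y.c - (b' * X Z.D.c₀) ^ Y.c ∈
      Z.D.IX ⊔ Ideal.span (Set.range fun i => MvPolynomial.map Z.σ (Y.z i)) :=
    Ideal.mem_of_dvd _ (sub_dvd_pow_sub_pow _ _ _) h0
  obtain ⟨a', ha', e', he', hae⟩ := Submodule.mem_sup.1 h1
  obtain ⟨H, hH⟩ := (Ideal.mem_span_range_iff_exists_fun).1 he'
  obtain ⟨B', hB'⟩ := MvPolynomial.map_surjective Z.σ Z.surjσ (b' ^ Y.c)
  choose H' hH' using fun i => MvPolynomial.map_surjective Z.σ Z.surjσ (H i)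
  have h2 : MvPolynomial.map Z.σ ((X c : Po Z.V Z.n) ^ (N * Y.c) - Y.G * B' -
      ∑ i, H' i * Y.z i) ∈ Z.D.IX := by
    have e2 : MvPolynomial.map Z.σ ((X c : Po Z.V Z.n) ^ (N * Y.c) - Y.G * B' -
      ∑ i, H' i * Y.z i) = a' := by
      rw [map_sub, map_sub, map_pow, map_X, map_mul, Y.G_red, hB', map_sum]
      simp only [map_mul, hH']
      rw [hH, pow_mul]
      have e3 : (X Z.D.c₀ : Po Z.κ Z.n) ^ Y.c * b' ^ Y.c = (b' * X Z.D.c₀) ^ Y.c := by
        rw [mul_pow, mul_comm]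
      rw [e3, ← hae]
      ring
    rw [e2]
    exact ha'
  obtain ⟨s, hs, hs'⟩ := Z.red0 _ h2
  refine ⟨N * Y.c, aeval Z.x B', aev_mem Z _, fun i => aeval Z.x (H' i), fun i => aev_mem Z _,
    s, hs, ?_⟩
  rw [map_sub, map_sub, map_pow, aeval_X, map_mul, map_sum] at hs'
  simp only [map_mul] at hs'
  rw [← hs']
  change Z.x c ^ (N * Y.c) = aeval Z.x Y.G * aeval Z.x B' + ∑ i, aeval Z.x (Y.z i) *
    aeval Z.x (H' i) + (Z.x c ^ (N * Y.c) - aeval Z.x Y.G * aeval Z.x B' -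
      ∑ i, aeval Z.x (H' i) * aeval Z.x (Y.z i))
  have e4 : ∑ i, aeval Z.x (Y.z i) * aeval Z.x (H' i) =
      ∑ i, aeval Z.x (H' i) * aeval Z.x (Y.z i) :=
    Finset.sum_congr rfl fun i _ => mul_comm _ _
  rw [e4]
  ring

/-- the part of degree `m` of `(z, F) S` -/
def Nm (m : ℕ) : Submodule Z.V Z.B :=
  (Sm Z (m - Y.c)).map (LinearMap.mulLeft Z.V Y.F) ⊔
    ⨆ i, (Sm Z (m - 1)).map (LinearMap.mulLeft Z.V (Y.zb i))

theorem exists_big : ∃ m1 : ℕ, ∀ m, m1 < m → Sm Z m ≤ Nm Y m := by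
  classical
  obtain ⟨T0, j0, hT0, hgen⟩ := exists_gens Z
  choose N g hg h hh s hs hx using key_pow Y
  refine ⟨j0 + ∑ c, N c + Y.c, fun m hm => ?_⟩
  have hfg : (Sm Z m).FG := by
    rw [hgen m]
    exact Submodule.fg_span (gens_finite Z T0 j0 m)
  have hI : Ideal.span {Z.ϖ} ≤ Ideal.jacobson (⊥ : Ideal Z.V) := by
    rw [← Z.irr.maximalIdeal_eq]
    exact IsLocalRing.maximalIdeal_le_jacobson _
  refine Submodule.le_of_le_smul_of_le_jacobson_bot hfg hI ?_
  conv_lhs => rw [hgen m]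
  rw [Submodule.span_le]
  rintro b ⟨t, ht, j, hj, d, hd, rfl⟩
  have hc : ∃ c, N c ≤ d c := by
    by_contra hcon
    push Not at hcon
    have h1 : d.degree ≤ ∑ c, N c := by
      rw [Finsupp.degree_eq_sum]
      exact Finset.sum_le_sum fun c _ => (hcon c).le
    omega
  obtain ⟨c, hc⟩ := hc
  obtain ⟨d', hd'⟩ : ∃ d', d = Finsupp.single c (N c) + d' := by
    refine ⟨d - Finsupp.single c (N c), ?_⟩
    rw [add_tsub_cancel_of_le]
    rw [Finsupp.single_le_iff]
    exact hc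
  have ht' : pr Z j t ∈ Z.S := Z.S_hom t (hT0 t ht) j
  set r : Z.B := mon Z d' * pr Z j t with hr
  have hrS : r ∈ Z.S := Z.S.mul_mem (mon_mem Z d') ht'
  have hb : mon Z d * pr Z j t = Y.F * (g c * r) + ∑ i, Y.zb i * (h c i * r) +
      Z.ϖ • (s c * r) := by
    have e1 : mon Z d * pr Z j t = Z.x c ^ N c * r := by
      rw [hd', mon_add, mon_single, hr, mul_assoc]
    rw [e1, hx c, add_mul, add_mul, Finset.sum_mul, smul_mul_assoc, mul_assoc]
    congr 2
    exact Finset.sum_congr rfl fun i _ => mul_assoc _ _ _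
  have hdeg : mon Z d * pr Z j t ∈ Z.ℬ m := by
    rw [← hd]
    exact SetLike.mul_mem_graded (mon_deg Z d) (pr_mem Z j t)
  rw [SetLike.mem_coe, ← pr_same Z hdeg, hb, pr_add, pr_add, pr_sum, pr_smul,
    pr_mul Z (F_deg Y) (by omega)]
  refine Submodule.add_mem _ (Submodule.mem_sup_left (Submodule.add_mem _
    (Submodule.mem_sup_left ⟨_, pr_Sm Z (Z.S.mul_mem (hg c) hrS) _, rfl⟩)
    (Submodule.sum_mem _ fun i _ => ?_)))
    (Submodule.mem_sup_right (Submodule.smul_mem_smul (Ideal.mem_span_singleton_self _)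
      (pr_Sm Z (Z.S.mul_mem (hs c) hrS) _)))
  rw [pr_mul Z (zb_deg Y i) (by omega)]
  exact Submodule.mem_sup_right (Submodule.mem_iSup_of_mem i
    ⟨_, pr_Sm Z (Z.S.mul_mem (hh c i) hrS) _, rfl⟩)

/-- the values of the polynomials in `z, F` -/
def vals : Fin 4 → Z.B := ![Y.zb 0, Y.zb 1, Y.zb 2, Y.F]

theorem exists_fin : ∃ T : Finset Z.B, (∀ t ∈ T, t ∈ Z.S) ∧ ∀ s ∈ Z.S,
    s ∈ Submodule.span (Algebra.adjoin Z.V (Set.range (vals Y))) (T : Set Z.B) := by
  classical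
  obtain ⟨T0, j0, hT0, hgen⟩ := exists_gens Z
  obtain ⟨m1, hm1⟩ := exists_big Y
  have hfin : ((Finset.range (m1 + 1)).biUnion fun m => (gens_finite Z T0 j0 m).toFinset :
      Set Z.B) = ⋃ m ∈ Finset.range (m1 + 1), gens Z T0 j0 m := by
    ext b
    simp
  set T : Finset Z.B := (Finset.range (m1 + 1)).biUnion fun m => (gens_finite Z T0 j0 m).toFinset
    with hT
  have hF : Y.F ∈ Algebra.adjoin Z.V (Set.range (vals Y)) := Algebra.subset_adjoin ⟨3, rfl⟩
  have hz : ∀ i : Fin 3, Y.zb i ∈ Algebra.adjoin Z.V (Set.range (vals Y)) := by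
    intro i
    fin_cases i
    · exact Algebra.subset_adjoin ⟨0, rfl⟩
    · exact Algebra.subset_adjoin ⟨1, rfl⟩
    · exact Algebra.subset_adjoin ⟨2, rfl⟩
  have key : ∀ m, ∀ y ∈ Sm Z m,
      y ∈ Submodule.span (Algebra.adjoin Z.V (Set.range (vals Y))) (T : Set Z.B) := by
    intro m
    induction m using Nat.strong_induction_on with
    | _ m ih =>
      intro y hy
      by_cases hm : m ≤ m1
      · rw [hgen m] at hy
        have h1 : Submodule.span Z.V (gens Z T0 j0 m) ≤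
            (Submodule.span (Algebra.adjoin Z.V (Set.range (vals Y)))
              (T : Set Z.B)).restrictScalars Z.V := by
          rw [Submodule.span_le]
          intro b hb
          refine Submodule.subset_span ?_
          rw [hfin]
          exact Set.mem_biUnion (Finset.mem_coe.2 (Finset.mem_range.2 (by omega))) hb
        exact h1 hy
      · have hy' := hm1 m (by omega) hy
        obtain ⟨u, ⟨u', hu', rfl⟩, e, he, rfl⟩ := Submodule.mem_sup.1 hy'
        have hc := Y.c_pos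
        refine Submodule.add_mem _ ?_ ?_
        · have h1 := ih (m - Y.c) (by omega) u' hu'
          exact Submodule.smul_mem _ (⟨Y.F, hF⟩ : Algebra.adjoin Z.V (Set.range (vals Y))) h1
        · have h2 : (⨆ i, (Sm Z (m - 1)).map (LinearMap.mulLeft Z.V (Y.zb i))) ≤
              (Submodule.span (Algebra.adjoin Z.V (Set.range (vals Y)))
              (T : Set Z.B)).restrictScalars Z.V := by
            refine iSup_le fun i => ?_
            rintro _ ⟨u, hu, rfl⟩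
            have h1 := ih (m - 1) (by omega) u hu
            exact Submodule.smul_mem _ (⟨Y.zb i, hz i⟩ :
              Algebra.adjoin Z.V (Set.range (vals Y))) h1
          exact h2 he
  refine ⟨T, ?_, ?_⟩
  · intro t ht
    have h1 : t ∈ (T : Set Z.B) := ht
    rw [hfin] at h1
    simp only [Set.mem_iUnion] at h1
    obtain ⟨m, -, h2⟩ := h1
    have h3 : t ∈ Sm Z m := by
      rw [hgen m]
      exact Submodule.subset_span h2
    exact h3.1
  · intro s hs
    rw [← DirectSum.sum_support_decompose Z.ℬ s]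
    exact Submodule.sum_mem _ fun m _ => key m _ (pr_Sm Z hs m)

end CFI_

open CFI_ in
theorem cfi_proof : Stmt_CFI := by
  intro Z Y
  obtain ⟨T, hT, hs⟩ := exists_fin Y
  constructor
  · refine ⟨T, hT, fun s hsS => ?_⟩
    obtain ⟨f, -, hf⟩ := Submodule.mem_span_finset.1 (hs s hsS)
    have h1 : ∀ t, ∃ P : Po Z.V 4, aeval (vals Y) P = (f t : Z.B) := by
      intro t
      obtain ⟨P, hP⟩ := (Algebra.adjoin_range_eq_range_aeval Z.V (vals Y)).le (f t).2
      exact ⟨P, hP⟩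
    choose P hP using h1
    refine ⟨P, ?_⟩
    rw [← hf]
    refine Finset.sum_congr rfl fun t _ => ?_
    change (f t : Z.B) * t = aeval (vals Y) (P t) * t
    rw [hP]
  · intro b
    have h0 : ∀ s ∈ Z.S, IsIntegral (Algebra.adjoin Z.V (Set.range (vals Y))) s := by
      intro s hsS
      have hle : ∀ u ∈ Submodule.span (Algebra.adjoin Z.V (Set.range (vals Y))) (T : Set Z.B),
          u ∈ Z.S := by
        have hadj : Algebra.adjoin Z.V (Set.range (vals Y)) ≤ Z.S := by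
          rw [Algebra.adjoin_le_iff]
          rintro _ ⟨i, rfl⟩
          fin_cases i
          · exact zb_mem Y 0
          · exact zb_mem Y 1
          · exact zb_mem Y 2
          · exact F_mem Y
        intro u hu
        induction hu using Submodule.span_induction with
        | zero => exact Z.S.zero_mem
        | add p q _ _ hp hq => exact Z.S.add_mem hp hq
        | smul a p _ hp => exact Z.S.mul_mem (hadj a.2) hp
        | mem p hp => exact hT p hp
      refine isIntegral_of_smul_mem_submodule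
        (Submodule.span (Algebra.adjoin Z.V (Set.range (vals Y))) (T : Set Z.B)) ?_
        (Submodule.fg_span T.finite_toSet) s fun u hu => hs _ (Z.S.mul_mem hsS (hle u hu))
      intro hbot
      have h1 := hs 1 Z.S.one_mem
      rw [hbot, Submodule.mem_bot] at h1
      exact one_ne_zero h1
    obtain ⟨k, hk⟩ := Z.S_lat b
    have h1 := h0 _ hk
    have hsub : Algebra.adjoin Z.V (Set.range (vals Y)) ≤
        (Algebra.adjoin Z.K {Y.zb 0, Y.zb 1, Y.zb 2, Y.F}).restrictScalars Z.V := by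
      rw [Algebra.adjoin_le_iff]
      rintro _ ⟨i, rfl⟩
      refine Algebra.subset_adjoin ?_
      fin_cases i
      · exact Or.inl rfl
      · exact Or.inr (Or.inl rfl)
      · exact Or.inr (Or.inr (Or.inl rfl))
      · exact Or.inr (Or.inr (Or.inr rfl))
    have h2 : IsIntegral (Algebra.adjoin Z.K {Y.zb 0, Y.zb 1, Y.zb 2, Y.F}) (Z.ϖ ^ k • b) := by
      obtain ⟨p, hp, hp0⟩ := h1
      refine ⟨p.map (Subalgebra.inclusion hsub).toRingHom, hp.map _, ?_⟩
      rw [Polynomial.eval₂_map]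
      exact hp0
    have h3 : b = algebraMap Z.K Z.B (algebraMap Z.V Z.K (Z.ϖ ^ k))⁻¹ * (Z.ϖ ^ k • b) := by
      rw [Algebra.smul_def, IsScalarTower.algebraMap_apply Z.V Z.K Z.B, ← mul_assoc, ← map_mul,
        inv_mul_cancel₀, map_one, one_mul]
      rw [Ne, map_eq_zero_iff _ (IsFractionRing.injective Z.V Z.K)]
      exact pow_ne_zero _ Z.irr.ne_zero
    rw [h3]
    refine IsIntegral.mul ?_ h2
    exact isIntegral_algebraMap (R := Algebra.adjoin Z.K {Y.zb 0, Y.zb 1, Y.zb 2, Y.F})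
      (x := ⟨_, Subalgebra.algebraMap_mem _ _⟩)

end

end Pool.Agent.RST
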