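import Pool.Agent.RST.Stmts
import Pool.Agent.GML.GRO
import Pool.Agent.GML.QUO
import Pool.Agent.GML.FRE
import Pool.Agent.GML.DIM
import Pool.Agent.GML.CMP
import Pool.Agent.GML.DEG
import Pool.Agent.GML.AGR

/-!
# RST, module CFS: `F B ∩ S = F S`; forms in `z` are not in the ideal of `R`
-/

set_option autoImplicit false

open MvPolynomial Pool.Agent.GML

namespace Pool.Agent.RST

noncomputable section

namespace CFS_

/-! ### homogeneous components -/

section comp

variable {κ : Type} [Field κ]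

theorem comp_mul {s : ℕ} {y : Po κ s} (hy : y.IsHomogeneous 1) (g : Po κ s) (m : ℕ) :
    homogeneousComponent (m + 1) (y * g) = y * homogeneousComponent m g := by
  conv_lhs => rw [← sum_homogeneousComponent g, Finset.mul_sum, map_sum]
  have h1 : ∀ k, homogeneousComponent (m + 1) (y * homogeneousComponent k g) =
      if k = m then y * homogeneousComponent m g else 0 := by
    intro k
    have h1 : (y * homogeneousComponent k g) ∈ homogeneousSubmodule (Fin s) κ (1 + k) :=
      hy.mul (homogeneousComponent_isHomogeneous k g)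
    rw [homogeneousComponent_of_mem h1]
    by_cases h : k = m
    · subst h
      rw [if_pos (by omega), if_pos rfl]
    · rw [if_neg (by omega), if_neg h]
  rw [Finset.sum_congr rfl fun k _ => h1 k, Finset.sum_ite_eq']
  split_ifs with h
  · rfl
  · rw [homogeneousComponent_eq_zero _ _ (by simpa using h), mul_zero]

theorem comp_aeval {s t : ℕ} (z : Fin s → Po κ t) (hz : ∀ i, (z i).IsHomogeneous 1)
    (p : Po κ s) (m : ℕ) :
    homogeneousComponent m (aeval z p : Po κ t) = aeval z (homogeneousComponent m p) := by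
  conv_lhs => rw [← sum_homogeneousComponent p, map_sum, map_sum]
  have h1 : ∀ k, homogeneousComponent m (aeval z (homogeneousComponent k p) : Po κ t) =
      if k = m then aeval z (homogeneousComponent m p) else 0 := by
    intro k
    have h1 : (aeval z (homogeneousComponent k p) : Po κ t) ∈
        homogeneousSubmodule (Fin t) κ (1 * k) :=
      (homogeneousComponent_isHomogeneous k p).aeval z hz
    rw [homogeneousComponent_of_mem h1]
    by_cases h : k = m
    · subst h
      rw [if_pos (by omega), if_pos rfl]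
    · rw [if_neg (by omega), if_neg h]
  rw [Finset.sum_congr rfl fun k _ => h1 k, Finset.sum_ite_eq']
  split_ifs with h
  · rfl
  · rw [homogeneousComponent_eq_zero _ _ (by simpa using h), map_zero]

/-- graded Nakayama -/
theorem nak {n s : ℕ} (I : Ideal (Po κ n)) (hI : HomI I) (y : Fin s → Po κ n)
    (hy : ∀ i, (y i).IsHomogeneous 1)
    (hN : ∀ c, ∃ N : ℕ, (X c : Po κ n) ^ N ∈ I ⊔ Ideal.span (Set.range y)) :
    ∃ m₀ : ℕ, ∀ (m : ℕ) (f : Po κ n), m₀ < m → f.IsHomogeneous m →
      ∃ g : Fin s → Po κ n, (∀ i, (g i).IsHomogeneous (m - 1)) ∧ f - ∑ i, y i * g i ∈ I := by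
  classical
  choose N hN using hN
  refine ⟨∑ c, N c, fun m f hm hf => ?_⟩
  -- `f` is in the ideal
  have h1 : f ∈ I ⊔ Ideal.span (Set.range y) := by
    rw [f.as_sum]
    refine Ideal.sum_mem _ fun d hd => ?_
    have hdeg : d.degree = m := hf.degree_eq_sum_deg_support hd ▸ rfl
    have hdeg' : ∑ c, N c < ∑ c, d c := by
      rw [Finsupp.degree_eq_sum] at hdeg
      omega
    obtain ⟨c, -, hc⟩ := Finset.exists_lt_of_sum_lt hdeg'
    have h2 : monomial d (coeff d f) =
        (X c : Po κ n) ^ N c * monomial (d - Finsupp.single c (N c)) (coeff d f) := by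
      rw [X_pow_eq_monomial, monomial_mul, one_mul, add_tsub_cancel_of_le]
      rw [Finsupp.single_le_iff]
      exact hc.le
    rw [h2]
    exact Ideal.mul_mem_right _ _ (hN c)
  obtain ⟨i, hi, j, hj, rfl⟩ := Submodule.mem_sup.1 h1
  obtain ⟨g, rfl⟩ := Ideal.mem_span_range_iff_exists_fun.1 hj
  obtain ⟨m', rfl⟩ : ∃ m', m = m' + 1 := ⟨m - 1, by omega⟩
  refine ⟨fun i => homogeneousComponent m' (g i),
    fun i => homogeneousComponent_isHomogeneous m' (g i), ?_⟩
  have h3 := homogeneousComponent_eq_self hf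
  rw [map_add, map_sum] at h3
  have h4 : ∀ k, homogeneousComponent (m' + 1) (g k * y k) =
      y k * homogeneousComponent m' (g k) := fun k => by
    rw [mul_comm, comp_mul (hy k)]
  rw [Finset.sum_congr rfl fun k _ => h4 k] at h3
  rw [← h3, add_sub_cancel_right]
  exact hI i hi _

end comp

/-! ### growth -/

section growth

variable {κ : Type} [Field κ] {n : ℕ}

/-- the polynomial ring as a graded module over itself -/
def Am (κ : Type) [Field κ] (n : ℕ) : GMod κ n where
  M := Po κ n
  gr := Agr κ n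
  int := agr_proof.1 κ n
  mul_mem := fun i k x hx => by
    have h1 : (X i : Po κ n) ∈ Agr κ n 1 := by
      unfold Agr
      rw [if_pos (by norm_num)]
      exact isHomogeneous_X κ i
    have := agr_proof.2.1 κ n 1 k _ _ h1 hx
    rw [add_comm] at this
    exact this

theorem mem_Agr {m : ℕ} {f : Po κ n} (hf : f.IsHomogeneous m) : f ∈ Agr κ n (m : ℤ) := by
  unfold Agr
  rw [if_pos (Int.natCast_nonneg m), Int.toNat_natCast]
  exact hf

theorem isHom {I : Ideal (Po κ n)} (hI : HomI I) :
    IsHom (Am κ n) (I : Submodule (Po κ n) (Po κ n)) := by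
  unfold IsHom
  apply le_antisymm
  · exact Submodule.span_le.2 fun x hx => hx.1
  · intro x hx
    have h1 : x = ∑ i ∈ Finset.range (x.totalDegree + 1), homogeneousComponent i x :=
      (sum_homogeneousComponent x).symm
    rw [h1]
    refine Submodule.sum_mem _ fun i _ => Submodule.subset_span ⟨hI x hx i, (i : ℤ), ?_⟩
    exact mem_Agr (homogeneousComponent_isHomogeneous i x)

/-- restriction of a graded module to a polynomial ring in linear forms -/
def res {s : ℕ} (y : Fin s → Po κ n) (M : GMod κ n)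
    (hy : ∀ (i : Fin s) (k : ℤ) (x : M.M), x ∈ M.gr k → y i • x ∈ M.gr (k + 1)) : GMod κ s :=
  letI : Module (Po κ s) M.M := Module.compHom M.M (aeval y : Po κ s →ₐ[κ] Po κ n).toRingHom
  { M := M.M
    mdA := Module.compHom M.M (aeval y : Po κ s →ₐ[κ] Po κ n).toRingHom
    tow := ⟨fun a p x => by
      show (aeval y (a • p) : Po κ n) • x = a • ((aeval y p : Po κ n) • x)
      rw [map_smul, smul_assoc]⟩
    gr := M.gr
    int := M.int
    mul_mem := fun i k x hx => by
      show (aeval y (X i : Po κ s) : Po κ n) • x ∈ M.gr (k + 1)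
      rw [aeval_X]
      exact hy i k x hx }

theorem growth (I : Ideal (Po κ n)) (hI : HomI I) (y : Fin 4 → Po κ n)
    (hy : ∀ i, (y i).IsHomogeneous 1)
    (hN : ∀ c, ∃ N : ℕ, (X c : Po κ n) ^ N ∈ I ⊔ Ideal.span (Set.range y))
    (p : Po κ 4) (hp : p ≠ 0) (hpI : (aeval y p : Po κ n) ∈ I) :
    ∃ C : ℕ, ∀ m : ℕ, hf I m ≤ C * (m + 1) ^ 2 := by
  classical
  obtain ⟨Q, q, hq, hker, hgr⟩ := quo_proof cmp_proof κ n (Am κ n) I (isHom hI)
  have hIq : ∀ f : Po κ n, f ∈ I → q.f f = 0 := fun f hf => by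
    have : f ∈ LinearMap.ker q.f := by rw [hker]; exact hf
    exact this
  have hmul : ∀ (f g : Po κ n), q.f (f * g) = f • q.f g := fun f g => q.f.map_smul f g
  have hyQ : ∀ (i : Fin 4) (k : ℤ) (x : Q.M), x ∈ Q.gr k → y i • x ∈ Q.gr (k + 1) := by
    intro i k x hx
    obtain ⟨f, hf, rfl⟩ := hgr k x hx
    rw [← q.f.map_smul]
    apply q.deg
    have h1 : (y i : Po κ n) ∈ Agr κ n 1 := by
      have := mem_Agr (hy i)
      exact_mod_cast this
    have := agr_proof.2.1 κ n 1 k _ _ h1 hf
    rw [add_comm] at this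
    exact this
  let M : GMod κ 4 := res y Q hyQ
  have hkill : ∀ (f : Po κ n), f ∈ I → ∀ x : Q.M, f • x = 0 := by
    intro f hf x
    obtain ⟨g, rfl⟩ := hq x
    rw [← q.f.map_smul]
    exact hIq _ (Ideal.mul_mem_right _ _ hf)
  let u : Po κ n →ₗ[κ] M.M := (q.f.restrictScalars κ : Po κ n →ₗ[κ] Q.M)
  have husurj : Function.Surjective u := hq
  have huI : ∀ f ∈ I, u f = 0 := hIq
  have huy : ∀ (i : Fin 4) (g : Po κ n), u (y i * g) = (X i : Po κ 4) • u g := by
    intro i g
    have h1 : (aeval y (X i : Po κ 4) : Po κ n) = y i := aeval_X _ _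
    have h2 : ((X i : Po κ 4) • u g : M.M) = ((aeval y (X i : Po κ 4) : Po κ n) • q.f g : Q.M) := rfl
    rw [h2, h1]
    exact hmul (y i) g
  -- finiteness
  obtain ⟨m₀, hnak⟩ := nak I hI y hy hN
  have hfin : Module.Finite (Po κ 4) M.M := by
    have hfg : (⨆ k ∈ Finset.range (m₀ + 1), homogeneousSubmodule (Fin n) κ k).FG :=
      Submodule.fg_biSup _ _ fun k _ => homogeneousSubmodule_fg _ _ k
    obtain ⟨T, hT⟩ := hfg
    refine ⟨⟨T.image u, ?_⟩⟩
    set N' := Submodule.span (Po κ 4) (↑(T.image u) : Set M.M) with hN'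
    have hspan : ∀ f ∈ Submodule.span κ (T : Set (Po κ n)), u f ∈ N' := by
      intro f hf
      induction hf using Submodule.span_induction with
      | mem x hx =>
        apply Submodule.subset_span
        rw [Finset.coe_image]
        exact ⟨x, hx, rfl⟩
      | zero =>
        rw [map_zero]
        exact N'.zero_mem
      | add a b _ _ ha hb =>
        rw [map_add]
        exact N'.add_mem ha hb
      | smul a b _ hb =>
        rw [map_smul]
        exact Submodule.smul_of_tower_mem N' a hb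
    have key : ∀ (m : ℕ) (f : Po κ n), f.IsHomogeneous m → u f ∈ N' := by
      intro m
      induction m using Nat.strong_induction_on with
      | _ m ih =>
        intro f hf
        by_cases hm : m ≤ m₀
        · apply hspan
          rw [hT]
          exact Submodule.mem_iSup_of_mem m (Submodule.mem_iSup_of_mem
            (Finset.mem_range.2 (by omega)) hf)
        · obtain ⟨g, hg, hgI⟩ := hnak m f (not_le.1 hm) hf
          have h1 := huI _ hgI
          rw [map_sub, sub_eq_zero, map_sum] at h1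
          rw [h1]
          refine Submodule.sum_mem _ fun i _ => ?_
          rw [huy]
          exact N'.smul_mem _ (ih (m - 1) (by omega) _ (hg i))
    rw [eq_top_iff]
    rintro x -
    obtain ⟨f, rfl⟩ := husurj x
    have h1 : f = ∑ i ∈ Finset.range (f.totalDegree + 1), homogeneousComponent i f :=
      (sum_homogeneousComponent f).symm
    rw [h1, map_sum]
    exact Submodule.sum_mem _ fun i _ => key i _ (homogeneousComponent_isHomogeneous i f)
  -- the rank
  have hrank : Module.finrank (Po κ 4) M.M = 0 := by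
    apply Module.finrank_eq_zero_of_rank_eq_zero
    rw [rank_eq_zero_iff]
    intro x
    exact ⟨p, hp, hkill _ hpI x⟩
  have cmp := cmp_proof
  have deg := deg_proof cmp
  have agr := agr_proof
  obtain ⟨h1, -, C, hC⟩ := gro_proof agr cmp (fre_proof cmp deg) (dim_proof agr cmp) deg
    (quo_proof cmp) κ 2 M hfin
  refine ⟨C, fun m => ?_⟩
  have h2 := hC m
  rw [hrank] at h2
  have h3 : (Module.finrank κ (M.gr m) : ℤ) ≤ C * ((m : ℤ) + 1) ^ 2 := by
    have := (abs_le.1 h2).2
    simpa using this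
  have h4 : hf I m ≤ Module.finrank κ (Q.gr (m : ℤ)) := by
    have : Module.Finite κ (Q.gr (m : ℤ)) := h1 m
    -- the isomorphism
    let qf : Po κ n →ₗ[Po κ n] Q.M := q.f
    have hqf : (I : Submodule (Po κ n) (Po κ n)) = LinearMap.ker qf := hker.symm
    let φ : (Po κ n ⧸ I) ≃ₗ[Po κ n] Q.M :=
      (Submodule.quotEquivOfEq _ _ hqf).trans (qf.quotKerEquivOfSurjective hq)
    have hφ : ∀ f, φ (Ideal.Quotient.mk I f) = q.f f := fun f => rfl
    let ψ : (Po κ n ⧸ I) ≃ₗ[κ] Q.M := φ.restrictScalars κ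
    unfold hf
    rw [← LinearEquiv.finrank_map_eq ψ]
    apply Submodule.finrank_mono
    rintro _ ⟨_, ⟨f, hf, rfl⟩, rfl⟩
    exact q.deg m f (mem_Agr hf)
  have h6 : Module.finrank κ (Q.gr (m : ℤ)) = Module.finrank κ (M.gr (m : ℤ)) := rfl
  rw [h6] at h4
  have h5 : (hf I m : ℤ) ≤ C * ((m : ℤ) + 1) ^ 2 := le_trans (by exact_mod_cast h4) h3
  exact_mod_cast h5

/-- forms in `z` are not in the ideal of `R` -/
theorem zform (D : XD κ n) (z : Fin 3 → Po κ n) (hz : Zp D z) (p : Po κ 3) (hp : p ≠ 0) :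
    (aeval z p : Po κ n) ∉ D.IX := by
  classical
  intro hpI
  have hI : HomI D.IX := by
    intro f hf d
    show emb κ n (homogeneousComponent d f) ∈ D.I'
    have : emb κ n (homogeneousComponent d f) = homogeneousComponent d (emb κ n f) :=
      rename_homogeneousComponent d f
    rw [this]
    exact D.hom _ hf d
  let y : Fin 4 → Po κ n := ![z 0, z 1, z 2, X D.c₀]
  have hzy : ∀ i : Fin 3, y (Fin.castSucc i) = z i := by
    intro i
    fin_cases i <;> rfl
  obtain ⟨C, hC⟩ := growth D.IX hI y (by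
    intro i
    fin_cases i
    · exact hz.1 0
    · exact hz.1 1
    · exact hz.1 2
    · exact isHomogeneous_X κ D.c₀) (by
    intro c
    obtain ⟨N, hN⟩ := hz.2 c
    refine ⟨N, ?_⟩
    have h1 : D.IX ⊔ Ideal.span {(X D.c₀ : Po κ n)} ⊔ Ideal.span (Set.range z) ≤
        D.IX ⊔ Ideal.span (Set.range y) := by
      refine sup_le (sup_le le_sup_left ?_) ?_
      · refine le_trans ?_ le_sup_right
        rw [Ideal.span_le, Set.singleton_subset_iff]
        exact Ideal.subset_span ⟨3, rfl⟩
      · refine le_trans ?_ le_sup_right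
        rw [Ideal.span_le]
        rintro _ ⟨i, rfl⟩
        exact Ideal.subset_span ⟨Fin.castSucc i, hzy i⟩
    exact h1 hN) (rename Fin.castSucc p) (by
    intro h
    exact hp (rename_injective _ (Fin.castSucc_injective 3) (by rw [h, map_zero]))) (by
    rw [aeval_rename]
    have : (y ∘ Fin.castSucc) = z := funext hzy
    rw [this]
    exact hpI)
  obtain ⟨m, hm⟩ := D.big C
  exact absurd (hC m) (not_le.2 hm)

end growth

section two

variable (Z : Ctx)

theorem aev_mem (G : Po Z.V Z.n) : aeval Z.x G ∈ Z.S := by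
  have h2 := (Algebra.adjoin_le (S := Z.S) (by rintro _ ⟨c, rfl⟩; exact Z.x_mem c) :
    Algebra.adjoin Z.V (Set.range Z.x) ≤ Z.S)
  apply h2
  rw [Algebra.adjoin_range_eq_range_aeval]
  exact ⟨G, rfl⟩

theorem aev_deg {m : ℕ} {G : Po Z.V Z.n} (hG : G.IsHomogeneous m) : aeval Z.x G ∈ Z.ℬ m := by
  classical
  rw [aeval_def, eval₂_eq']
  refine Submodule.sum_mem _ fun d hd => ?_
  have hdeg : ∑ i, d i = m := by
    have := hG.degree_eq_sum_deg_support hd
    rw [← Finsupp.degree_eq_sum]
    exact this.symm ▸ rfl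
  have h1 : algebraMap Z.V Z.B (coeff d G) = algebraMap Z.K Z.B (algebraMap Z.V Z.K (coeff d G)) :=
    IsScalarTower.algebraMap_apply Z.V Z.K Z.B _
  rw [h1, ← Algebra.smul_def]
  refine Submodule.smul_mem _ _ ?_
  have h2 := SetLike.prod_pow_mem_graded Z.ℬ (F := Finset.univ) (i := fun _ : Fin Z.n => 1)
    (g := Z.x) (fun i => d i) (fun k _ => Z.x_deg k)
  have h3 : ∑ k : Fin Z.n, d k • 1 = m := by
    rw [← hdeg]
    exact Finset.sum_congr rfl fun k _ => by simp
  rw [h3] at h2
  exact h2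

theorem pi_inj (b b' : Z.B) (h : Z.ϖ • b = Z.ϖ • b') : b = b' := by
  have h1 : algebraMap Z.V Z.K Z.ϖ ≠ 0 := by
    intro h
    exact Z.irr.ne_zero ((IsFractionRing.injective Z.V Z.K) (by rw [h, map_zero]))
  rw [← algebraMap_smul Z.K Z.ϖ b, ← algebraMap_smul Z.K Z.ϖ b'] at h
  exact (smul_right_injective Z.B h1) h

theorem main1 (G : Po Z.V Z.n) (hG : MvPolynomial.map Z.σ G ∉ Z.D.IX) : aeval Z.x G ≠ 0 ∧
    ∀ b : Z.B, aeval Z.x G * b ∈ Z.S → b ∈ Z.S := by
  constructor
  · intro h
    obtain ⟨s', hs', h1⟩ := Z.red1 G hG 1 Z.S.one_mem ⟨0, Z.S.zero_mem, by rw [h]; simp⟩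
    exact Z.S_one s' hs' h1.symm
  · intro b hb
    obtain ⟨k, hk⟩ := Z.S_lat b
    induction k with
    | zero => simpa using hk
    | succ k ih =>
      apply ih
      obtain ⟨s', hs', h1⟩ := Z.red1 G hG (Z.ϖ ^ (k + 1) • b) hk
        ⟨Z.ϖ ^ k • (aeval Z.x G * b), Z.S.smul_mem hb _, by
          rw [mul_smul_comm, smul_smul, ← pow_succ']⟩
      have h2 : Z.ϖ ^ k • b = s' := pi_inj Z _ _ (by rw [← h1, smul_smul, ← pow_succ'])
      rw [h2]
      exact hs'

end two

end CFS_

open CFS_ in
theorem cfs_proof : Stmt_CFS := by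
  refine ⟨fun Z G hG => main1 Z G hG, ?_⟩
  intro Z Y
  have hc : MvPolynomial.map Z.σ Y.G ∉ Z.D.IX := by
    rw [Y.G_red]
    intro h
    have h1 : emb Z.κ Z.n (X Z.D.c₀ ^ Y.c) ∈ Z.D.I' := h
    rw [map_pow] at h1
    have h2 := Z.D.prime.mem_of_pow_mem _ h1
    apply Z.D.c₀I
    have h3 : emb Z.κ Z.n (X Z.D.c₀) = X (Fin.castSucc Z.D.c₀) := rename_X _ _
    rwa [h3] at h2
  obtain ⟨h1, h2⟩ := main1 Z Y.G hc
  refine ⟨h1, Y.G_mem, aev_mem Z Y.G, aev_deg Z Y.G_hom, h2,
    fun i => ⟨aev_mem Z (Y.z i), aev_deg Z (Y.z_hom i)⟩, ?_⟩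
  intro P hP
  have h3 : MvPolynomial.map Z.σ (aeval Y.z P) =
      aeval (fun i => MvPolynomial.map Z.σ (Y.z i)) (MvPolynomial.map Z.σ P) := by
    have : ((MvPolynomial.map Z.σ).comp (aeval Y.z : Po Z.V 3 →ₐ[Z.V] Po Z.V Z.n).toRingHom) =
        ((aeval (fun i => MvPolynomial.map Z.σ (Y.z i)) :
          Po Z.κ 3 →ₐ[Z.κ] Po Z.κ Z.n).toRingHom).comp (MvPolynomial.map Z.σ) := by
      apply MvPolynomial.ringHom_ext
      · intro r
        simp
      · intro i
        simp
    exact congrArg (fun f => f P) this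
  rw [h3]
  exact zform Z.D _ Y.z_par _ hP

end

end Pool.Agent.RST
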