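import Pool.Agent.RST.Stmts

/-!
# RST, module CST: the submodules are homogeneous and stable
-/

set_option autoImplicit false

open MvPolynomial Pool.Agent.GML

namespace Pool.Agent.RST

namespace CST_

lemma smul_eq (Z : Ctx) (v : Z.V) (y : Z.B) : v • y = algebraMap Z.V Z.K v • y := by
  rw [algebraMap_smul]

lemma proj_smul (Z : Ctx) (v : Z.V) (y : Z.B) (m : ℕ) :
    GradedRing.proj Z.ℬ m (v • y) = v • GradedRing.proj Z.ℬ m y := by
  rw [smul_eq, smul_eq, GradedRing.proj_apply, GradedRing.proj_apply, DirectSum.decompose_smul]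
  rfl

lemma proj_mul (Z : Ctx) (i : ℕ) (a y : Z.B) (ha : a ∈ Z.ℬ i) (m : ℕ) :
    GradedRing.proj Z.ℬ m (a * y) = a * (if i ≤ m then GradedRing.proj Z.ℬ (m - i) y else 0) := by
  rw [GradedRing.proj_apply, DirectSum.coe_decompose_mul_of_left_mem Z.ℬ m ha]
  split_ifs with h
  · rw [GradedRing.proj_apply]
  · rw [mul_zero]

lemma proj_mul_add (Z : Ctx) (i : ℕ) (a y : Z.B) (ha : a ∈ Z.ℬ i) (m : ℕ) :
    GradedRing.proj Z.ℬ (m + i) (a * y) = a * GradedRing.proj Z.ℬ m y := by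
  rw [proj_mul Z i a y ha, if_pos (Nat.le_add_left i m), Nat.add_sub_cancel]

lemma aeval_x_mem (Z : Ctx) (G : Po Z.V Z.n) : aeval Z.x G ∈ Z.S := by
  have h2 := (Algebra.adjoin_le (S := Z.S) (by rintro _ ⟨c, rfl⟩; exact Z.x_mem c) :
    Algebra.adjoin Z.V (Set.range Z.x) ≤ Z.S)
  apply h2
  rw [Algebra.adjoin_range_eq_range_aeval]
  exact ⟨G, rfl⟩

lemma aeval_hom_mem (Z : Ctx) {r : ℕ} (f : Fin r → Z.B) (hf : ∀ i, f i ∈ Z.ℬ 1) (P : Po Z.V r)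
    (k : ℕ) (hP : P.IsHomogeneous k) : aeval f P ∈ Z.ℬ k := by
  rw [MvPolynomial.aeval_def, MvPolynomial.eval₂_eq]
  refine Submodule.sum_mem _ fun d hd => ?_
  rw [← Algebra.smul_def, smul_eq]
  refine Submodule.smul_mem _ _ ?_
  have h1 : ∏ i ∈ d.support, f i ^ d i ∈ Z.ℬ (∑ i ∈ d.support, d i) := by
    refine SetLike.prod_mem_graded (A := Z.ℬ) _ _ fun i _ => ?_
    have h2 := SetLike.pow_mem_graded (A := Z.ℬ) (d i) (hf i)
    rwa [smul_eq_mul, mul_one] at h2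
  have h3 : ∑ i ∈ d.support, d i = k := by
    have h4 := hP (mem_support_iff.mp hd)
    rw [← h4, Finsupp.weight_apply, Finsupp.sum]
    simp
  rwa [h3] at h1

end CST_

theorem cst_proof (hCFS : Stmt_CFS) : Stmt_CST := by
  intro Z Y
  obtain ⟨-, hFq, hFS, hFd, -, hz, -⟩ := hCFS.2 Z Y
  have hS : St (mS Z) := by
    refine ⟨fun G y hy => ?_, fun y hy m => Z.S_hom y hy m⟩
    exact Z.S.mul_mem (CST_.aeval_x_mem Z G) hy
  have hW : St (mW Z) := by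
    refine ⟨?_, ?_⟩
    · rintro G _ ⟨s, hs, rfl⟩
      exact ⟨aeval Z.x G * s, Z.S.mul_mem (CST_.aeval_x_mem Z G) hs, by rw [mul_smul_comm]⟩
    · rintro _ ⟨s, hs, rfl⟩ m
      exact ⟨GradedRing.proj Z.ℬ m s, Z.S_hom s hs m, CST_.proj_smul Z _ _ _⟩
  have hF : St (mF Y) := by
    refine ⟨?_, ?_⟩
    · rintro G _ ⟨s, hs, s', hs', rfl⟩
      refine ⟨aeval Z.x G * s, Z.S.mul_mem (CST_.aeval_x_mem Z G) hs, aeval Z.x G * s',
        Z.S.mul_mem (CST_.aeval_x_mem Z G) hs', ?_⟩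
      rw [mul_add, mul_smul_comm, mul_left_comm]
    · rintro _ ⟨s, hs, s', hs', rfl⟩ m
      refine ⟨if Y.c ≤ m then GradedRing.proj Z.ℬ (m - Y.c) s else 0, ?_,
        GradedRing.proj Z.ℬ m s', Z.S_hom s' hs' m, ?_⟩
      · split_ifs
        · exact Z.S_hom s hs _
        · exact Z.S.zero_mem
      · rw [map_add, CST_.proj_smul, CST_.proj_mul Z Y.c Y.F s hFd]
  have hQ : St (mQ Z) := by
    refine ⟨?_, ?_⟩
    · rintro G _ ⟨s, hs, hq, s', hs', rfl⟩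
      refine ⟨aeval Z.x G * s, Z.S.mul_mem (CST_.aeval_x_mem Z G) hs, Z.q.mul_mem_left _ hq,
        aeval Z.x G * s', Z.S.mul_mem (CST_.aeval_x_mem Z G) hs', ?_⟩
      rw [mul_add, mul_smul_comm]
    · rintro _ ⟨s, hs, hq, s', hs', rfl⟩ m
      refine ⟨GradedRing.proj Z.ℬ m s, Z.S_hom s hs m, ?_, GradedRing.proj Z.ℬ m s',
        Z.S_hom s' hs' m, ?_⟩
      · rw [GradedRing.proj_apply]
        exact Z.q_hom m hq
      · rw [map_add, CST_.proj_smul]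
  have hM : St (mM Y) := by
    refine ⟨?_, ?_⟩
    · rintro G y ⟨hq, k, P, hk, hP, s, hs, b, h⟩
      refine ⟨Z.q.mul_mem_left _ hq, k, P, hk, hP, aeval Z.x G * s,
        Z.S.mul_mem (CST_.aeval_x_mem Z G) hs, aeval Z.x G * b, ?_⟩
      rw [mul_left_comm, h]
      ring
    · rintro y ⟨hq, k, P, hk, hP, s, hs, b, h⟩ m
      have hPd : aeval Y.zb P ∈ Z.ℬ k := CST_.aeval_hom_mem Z Y.zb (fun i => (hz i).2) P k hk
      refine ⟨?_, k, P, hk, hP, GradedRing.proj Z.ℬ (m + k) s, Z.S_hom s hs _,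
        if Y.c ≤ m + k then GradedRing.proj Z.ℬ (m + k - Y.c) b else 0, ?_⟩
      · rw [GradedRing.proj_apply]
        exact Z.q_hom m hq
      · rw [← CST_.proj_mul_add Z k _ y hPd m, h, map_add, CST_.proj_mul Z Y.c Y.F b hFd]
  have hM1 : St (mM1 Y) := by
    refine ⟨?_, ?_⟩
    · rintro G _ ⟨m, hm, b, rfl⟩
      refine ⟨aeval Z.x G * m, hM.mul G m hm, aeval Z.x G * b, ?_⟩
      rw [mul_add, mul_smul_comm, mul_left_comm]
    · rintro _ ⟨m', hm', b, rfl⟩ m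
      refine ⟨GradedRing.proj Z.ℬ m m', hM.hom m' hm' m,
        if Y.c ≤ m then GradedRing.proj Z.ℬ (m - Y.c) b else 0, ?_⟩
      rw [map_add, CST_.proj_smul, CST_.proj_mul Z Y.c Y.F b hFd]
  refine ⟨hS, hW, hF, hQ, hM, hM1, ?_, ?_, ?_, ?_, ?_, ?_⟩
  · rintro _ ⟨s, hs, rfl⟩
    exact ⟨0, Z.S.zero_mem, s, hs, by rw [mul_zero, zero_add]⟩
  · rintro _ ⟨s, hs, s', hs', rfl⟩
    exact ⟨Y.F * s, Z.S.mul_mem hFS hs, Z.q.mul_mem_right _ hFq, s', hs', rfl⟩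
  · rintro _ ⟨s, hs, hq, s', hs', rfl⟩
    exact Z.S.add_mem hs (Z.S.smul_mem hs' _)
  · rintro _ ⟨m, ⟨hq, k, P, hk, hP, s, hs, b', h⟩, b, rfl⟩
    refine ⟨Z.q.add_mem ?_ (Z.q.mul_mem_right _ hFq), k, P, hk, hP, Z.ϖ • s, Z.S.smul_mem hs _,
      Z.ϖ • b' + aeval Y.zb P * b, ?_⟩
    · rw [Algebra.smul_def]
      exact Z.q.mul_mem_left _ hq
    · rw [mul_add, mul_smul_comm, h, smul_add, mul_add, mul_smul_comm]
      ring
  · exact fun y hy => ⟨y, hy, rfl⟩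
  · exact fun y hy => ⟨y, hy, 0, by rw [mul_zero, add_zero]⟩

end Pool.Agent.RST
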