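import Pool.Agent.RST.Stmts

/-!
# RST: `B / F B` is torsion free over `K[z]`
-/

set_option autoImplicit false

namespace Pool.Agent.RST

open MvPolynomial Pool.Agent.GML

namespace CTF_

/-- the key algebra: `R` an integrally closed domain, `B` an integral extension -/
lemma key {R B L : Type} [CommRing R] [IsDomain R] [IsIntegrallyClosed R] [CommRing B] [IsDomain B]
    [IsIntegrallyClosed B] [Algebra R B] [Module.IsTorsionFree R B] [Field L] [Algebra B L]
    [IsFractionRing B L] [Algebra R L] [IsScalarTower R B L]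
    (hint : ∀ b : B, IsIntegral R b) (F P : R) (hF : Prime F) (hFP : ¬ F ∣ P) (b b' : B)
    (h : P • b = F • b') : ∃ y : B, b = F • y := by
  have hP0 : P ≠ 0 := fun h0 => hFP (h0 ▸ dvd_zero F)
  have h1 := IsIntegrallyClosed.minpoly_smul hP0 (hint b)
  have h2 := IsIntegrallyClosed.minpoly_smul hF.ne_zero (hint b')
  rw [h, h2] at h1
  have hdeg : (minpoly R b').natDegree = (minpoly R b).natDegree := by
    have := congrArg Polynomial.natDegree h1
    rwa [Polynomial.natDegree_scaleRoots, Polynomial.natDegree_scaleRoots] at this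
  set n := (minpoly R b).natDegree with hn
  have hdvd : ∀ i, F ^ (n - i) ∣ (minpoly R b).coeff i := by
    intro i
    have := congrArg (fun q => Polynomial.coeff q i) h1
    simp only [Polynomial.coeff_scaleRoots, hdeg, ← hn] at this
    have h3 : F ^ (n - i) ∣ (minpoly R b).coeff i * P ^ (n - i) := by
      rw [← this]
      exact dvd_mul_left _ _
    refine (hF.pow_dvd_of_dvd_mul_right (n - i) (fun h4 => hFP (hF.dvd_of_dvd_pow h4)) h3)
  choose e he using hdvd
  let q : Polynomial R := ∑ i ∈ Finset.range (n + 1), Polynomial.monomial i (e i)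
  have hqc : ∀ i, i ≤ n → q.coeff i = e i := by
    intro i hi
    simp only [q, Polynomial.finsetSum_coeff, Polynomial.coeff_monomial]
    rw [Finset.sum_ite_eq' (Finset.range (n + 1)) i]
    rw [if_pos (Finset.mem_range.2 (by omega))]
  have hen : e n = 1 := by
    have h3 := he n
    rw [Nat.sub_self, pow_zero, one_mul] at h3
    rw [← h3]
    exact minpoly.monic (hint b)
  have hqm : q.Monic := by
    apply Polynomial.monic_of_natDegree_le_of_coeff_eq_one n
    · apply Polynomial.natDegree_sum_le_of_forall_le
      intro i hi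
      exact (Polynomial.natDegree_monomial_le _).trans (by
        have := Finset.mem_range.1 hi; omega)
    · rw [hqc n le_rfl, hen]
  have hF0 : algebraMap R L F ≠ 0 := by
    rw [IsScalarTower.algebraMap_apply R B L]
    intro h0
    have h3 := (IsFractionRing.injective B L) (h0.trans (map_zero _).symm)
    exact hF.ne_zero ((FaithfulSMul.algebraMap_injective R B) (h3.trans (map_zero _).symm))
  have hx : IsIntegral R (algebraMap B L b / algebraMap R L F) := by
    refine ⟨q, hqm, ?_⟩
    have h3 : Polynomial.aeval b (minpoly R b) = 0 := minpoly.aeval _ _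
    rw [Polynomial.aeval_eq_sum_range] at h3
    have h4 := congrArg (algebraMap B L) h3
    rw [map_sum, map_zero] at h4
    have h5 : Polynomial.eval₂ (algebraMap R L) (algebraMap B L b / algebraMap R L F) q *
        (algebraMap R L F) ^ n = 0 := by
      rw [← h4]
      simp only [q, Polynomial.eval₂_finsetSum, Polynomial.eval₂_monomial, Finset.sum_mul]
      refine Finset.sum_congr rfl fun i hi => ?_
      have hi' : i ≤ n := by have := Finset.mem_range.1 hi; omega
      rw [he i, Algebra.smul_def, map_mul, map_pow, ← IsScalarTower.algebraMap_apply, map_mul,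
        map_pow, div_pow]
      have h6 : (algebraMap R L F) ^ n = (algebraMap R L F) ^ (n - i) * (algebraMap R L F) ^ i := by
        rw [← pow_add, Nat.sub_add_cancel hi']
      rw [h6]
      field_simp
    exact (mul_eq_zero.1 h5).resolve_right (pow_ne_zero _ hF0)
  have hxB : IsIntegral B (algebraMap B L b / algebraMap R L F) := hx.tower_top
  obtain ⟨y, hy⟩ := IsIntegrallyClosed.isIntegral_iff.1 hxB
  refine ⟨y, (IsFractionRing.injective B L) ?_⟩
  rw [Algebra.smul_def, map_mul, hy, ← IsScalarTower.algebraMap_apply]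
  field_simp

end CTF_

theorem ctf_proof (hCFI : Stmt_CFI) (hCAI : Stmt_CAI) : Stmt_CTF := by
  intro Z Y P hP b hb
  obtain ⟨b', hb'⟩ := hb
  let u : Fin 4 → Z.B := ![Y.zb 0, Y.zb 1, Y.zb 2, Y.F]
  have hind : AlgebraicIndependent Z.K u := hCAI Z Y
  have hint := (hCFI Z Y).2
  let R := Po Z.K 4
  let φ : R →ₐ[Z.K] Z.B := aeval u
  let _ : Algebra R Z.B := φ.toRingHom.toAlgebra
  let _ : Algebra R Z.L := ((algebraMap Z.B Z.L).comp φ.toRingHom).toAlgebra
  have _ : IsScalarTower R Z.B Z.L := IsScalarTower.of_algebraMap_eq fun _ => rfl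
  have hinj : Function.Injective (algebraMap R Z.B) := hind
  have _ : FaithfulSMul R Z.B := (faithfulSMul_iff_algebraMap_injective R Z.B).2 hinj
  have hint' : ∀ b : Z.B, IsIntegral R b := by
    intro b
    have h1 := hint b
    have h2 : Algebra.adjoin Z.K {Y.zb 0, Y.zb 1, Y.zb 2, Y.F} = φ.range := by
      rw [← Algebra.adjoin_range_eq_range_aeval]
      congr 1
      ext y
      simp only [Set.mem_insert_iff, Set.mem_singleton_iff, Set.mem_range, u]
      constructor
      · rintro (rfl | rfl | rfl | rfl)
        · exact ⟨0, rfl⟩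
        · exact ⟨1, rfl⟩
        · exact ⟨2, rfl⟩
        · exact ⟨3, rfl⟩
      · rintro ⟨i, rfl⟩
        fin_cases i
        · exact Or.inl rfl
        · exact Or.inr (Or.inl rfl)
        · exact Or.inr (Or.inr (Or.inl rfl))
        · exact Or.inr (Or.inr (Or.inr rfl))
    rw [h2] at h1
    let _ : Algebra R φ.range := φ.rangeRestrict.toRingHom.toAlgebra
    have _ : IsScalarTower R φ.range Z.B := IsScalarTower.of_algebraMap_eq fun _ => rfl
    have _ : Algebra.IsIntegral R φ.range :=
      ⟨RingHom.isIntegral_of_surjective _ φ.rangeRestrict_surjective⟩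
    exact isIntegral_trans b h1
  -- the polynomials
  have hsm : ∀ (p : R) (y : Z.B), p • y = φ p * y := fun p y => by
    rw [Algebra.smul_def]
    rfl
  have hφF : φ (X 3) = Y.F := aeval_X _ _
  have hφP : φ (rename (Fin.castSucc : Fin 3 → Fin 4) P) = aeval Y.zb P := by
    change aeval u (rename _ P) = _
    rw [aeval_rename]
    congr 1
    congr 1
    funext i
    fin_cases i <;> rfl
  have hF : Prime (X 3 : R) := X_prime
  have hFP : ¬ (X 3 : R) ∣ rename (Fin.castSucc : Fin 3 → Fin 4) P := by
    rintro ⟨Q, hQ⟩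
    apply hP
    let ψ : R →ₐ[Z.K] Po Z.K 3 := aeval ![X 0, X 1, X 2, 0]
    have h1 := congrArg ψ hQ
    have h2 : ψ (X 3) = 0 := aeval_X _ _
    have h3 : ψ (rename (Fin.castSucc : Fin 3 → Fin 4) P) = P := by
      change aeval _ (rename _ P) = _
      rw [aeval_rename]
      have : ((![X 0, X 1, X 2, 0] : Fin 4 → Po Z.K 3) ∘ (Fin.castSucc : Fin 3 → Fin 4)) = X := by
        funext i
        fin_cases i <;> rfl
      rw [this, aeval_X_left_apply]
    rw [h3, map_mul, h2, zero_mul] at h1
    exact h1
  obtain ⟨y, hy⟩ := CTF_.key (L := Z.L) hint' (X 3) _ hF hFP b b' (by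
    rw [hsm, hsm, hφF, hφP]
    exact hb')
  exact ⟨y, by rw [hy, hsm, hφF]⟩

end Pool.Agent.RST
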