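import Pool.Agent.RST.Stmts

/-!
# Choice of `F` and `z`
-/

set_option autoImplicit false

open MvPolynomial Pool.Agent.GML

namespace Pool.Agent.RST

namespace CUT_

theorem lift_hom {R S σ : Type} [CommRing R] [CommRing S] (f : R →+* S)
    (hf : Function.Surjective f) (d : ℕ) (p : MvPolynomial σ S) (hp : p.IsHomogeneous d) :
    ∃ q : MvPolynomial σ R, q.IsHomogeneous d ∧ MvPolynomial.map f q = p := by
  obtain ⟨q, hq⟩ := MvPolynomial.map_surjective f hf p
  refine ⟨homogeneousComponent d q, homogeneousComponent_isHomogeneous d q, ?_⟩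
  ext m
  rw [coeff_map, coeff_homogeneousComponent]
  split_ifs with h
  · rw [← coeff_map, hq]
  · rw [map_zero, hp.coeff_eq_zero h]

end CUT_

theorem cut_proof : Stmt_CUT := by
  intro Z
  obtain ⟨m, G, hm, hG, hGr, hGq⟩ := Z.q_exact Z.D.c₀ Z.D.c₀W
  obtain ⟨z, hz, hzp⟩ := Z.D.par
  choose z' hz' hzr using fun i => CUT_.lift_hom Z.σ Z.surjσ 1 (z i) (hz i)
  have hfun : (fun i => MvPolynomial.map Z.σ (z' i)) = z := funext hzr
  exact ⟨{ c := m, c_pos := hm, G := G, G_hom := hG, G_red := hGr, G_mem := hGq, z := z',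
           z_hom := hz', z_par := by rw [hfun]; exact ⟨hz, hzp⟩ }⟩

end Pool.Agent.RST
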