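import Pool.Agent.RST.Stmts

/-!
# RST, module EEE: the function `e`
-/

set_option autoImplicit false

open MvPolynomial Pool.Agent.GML

namespace Pool.Agent.RST

noncomputable section

namespace EEE_

variable {κ : Type} [Field κ] {n : ℕ}

/-- a localisation of `M` -/
structure Pk (D : XD κ n) (z : Fin 3 → Po κ n) (M : GMod κ n) where
  E : Type
  [acg : AddCommGroup E]
  [mod : Module (Po κ (n + 1)) E]
  ι : M.M →+ E
  eta : Eta D z M E ι

attribute [instance] Pk.acg Pk.mod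

theorem kil_sub {D : XD κ n} {c : ℕ} {M' M : GMod κ n} (f : GHom M' M)
    (hf : Function.Injective f.f) (h : Kil M (aF D c)) : Kil M' (aF D c) := by
  intro p hp m
  apply hf
  rw [map_smul, map_zero]
  exact h p hp _

theorem kil_quo {D : XD κ n} {c : ℕ} {M M'' : GMod κ n} (g : GHom M M'')
    (hg : Function.Surjective g.f) (h : Kil M (aF D c)) : Kil M'' (aF D c) := by
  intro p hp m
  obtain ⟨m, rfl⟩ := hg m
  rw [← map_smul, h p hp m, map_zero]

theorem kil_q {D : XD κ n} {c : ℕ} {M Q : GMod κ n} (g : GHom M Q)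
    (hg : Function.Surjective g.f)
    (hk : ∀ x : M.M, g.f x = 0 ↔ ∃ y : M.M, x = (X D.c₀ : Po κ n) ^ c • y)
    (h : Kil M D.IX) : Kil Q (aF D c) := by
  intro p hp m
  obtain ⟨m, rfl⟩ := hg m
  rw [← map_smul]
  obtain ⟨i, hi, j, hj, rfl⟩ := Submodule.mem_sup.1 hp
  obtain ⟨b, rfl⟩ := Ideal.mem_span_singleton'.1 hj
  rw [add_smul, h i hi m, zero_add, hk]
  exact ⟨b • m, by rw [smul_smul, mul_comm]⟩

theorem tor {D : XD κ n} {z : Fin 3 → Po κ n} {M : GMod κ n} (hM : ZTor z M)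
    (E : Type) [AddCommGroup E] [Module (Po κ (n + 1)) E] (ι : M.M →+ E) (h : Eta D z M E ι) :
    Subsingleton E := by
  refine subsingleton_of_forall_eq 0 fun u => ?_
  obtain ⟨p, hp, m, hm⟩ := h.gen u
  obtain ⟨p', hp', hm'⟩ := hM m
  apply h.inj p hp
  rw [hm]
  apply h.inj p' hp'
  rw [← h.smul, hm', map_zero]

theorem rkw_sub {r : ℕ} (w : Fin 3 → Po κ r) (E : Type) [AddCommGroup E] [Module (Po κ r) E]
    (h : Subsingleton E) : rkw w E = 0 := by
  let _ : Module (Po κ 3) E := Module.compHom E (aeval w : Po κ 3 →ₐ[κ] Po κ r).toRingHom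
  exact Module.finrank_zero_of_subsingleton

end EEE_

open EEE_ in
theorem eee_proof (hGEN : Stmt_GEN) (hWZR : Stmt_WZR) (hETX : Stmt_ETX) (hETF : Stmt_ETF)
    (hRWA : Stmt_RWA) (hPTF : Stmt_PTF) (hGAM : Stmt_GAM) (hLWI : Stmt_LWI) (hZRK : Stmt_ZRK)
    (hUPE : Stmt_UPE) : Stmt_EEE := by
  intro κ _ _ n D c z hc hz
  obtain ⟨v, hv⟩ := hGEN κ n D c z hc hz
  obtain ⟨w, hw⟩ := hWZR κ n D z hz
  have hpk : ∀ M : GMod κ n, Kil M (aF D c) → Nonempty (Pk D z M) := by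
    intro M hM
    obtain ⟨E, i1, i2, ι, h⟩ := hETX κ n D c z v hv M hM
    exact ⟨⟨E, ι, h⟩⟩
  classical
  let e : GMod κ n → ℕ := fun M =>
    if h : Kil M (aF D c) then rkw w (hpk M h).some.E else 0
  have he : ∀ M (h : Kil M (aF D c)), e M = rkw w (hpk M h).some.E := fun M h => dif_pos h
  refine ⟨⟨v, hv⟩, e, ?_, ?_, ?_, ?_, ?_⟩
  · intro M' M M'' f g hS hfin hM
    have hM' : Kil M' (aF D c) := kil_sub f hS.1 hM
    have hM'' : Kil M'' (aF D c) := kil_quo g hS.2.2 hM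
    rw [he M hM, he M' hM', he M'' hM'']
    set A' := (hpk M' hM').some
    set A := (hpk M hM).some
    set A'' := (hpk M'' hM'').some
    obtain ⟨f', g', h1, h2, h3⟩ := (hETF κ n D c z v hv).2 M' M M'' hM' hM hM'' f g hS
      A'.E A'.ι A.E A.ι A''.E A''.ι A'.eta A.eta A''.eta
    exact (hRWA κ (n + 1) w A'.E A.E A''.E f' g' h1 h2 h3).2
      (hPTF κ n D c z v w hc hz hv hw M hfin hM A.E A.ι A.eta).1
  · intro M _ hM ht
    rw [he M hM]
    exact rkw_sub w _ (tor ht _ _ (hpk M hM).some.eta)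
  · intro M hfin hM ht
    rw [he M hM]
    exact hGAM κ n D c z v w hc hz hv hw M hfin hM ht _ _ (hpk M hM).some.eta
  · rintro M hfin hM ⟨k, hk⟩ δ hδ
    rw [he M hM]
    have h1 := hZRK κ n D c z hc hz M hfin hM _ _ (hpk M hM).some.eta δ hδ
    have h2 := hLWI κ n D c z v w hc hz hv hw k M hfin hM hk _ _ (hpk M hM).some.eta
    exact (Nat.mul_le_mul_left _ h1).trans h2
  · intro r M Q π hπ hk hfin hM htf hr
    have hQ : Kil Q (aF D c) := kil_q π hπ hk hM
    rw [he Q hQ]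
    exact hUPE κ n D c z v w hc hz hv hw r M Q π hπ hk hfin hM htf hr _ _ (hpk Q hQ).some.eta

end

end Pool.Agent.RST
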