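import Pool.Agent.RST.Stmts

/-!
# ETF: the localisation is an exact functor
-/

set_option autoImplicit false

open MvPolynomial Pool.Agent.GML

namespace Pool.Agent.RST

noncomputable section

namespace ETF_

variable {κ : Type} [Field κ] {n : ℕ} {D : XD κ n} {c : ℕ} {z : Fin 3 → Po κ n}
  {w : Fin n → κ}

/-- the action of `κ[z]` -/
def sz (z : Fin 3 → Po κ n) (p : Po κ 3) : Po κ (n + 1) := emb κ n (aeval z p)

theorem sz_mul (p q : Po κ 3) : sz z (p * q) = sz z p * sz z q := by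
  rw [sz, map_mul, map_mul]; rfl

theorem sz_one : sz z 1 = 1 := by rw [sz, map_one, map_one]

theorem sz_pow (p : Po κ 3) (k : ℕ) : sz z (p ^ k) = sz z p ^ k := by
  rw [sz, map_pow, map_pow]; rfl

theorem lin_mem (hw : ∀ i, i ∉ D.A → w i = 0) : lin w ∈ VI κ D.A := by
  refine Ideal.sum_mem _ fun i _ => ?_
  by_cases hi : i ∈ D.A
  · exact Ideal.mul_mem_left _ _ (Ideal.subset_span ⟨i, hi, rfl⟩)
  · rw [hw i hi, C_0, zero_mul]; exact Ideal.zero_mem _

section

variable {M : GMod κ n} {E : Type} [AddCommGroup E] [Module (Po κ (n + 1)) E] {ι : M.M →+ E}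

theorem kill_aF (hM : Kil M (aF D c)) (hE : Eta D z M E ι) {q : Po κ n} (hq : q ∈ aF D c)
    (v : E) : emb κ n q • v = 0 := by
  obtain ⟨p, hp, m, hm⟩ := hE.gen v
  apply hE.inj p hp
  rw [smul_comm, hm, ← hE.smul, hM q hq m, map_zero]

end

/-- The action of `Y`. -/
theorem exY (hG : GG D c z w) : ∃ (r : Po κ 3) (b : Po κ n), r ≠ 0 ∧
    ∀ (M : GMod κ n), Kil M (aF D c) → ∀ (E : Type) [AddCommGroup E] [Module (Po κ (n + 1)) E]
      (ι : M.M →+ E), Eta D z M E ι → ∀ v : E, sz z r • (Yv κ n • v) = emb κ n b • v := by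
  obtain ⟨hw, g', r, hr, hgr⟩ := hG
  obtain ⟨N, hN⟩ := D.yA
  obtain ⟨a, ha⟩ := hN _ (Ideal.pow_mem_pow (lin_mem hw) N)
  refine ⟨r ^ N, g' ^ N * a, pow_ne_zero _ hr, ?_⟩
  intro M hM E _ _ ι hE v
  have h1 : ∀ v : E, sz z r • v = emb κ n (lin w * g') • v := by
    intro v
    have := kill_aF hM hE hgr v
    rw [map_sub, sub_smul, sub_eq_zero] at this
    exact this.symm
  have h2 : ∀ (k : ℕ) (v : E), sz z r ^ k • v = emb κ n (lin w * g') ^ k • v := by
    intro k
    induction k with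
    | zero => intro v; rw [pow_zero, pow_zero]
    | succ k ih => intro v; rw [pow_succ, pow_succ, mul_smul, mul_smul, h1, ih]
  have h3 : (Yv κ n * emb κ n (lin w ^ N)) • v = emb κ n a • v := by
    have := hE.kill _ ha v
    rwa [sub_smul, sub_eq_zero] at this
  rw [sz_pow, h2, map_mul, mul_pow, map_mul, mul_smul (emb κ n (g' ^ N)), ← h3, smul_smul,
    smul_smul, map_pow, map_pow]
  congr 1
  ring

section

variable {M N : GMod κ n} {E : Type} [AddCommGroup E] [Module (Po κ (n + 1)) E] {ι : M.M →+ E}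
  {E' : Type} [AddCommGroup E'] [Module (Po κ (n + 1)) E'] {ι' : N.M →+ E'}

/-- `v' = f' v`. -/
def Rel (z : Fin 3 → Po κ n) (f : GHom M N) (ι : M.M →+ E) (ι' : N.M →+ E') (v : E)
    (v' : E') : Prop :=
  ∃ p : Po κ 3, p ≠ 0 ∧ ∃ m : M.M, sz z p • v = ι m ∧ sz z p • v' = ι' (f.f m)

variable {f : GHom M N}

theorem rel_ex (hE : Eta D z M E ι) (hE' : Eta D z N E' ι') (v : E) : ∃ v', Rel z f ι ι' v v' := by
  obtain ⟨p, hp, m, hm⟩ := hE.gen v
  obtain ⟨v', hv'⟩ := hE'.surj p hp (ι' (f.f m))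
  exact ⟨v', p, hp, m, hm, hv'⟩

theorem rel_uniq (hE : Eta D z M E ι) (hE' : Eta D z N E' ι') {v : E} {v' v'' : E'}
    (h : Rel z f ι ι' v v') (h' : Rel z f ι ι' v v'') : v' = v'' := by
  obtain ⟨p, hp, m, h1, h2⟩ := h
  obtain ⟨q, hq, m', h3, h4⟩ := h'
  have h5 : ι ((aeval z q : Po κ n) • m - (aeval z p : Po κ n) • m') = 0 := by
    rw [map_sub, hE.smul, hE.smul, ← h1, ← h3, smul_smul, smul_smul]
    change (sz z q * sz z p) • v - (sz z p * sz z q) • v = 0
    rw [mul_comm, sub_self]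
  obtain ⟨r, hr, h6⟩ := hE.ker _ h5
  have h7 : (aeval z r : Po κ n) • (aeval z q : Po κ n) • f.f m =
      (aeval z r : Po κ n) • (aeval z p : Po κ n) • f.f m' := by
    rw [smul_sub, sub_eq_zero] at h6
    have := congrArg f.f h6
    simpa only [map_smul] using this
  have h8 := congrArg ι' h7
  rw [hE'.smul, hE'.smul, hE'.smul, hE'.smul, ← h2, ← h4] at h8
  have h9 : emb κ n (aeval z (r * (p * q))) • (v' - v'') = 0 := by
    rw [smul_sub, sub_eq_zero]
    have e1 : emb κ n (aeval z (r * (p * q))) = sz z r * sz z q * sz z p := by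
      change sz z _ = _
      rw [sz_mul, sz_mul]; ring
    have e2 : emb κ n (aeval z (r * (p * q))) = sz z r * sz z p * sz z q := by
      change sz z _ = _
      rw [sz_mul, sz_mul]; ring
    conv_lhs => rw [e1]
    rw [e2, mul_smul, mul_smul, mul_smul, mul_smul]
    exact h8
  exact sub_eq_zero.mp (hE'.inj _ (mul_ne_zero hr (mul_ne_zero hp hq)) _ h9)

theorem rel_add (hE : Eta D z M E ι) (hE' : Eta D z N E' ι') {v u : E} {v' u' : E'}
    (h : Rel z f ι ι' v v') (h' : Rel z f ι ι' u u') : Rel z f ι ι' (v + u) (v' + u') := by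
  obtain ⟨p, hp, m, h1, h2⟩ := h
  obtain ⟨q, hq, m', h3, h4⟩ := h'
  refine ⟨p * q, mul_ne_zero hp hq, (aeval z q : Po κ n) • m + (aeval z p : Po κ n) • m', ?_, ?_⟩
  · rw [map_add, hE.smul, hE.smul, ← h1, ← h3, smul_add, sz_mul, smul_smul, smul_smul]
    change _ = (sz z q * sz z p) • v + (sz z p * sz z q) • u
    rw [mul_comm (sz z q)]
  · rw [map_add, map_smul, map_smul, map_add, hE'.smul, hE'.smul, ← h2, ← h4, smul_add, sz_mul,
      smul_smul, smul_smul]
    change _ = (sz z q * sz z p) • v' + (sz z p * sz z q) • u'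
    rw [mul_comm (sz z q)]

theorem rel_emb (hE : Eta D z M E ι) (hE' : Eta D z N E' ι') {v : E} {v' : E'}
    (h : Rel z f ι ι' v v') (q : Po κ n) : Rel z f ι ι' (emb κ n q • v) (emb κ n q • v') := by
  obtain ⟨p, hp, m, h1, h2⟩ := h
  refine ⟨p, hp, q • m, ?_, ?_⟩
  · rw [hE.smul, ← h1, smul_comm]
  · rw [map_smul, hE'.smul, ← h2, smul_comm]

theorem rel_Y (hG : GG D c z w) (hM : Kil M (aF D c)) (hN : Kil N (aF D c))
    (hE : Eta D z M E ι) (hE' : Eta D z N E' ι') {v : E} {v' : E'}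
    (h : Rel z f ι ι' v v') : Rel z f ι ι' (Yv κ n • v) (Yv κ n • v') := by
  obtain ⟨p, hp, m, h1, h2⟩ := h
  obtain ⟨r, b, hr, hb⟩ := exY hG
  refine ⟨p * r, mul_ne_zero hp hr, b • m, ?_, ?_⟩
  · rw [sz_mul, mul_smul, hb M hM E ι hE, hE.smul, ← h1, smul_comm]
  · rw [sz_mul, mul_smul, hb N hN E' ι' hE', map_smul, hE'.smul, ← h2, smul_comm]

theorem rel_smul (hG : GG D c z w) (hM : Kil M (aF D c)) (hN : Kil N (aF D c))
    (hE : Eta D z M E ι) (hE' : Eta D z N E' ι') (q : Po κ (n + 1)) :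
    ∀ {v : E} {v' : E'}, Rel z f ι ι' v v' → Rel z f ι ι' (q • v) (q • v') := by
  induction q using MvPolynomial.induction_on with
  | C a =>
    intro v v' h
    have := rel_emb hE hE' h (C a)
    rwa [emb, rename_C] at this
  | add p q hp hq =>
    intro v v' h
    rw [add_smul, add_smul]
    exact rel_add hE hE' (hp h) (hq h)
  | mul_X q i hq =>
    intro v v' h
    rw [mul_smul, mul_smul]
    apply hq
    refine Fin.lastCases ?_ (fun i => ?_) i
    · exact rel_Y hG hM hN hE hE' h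
    · have := rel_emb hE hE' h (X i)
      rwa [emb, rename_X] at this

/-- The map of the localisations. -/
theorem exists_map (hG : GG D c z w) (hM : Kil M (aF D c)) (hN : Kil N (aF D c))
    (hE : Eta D z M E ι) (hE' : Eta D z N E' ι') (f : GHom M N) :
    ∃ f' : E →ₗ[Po κ (n + 1)] E', ∀ v v', f' v = v' ↔ Rel z f ι ι' v v' := by
  choose F hF using rel_ex (f := f) hE hE'
  refine ⟨{ toFun := F
            map_add' := fun v u => rel_uniq hE hE' (hF _) (rel_add hE hE' (hF v) (hF u))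
            map_smul' := fun q v => rel_uniq hE hE' (hF _)
              (rel_smul hG hM hN hE hE' q (hF v)) }, fun v v' => ⟨?_, ?_⟩⟩
  · rintro rfl
    exact hF v
  · intro h
    exact rel_uniq hE hE' (hF v) h

theorem map_inj (hE : Eta D z M E ι) (hE' : Eta D z N E' ι') {f' : E →ₗ[Po κ (n + 1)] E'}
    (hf' : ∀ v v', f' v = v' ↔ Rel z f ι ι' v v') (hf : Function.Injective f.f) :
    Function.Injective f' := by
  rw [injective_iff_map_eq_zero]
  intro v hv
  obtain ⟨p, hp, m, h1, h2⟩ := (hf' v 0).mp hv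
  rw [smul_zero] at h2
  obtain ⟨q, hq, h3⟩ := hE'.ker _ h2.symm
  have h4 : (aeval z q : Po κ n) • m = 0 := by
    apply hf
    rw [map_smul, h3, map_zero]
  apply hE.inj (q * p) (mul_ne_zero hq hp)
  change sz z _ • v = 0
  rw [sz_mul, mul_smul, h1]
  change emb κ n (aeval z q) • ι m = 0
  rw [← hE.smul, h4, map_zero]

theorem map_surj (hE : Eta D z M E ι) (hE' : Eta D z N E' ι') {f' : E →ₗ[Po κ (n + 1)] E'}
    (hf' : ∀ v v', f' v = v' ↔ Rel z f ι ι' v v') (hf : Function.Surjective f.f) :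
    Function.Surjective f' := by
  intro v'
  obtain ⟨p, hp, m', h1⟩ := hE'.gen v'
  obtain ⟨m, rfl⟩ := hf m'
  obtain ⟨v, hv⟩ := hE.surj p hp (ι m)
  exact ⟨v, (hf' _ _).mpr ⟨p, hp, m, hv, h1⟩⟩

end

end ETF_

open ETF_ in
theorem etf_proof : Stmt_ETF := by
  intro κ _ n D c z w hG
  constructor
  · intro M N hM hN f E _ _ ι E' _ _ ι' hE hE'
    obtain ⟨f', hf'⟩ := exists_map hG hM hN hE hE' f
    refine ⟨f', fun m => ?_, map_inj hE hE' hf', map_surj hE hE' hf'⟩
    rw [hf']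
    exact ⟨1, one_ne_zero, m, by rw [sz_one, one_smul], by rw [sz_one, one_smul]⟩
  · intro M' M M'' hM' hM hM'' f g hfg E' _ _ ι' E _ _ ι E'' _ _ ι'' hE' hE hE''
    obtain ⟨hf, hex, hg⟩ := hfg
    obtain ⟨f', hf'⟩ := exists_map hG hM' hM hE' hE f
    obtain ⟨g', hg'⟩ := exists_map hG hM hM'' hE hE'' g
    refine ⟨f', g', map_inj hE' hE hf' hf, ?_, map_surj hE hE'' hg' hg⟩
    intro v
    constructor
    · intro hv
      obtain ⟨p, hp, m, h1, h2⟩ := (hg' v 0).mp hv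
      rw [smul_zero] at h2
      obtain ⟨q, hq, h3⟩ := hE''.ker _ h2.symm
      rw [← map_smul] at h3
      obtain ⟨m', hm'⟩ := (hex _).mp h3
      obtain ⟨u, hu⟩ := hE'.surj (q * p) (mul_ne_zero hq hp) (ι' m')
      refine ⟨u, (hf' _ _).mpr ⟨q * p, mul_ne_zero hq hp, m', hu, ?_⟩⟩
      rw [sz_mul, mul_smul, h1, hm', hE.smul]
      rfl
    · rintro ⟨u, hu⟩
      obtain ⟨p, hp, m, h1, h2⟩ := (hf' u v).mp hu
      rw [hg']
      refine ⟨p, hp, f.f m, h2, ?_⟩
      rw [smul_zero, (hex _).mpr ⟨m, rfl⟩, map_zero]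

end

end Pool.Agent.RST
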