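import Pool.Agent.RST.Stmts

/-!
# ETX: the localisation exists
-/

set_option autoImplicit false

open MvPolynomial Pool.Agent.GML

namespace Pool.Agent.RST

namespace ETX_

noncomputable section

/-- Localisation of a module killed by an ideal, over the localisation of the quotient ring. -/
theorem locm {P M : Type} [CommRing P] [AddCommGroup M] [Module P M] (S : Submonoid P)
    (𝔞 : Ideal P) (h𝔞 : ∀ a ∈ 𝔞, ∀ m : M, a • m = 0) :
    ∃ (L : Type) (_ : CommRing L) (τ : P →+* L) (E : Type) (_ : AddCommGroup E) (_ : Module L E)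
      (ι : M →+ E), (∀ a ∈ 𝔞, τ a = 0) ∧ (∀ s ∈ S, IsUnit (τ s)) ∧
      (∀ (p : P) (m : M), ι (p • m) = τ p • ι m) ∧
      (∀ m : M, ι m = 0 → ∃ s ∈ S, s • m = 0) ∧
      ∀ e : E, ∃ s ∈ S, ∃ m : M, τ s • e = ι m := by
  have htor : Module.IsTorsionBySet P M 𝔞 := by
    intro m a
    exact h𝔞 a.1 a.2 m
  letI : Module (P ⧸ 𝔞) M := htor.module
  have hsm : ∀ (p : P) (m : M), (Ideal.Quotient.mk 𝔞 p) • m = p • m := fun p m =>
    Module.IsTorsionBySet.mk_smul htor p m
  let S' : Submonoid (P ⧸ 𝔞) := S.map (Ideal.Quotient.mk 𝔞)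
  refine ⟨Localization S', inferInstance, (algebraMap (P ⧸ 𝔞) (Localization S')).comp
    (Ideal.Quotient.mk 𝔞), LocalizedModule S' M, inferInstance, inferInstance,
    (LocalizedModule.mkLinearMap S' M).toAddMonoidHom, ?_, ?_, ?_, ?_, ?_⟩
  · intro a ha
    rw [RingHom.comp_apply, Ideal.Quotient.eq_zero_iff_mem.2 ha, map_zero]
  · intro s hs
    exact IsLocalization.map_units (Localization S') (⟨Ideal.Quotient.mk 𝔞 s, s, hs, rfl⟩ : S')
  · intro p m
    show LocalizedModule.mkLinearMap S' M (p • m) =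
      (algebraMap (P ⧸ 𝔞) (Localization S') (Ideal.Quotient.mk 𝔞 p)) •
        LocalizedModule.mkLinearMap S' M m
    rw [← hsm, map_smul, algebraMap_smul]
  · intro m hm
    have h1 : LocalizedModule.mkLinearMap S' M m = 0 := hm
    rw [LocalizedModule.mkLinearMap_apply, ← LocalizedModule.zero_mk 1,
      LocalizedModule.mk_eq] at h1
    obtain ⟨u, hu⟩ := h1
    obtain ⟨s, hs, hsu⟩ := u.2
    refine ⟨s, hs, ?_⟩
    rw [one_smul, one_smul, smul_zero] at hu
    rw [← hsm, hsu]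
    exact hu
  · intro e
    induction e using LocalizedModule.induction_on with
    | h m u =>
      obtain ⟨s, hs, hsu⟩ := u.2
      refine ⟨s, hs, m, ?_⟩
      show (algebraMap (P ⧸ 𝔞) (Localization S') (Ideal.Quotient.mk 𝔞 s)) •
        LocalizedModule.mk m u = LocalizedModule.mkLinearMap S' M m
      rw [algebraMap_smul, hsu, LocalizedModule.mkLinearMap_apply]
      have := LocalizedModule.mk_cancel u m
      rw [LocalizedModule.smul'_mk]
      exact this

variable {κ : Type} [Field κ] {n : ℕ}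

theorem emb_X (c : Fin n) : emb κ n (X c) = X (Fin.castSucc c) := by
  unfold emb
  exact rename_X _ _

/-- Elimination of `Y`. -/
theorem elim (f a : Po κ n) (F : Po κ (n + 1)) :
    ∃ (k : ℕ) (p : Po κ n), emb κ n f ^ k * F - emb κ n p ∈
      Ideal.span {Yv κ n * emb κ n f - emb κ n a} := by
  induction F using MvPolynomial.induction_on with
  | C v =>
    refine ⟨0, C v, ?_⟩
    have h : emb κ n (C v) = C v := by
      unfold emb
      exact rename_C _ _
    rw [h, pow_zero, one_mul, sub_self]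
    exact Ideal.zero_mem _
  | add F G hF hG =>
    obtain ⟨k, p, h1⟩ := hF
    obtain ⟨l, q, h2⟩ := hG
    refine ⟨k + l, f ^ l * p + f ^ k * q, ?_⟩
    have e : emb κ n f ^ (k + l) * (F + G) - emb κ n (f ^ l * p + f ^ k * q) =
        emb κ n f ^ l * (emb κ n f ^ k * F - emb κ n p) +
        emb κ n f ^ k * (emb κ n f ^ l * G - emb κ n q) := by
      rw [map_add, map_mul, map_mul, map_pow, map_pow]
      ring
    rw [e]
    exact Ideal.add_mem _ (Ideal.mul_mem_left _ _ h1) (Ideal.mul_mem_left _ _ h2)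
  | mul_X F i hF =>
    obtain ⟨k, p, h1⟩ := hF
    refine Fin.lastCases ?_ (fun c => ?_) i
    · refine ⟨k + 1, p * a, ?_⟩
      have e : emb κ n f ^ (k + 1) * (F * X (Fin.last n)) - emb κ n (p * a) =
          (Yv κ n * emb κ n f) * (emb κ n f ^ k * F - emb κ n p) +
          emb κ n p * (Yv κ n * emb κ n f - emb κ n a) := by
        rw [map_mul]
        unfold Yv
        ring
      rw [e]
      exact Ideal.add_mem _ (Ideal.mul_mem_left _ _ h1)
        (Ideal.mul_mem_left _ _ (Ideal.subset_span rfl))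
    · refine ⟨k, p * X c, ?_⟩
      have e : emb κ n f ^ k * (F * X (Fin.castSucc c)) - emb κ n (p * X c) =
          X (Fin.castSucc c) * (emb κ n f ^ k * F - emb κ n p) := by
        rw [map_mul, emb_X]
        ring
      rw [e]
      exact Ideal.mul_mem_left _ _ h1

theorem lin_mem {A : Set (Fin n)} {v : Fin n → κ} (hv : ∀ i, i ∉ A → v i = 0) :
    lin v ∈ VI κ A := by
  unfold lin
  refine Ideal.sum_mem _ fun c _ => ?_
  by_cases hc : c ∈ A
  · exact Ideal.mul_mem_left _ _ (Ideal.subset_span ⟨c, hc, rfl⟩)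
  · rw [hv c hc, C_0, zero_mul]
    exact Ideal.zero_mem _

/-- The extension to `κ[X, Y]`. -/
theorem ext (D : XD κ n) (c : ℕ) (v : Fin n → κ) (hv : ∀ i, i ∉ D.A → v i = 0)
    {L : Type} [CommRing L] (τ : Po κ n →+* L) (hτ : ∀ a ∈ aF D c, τ a = 0)
    (hg : IsUnit (τ (lin v))) :
    ∃ θ : Po κ (n + 1) →+* L, (∀ p, θ (emb κ n p) = τ p) ∧ ∀ f ∈ D.I', θ f = 0 := by
  obtain ⟨N, hN⟩ := D.yA
  obtain ⟨a, ha⟩ := hN (lin v ^ N) (Ideal.pow_mem_pow (lin_mem hv) N)
  obtain ⟨u, hu⟩ := hg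
  let vals : Fin (n + 1) → L :=
    Fin.snoc (α := fun _ => L) (fun i => τ (X i)) (τ a * ((u⁻¹ ^ N : Lˣ) : L))
  let θ : Po κ (n + 1) →+* L := eval₂Hom (τ.comp C) vals
  have h1 : ∀ p, θ (emb κ n p) = τ p := by
    intro p
    have h2 : θ.comp (emb κ n : Po κ n →+* Po κ (n + 1)) = τ := by
      apply MvPolynomial.ringHom_ext
      · intro r
        show θ (emb κ n (C r)) = τ (C r)
        have h : emb κ n (C r) = C r := by
          unfold emb
          exact rename_C _ _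
        rw [h]
        exact eval₂Hom_C _ _ _
      · intro i
        show θ (emb κ n (X i)) = τ (X i)
        rw [emb_X]
        show eval₂Hom (τ.comp C) vals (X (Fin.castSucc i)) = τ (X i)
        rw [eval₂Hom_X']
        show Fin.snoc (α := fun _ => L) (fun i => τ (X i)) (τ a * ((u⁻¹ ^ N : Lˣ) : L))
          (Fin.castSucc i) = τ (X i)
        rw [Fin.snoc_castSucc]
    rw [← h2]
    rfl
  have hY : θ (Yv κ n) = τ a * ((u⁻¹ ^ N : Lˣ) : L) := by
    show eval₂Hom (τ.comp C) vals (X (Fin.last n)) = _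
    rw [eval₂Hom_X']
    show Fin.snoc (α := fun _ => L) (fun i => τ (X i)) (τ a * ((u⁻¹ ^ N : Lˣ) : L))
      (Fin.last n) = _
    rw [Fin.snoc_last]
  have h3 : θ (Yv κ n * emb κ n (lin v ^ N) - emb κ n a) = 0 := by
    rw [map_sub, map_mul, h1, h1, hY, map_pow, ← hu, mul_assoc, ← Units.val_pow_eq_pow_val,
      ← Units.val_mul, inv_pow, inv_mul_cancel, Units.val_one, mul_one, sub_self]
  refine ⟨θ, h1, fun f hf => ?_⟩
  obtain ⟨k, p, h4⟩ := elim (lin v ^ N) a f
  have h5 : emb κ n p ∈ D.I' := by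
    have h6 : emb κ n (lin v ^ N) ^ k * f - emb κ n p ∈ D.I' := by
      have h7 : Ideal.span {Yv κ n * emb κ n (lin v ^ N) - emb κ n a} ≤ D.I' := by
        rw [Ideal.span_le]
        rintro x hx
        rw [Set.mem_singleton_iff] at hx
        rw [hx]
        exact ha
      exact h7 h4
    have h8 : emb κ n p = emb κ n (lin v ^ N) ^ k * f -
        (emb κ n (lin v ^ N) ^ k * f - emb κ n p) := by ring
    rw [h8]
    exact Ideal.sub_mem _ (Ideal.mul_mem_left _ _ hf) h6
  have h9 : τ p = 0 := by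
    apply hτ
    apply Ideal.mem_sup_left
    exact h5
  have h10 : θ (emb κ n (lin v ^ N) ^ k * f - emb κ n p) = 0 := by
    obtain ⟨b, hb⟩ := Ideal.mem_span_singleton'.1 h4
    rw [← hb, map_mul, h3, mul_zero]
  rw [map_sub, map_mul, map_pow, h1, h1, h9, sub_zero, map_pow, ← hu] at h10
  have h11 : IsUnit (((u : L) ^ N) ^ k) := (u.isUnit.pow N).pow k
  exact (h11.mul_right_eq_zero).1 h10

end

end ETX_

open ETX_ in
theorem etx_proof : Stmt_ETX := by
  intro κ _ n D c z v hGG M hK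
  obtain ⟨hv, g', r, hr, hg'⟩ := hGG
  let S : Submonoid (Po κ n) :=
    (nonZeroDivisors (Po κ 3)).map (aeval z : Po κ 3 →ₐ[κ] Po κ n)
  have hS : ∀ p : Po κ 3, p ≠ 0 → (aeval z p : Po κ n) ∈ S := fun p hp =>
    ⟨p, mem_nonZeroDivisors_of_ne_zero hp, rfl⟩
  have hS' : ∀ s ∈ S, ∃ p : Po κ 3, p ≠ 0 ∧ (aeval z p : Po κ n) = s := by
    rintro s ⟨p, hp, rfl⟩
    exact ⟨p, nonZeroDivisors.ne_zero hp, rfl⟩
  obtain ⟨L, _, τ, E, _, _, ι, h1, h2, h3, h4, h5⟩ := locm (M := M.M) S (aF D c) hK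
  have hg : IsUnit (τ (lin v)) := by
    have h6 : τ (lin v) * τ g' = τ (aeval z r) := by
      have h7 := h1 _ hg'
      rw [map_sub, map_mul, sub_eq_zero] at h7
      exact h7
    have h8 : IsUnit (τ (lin v) * τ g') := by
      rw [h6]
      exact h2 _ (hS r hr)
    exact isUnit_of_mul_isUnit_left h8
  obtain ⟨θ, h6, h7⟩ := ETX_.ext D c v hv τ h1 hg
  letI mE : Module (Po κ (n + 1)) E := Module.compHom E θ
  have hsm : ∀ (f : Po κ (n + 1)) (e : E), f • e = θ f • e := fun _ _ => rfl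
  refine ⟨E, inferInstance, mE, ι, ?_⟩
  constructor
  · intro p m
    rw [hsm, h6]
    exact h3 p m
  · intro m hm
    obtain ⟨s, hs, hsm⟩ := h4 m hm
    obtain ⟨p, hp, rfl⟩ := hS' s hs
    exact ⟨p, hp, hsm⟩
  · intro p hp e he
    rw [hsm, h6] at he
    obtain ⟨u, hu⟩ := h2 _ (hS p hp)
    rw [← hu] at he
    have h8 : (u⁻¹ : Lˣ) • ((u : L) • e) = 0 := by
      rw [he, smul_zero]
    have h9 : ((u⁻¹ : Lˣ) : L) • ((u : L) • e) = 0 := h8
    rw [smul_smul, Units.inv_mul, one_smul] at h9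
    exact h9
  · intro p hp e
    obtain ⟨u, hu⟩ := h2 _ (hS p hp)
    refine ⟨((u⁻¹ : Lˣ) : L) • e, ?_⟩
    rw [hsm, h6, ← hu, smul_smul, Units.mul_inv, one_smul]
  · intro e
    obtain ⟨s, hs, m, hm⟩ := h5 e
    obtain ⟨p, hp, rfl⟩ := hS' s hs
    refine ⟨p, hp, m, ?_⟩
    rw [hsm, h6]
    exact hm
  · intro f hf e
    rw [hsm, h7 f hf, zero_smul]

end Pool.Agent.RST
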