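import Pool.Agent.RST.Stmts

/-!
# RST, module GEN: a linear form which vanishes on `P` and is invertible at the generic points of
`X c₀ = 0`
-/

set_option autoImplicit false

namespace Pool.Agent.RST

open MvPolynomial Pool.Agent.GML

noncomputable section

namespace GEN_

/-- the exponent of the monomial `X_0 ^ a X_1 ^ b X_2 ^ (2 K - a - b)` -/
def ex (K : ℕ) (ab : Fin (K + 1) × Fin (K + 1)) : Fin 3 →₀ ℕ :=
  Finsupp.single 0 (ab.1 : ℕ) + Finsupp.single 1 (ab.2 : ℕ) +
    Finsupp.single 2 (2 * K - (ab.1 : ℕ) - (ab.2 : ℕ))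

theorem ex_inj (K : ℕ) : Function.Injective (ex K) := by
  intro ab ab' h
  have h0 := DFunLike.congr_fun h 0
  have h1 := DFunLike.congr_fun h 1
  simp [ex] at h0 h1
  exact Prod.ext (Fin.ext h0) (Fin.ext h1)

theorem ex_deg (K : ℕ) (ab : Fin (K + 1) × Fin (K + 1)) : (ex K ab).degree = 2 * K := by
  have h1 := ab.1.2
  have h2 := ab.2.2
  simp only [ex, map_add, Finsupp.degree_single]
  omega

theorem hom_mon {κ : Type} [Field κ] (K : ℕ) (ab : Fin (K + 1) × Fin (K + 1)) :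
    (monomial (ex K ab) (1 : κ)).IsHomogeneous (2 * K) :=
  isHomogeneous_monomial _ (ex_deg K ab)

/-- a nonzero polynomial in `z` vanishes modulo an ideal with small Hilbert function -/
theorem exists_rel {κ : Type} [Field κ] {n : ℕ} (I : Ideal (Po κ n)) (z : Fin 3 → Po κ n)
    (hz : ∀ i, (z i).IsHomogeneous 1) (C : ℕ) (hC : ∀ m : ℕ, hf I m ≤ C * (m + 1)) :
    ∃ r : Po κ 3, r ≠ 0 ∧ (aeval z r : Po κ n) ∈ I := by
  by_contra hcon
  push Not at hcon
  set K := 2 * C with hK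
  have h1 := hC (2 * K)
  unfold hf at h1
  set H : Submodule κ (Po κ n ⧸ I) := (homogeneousSubmodule (Fin n) κ (2 * K)).map
    (Ideal.Quotient.mkₐ κ I).toLinearMap with hH
  have hfin : Module.Finite κ H :=
    Module.Finite.iff_fg.2 ((homogeneousSubmodule_fg (Fin n) κ (2 * K)).map _)
  set φ : Po κ 3 →ₗ[κ] (Po κ n ⧸ I) :=
    (Ideal.Quotient.mkₐ κ I).toLinearMap ∘ₗ (aeval z : Po κ 3 →ₐ[κ] Po κ n).toLinearMap with hφ
  have hinj : LinearMap.ker φ = ⊥ := by
    rw [LinearMap.ker_eq_bot']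
    intro p hp
    by_contra hp0
    apply hcon p hp0
    exact Ideal.Quotient.eq_zero_iff_mem.1 hp
  have hmem : ∀ ab, φ (monomial (ex K ab) (1 : κ)) ∈ H := by
    intro ab
    refine ⟨aeval z (monomial (ex K ab) (1 : κ)), ?_, rfl⟩
    have h2 := (hom_mon (κ := κ) K ab).aeval z hz
    rw [one_mul] at h2
    exact h2
  have hli : LinearIndependent κ fun ab : Fin (K + 1) × Fin (K + 1) =>
      (⟨φ (monomial (ex K ab) (1 : κ)), hmem ab⟩ : H) := by
    apply LinearIndependent.of_comp H.subtype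
    have h3 : LinearIndependent κ fun ab : Fin (K + 1) × Fin (K + 1) =>
        monomial (ex K ab) (1 : κ) := by
      have h4 := (basisMonomials (Fin 3) κ).linearIndependent.comp (ex K) (ex_inj K)
      simpa [Function.comp_def] using h4
    exact h3.map' φ hinj
  have h5 := hli.fintype_card_le_finrank
  rw [Fintype.card_prod, Fintype.card_fin] at h5
  have h6 := le_trans h5 h1
  rw [hK] at h6
  nlinarith [h6]

/-- primes over an ideal modulo which the ring is finite over `κ[z]`, and which contain no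
polynomial in `z`, are minimal -/
theorem min_prime {κ : Type} [Field κ] {n : ℕ} (I : Ideal (Po κ n)) (z : Fin 3 → Po κ n)
    (hT : ∃ T : Finset (Po κ n), ∀ f : Po κ n, ∃ P : Po κ n → Po κ 3,
      f - ∑ t ∈ T, aeval z (P t) * t ∈ I) (Q : Ideal (Po κ n)) [Q.IsPrime] (hQ : I ≤ Q)
    (hd : ∀ p : Po κ 3, (aeval z p : Po κ n) ∈ Q → p = 0) : Q ∈ I.minimalPrimes := by
  obtain ⟨P', hP', hle⟩ := Ideal.exists_minimalPrimes_le hQ
  have hP'p : P'.IsPrime := hP'.1.1
  by_cases heq : P' = Q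
  · rw [← heq]; exact hP'
  exfalso
  have hlt : P' < Q := lt_of_le_of_ne hle heq
  obtain ⟨x, hxQ, hxP⟩ := SetLike.exists_of_lt hlt
  -- integrality
  let f' : Po κ 3 →+* Po κ n ⧸ I :=
    (Ideal.Quotient.mk I).comp (aeval z : Po κ 3 →ₐ[κ] Po κ n).toRingHom
  have hint : f'.IsIntegral := by
    let _ : Algebra (Po κ 3) (Po κ n ⧸ I) := f'.toAlgebra
    have hfin : Module.Finite (Po κ 3) (Po κ n ⧸ I) := by
      obtain ⟨T, hT⟩ := hT
      classical
      refine ⟨⟨T.image (Ideal.Quotient.mk I), ?_⟩⟩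
      rw [eq_top_iff]
      rintro y -
      obtain ⟨f, rfl⟩ := Ideal.Quotient.mk_surjective y
      obtain ⟨P, hP⟩ := hT f
      rw [Ideal.Quotient.mk_eq_mk_iff_sub_mem _ _ |>.2 hP, map_sum]
      refine Submodule.sum_mem _ fun t ht => ?_
      rw [map_mul]
      have h1 : Ideal.Quotient.mk I (aeval z (P t)) * Ideal.Quotient.mk I t =
          (P t) • (Ideal.Quotient.mk I t) := rfl
      rw [h1]
      exact Submodule.smul_mem _ _ (Submodule.subset_span (by
        rw [Finset.coe_image]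
        exact ⟨t, ht, rfl⟩))
    exact algebraMap_isIntegral_iff.2 inferInstance
  obtain ⟨p, hpm, hp⟩ := hint (Ideal.Quotient.mk I x)
  have hp2 : p.eval₂ (aeval z : Po κ 3 →ₐ[κ] Po κ n).toRingHom x ∈ P' := by
    apply hP'.1.2
    rw [← Ideal.Quotient.eq_zero_iff_mem, Polynomial.hom_eval₂]
    exact hp
  have hne : p.map (Ideal.Quotient.mk (P'.comap (aeval z : Po κ 3 →ₐ[κ] Po κ n).toRingHom)) ≠ 0 := by
    have : (P'.comap (aeval z : Po κ 3 →ₐ[κ] Po κ n).toRingHom).IsPrime := inferInstance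
    exact (hpm.map _).ne_zero
  have hlt2 := Ideal.comap_lt_comap_of_root_mem_sdiff hle ⟨hxQ, hxP⟩ hne hp2
  obtain ⟨y, hy1, hy2⟩ := SetLike.exists_of_lt hlt2
  have hy3 := hd y hy1
  apply hy2
  rw [hy3]
  exact Ideal.zero_mem _

end GEN_

open GEN_ in
theorem gen_proof (hZPC : Stmt_ZPC) : Stmt_GEN := by
  intro κ _ _ n D c z hc hz
  classical
  obtain ⟨C, hC⟩ := D.small
  obtain ⟨r, hr0, hr⟩ := exists_rel _ z hz.1 C hC
  -- the power of `r`
  have hrc : (aeval z (r ^ c) : Po κ n) ∈ VI κ D.A ⊔ aF D c := by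
    have h1 : VI κ D.A ⊔ aF D c = (D.IX ⊔ VI κ D.A) ⊔ Ideal.span {(X D.c₀ : Po κ n) ^ c} := by
      unfold aF
      rw [← sup_assoc, sup_comm (VI κ D.A)]
    rw [h1, map_pow]
    obtain ⟨a, ha, b, hb, hab⟩ := Submodule.mem_sup.1 hr
    obtain ⟨h, rfl⟩ := Ideal.mem_span_singleton'.1 hb
    rw [← hab, ← Ideal.Quotient.eq_zero_iff_mem, map_pow, map_add, map_mul]
    have h2 : Ideal.Quotient.mk (D.I'.comap (emb κ n) ⊔ VI κ D.A ⊔
        Ideal.span {(X D.c₀ : Po κ n) ^ c}) a = 0 :=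
      Ideal.Quotient.eq_zero_iff_mem.2 (Ideal.mem_sup_left ha)
    have h3 : Ideal.Quotient.mk (D.I'.comap (emb κ n) ⊔ VI κ D.A ⊔
        Ideal.span {(X D.c₀ : Po κ n) ^ c}) (X D.c₀) ^ c = 0 := by
      rw [← map_pow]
      exact Ideal.Quotient.eq_zero_iff_mem.2
        (Ideal.mem_sup_right (Ideal.mem_span_singleton_self _))
    rw [h2, zero_add, mul_pow, h3, mul_zero]
  have hrc0 : r ^ c ≠ 0 := pow_ne_zero _ hr0
  -- the primes
  have hfinP : (aF D c).minimalPrimes.Finite :=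
    Ideal.finite_minimalPrimes_of_isNoetherianRing (Po κ n) (aF D c)
  let PP : Set (Ideal (Po κ n)) :=
    {Q | Q ∈ (aF D c).minimalPrimes ∧ ∀ p : Po κ 3, (aeval z p : Po κ n) ∈ Q → p = 0}
  have hPPf : PP.Finite := hfinP.subset fun Q hQ => hQ.1
  have : Finite PP := hPPf.to_subtype
  -- the linear forms
  let L : (Fin n → κ) →ₗ[κ] Po κ n :=
    { toFun := fun v => lin fun i => if i ∈ D.A then v i else 0
      map_add' := by
        intro v w
        unfold lin
        rw [← Finset.sum_add_distrib]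
        refine Finset.sum_congr rfl fun i _ => ?_
        by_cases h : i ∈ D.A
        · simp only [h, if_true, Pi.add_apply, C_add]; ring
        · simp only [h, if_false, C_0, zero_mul, add_zero]
      map_smul' := by
        intro a v
        unfold lin
        rw [RingHom.id_apply, Finset.smul_sum]
        refine Finset.sum_congr rfl fun i _ => ?_
        by_cases h : i ∈ D.A
        · simp only [h, if_true, Pi.smul_apply, smul_eq_mul, C_mul, smul_eq_C_mul]; ring
        · simp only [h, if_false, C_0, zero_mul, smul_zero] }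
  have hLs : ∀ i ∈ D.A, L (Pi.single i 1) = X i := by
    intro i hi
    show lin _ = _
    unfold lin
    rw [Finset.sum_eq_single i]
    · simp [hi]
    · intro j _ hj
      have h1 : (Pi.single i 1 : Fin n → κ) j = 0 := Pi.single_eq_of_ne hj 1
      simp [h1]
    · intro h; exact absurd (Finset.mem_univ _) h
  let W : PP → Submodule κ (Fin n → κ) := fun Q => (Q.1.restrictScalars κ).comap L
  obtain ⟨v, hv⟩ : ∃ v : Fin n → κ, ∀ Q : PP, v ∉ W Q := by
    by_contra hcon
    push Not at hcon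
    have h1 : (⋃ i, (W i : Set (Fin n → κ))) = Set.univ := by
      rw [Set.eq_univ_iff_forall]
      intro v
      obtain ⟨Q, hQ⟩ := hcon v
      exact Set.mem_iUnion.2 ⟨Q, hQ⟩
    obtain ⟨Q, hQ⟩ := Subspace.exists_eq_top_of_iUnion_eq_univ h1
    have h2 : ∀ i ∈ D.A, (X i : Po κ n) ∈ Q.1 := by
      intro i hi
      have h3 : (Pi.single i 1 : Fin n → κ) ∈ W Q := by rw [hQ]; trivial
      have h4 : L (Pi.single i 1) ∈ Q.1 := h3
      rw [hLs i hi] at h4
      exact h4
    have h5 : VI κ D.A ≤ Q.1 := by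
      unfold VI
      rw [Ideal.span_le]
      rintro _ ⟨i, hi, rfl⟩
      exact h2 i hi
    have h6 : aF D c ≤ Q.1 := Q.2.1.1.2
    exact hrc0 (Q.2.2 _ (sup_le h5 h6 hrc))
  refine ⟨fun i => if i ∈ D.A then v i else 0, fun i hi => by simp [hi], ?_⟩
  have hLv : lin (fun i => if i ∈ D.A then v i else 0) = L v := rfl
  rw [hLv]
  -- the ideal generated by `L v` meets `κ[z]`
  let S' : Submonoid (Po κ n) :=
    { carrier := {f | ∃ p : Po κ 3, p ≠ 0 ∧ f = aeval z p}
      mul_mem' := by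
        rintro _ _ ⟨p, hp, rfl⟩ ⟨q, hq, rfl⟩
        exact ⟨p * q, mul_ne_zero hp hq, by rw [map_mul]⟩
      one_mem' := ⟨1, one_ne_zero, by rw [map_one]⟩ }
  have hmeet : ¬ Disjoint ((aF D c ⊔ Ideal.span {L v} : Ideal (Po κ n)) : Set (Po κ n)) S' := by
    intro hdis
    obtain ⟨Q, hQp, hQ1, hQ2⟩ := Ideal.exists_le_prime_disjoint _ S' hdis
    have hd : ∀ p : Po κ 3, (aeval z p : Po κ n) ∈ Q → p = 0 := by
      intro p hp
      by_contra hp0
      exact Set.disjoint_left.1 hQ2 hp ⟨p, hp0, rfl⟩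
    have hQm := min_prime (aF D c) z (hZPC κ n D c z hz) Q (le_sup_left.trans hQ1) hd
    apply hv ⟨Q, hQm, hd⟩
    exact hQ1 (Ideal.mem_sup_right (Ideal.mem_span_singleton_self _))
  rw [Set.not_disjoint_iff] at hmeet
  obtain ⟨f, hf1, p, hp, rfl⟩ := hmeet
  obtain ⟨a, ha, b, hb, hab⟩ := Submodule.mem_sup.1 hf1
  obtain ⟨g, rfl⟩ := Ideal.mem_span_singleton'.1 hb
  refine ⟨g, p, hp, ?_⟩
  rw [← hab]
  have h7 : L v * g - (a + g * L v) = -a := by ring
  rw [h7]
  exact neg_mem ha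

end

end Pool.Agent.RST
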