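import Pool.Agent.RST.Stmts
import Pool.Agent.GML.CMP
import Pool.Agent.GML.AGR
import Pool.Agent.GML.GRO

/-!
# RST: module GNB (sections in `q` modulo sections in `F B`)
-/

set_option autoImplicit false

namespace Pool.Agent.RST

open MvPolynomial Pool.Agent.GML

noncomputable section

namespace GNB_

/-! ## the ring `B` -/

section ring

variable {Z : Ctx}

lemma inj_BL : Function.Injective (algebraMap Z.B Z.L) := IsFractionRing.injective Z.B Z.L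

/-- `ϖ⁻¹` -/
def pinv (Z : Ctx) : Z.K := (algebraMap Z.V Z.K Z.ϖ)⁻¹

lemma pi_ne : algebraMap Z.V Z.K Z.ϖ ≠ 0 := by
  intro h
  have h1 := (IsFractionRing.injective Z.V Z.K) (h.trans (map_zero _).symm)
  exact Z.irr.ne_zero h1

lemma smul_VB (a : Z.V) (y : Z.B) : a • y = (algebraMap Z.V Z.K a) • y :=
  (algebraMap_smul Z.K a y).symm

lemma pi_pinv (y : Z.B) : Z.ϖ • (pinv Z • y) = y := by
  rw [smul_VB, smul_smul, pinv, mul_inv_cancel₀ pi_ne, one_smul]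

lemma pinv_pi (y : Z.B) : pinv Z • (Z.ϖ • y) = y := by
  rw [smul_VB, smul_smul, pinv, inv_mul_cancel₀ pi_ne, one_smul]

lemma pi_inj {y y' : Z.B} (h : Z.ϖ • y = Z.ϖ • y') : y = y' := by
  rw [← pinv_pi y, h, pinv_pi]

lemma K_mem (I : Ideal Z.B) (a : Z.K) {y : Z.B} (hy : y ∈ I) : a • y ∈ I := by
  rw [Algebra.smul_def]
  exact I.mul_mem_left _ hy

lemma V_mem (I : Ideal Z.B) (a : Z.V) {y : Z.B} (hy : y ∈ I) : a • y ∈ I := by
  rw [smul_VB]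
  exact K_mem I _ hy

/-- values of homogeneous polynomials are homogeneous -/
lemma aeval_mem {G : Po Z.V Z.n} {N : ℕ} (hG : G.IsHomogeneous N) : aeval Z.x G ∈ Z.ℬ N := by
  rw [G.as_sum, map_sum]
  refine Submodule.sum_mem _ fun d hd => ?_
  rw [aeval_monomial, ← Algebra.smul_def, smul_VB]
  refine Submodule.smul_mem _ _ ?_
  have h1 := SetLike.prod_pow_mem_graded Z.ℬ (fun _ : Fin Z.n => 1) Z.x (F := d.support) d
    (fun k _ => Z.x_deg k)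
  have h2 : ∑ k ∈ d.support, d k • 1 = N := by
    have h3 := hG (mem_support_iff.1 hd)
    rw [← h3, Finsupp.weight_apply, Finsupp.sum]
    rfl
  rw [h2] at h1
  exact h1

/-- cancellation of a homogeneous factor -/
lemma cancel_deg {j y : Z.B} {a d : ℕ} (hj : j ∈ Z.ℬ a) (hj0 : j ≠ 0) (h : j * y ∈ Z.ℬ (a + d)) :
    y ∈ Z.ℬ d := by
  classical
  have h1 : ∀ i, i ≠ d → (DirectSum.decompose Z.ℬ y i : Z.B) = 0 := by
    intro i hi
    have h2 : (DirectSum.decompose Z.ℬ (j * y) (a + i) : Z.B) = j * DirectSum.decompose Z.ℬ y i :=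
      DirectSum.coe_decompose_mul_add_of_left_mem Z.ℬ hj
    have h3 : (DirectSum.decompose Z.ℬ (j * y) (a + i) : Z.B) = 0 :=
      DirectSum.decompose_of_mem_ne Z.ℬ h (by omega)
    rw [h3] at h2
    rcases mul_eq_zero.1 h2.symm with h4 | h4
    · exact absurd h4 hj0
    · exact h4
  have h5 : y = (DirectSum.decompose Z.ℬ y d : Z.B) := by
    conv_lhs => rw [← DirectSum.sum_support_decompose Z.ℬ y]
    by_cases hd : d ∈ (DirectSum.decompose Z.ℬ y).support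
    · exact Finset.sum_eq_single_of_mem d hd fun b _ hb => h1 b hb
    · rw [Finset.sum_eq_zero fun b hb => h1 b (fun h => hd (h ▸ hb))]
      have h6 : DirectSum.decompose Z.ℬ y d = 0 := by simpa using hd
      rw [h6]
      rfl
  rw [h5]
  exact (DirectSum.decompose Z.ℬ y d).2

end ring

/-! ## `g` is injective on `Qm` -/

section inj

variable {Z : Ctx} (Y : Cut Z)

/-- lifts of linear forms -/
lemma lin_inj {n : ℕ} {κ : Type} [Field κ] (D : XD κ n) (c : ℕ) (z : Fin 3 → Po κ n)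
    (v : Fin n → κ) (hGG : GG D c z v) (Q : GMod κ n) (hZ : ZTf z Q) (hK : Kil Q (aF D c)) (u : Q.M)
    (h : lin v • u = 0) : u = 0 := by
  obtain ⟨-, g', r, hr, hg⟩ := hGG
  apply hZ r hr
  have h1 := hK _ hg u
  rw [sub_smul, mul_comm, mul_smul, h, smul_zero, zero_sub, neg_eq_zero] at h1
  exact h1

lemma lin_inj_pow {n : ℕ} {κ : Type} [Field κ] (D : XD κ n) (c : ℕ) (z : Fin 3 → Po κ n)
    (v : Fin n → κ) (hGG : GG D c z v) (Q : GMod κ n) (hZ : ZTf z Q) (hK : Kil Q (aF D c))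
    (k : ℕ) : ∀ u : Q.M, lin v ^ k • u = 0 → u = 0 := by
  induction k with
  | zero =>
    intro u h
    simpa using h
  | succ k ih =>
    intro u h
    rw [pow_succ, mul_smul] at h
    exact lin_inj D c z v hGG Q hZ hK u (ih _ h)

lemma mem_mM_F (hF : Y.F ∈ Z.q) (b : Z.B) : Y.F * b ∈ mM Y := by
  refine ⟨Z.q.mul_mem_right _ hF, 0, 1, isHomogeneous_one _ _, ?_, 0, Z.S.zero_mem, b, ?_⟩
  · rw [map_one]
    exact one_ne_zero
  · rw [map_one, one_mul, zero_add]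

lemma mem_mM_S (y : Z.B) (hq : y ∈ Z.q) (hS : y ∈ Z.S) : y ∈ mM Y := by
  refine ⟨hq, 0, 1, isHomogeneous_one _ _, ?_, y, hS, 0, ?_⟩
  · rw [map_one]
    exact one_ne_zero
  · rw [map_one, one_mul, mul_zero, add_zero]

lemma mM_q {y : Z.B} (h : y ∈ mM Y) : y ∈ Z.q := h.1

lemma mem_mM1 (hF : Y.F ∈ Z.q) {y : Z.B} (h : y ∈ mM1 Y) : ∃ y' ∈ mM Y, y = Z.ϖ • y' := by
  obtain ⟨m, hm, b, rfl⟩ := h
  refine ⟨m + Y.F * (pinv Z • b), Submodule.add_mem _ hm (mem_mM_F Y hF _), ?_⟩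
  rw [smul_add, ← mul_smul_comm, pi_pinv]

end inj

/-- the data of the lemma -/
structure Dat (Z : Ctx) (Y : Cut Z) where
  v : Fin Z.n → Z.κ
  hGG : GG Z.D Y.c Y.zk v
  Qm : GMod Z.κ Z.n
  pm : mM Y →+ Qm.M
  hQM : QM (mM Y) (mM1 Y) Qm pm
  hZ : ZTf Y.zk Qm
  hK : Kil Qm (aF Z.D Y.c)
  hF : Y.F ∈ Z.q
  hF0 : Y.F ≠ 0
  hSt : St (mM Y)
  hpi : ∀ y ∈ mM Y, Z.ϖ • y ∈ mM1 Y

section main

variable {Z : Ctx} {Y : Cut Z} (T : Dat Z Y)

include T in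
/-- INJ, one step -/
lemma inj_step {y : Z.B} {U : Po Z.V Z.n} {k : ℕ} (hU : MvPolynomial.map Z.σ U = lin T.v ^ k)
    (h1 : aeval Z.x U * y ∈ mM Y) (h2 : Z.ϖ • y ∈ mM Y) : y ∈ mM Y := by
  have h3 : aeval Z.x U * (Z.ϖ • y) = Z.ϖ • (aeval Z.x U * y) := mul_smul_comm _ _ _
  have h4 : aeval Z.x U * (Z.ϖ • y) ∈ mM1 Y := by
    rw [h3]
    exact T.hpi _ h1
  have h5 : aeval Z.x U * (Z.ϖ • y) ∈ mM Y := T.hSt.mul U _ h2
  have h6 : T.pm ⟨_, h5⟩ = MvPolynomial.map Z.σ U • T.pm ⟨_, h2⟩ := T.hQM.smul U _ _ rfl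
  have h7 : T.pm ⟨_, h5⟩ = 0 := (T.hQM.ker _).2 h4
  rw [h7, hU] at h6
  have h8 := lin_inj_pow Z.D Y.c Y.zk T.v T.hGG T.Qm T.hZ T.hK k _ h6.symm
  have h9 := mem_mM1 Y T.hF ((T.hQM.ker _).1 h8)
  obtain ⟨y', hy', h10⟩ := h9
  rw [pi_inj h10]
  exact hy'

include T in
/-- INJ -/
lemma inj {y : Z.B} {U : Po Z.V Z.n} {k : ℕ} (hU : MvPolynomial.map Z.σ U = lin T.v ^ k)
    (hq : y ∈ Z.q) (h1 : aeval Z.x U * y ∈ mM Y) : y ∈ mM Y := by
  obtain ⟨j, hj⟩ := Z.S_lat y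
  have h2 : Z.ϖ ^ j • y ∈ mM Y := mem_mM_S Y _ (V_mem _ _ hq) hj
  clear hj
  induction j with
  | zero => simpa using h2
  | succ j ih =>
    apply ih
    apply inj_step T hU
    · rw [mul_smul_comm]
      exact Submodule.smul_mem _ _ h1
    · rw [← mul_smul, ← pow_succ']
      exact h2

lemma pow_pinv (k : ℕ) (y : Z.B) : Z.ϖ ^ k • (pinv Z ^ k • y) = y := by
  induction k generalizing y with
  | zero => simp
  | succ k ih =>
    rw [pow_succ (pinv Z), pow_succ' Z.ϖ, mul_smul, mul_smul, ih, pi_pinv]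

include T in
/-- INJ with a power of `ϖ` -/
lemma inj' {y : Z.B} {U : Po Z.V Z.n} {k : ℕ} (hU : MvPolynomial.map Z.σ U = lin T.v ^ k)
    (hq : y ∈ Z.q) (e : ℕ) (h1 : ∃ y' ∈ mM Y, aeval Z.x U * y = Z.ϖ ^ e • y') :
    ∃ y' ∈ mM Y, y = Z.ϖ ^ e • y' := by
  obtain ⟨y', hy', h2⟩ := h1
  refine ⟨pinv Z ^ e • y, inj T hU (K_mem _ _ hq) ?_, (pow_pinv e y).symm⟩
  have h3 : aeval Z.x U * (pinv Z ^ e • y) = y' := by
    have h4 : Z.ϖ ^ e • (aeval Z.x U * (pinv Z ^ e • y)) = Z.ϖ ^ e • y' := by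
      rw [← mul_smul_comm, pow_pinv, h2]
    have h5 : ∀ (e : ℕ) (a b : Z.B), Z.ϖ ^ e • a = Z.ϖ ^ e • b → a = b := by
      intro e
      induction e with
      | zero => intro a b h; simpa using h
      | succ e ih =>
        intro a b h
        rw [pow_succ', mul_smul, mul_smul] at h
        exact ih a b (pi_inj h)
    exact h5 e _ _ h4
  rw [h3]
  exact hy'

/-! ## the lattice -/

/-- `G(x) b` is in `M` -/
def InM (Y : Cut Z) (G : Po Z.V Z.n) (b : Z.L) : Prop :=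
  ∃ y ∈ mM Y, algebraMap Z.B Z.L (aeval Z.x G) * b = algebraMap Z.B Z.L y

lemma InM_zero (G : Po Z.V Z.n) : InM Y G 0 :=
  ⟨0, Submodule.zero_mem _, by rw [mul_zero, map_zero]⟩

lemma InM_add {G : Po Z.V Z.n} {b b' : Z.L} (h : InM Y G b) (h' : InM Y G b') :
    InM Y G (b + b') := by
  obtain ⟨y, hy, h⟩ := h
  obtain ⟨y', hy', h'⟩ := h'
  exact ⟨y + y', Submodule.add_mem _ hy hy', by rw [mul_add, h, h', map_add]⟩

lemma map_smul_BL (a : Z.K) (y : Z.B) :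
    algebraMap Z.B Z.L (a • y) = a • algebraMap Z.B Z.L y := by
  rw [Algebra.smul_def, Algebra.smul_def, map_mul, ← IsScalarTower.algebraMap_apply Z.K Z.B Z.L]

lemma InM_smul (a : Z.V) {G : Po Z.V Z.n} {b : Z.L} (h : InM Y G b) :
    InM Y G (algebraMap Z.V Z.K a • b) := by
  obtain ⟨y, hy, h⟩ := h
  refine ⟨a • y, Submodule.smul_mem _ _ hy, ?_⟩
  rw [mul_smul_comm, h, smul_VB, map_smul_BL]

lemma InM_mul (hSt : St (mM Y)) (H : Po Z.V Z.n) {G : Po Z.V Z.n} {b : Z.L} (h : InM Y G b) :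
    InM Y (H * G) b := by
  obtain ⟨y, hy, h⟩ := h
  refine ⟨aeval Z.x H * y, hSt.mul H y hy, ?_⟩
  rw [map_mul, map_mul, mul_assoc, h, map_mul]

lemma InM_sum (hSt : St (mM Y)) {ι : Type} (s : Finset ι) (H G : ι → Po Z.V Z.n) {b : Z.L}
    (h : ∀ i ∈ s, InM Y (G i) b) : InM Y (∑ i ∈ s, H i * G i) b := by
  classical
  induction s using Finset.induction_on with
  | empty =>
    refine ⟨0, Submodule.zero_mem _, ?_⟩
    rw [Finset.sum_empty, map_zero, map_zero, zero_mul]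
  | insert a s ha ih =>
    rw [Finset.sum_insert ha]
    obtain ⟨y, hy, h1⟩ := InM_mul hSt (H a) (h a (Finset.mem_insert_self _ _))
    obtain ⟨y', hy', h2⟩ := ih fun i hi => h i (Finset.mem_insert_of_mem hi)
    refine ⟨y + y', Submodule.add_mem _ hy hy', ?_⟩
    rw [map_add, map_add, add_mul, h1, h2, map_add]

/-- the lattice -/
def InG (Y : Cut Z) (b : Z.L) : Prop :=
  ∀ c ∈ Z.D.A, ∃ (N : ℕ) (G : Po Z.V Z.n), G.IsHomogeneous N ∧
    MvPolynomial.map Z.σ G = X c ^ N ∧ InM Y G b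

/-- finitely many elements -/
lemma fin_one (hSt : St (mM Y)) (c : Fin Z.n) (s : Finset Z.L)
    (h : ∀ b ∈ s, ∃ (N : ℕ) (G : Po Z.V Z.n), G.IsHomogeneous N ∧
      MvPolynomial.map Z.σ G = X c ^ N ∧ InM Y G b) :
    ∃ (N : ℕ) (G : Po Z.V Z.n), G.IsHomogeneous N ∧
      MvPolynomial.map Z.σ G = X c ^ N ∧ ∀ b ∈ s, InM Y G b := by
  classical
  induction s using Finset.induction_on with
  | empty => exact ⟨0, 1, isHomogeneous_one _ _, by simp, by simp⟩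
  | insert a s ha ih =>
    obtain ⟨N, G, h1, h2, h3⟩ := h a (Finset.mem_insert_self _ _)
    obtain ⟨N', G', h1', h2', h3'⟩ := ih fun b hb => h b (Finset.mem_insert_of_mem hb)
    refine ⟨N + N', G * G', h1.mul h1', by rw [map_mul, h2, h2', pow_add], fun b hb => ?_⟩
    rcases Finset.mem_insert.1 hb with rfl | hb
    · rw [mul_comm]
      exact InM_mul hSt _ h3
    · exact InM_mul hSt _ (h3' b hb)

/-- a common exponent -/
lemma fin_all (hSt : St (mM Y)) (s : Finset Z.L) (h : ∀ b ∈ s, InG Y b) :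
    ∃ (N : ℕ) (G : Fin Z.n → Po Z.V Z.n), ∀ c ∈ Z.D.A, (G c).IsHomogeneous N ∧
      MvPolynomial.map Z.σ (G c) = X c ^ N ∧ ∀ b ∈ s, InM Y (G c) b := by
  classical
  have h1 : ∀ c : Fin Z.n, ∃ (N : ℕ) (G : Po Z.V Z.n), c ∈ Z.D.A → (G.IsHomogeneous N ∧
      MvPolynomial.map Z.σ G = X c ^ N ∧ ∀ b ∈ s, InM Y G b) := by
    intro c
    by_cases hc : c ∈ Z.D.A
    · obtain ⟨N, G, h1⟩ := fin_one hSt c s fun b hb => h b hb c hc
      exact ⟨N, G, fun _ => h1⟩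
    · exact ⟨0, 0, fun h => absurd h hc⟩
  choose N G hG using h1
  refine ⟨∑ c, N c, fun c => X c ^ (∑ c, N c - N c) * G c, fun c hc => ?_⟩
  obtain ⟨h2, h3, h4⟩ := hG c hc
  have h5 : N c ≤ ∑ c, N c := Finset.single_le_sum (fun _ _ => Nat.zero_le _) (Finset.mem_univ c)
  refine ⟨?_, ?_, fun b hb => InM_mul hSt _ (h4 b hb)⟩
  · have h6 := (((isHomogeneous_X Z.V c).pow (∑ c, N c - N c)).mul h2)
    have h7 : 1 * (∑ c, N c - N c) + N c = ∑ c, N c := by omega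
    rwa [h7] at h6
  · rw [map_mul, map_pow, map_X, h3, ← pow_add]
    congr 1
    omega

/-- a power of `g` -/
lemma pow_g (hSt : St (mM Y)) (v : Fin Z.n → Z.κ) (hv : ∀ i, i ∉ Z.D.A → v i = 0) {b : Z.L}
    (h : InG Y b) : ∃ (U : Po Z.V Z.n) (k : ℕ), MvPolynomial.map Z.σ U = lin v ^ k ∧
      InM Y U b := by
  classical
  obtain ⟨N, G, hG⟩ := fin_all hSt {b} (by
    intro b' hb'
    rw [Finset.mem_singleton.1 hb']
    exact h)
  have h1 : lin v ∈ (Ideal.span (Set.range fun c : Z.D.A => (X (c : Fin Z.n) : Po Z.κ Z.n) ^ N)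
      ).radical := by
    refine Submodule.sum_mem _ fun c _ => ?_
    by_cases hc : c ∈ Z.D.A
    · refine Ideal.mul_mem_left _ _ ⟨N, Ideal.subset_span ⟨⟨c, hc⟩, rfl⟩⟩
    · rw [hv c hc, map_zero, zero_mul]
      exact Submodule.zero_mem _
  obtain ⟨k, hk⟩ := h1
  have : Finite Z.D.A := Subtype.finite
  have := Fintype.ofFinite Z.D.A
  obtain ⟨a, ha⟩ := (Ideal.mem_span_range_iff_exists_fun).1 hk
  have h2 : ∀ c : Z.D.A, ∃ H : Po Z.V Z.n, MvPolynomial.map Z.σ H = a c := fun c =>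
    MvPolynomial.map_surjective Z.σ Z.surjσ (a c)
  choose H hH using h2
  refine ⟨∑ c : Z.D.A, H c * G c, k, ?_, InM_sum hSt _ _ _ fun c _ => ?_⟩
  · rw [map_sum, ← ha]
    refine Finset.sum_congr rfl fun c _ => ?_
    rw [map_mul, hH, (hG c c.2).2.1]
  · exact (hG c c.2).2.2 b (Finset.mem_singleton_self _)

/-- elements of the ideals of the family -/
lemma JJ_var {J : Ideal Z.B} (hJ : J ∈ Z.JJ) {c : Fin Z.n} (hc : c ∈ Z.D.A) :
    ∃ (N : ℕ) (G : Po Z.V Z.n), G.IsHomogeneous N ∧ MvPolynomial.map Z.σ G = X c ^ N ∧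
      aeval Z.x G ∈ J := by
  classical
  obtain ⟨N, G, -, h1, h2, h3⟩ := Z.JJ_pow J hJ (Pi.single c 1) (by
    intro c' hc'
    rw [Pi.single_eq_of_ne]
    rintro rfl
    exact hc' hc)
  refine ⟨N, G, h1, ?_, h3⟩
  rw [h2]
  congr 1
  rw [Finset.sum_eq_single c]
  · rw [Pi.single_eq_same, map_one, map_one, one_mul]
  · intro b _ hb
    rw [Pi.single_eq_of_ne hb, map_zero, map_zero, zero_mul]
  · intro h
    exact absurd (Finset.mem_univ c) h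

lemma JJ_lin {J : Ideal Z.B} (hJ : J ∈ Z.JJ) (v : Fin Z.n → Z.κ)
    (hv : ∀ i, i ∉ Z.D.A → v i = 0) :
    ∃ (k : ℕ) (U : Po Z.V Z.n), U.IsHomogeneous k ∧ MvPolynomial.map Z.σ U = lin v ^ k ∧
      aeval Z.x U ∈ J := by
  classical
  have h1 : ∀ i, ∃ a : Z.V, Z.σ a = v i ∧ (i ∉ Z.D.A → a = 0) := by
    intro i
    by_cases hi : i ∈ Z.D.A
    · obtain ⟨a, ha⟩ := Z.surjσ (v i)
      exact ⟨a, ha, fun h => absurd hi h⟩
    · exact ⟨0, by rw [map_zero, hv i hi], fun _ => rfl⟩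
  choose a ha ha' using h1
  obtain ⟨N, G, -, h1, h2, h3⟩ := Z.JJ_pow J hJ a ha'
  refine ⟨N, G, h1, ?_, h3⟩
  rw [h2]
  simp only [ha]
  rfl

lemma WP_mono {P P' : Ideal Z.B} (h : P ≤ P') (m : ℕ) : Z.WP' P m ≤ Z.WP' P' m := by
  rintro b ⟨J, hJ, h1⟩
  refine ⟨J, hJ, fun i j hj hji => ?_⟩
  obtain ⟨b', hb', h2⟩ := h1 i j hj hji
  exact ⟨b', h hb', h2⟩

/-- (1) -/
lemma E0_G (hF : Y.F ∈ Z.q) {m : ℕ} {b : Z.L} (hb : b ∈ Z.WP' (Ideal.span {Y.F}) m) :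
    InG Y b := by
  obtain ⟨J, hJ, h1⟩ := hb
  intro c hc
  obtain ⟨N, G, hG, h2, h3⟩ := JJ_var hJ hc
  obtain ⟨b', hb', -, h4⟩ := h1 N _ h3 (aeval_mem hG)
  obtain ⟨b'', rfl⟩ := Ideal.mem_span_singleton'.1 hb'
  refine ⟨N, G, hG, h2, b'' * Y.F, ?_, h4⟩
  rw [mul_comm]
  exact mem_mM_F Y hF _

/-- (2) -/
lemma E_G {m : ℕ} {b : Z.L} (hb : b ∈ Z.WP' Z.q m) : ∃ k : ℕ,
    InG Y (algebraMap Z.V Z.K (Z.ϖ ^ k) • b) := by
  classical
  obtain ⟨J, hJ, h1⟩ := hb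
  have h5 : ∀ c : Fin Z.n, ∃ k : ℕ, c ∈ Z.D.A → ∃ (N : ℕ) (G : Po Z.V Z.n), G.IsHomogeneous N ∧
      MvPolynomial.map Z.σ G = X c ^ N ∧ InM Y G (algebraMap Z.V Z.K (Z.ϖ ^ k) • b) := by
    intro c
    by_cases hc : c ∈ Z.D.A
    · obtain ⟨N, G, hG, h2, h3⟩ := JJ_var hJ hc
      obtain ⟨b', hb', -, h4⟩ := h1 N _ h3 (aeval_mem hG)
      obtain ⟨k, hk⟩ := Z.S_lat b'
      refine ⟨k, fun _ => ⟨N, G, hG, h2, Z.ϖ ^ k • b', mem_mM_S Y _ (V_mem _ _ hb') hk, ?_⟩⟩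
      rw [mul_smul_comm, h4, smul_VB, map_smul_BL]
    · exact ⟨0, fun h => absurd h hc⟩
  choose k hk using h5
  refine ⟨∑ c, k c, fun c hc => ?_⟩
  obtain ⟨N, G, hG, h2, h3⟩ := hk c hc
  have h6 : k c ≤ ∑ c, k c := Finset.single_le_sum (fun _ _ => Nat.zero_le _) (Finset.mem_univ c)
  refine ⟨N, G, hG, h2, ?_⟩
  have h7 := InM_smul (Z.ϖ ^ (∑ c, k c - k c)) h3
  rw [smul_smul, ← map_mul, ← pow_add] at h7
  have h8 : ∑ c, k c - k c + k c = ∑ c, k c := by omega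
  rwa [h8] at h7

/-- (3) -/
lemma sep (T : Dat Z Y) (hMSP : ∀ y : Z.B, (∀ k : ℕ, ∃ m ∈ mM Y, ∃ b : Z.B,
    y = Z.ϖ ^ k • m + Y.F * b) → ∃ b : Z.B, y = Y.F * b) {m : ℕ} {b : Z.L}
    (hb : b ∈ Z.WP' Z.q m)
    (h : ∀ k : ℕ, ∃ b' : Z.L, InG Y b' ∧ b = algebraMap Z.V Z.K (Z.ϖ ^ k) • b') :
    b ∈ Z.WP' (Ideal.span {Y.F}) m := by
  obtain ⟨J, hJ, h1⟩ := hb
  have hv := T.hGG.1
  obtain ⟨k₀, U₀, hU₀h, hU₀, hU₀J⟩ := JJ_lin hJ T.v hv
  obtain ⟨y0, hy0, -, hy0b⟩ := h1 k₀ _ hU₀J (aeval_mem hU₀h)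
  -- step A
  have hA : ∃ w : Z.B, y0 = Y.F * w := by
    apply hMSP
    intro k
    obtain ⟨b', hb', hbb⟩ := h k
    obtain ⟨U, e, hU, y', hy', h2⟩ := pow_g T.hSt T.v hv hb'
    have h3 : aeval Z.x U * y0 = Z.ϖ ^ k • (aeval Z.x U₀ * y') := by
      apply inj_BL (Z := Z)
      rw [map_mul, ← hy0b, smul_VB, map_smul_BL, map_mul, ← h2]
      conv_lhs => rw [hbb]
      rw [mul_smul_comm, mul_smul_comm]
      congr 1
      ring
    obtain ⟨y'', hy'', h4⟩ := inj' T hU hy0 k ⟨_, T.hSt.mul U₀ y' hy', h3⟩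
    exact ⟨y'', hy'', 0, by rw [mul_zero, add_zero]; exact h4⟩
  obtain ⟨w, hw⟩ := hA
  refine ⟨J, hJ, fun i j hj hji => ?_⟩
  obtain ⟨b', hb', hbd, hbb⟩ := h1 i j hj hji
  refine ⟨b', ?_, hbd, hbb⟩
  have hB : ∃ w' : Z.B, b' = Y.F * w' := by
    apply hMSP
    intro k
    have h3 : aeval Z.x U₀ * b' = Z.ϖ ^ k • (Y.F * (pinv Z ^ k • (j * w))) := by
      rw [← mul_smul_comm, pow_pinv]
      apply inj_BL (Z := Z)
      have h4 : Y.F * (j * w) = j * y0 := by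
        rw [hw]
        ring
      rw [h4, map_mul, map_mul, ← hbb, ← hy0b]
      ring
    obtain ⟨y'', hy'', h4⟩ := inj' T hU₀ hb' k ⟨_, mem_mM_F Y T.hF _, h3⟩
    exact ⟨y'', hy'', 0, by rw [mul_zero, add_zero]; exact h4⟩
  obtain ⟨w', hw'⟩ := hB
  rw [hw']
  exact Ideal.mul_mem_right _ _ (Ideal.mem_span_singleton_self _)

/-- a variable which vanishes on `P` and is not zero -/
lemma A_ex : ∃ c ∈ Z.D.A, (X c : Po Z.κ Z.n) ∉ Z.D.IX := by
  obtain ⟨c, hc, h⟩ := Z.D.JA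
  refine ⟨c, hc, fun h1 => h ?_⟩
  have h2 : emb Z.κ Z.n (X c) ∈ Z.D.I' := h1
  have h3 : emb Z.κ Z.n (X c) = X (Fin.castSucc c) := by
    unfold emb
    rw [rename_X]
  rw [h3] at h2
  exact Z.D.le h2

/-- degrees -/
lemma deg_val (hCFS : ∀ G : Po Z.V Z.n, MvPolynomial.map Z.σ G ∉ Z.D.IX → aeval Z.x G ≠ 0)
    {m N : ℕ} {b : Z.L} (hb : b ∈ Z.WP' Z.q m) {G : Po Z.V Z.n} (hG : G.IsHomogeneous N)
    {y : Z.B} (h : algebraMap Z.B Z.L (aeval Z.x G) * b = algebraMap Z.B Z.L y) :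
    y ∈ Z.ℬ (m + N) := by
  obtain ⟨J, hJ, h1⟩ := hb
  obtain ⟨c, hc, hcI⟩ := A_ex (Z := Z)
  obtain ⟨e, G', hG', h2, h3⟩ := JJ_var hJ hc
  obtain ⟨b', -, hbd, hbb⟩ := h1 e _ h3 (aeval_mem hG')
  have hne : aeval Z.x G' ≠ 0 := by
    apply hCFS
    rw [h2]
    intro h4
    have := Z.D.prime
    have hp : (Z.D.IX).IsPrime := Ideal.comap_isPrime _ _
    exact hcI (hp.mem_of_pow_mem _ h4)
  have h4 : aeval Z.x G' * y = aeval Z.x G * b' := by
    apply inj_BL (Z := Z)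
    rw [map_mul, map_mul, ← h, ← hbb]
    ring
  refine cancel_deg (aeval_mem hG') hne ?_
  rw [h4]
  have h5 := SetLike.mul_mem_graded (aeval_mem hG) hbd
  have h6 : N + (e + m) = e + (m + N) := by ring
  rwa [h6] at h5

/-- the graded pieces of a finite module are finite dimensional -/
lemma gr_fin {κ : Type} [Field κ] {n : ℕ} (hn : 0 < n) (hAGR : Stmt_AGR) (hCMP : Stmt_CMP)
    (M : GMod κ n) (hfin : Module.Finite (Po κ n) M.M) (k : ℤ) : Module.Finite κ (M.gr k) := by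
  classical
  obtain ⟨ι, _, y, c, hy, hspan⟩ := GRO_.exists_gens M hCMP
  obtain ⟨-, hmul, hdim⟩ := hAGR
  have hfA : ∀ z : ℤ, Module.Finite κ (Agr κ n z) := fun z => (hdim κ n hn z).1
  let Ψ : ((j : ι) → Agr κ n (k - c j)) →ₗ[κ] M.M :=
    ∑ j, ((LinearMap.toSpanSingleton (Po κ n) M.M (y j)).restrictScalars κ).comp
      ((Submodule.subtype _).comp (LinearMap.proj j))
  have hΨ : ∀ p, Ψ p = ∑ j, (p j : Po κ n) • y j := by
    intro p
    simp [Ψ, LinearMap.sum_apply]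
  have hgr : M.gr k ≤ LinearMap.range Ψ := by
    intro x hx
    obtain ⟨p, hp, hx'⟩ := GRO_.rep M hCMP y c hy hspan k x hx
    exact ⟨fun j => ⟨p j, hp j⟩, by rw [hΨ]; exact hx'.symm⟩
  exact Submodule.finiteDimensional_of_le hgr

lemma gam_fin {κ : Type} [Field κ] {n : ℕ} (A : Set (Fin n)) (M : GMod κ n)
    (h : ∀ k : ℤ, Module.Finite κ (M.gr k)) (N m : ℕ) : Module.Finite κ (Gam A M N m) := by
  classical
  let Φ : Gam A M N m →ₗ[κ] (Fin n → M.gr ((m : ℤ) + N)) :=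
    LinearMap.pi fun c => LinearMap.codRestrict _ ((LinearMap.proj c).comp (Submodule.subtype _))
      fun f => by
        by_cases hc : c ∈ A
        · exact f.2.2.1 c hc
        · have h1 : (f : Fin n → M.M) c = 0 := f.2.1 c hc
          show (f : Fin n → M.M) c ∈ _
          rw [h1]
          exact Submodule.zero_mem _
  have := h ((m : ℤ) + N)
  refine Module.Finite.of_injective Φ ?_
  intro f g hfg
  apply Subtype.ext
  funext c
  exact congrArg (fun z => ((z c : M.gr ((m : ℤ) + N)) : M.M)) hfg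

/-- the value in the special fibre -/
def ph (T : Dat Z Y) (G : Po Z.V Z.n) (b : Z.L) : T.Qm.M := by
  classical
  exact if h : InM Y G b then T.pm ⟨h.choose, h.choose_spec.1⟩ else 0

lemma ph_eq (T : Dat Z Y) (G : Po Z.V Z.n) (b : Z.L) {y : Z.B} (hy : y ∈ mM Y)
    (h : algebraMap Z.B Z.L (aeval Z.x G) * b = algebraMap Z.B Z.L y) :
    ph T G b = T.pm ⟨y, hy⟩ := by
  have h1 : InM Y G b := ⟨y, hy, h⟩
  unfold ph
  rw [dif_pos h1]
  congr 1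
  apply Subtype.ext
  apply inj_BL (Z := Z)
  rw [← h]
  exact h1.choose_spec.2.symm

lemma ph_add (T : Dat Z Y) (G : Po Z.V Z.n) {b b' : Z.L} (h : InM Y G b) (h' : InM Y G b') :
    ph T G (b + b') = ph T G b + ph T G b' := by
  obtain ⟨y, hy, h1⟩ := h
  obtain ⟨y', hy', h2⟩ := h'
  rw [ph_eq T G b hy h1, ph_eq T G b' hy' h2, ← map_add]
  refine ph_eq T G _ _ ?_
  rw [mul_add, h1, h2, map_add]

lemma ph_mem (T : Dat Z Y)
    (hCFS : ∀ G : Po Z.V Z.n, MvPolynomial.map Z.σ G ∉ Z.D.IX → aeval Z.x G ≠ 0)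
    {m N : ℕ} {Gc : Fin Z.n → Po Z.V Z.n}
    (hGc : ∀ c ∈ Z.D.A, (Gc c).IsHomogeneous N ∧ MvPolynomial.map Z.σ (Gc c) = X c ^ N)
    {b : Z.L} (hb : b ∈ Z.WP' Z.q m) (hbM : ∀ c ∈ Z.D.A, InM Y (Gc c) b)
    [DecidablePred (· ∈ Z.D.A)] :
    (fun c => if c ∈ Z.D.A then ph T (Gc c) b else 0) ∈ Gam Z.D.A T.Qm N m := by
  refine ⟨fun c hc => if_neg hc, fun c hc => ?_, fun c hc c' hc' => ?_⟩
  · simp only [if_pos hc]
    obtain ⟨y, hy, h⟩ := hbM c hc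
    rw [ph_eq T _ b hy h]
    have h1 := T.hQM.deg (m + N) ⟨y, hy⟩ (deg_val hCFS hb (hGc c hc).1 h)
    push_cast at h1
    exact h1
  · simp only [if_pos hc, if_pos hc']
    obtain ⟨y, hy, h⟩ := hbM c hc
    obtain ⟨y', hy', h'⟩ := hbM c' hc'
    rw [ph_eq T _ b hy h, ph_eq T _ b hy' h']
    have h1 := T.hQM.smul (Gc c') ⟨y, hy⟩ ⟨_, T.hSt.mul (Gc c') y hy⟩ rfl
    have h2 := T.hQM.smul (Gc c) ⟨y', hy'⟩ ⟨_, T.hSt.mul (Gc c) y' hy'⟩ rfl
    rw [(hGc c' hc').2] at h1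
    rw [(hGc c hc).2] at h2
    rw [← h1, ← h2]
    congr 1
    apply Subtype.ext
    apply inj_BL (Z := Z)
    show algebraMap Z.B Z.L (aeval Z.x (Gc c') * y) = algebraMap Z.B Z.L (aeval Z.x (Gc c) * y')
    rw [map_mul, map_mul, ← h, ← h']
    ring

/-- the value is zero: division by `ϖ` -/
lemma ph_zero (T : Dat Z Y) {G : Po Z.V Z.n} {b : Z.L} (h : InM Y G b) (h0 : ph T G b = 0) :
    InM Y G (pinv Z • b) := by
  obtain ⟨y, hy, h1⟩ := h
  rw [ph_eq T _ b hy h1] at h0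
  obtain ⟨y', hy', h2⟩ := mem_mM1 Y T.hF ((T.hQM.ker _).1 h0)
  refine ⟨y', hy', ?_⟩
  rw [mul_smul_comm, h1]
  have h3 : y = Z.ϖ • y' := h2
  rw [h3, ← map_smul_BL, pinv_pi]

end main

end GNB_

open GNB_ in
/-- **GNB**: the sections in `q` modulo the sections in `F B` are bounded by the sections outside
of `P` of the special fibre -/
theorem gnb_proof (hCFS : Stmt_CFS) (hCST : Stmt_CST) (hMSQ : Stmt_MSQ) (hMSP : Stmt_MSP)
    (hLAT : Stmt_LAT) (hQMF : Stmt_QMF) : Stmt_GNB := by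
  classical
  intro Z Y v hGG Qm pm hQM m B₀ hB
  obtain ⟨hfin, hZ, hK⟩ := hMSQ Z Y Qm pm hQM
  obtain ⟨hF0, hFq, -⟩ := hCFS.2 Z Y
  obtain ⟨-, -, -, -, hSt, -, -, -, -, -, -, hpi⟩ := hCST Z Y
  obtain ⟨-, -, hσ, -⟩ := hQMF Z (mM Y) (mM1 Y) Qm pm hQM
  have hCFS1 : ∀ G : Po Z.V Z.n, MvPolynomial.map Z.σ G ∉ Z.D.IX → aeval Z.x G ≠ 0 :=
    fun G h => (hCFS.1 Z G h).1
  let T : Dat Z Y := ⟨v, hGG, Qm, pm, hQM, hZ, hK, hFq, hF0, hSt, hpi⟩
  -- the space `E`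
  have hle : Z.WP' Z.q m ≤ Z.WP' ⊤ m := WP_mono le_top m
  have hWf := Z.W_fin m
  have hEf : Module.Finite Z.K (Z.WP' Z.q m) := Submodule.finiteDimensional_of_le hle
  let mVE : Module Z.V (Z.WP' Z.q m) := Module.compHom _ (algebraMap Z.V Z.K)
  have hsm : ∀ (a : Z.V) (b : Z.WP' Z.q m), ((a • b : Z.WP' Z.q m) : Z.L) =
      algebraMap Z.V Z.K a • (b : Z.L) := fun a b => rfl
  have : IsScalarTower Z.V Z.K (Z.WP' Z.q m) := ⟨fun a b c => by
    apply Subtype.ext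
    rw [hsm]
    show (a • b) • (c : Z.L) = algebraMap Z.V Z.K a • (b • (c : Z.L))
    rw [Algebra.smul_def a b, mul_smul]⟩
  have hFle : Ideal.span {Y.F} ≤ Z.q := by
    rw [Ideal.span_singleton_le_iff_mem]
    exact hFq
  let E₀ : Submodule Z.K (Z.WP' Z.q m) :=
    (Z.WP' (Ideal.span {Y.F}) m).comap (Z.WP' Z.q m).subtype
  have hE₀ : Module.finrank Z.K E₀ = Module.finrank Z.K (Z.WP' (Ideal.span {Y.F}) m) :=
    (Submodule.comapSubtypeEquivOfLe (WP_mono hFle m)).finrank_eq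
  let G : Submodule Z.V (Z.WP' Z.q m) :=
    { carrier := {b | InG Y (b : Z.L)}
      add_mem' := by
        intro b b' hb hb' c hc
        obtain ⟨N, H, h1, h2, h3⟩ := hb c hc
        obtain ⟨N', H', h1', h2', h3'⟩ := hb' c hc
        refine ⟨N + N', H * H', h1.mul h1', by rw [map_mul, h2, h2', pow_add], ?_⟩
        refine InM_add ?_ (InM_mul hSt _ h3')
        rw [mul_comm]
        exact InM_mul hSt _ h3
      zero_mem' := fun c _ => ⟨0, 1, isHomogeneous_one _ _, by simp, InM_zero _⟩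
      smul_mem' := by
        intro a b hb c hc
        obtain ⟨N, H, h1, h2, h3⟩ := hb c hc
        exact ⟨N, H, h1, h2, InM_smul a h3⟩ }
  have hG : ∀ b : Z.WP' Z.q m, b ∈ G ↔ InG Y (b : Z.L) := fun b => Iff.rfl
  rw [← hE₀]
  refine hLAT Z.V Z.κ Z.σ Z.ϖ Z.irr Z.surjσ Z.kerσ Z.K (Z.WP' Z.q m) E₀ G B₀ ?_ ?_ ?_ ?_
  · intro y hy
    exact E0_G hFq hy
  · intro y
    obtain ⟨k, hk⟩ := E_G (Y := Y) y.2
    exact ⟨k, hk⟩
  · intro y hy
    refine sep T (hMSP Z Y) y.2 fun k => ?_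
    obtain ⟨y', hy', h1⟩ := hy k
    exact ⟨y', hy', congrArg Subtype.val h1⟩
  · intro G₁ hG₁ hfg
    obtain ⟨s, hs⟩ := hfg
    obtain ⟨N, Gc, hGc⟩ := fin_all (Y := Y) hSt (s.image Subtype.val) (by
      intro b hb
      obtain ⟨b', hb', rfl⟩ := Finset.mem_image.1 hb
      refine hG₁ ?_
      rw [← hs]
      exact Submodule.subset_span hb')
    have hM : ∀ b ∈ G₁, ∀ c ∈ Z.D.A, InM Y (Gc c) (b : Z.L) := by
      intro b hb c hc
      rw [← hs] at hb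
      induction hb using Submodule.span_induction with
      | mem b hb => exact (hGc c hc).2.2 _ (Finset.mem_image.2 ⟨b, hb, rfl⟩)
      | zero => exact InM_zero _
      | add b b' _ _ h h' => exact InM_add h h'
      | smul a b _ h => exact InM_smul a h
    have hGc' : ∀ c ∈ Z.D.A, (Gc c).IsHomogeneous N ∧
        MvPolynomial.map Z.σ (Gc c) = X c ^ N := fun c hc => ⟨(hGc c hc).1, (hGc c hc).2.1⟩
    have hmem : ∀ b : G₁, (fun c => if c ∈ Z.D.A then ph T (Gc c) ((b : Z.WP' Z.q m) : Z.L)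
        else 0) ∈ Gam Z.D.A Qm N m := fun b =>
      ph_mem T hCFS1 hGc' (b : Z.WP' Z.q m).2 (hM b b.2)
    let p : G₁ →+ Gam Z.D.A Qm N m := AddMonoidHom.mk' (fun b => ⟨_, hmem b⟩) (by
      intro b b'
      apply Subtype.ext
      funext c
      show (if c ∈ Z.D.A then ph T (Gc c) (((b + b' : G₁) : Z.WP' Z.q m) : Z.L) else 0) =
        (if c ∈ Z.D.A then ph T (Gc c) ((b : Z.WP' Z.q m) : Z.L) else 0) +
        (if c ∈ Z.D.A then ph T (Gc c) ((b' : Z.WP' Z.q m) : Z.L) else 0)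
      split_ifs with hc
      · exact ph_add T _ (hM b b.2 c hc) (hM b' b'.2 c hc)
      · rw [add_zero])
    have hp : ∀ (b : G₁) (c : Fin Z.n), ((p b : Gam Z.D.A Qm N m) : Fin Z.n → Qm.M) c =
        if c ∈ Z.D.A then ph T (Gc c) ((b : Z.WP' Z.q m) : Z.L) else 0 := fun b c => rfl
    have hn : 0 < Z.n := by
      obtain ⟨c, -, -⟩ := A_ex (Z := Z)
      exact c.pos
    refine ⟨Gam Z.D.A Qm N m, inferInstance, inferInstance, p, ?_, hB N, ?_, ?_⟩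
    · exact gam_fin _ _ (gr_fin hn agr_proof cmp_proof Qm hfin) N m
    · intro a b
      apply Subtype.ext
      funext c
      show _ = (Z.σ a • ((p b : Gam Z.D.A Qm N m) : Fin Z.n → Qm.M)) c
      rw [Pi.smul_apply, hp, hp]
      split_ifs with hc
      · obtain ⟨y, hy, h1⟩ := hM b b.2 c hc
        rw [ph_eq T _ _ hy h1]
        have h2 := hσ a ⟨y, hy⟩ ⟨a • y, Submodule.smul_mem _ _ hy⟩ rfl
        have h3 : ph T (Gc c) (((a • b : G₁) : Z.WP' Z.q m) : Z.L) =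
            pm ⟨a • y, Submodule.smul_mem _ _ hy⟩ := by
          refine ph_eq T _ _ _ ?_
          show algebraMap Z.B Z.L (aeval Z.x (Gc c)) *
            (algebraMap Z.V Z.K a • ((b : Z.WP' Z.q m) : Z.L)) = _
          rw [mul_smul_comm, h1, smul_VB, map_smul_BL]
        rw [h3, h2]
      · rw [smul_zero]
    · intro b hb
      refine ⟨⟨pinv Z • ((b : Z.WP' Z.q m) : Z.L), Submodule.smul_mem _ _
        (b : Z.WP' Z.q m).2⟩, ?_, ?_⟩
      · rw [hG]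
        intro c hc
        refine ⟨N, Gc c, (hGc c hc).1, (hGc c hc).2.1, ph_zero T (hM b b.2 c hc) ?_⟩
        have h1 := hp b c
        rw [hb, if_pos hc] at h1
        exact h1.symm
      · apply Subtype.ext
        rw [hsm]
        show ((b : Z.WP' Z.q m) : Z.L) =
          algebraMap Z.V Z.K Z.ϖ • (pinv Z • ((b : Z.WP' Z.q m) : Z.L))
        rw [smul_smul, pinv, mul_inv_cancel₀ pi_ne, one_smul]

end

end Pool.Agent.RST
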