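import Pool.Agent.RST.Stmts

set_option autoImplicit false

/-!
Module LAT of squad RST: lattices over a complete discrete valuation ring.
-/

open MvPolynomial Pool.Agent.GML

namespace Pool.Agent.RST

namespace LAT_

section

variable {V : Type} [CommRing V] [IsDomain V] [IsDiscreteValuationRing V]

theorem adic (ϖ : V) (hϖ : Irreducible ϖ)
    [IsAdicComplete (IsLocalRing.maximalIdeal V) V] {E : Type} [AddCommGroup E] [Module V E]
    (G : Submodule V E) (a : ℕ) (y : Fin a → E) (hy : ∀ i, y i ∈ G)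
    (hG : ∀ g ∈ G, ∃ v : Fin a → V, ∃ g' ∈ G, g = ∑ i, v i • y i + ϖ • g') (g : E) (hg : g ∈ G) :
    ∃ v : Fin a → V, ∀ k : ℕ, ∃ g' ∈ G, g - ∑ i, v i • y i = ϖ ^ k • g' := by
  classical
  choose! v g' hg' hvg using hG
  let s : ℕ → E := fun n => Nat.rec g (fun _ u => g' u) n
  have hs0 : s 0 = g := rfl
  have hs1 : ∀ n, s (n + 1) = g' (s n) := fun n => rfl
  have hsG : ∀ n, s n ∈ G := by
    intro n
    induction n with
    | zero => exact hg
    | succ n ih => rw [hs1]; exact hg' _ ih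
  let t : ℕ → Fin a → V := fun n i => ∑ j ∈ Finset.range n, ϖ ^ j * v (s j) i
  have ht : ∀ n, g = ∑ i, t n i • y i + ϖ ^ n • s n := by
    intro n
    induction n with
    | zero =>
      have : ∀ i, t 0 i = 0 := fun i => Finset.sum_range_zero _
      simp [this, hs0]
    | succ n ih =>
      have h1 : ∀ i, t (n + 1) i = t n i + ϖ ^ n * v (s n) i := fun i =>
        Finset.sum_range_succ _ _
      have h2 := hvg _ (hsG n)
      calc g = ∑ i, t n i • y i + ϖ ^ n • s n := ih
        _ = ∑ i, t n i • y i + ϖ ^ n • (∑ i, v (s n) i • y i + ϖ • g' (s n)) := by rw [← h2]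
        _ = _ := by
          rw [smul_add, Finset.smul_sum, ← add_assoc, ← Finset.sum_add_distrib, hs1, smul_smul,
            ← pow_succ]
          congr 1
          refine Finset.sum_congr rfl fun i _ => ?_
          rw [h1, add_smul, mul_smul]
  have hmax : IsLocalRing.maximalIdeal V = Ideal.span {ϖ} := hϖ.maximalIdeal_eq
  have hmem : ∀ (n : ℕ) (x : V), x ∈ (IsLocalRing.maximalIdeal V ^ n • ⊤ : Submodule V V) ↔
      ∃ u, x = ϖ ^ n * u := by
    intro n x
    rw [smul_eq_mul, Ideal.mul_top, hmax, Ideal.span_singleton_pow, Ideal.mem_span_singleton']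
    constructor
    · rintro ⟨u, rfl⟩; exact ⟨u, mul_comm _ _⟩
    · rintro ⟨u, rfl⟩; exact ⟨u, mul_comm _ _⟩
  have hlim : ∀ i, ∃ L : V, ∀ n, ∃ u, t n i - L = ϖ ^ n * u := by
    intro i
    obtain ⟨L, hL⟩ := IsPrecomplete.prec (I := IsLocalRing.maximalIdeal V) (M := V)
      inferInstance (f := fun n => t n i) (by
        intro m n hmn
        rw [SModEq.sub_mem, hmem]
        obtain ⟨k, rfl⟩ := Nat.exists_eq_add_of_le hmn
        have : t (m + k) i = t m i + ∑ j ∈ Finset.range k, ϖ ^ (m + j) * v (s (m + j)) i := by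
          exact Finset.sum_range_add _ _ _
        refine ⟨-∑ j ∈ Finset.range k, ϖ ^ j * v (s (m + j)) i, ?_⟩
        show t m i - t (m + k) i = _
        rw [this, mul_neg, Finset.mul_sum]
        have h3 : ∀ j ∈ Finset.range k, ϖ ^ (m + j) * v (s (m + j)) i =
            ϖ ^ m * (ϖ ^ j * v (s (m + j)) i) := fun j _ => by rw [pow_add, mul_assoc]
        rw [Finset.sum_congr rfl h3]
        ring)
    refine ⟨L, fun n => ?_⟩
    have := hL n
    rw [SModEq.sub_mem, hmem] at this
    exact this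
  choose L hL using hlim
  refine ⟨L, fun k => ?_⟩
  choose u hu using fun i => hL i k
  refine ⟨s k + ∑ i, u i • y i, G.add_mem (hsG k) (G.sum_mem fun i _ => G.smul_mem _ (hy i)), ?_⟩
  have h1 : g - ∑ i, L i • y i = ∑ i, (t k i - L i) • y i + ϖ ^ k • s k := by
    conv_lhs => rw [ht k]
    simp only [sub_smul, Finset.sum_sub_distrib]
    abel
  rw [h1, smul_add, Finset.smul_sum, add_comm]
  congr 1
  refine Finset.sum_congr rfl fun i _ => ?_
  rw [hu, mul_smul]

end

end LAT_

open LAT_ in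
theorem lat_proof : Stmt_LAT := by
  classical
  intro V _ _ _ _ κ _ σ ϖ hϖ hσ hker K _ _ _ E _ _ _ _ _ E₀ G B₀ h1 h2 h3 h4
  have hϖ0 : ϖ ≠ 0 := hϖ.ne_zero
  have hK0 : ∀ k : ℕ, (algebraMap V K ϖ) ^ k ≠ 0 := by
    intro k
    refine pow_ne_zero k ?_
    rw [Ne, IsFractionRing.to_map_eq_zero_iff]
    exact hϖ0
  have hsm : ∀ (k : ℕ) (y : E), ϖ ^ k • y = (algebraMap V K ϖ) ^ k • y := by
    intro k y
    rw [← map_pow, algebraMap_smul]
  have hσ0 : ∀ v : V, σ v = 0 ↔ ∃ w, v = ϖ * w := by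
    intro v
    rw [← RingHom.mem_ker, hker, Ideal.mem_span_singleton']
    constructor
    · rintro ⟨w, rfl⟩; exact ⟨w, mul_comm _ _⟩
    · rintro ⟨w, rfl⟩; exact ⟨w, mul_comm _ _⟩
  let Ind : (a : ℕ) → (Fin a → E) → Prop := fun a y => (∀ i, y i ∈ G) ∧
    ∀ v : Fin a → V, (∃ g ∈ G, ∑ i, v i • y i = ϖ • g) → ∀ i, σ (v i) = 0
  -- families independent modulo `ϖ G` have at most `B₀` elements
  have hbound : ∀ a y, Ind a y → a ≤ B₀ := by
    intro a y hy
    have hle : Submodule.span V (Set.range y) ≤ G := by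
      rw [Submodule.span_le]
      rintro _ ⟨i, rfl⟩
      exact hy.1 i
    obtain ⟨Γ, _, _, p, hfin, hrk, hp, hp0⟩ := h4 (Submodule.span V (Set.range y)) hle
      (Submodule.fg_span (Set.finite_range y))
    let y' : Fin a → Submodule.span V (Set.range y) := fun i =>
      ⟨y i, Submodule.subset_span ⟨i, rfl⟩⟩
    have hli : LinearIndependent κ fun i => p (y' i) := by
      rw [Fintype.linearIndependent_iff]
      intro c hc
      choose v hv using fun i => hσ (c i)
      have h5 : p (∑ i, v i • y' i) = 0 := by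
        rw [map_sum, ← hc]
        refine Finset.sum_congr rfl fun i _ => ?_
        rw [hp, hv]
      obtain ⟨g, hg, hg'⟩ := hp0 _ h5
      have h6 := hy.2 v ⟨g, hg, by
        rw [← hg']
        simp [y']⟩
      intro i
      rw [← hv]
      exact h6 i
    calc a = Fintype.card (Fin a) := (Fintype.card_fin a).symm
      _ ≤ Module.finrank κ Γ := hli.fintype_card_le_finrank
      _ ≤ B₀ := hrk
  obtain ⟨a, ⟨y, hy⟩, hmax⟩ : ∃ a, (∃ y, Ind a y) ∧ ∀ b, (∃ y, Ind b y) → b ≤ a := by
    have hne : {a | ∃ y, Ind a y}.Nonempty := ⟨0, fun i => i.elim0, fun i => i.elim0,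
      fun _ _ i => i.elim0⟩
    have hbd : BddAbove {a | ∃ y, Ind a y} := ⟨B₀, fun a ⟨y, hy⟩ => hbound a y hy⟩
    exact ⟨_, Nat.sSup_mem hne hbd, fun b hb => le_csSup hbd hb⟩
  have hunit : ∀ v : V, σ v ≠ 0 → IsUnit v := by
    intro v hv
    by_contra hcon
    apply hv
    have h5 : v ∈ IsLocalRing.maximalIdeal V := (IsLocalRing.mem_maximalIdeal v).2 hcon
    rw [hϖ.maximalIdeal_eq, ← hker] at h5
    exact h5
  have hgen : ∀ g ∈ G, ∃ v : Fin a → V, ∃ g' ∈ G, g = ∑ i, v i • y i + ϖ • g' := by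
    intro g hg
    have hnot : ¬ Ind (a + 1) (Fin.cons g y) := fun h => by
      have := hmax (a + 1) ⟨_, h⟩
      omega
    have hex : ∃ v : Fin (a + 1) → V, (∃ g' ∈ G, ∑ i, v i • (Fin.cons g y : Fin (a + 1) → E) i =
        ϖ • g') ∧ ∃ i, σ (v i) ≠ 0 := by
      by_contra hcon
      apply hnot
      refine ⟨fun i => ?_, fun v hv i => ?_⟩
      · refine Fin.cases ?_ (fun i => ?_) i
        · exact hg
        · exact hy.1 i
      · by_contra h
        exact hcon ⟨v, hv, i, h⟩
    obtain ⟨v, ⟨g', hg', hsum⟩, i, hi⟩ := hex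
    rw [Fin.sum_univ_succ] at hsum
    simp only [Fin.cons_zero, Fin.cons_succ] at hsum
    by_cases hv0 : σ (v 0) = 0
    · exfalso
      obtain ⟨w, hw⟩ := (hσ0 _).1 hv0
      have h5 := hy.2 (fun i => v i.succ) ⟨g' - w • g, G.sub_mem hg' (G.smul_mem _ hg), by
        rw [smul_sub, ← hsum, hw, mul_smul]
        abel⟩
      apply hi
      refine Fin.cases ?_ (fun i => ?_) i
      · exact hv0
      · exact h5 i
    · obtain ⟨u, hu⟩ := (hunit _ hv0).exists_left_inv
      refine ⟨fun i => -(u * v i.succ), u • g', G.smul_mem _ hg', ?_⟩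
      have h5 : g = u • (v 0 • g) := by rw [smul_smul, hu, one_smul]
      have h6 : v 0 • g = ϖ • g' - ∑ i : Fin a, v i.succ • y i := by
        rw [← hsum]; abel
      rw [h5, h6, smul_sub, Finset.smul_sum]
      simp only [neg_smul, Finset.sum_neg_distrib, mul_smul]
      rw [smul_comm u ϖ g']
      abel
  have hE : (⊤ : Submodule K E) ≤ Submodule.span K (Set.range y) ⊔ E₀ := by
    intro e _
    obtain ⟨k, hk⟩ := h2 e
    obtain ⟨v, hv⟩ := adic ϖ hϖ G a y hy.1 hgen _ hk
    have h5 : ϖ ^ k • e - ∑ i, v i • y i ∈ E₀ := by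
      refine h3 _ fun j => ?_
      obtain ⟨g', hg', h⟩ := hv j
      exact ⟨g', hg', h⟩
    have h6 : ϖ ^ k • e ∈ Submodule.span K (Set.range y) ⊔ E₀ := by
      have h7 : ϖ ^ k • e = ∑ i, v i • y i + (ϖ ^ k • e - ∑ i, v i • y i) := by abel
      rw [h7]
      refine Submodule.add_mem_sup ?_ h5
      refine Submodule.sum_mem _ fun i _ => ?_
      rw [← algebraMap_smul K (v i) (y i)]
      exact Submodule.smul_mem _ _ (Submodule.subset_span ⟨i, rfl⟩)
    rw [hsm] at h6
    have h8 : e = ((algebraMap V K ϖ) ^ k)⁻¹ • ((algebraMap V K ϖ) ^ k • e) := by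
      rw [smul_smul, inv_mul_cancel₀ (hK0 k), one_smul]
    rw [h8]
    exact Submodule.smul_mem _ _ h6
  calc Module.finrank K E = Module.finrank K (⊤ : Submodule K E) := (_root_.finrank_top K E).symm
    _ ≤ Module.finrank K ↥(Submodule.span K (Set.range y) ⊔ E₀) := Submodule.finrank_mono hE
    _ ≤ Module.finrank K (Submodule.span K (Set.range y)) + Module.finrank K E₀ :=
        Submodule.finrank_add_le_finrank_add_finrank _ _
    _ ≤ a + Module.finrank K E₀ := by
        have := finrank_range_le_card (R := K) y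
        rw [Fintype.card_fin] at this
        exact Nat.add_le_add_right this _
    _ ≤ B₀ + Module.finrank K E₀ := Nat.add_le_add_right (hbound a y hy) _
    _ = _ := add_comm _ _

end Pool.Agent.RST
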