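import Pool.Agent.RST.Stmts
import Pool.Agent.GML.SUB
import Pool.Agent.GML.QUO
import Pool.Agent.GML.CMP
import Pool.Agent.GML.DEG

/-!
# RST: LWI, modules supported on the surface `S`
-/

set_option autoImplicit false

open MvPolynomial Pool.Agent.GML

namespace Pool.Agent.RST

noncomputable section

namespace LWI_

variable {κ : Type} [Field κ] {n : ℕ}

/-- the submodule generated by the `X c • m`, `c ∈ W` -/
def NN (W : Set (Fin n)) (M : GMod κ n) : Submodule (Po κ n) M.M :=
  Submodule.span (Po κ n) {x | ∃ c ∈ W, ∃ (k : ℤ) (m : M.M), m ∈ M.gr k ∧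
    x = (X c : Po κ n) • m}

lemma NN_hom (W : Set (Fin n)) (M : GMod κ n) : IsHom M (NN W M) := by
  refine (deg_proof cmp_proof κ n M M ⟨LinearMap.id, fun _ _ h => h⟩).2.2.2.2.2.2.2 _ ?_
  rintro x ⟨c, _, k, m, hm, rfl⟩
  exact ⟨k + 1, M.mul_mem c k m hm⟩

lemma X_smul_mem (W : Set (Fin n)) (M : GMod κ n) {c : Fin n} (hc : c ∈ W) (m : M.M) :
    (X c : Po κ n) • m ∈ NN W M := by
  obtain ⟨S, hS, _⟩ := (cmp_proof κ n M).2.2.2.2.2.2.1 m
  rw [hS, Finset.smul_sum]
  refine Submodule.sum_mem _ fun k _ => Submodule.subset_span ⟨c, hc, k, M.cmp k m, ?_, rfl⟩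
  exact (cmp_proof κ n M).1 k m

lemma VI_smul_mem (W : Set (Fin n)) (M : GMod κ n) {p : Po κ n} (hp : p ∈ VI κ W) (m : M.M) :
    p • m ∈ NN W M := by
  unfold VI at hp
  induction hp using Submodule.span_induction with
  | mem x h =>
    obtain ⟨c, hc, rfl⟩ := h
    exact X_smul_mem W M hc m
  | zero => rw [zero_smul]; exact Submodule.zero_mem _
  | add x y _ _ hx hy => rw [add_smul]; exact Submodule.add_mem _ hx hy
  | smul a x _ hx => rw [smul_eq_mul, mul_smul]; exact Submodule.smul_mem _ _ hx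

lemma kil_NN (W : Set (Fin n)) (M : GMod κ n) (k : ℕ) (h : Kil M (VI κ W ^ (k + 1)))
    {p : Po κ n} (hp : p ∈ VI κ W ^ k) {x : M.M} (hx : x ∈ NN W M) : p • x = 0 := by
  unfold NN at hx
  induction hx using Submodule.span_induction with
  | mem x hx =>
    obtain ⟨c, hc, _, m, _, rfl⟩ := hx
    rw [← mul_smul]
    refine h _ ?_ m
    rw [pow_succ]
    exact Ideal.mul_mem_mul hp (Ideal.subset_span ⟨c, hc, rfl⟩)
  | zero => rw [smul_zero]
  | add x y _ _ hx hy => rw [smul_add, hx, hy, add_zero]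
  | smul a x _ hx => rw [smul_comm, hx, smul_zero]

end LWI_

open LWI_ in
theorem lwi_proof (hETX : Stmt_ETX) (hETF : Stmt_ETF) (hRWA : Stmt_RWA) (hLWS : Stmt_LWS)
    (hPTF : Stmt_PTF) : Stmt_LWI := by
  intro κ _ n D c z v w hc hz hg hw k
  induction k with
  | zero =>
    intro M _ _ hk E _ _ ι hE
    have hM : ∀ m : M.M, m = 0 := fun m => by
      have h := hk 1 (by rw [pow_zero, Ideal.one_eq_top]; trivial) m
      rwa [one_smul] at h
    have hE0 : ∀ u : E, u = 0 := fun u => by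
      obtain ⟨p, hp, m, hm⟩ := hE.gen u
      rw [hM m, map_zero] at hm
      exact hE.inj p hp u hm
    have : Subsingleton E := ⟨fun a b => by rw [hE0 a, hE0 b]⟩
    have h1 : rkw (fun i => emb κ n (z i)) E = 0 := by
      unfold rkw
      let _ : Module (Po κ 3) E := Module.compHom E
        (aeval (fun i => emb κ n (z i)) : Po κ 3 →ₐ[κ] Po κ (n + 1)).toRingHom
      exact Module.finrank_zero_of_subsingleton
    rw [h1, mul_zero]
    exact Nat.zero_le _
  | succ k ih =>
    intro M hfin hka hk E _ _ ι hE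
    obtain ⟨N', f, hf1, hf2, _⟩ := sub_proof cmp_proof κ n M (NN D.W M) (NN_hom D.W M)
    obtain ⟨Q, g, hg1, hg2, _⟩ := quo_proof cmp_proof κ n M (NN D.W M) (NN_hom D.W M)
    have hmem : ∀ x : N'.M, f.f x ∈ NN D.W M := fun x => by
      rw [← hf2]; exact ⟨x, rfl⟩
    have hses : SES f g := by
      refine ⟨hf1, fun y => ?_, hg1⟩
      rw [← LinearMap.mem_ker, hg2, ← hf2]
      rfl
    have hN'k : Kil N' (VI κ D.W ^ k) := fun p hp x => by
      apply hf1
      rw [map_smul, map_zero]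
      exact kil_NN D.W M k hk hp (hmem x)
    have hN'a : Kil N' (aF D c) := fun p hp x => by
      apply hf1
      rw [map_smul, map_zero]
      exact hka p hp _
    have hQa : Kil Q (aF D c) := fun p hp u => by
      obtain ⟨m, rfl⟩ := hg1 u
      rw [← map_smul, hka p hp m, map_zero]
    have hQJ : Kil Q (D.J'.comap (emb κ n)) := by
      intro p hp u
      rw [D.JX] at hp
      obtain ⟨a, ha, b, hb, rfl⟩ := Submodule.mem_sup.1 hp
      obtain ⟨m, rfl⟩ := hg1 u
      rw [add_smul, hQa a ((le_sup_left : D.IX ≤ aF D c) ha), zero_add, ← map_smul]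
      rw [← LinearMap.mem_ker, hg2]
      exact VI_smul_mem D.W M hb m
    have hnoe : IsNoetherian (Po κ n) M.M := isNoetherian_of_isNoetherianRing_of_finite _ _
    have hN'f : Module.Finite (Po κ n) N'.M := Module.Finite.of_injective f.f hf1
    have hQf : Module.Finite (Po κ n) Q.M := Module.Finite.of_surjective g.f hg1
    obtain ⟨E', _, _, ι', hE'⟩ := hETX κ n D c z v hg N' hN'a
    obtain ⟨E'', _, _, ι'', hE''⟩ := hETX κ n D c z v hg Q hQa
    obtain ⟨F, G, hF, hFG, hG⟩ := (hETF κ n D c z v hg).2 N' M Q hN'a hka hQa f g hses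
      E' ι' E ι E'' ι'' hE' hE hE''
    obtain ⟨hw1, hz1, _⟩ := hPTF κ n D c z v w hc hz hg hw M hfin hka E ι hE
    have e1 := (hRWA κ (n + 1) w E' E E'' F G hF hFG hG).2 hw1
    have e2 := (hRWA κ (n + 1) (fun i => emb κ n (z i)) E' E E'' F G hF hFG hG).2 hz1
    have i1 := ih N' hN'f hN'a hN'k E' ι' hE'
    have i2 := hLWS κ n D c z v w hc hz hg hw Q hQf hQJ E'' ι'' hE''
    rw [e1, e2, mul_add, mul_add]
    exact Nat.add_le_add i1 i2

end

end Pool.Agent.RST
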