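import Pool.Agent.RST.Stmts
import Pool.Agent.GML.AGR
import Pool.Agent.GML.QUO
import Pool.Agent.GML.GRO
import Pool.Agent.GML.CMP
import Pool.Agent.GML.FRE
import Pool.Agent.GML.DIM
import Pool.Agent.GML.DEG

/-!
# LWS: modules over the ring of the surface `S`
-/

set_option autoImplicit false

open MvPolynomial Pool.Agent.GML

namespace Pool.Agent.RST

noncomputable section

namespace LWS_

section gen

variable {κ : Type} [Field κ]

/-- growth of finitely generated graded modules -/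
lemma gro : Stmt_GRO :=
  gro_proof agr_proof cmp_proof (fre_proof cmp_proof (deg_proof cmp_proof))
    (dim_proof agr_proof cmp_proof) (deg_proof cmp_proof) (quo_proof cmp_proof)

/-- the polynomial ring as a graded module -/
def polyG (κ : Type) [Field κ] (r : ℕ) : GMod κ r where
  M := Po κ r
  gr := Agr κ r
  int := agr_proof.1 κ r
  mul_mem := by
    intro i n x hx
    have h1 : (X i : Po κ r) ∈ Agr κ r 1 := by
      unfold Agr
      rw [if_pos (by norm_num)]
      exact isHomogeneous_X κ i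
    have := agr_proof.2.1 κ r 1 n (X i) x h1 hx
    rw [add_comm] at this
    exact this

lemma quot_gmod {r : ℕ} (J : Ideal (Po κ r)) (hJ : HomI J) :
    ∃ (Q : GMod κ r) (e : (Po κ r ⧸ J) ≃ₗ[Po κ r] Q.M),
      ∀ m : ℕ, Module.finrank κ (Q.gr m) = hf J m := by
  have hH : IsHom (polyG κ r) J := by
    refine le_antisymm (Submodule.span_le.2 fun x hx => hx.1) ?_
    intro p hp
    have h1 := sum_homogeneousComponent p
    rw [← h1]
    refine Submodule.sum_mem _ fun d _ => Submodule.subset_span ⟨hJ p hp d, (d : ℤ), ?_⟩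
    change homogeneousComponent d p ∈ Agr κ r d
    unfold Agr
    rw [if_pos (by positivity)]
    exact homogeneousComponent_isHomogeneous d p
  obtain ⟨Q, g, hs, hk, hgr⟩ := quo_proof cmp_proof κ r (polyG κ r) J hH
  let e : (Po κ r ⧸ J) ≃ₗ[Po κ r] Q.M :=
    (Submodule.quotEquivOfEq J _ hk.symm) ≪≫ₗ g.f.quotKerEquivOfSurjective hs
  have he : ∀ p : Po κ r, e (Ideal.Quotient.mk J p) = g.f p := fun p => rfl
  refine ⟨Q, e, fun m => ?_⟩
  have h1 : Q.gr m = ((homogeneousSubmodule (Fin r) κ m).map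
      (Ideal.Quotient.mkₐ κ J).toLinearMap).map (e.restrictScalars κ : _ →ₗ[κ] Q.M) := by
    ext y
    constructor
    · intro hy
      obtain ⟨x, hx, rfl⟩ := hgr m y hy
      have hx' : x ∈ homogeneousSubmodule (Fin r) κ m := by
        have : x ∈ Agr κ r m := hx
        unfold Agr at this
        rw [if_pos (by positivity)] at this
        exact this
      exact ⟨Ideal.Quotient.mk J x, ⟨x, hx', rfl⟩, he x⟩
    · rintro ⟨_, ⟨x, hx, rfl⟩, rfl⟩
      have : x ∈ (polyG κ r).gr m := by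
        change x ∈ Agr κ r m
        unfold Agr
        rw [if_pos (by positivity)]
        exact hx
      exact g.deg m x this
  rw [h1]
  exact LinearEquiv.finrank_map_eq (e.restrictScalars κ) _

lemma Fw_of_gen {r : ℕ} (w : Fin 3 → Po κ r) (E : Type) [AddCommGroup E] [Module (Po κ r) E]
    (h : ∃ T : Finset E, ∀ v : E, ∃ P : E → Po κ 3, v = ∑ t ∈ T, (aeval w (P t) : Po κ r) • t) :
    Fw w E := by
  obtain ⟨T, hT⟩ := h
  unfold Fw
  letI : Module (Po κ 3) E := Module.compHom E (aeval w : Po κ 3 →ₐ[κ] Po κ r).toRingHom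
  haveI : Module.Finite (Po κ 3) E := by
    refine ⟨⟨T, eq_top_iff.2 fun v _ => ?_⟩⟩
    obtain ⟨P, hP⟩ := hT v
    rw [hP]
    refine Submodule.sum_mem _ fun t ht => ?_
    exact Submodule.smul_mem _ (P t) (Submodule.subset_span ht)
  exact Module.rank_lt_aleph0 (Po κ 3) E

lemma iso_rk {r : ℕ} (w : Fin 3 → Po κ r) (E E' : Type) [AddCommGroup E] [Module (Po κ r) E]
    [AddCommGroup E'] [Module (Po κ r) E'] (φ : E ≃ₗ[Po κ r] E') : rkw w E = rkw w E' := by
  unfold rkw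
  letI : Module (Po κ 3) E := Module.compHom E (aeval w : Po κ 3 →ₐ[κ] Po κ r).toRingHom
  letI : Module (Po κ 3) E' := Module.compHom E' (aeval w : Po κ 3 →ₐ[κ] Po κ r).toRingHom
  let ψ : E ≃ₗ[Po κ 3] E' :=
    { φ.toAddEquiv with
      map_smul' := fun p v => φ.map_smul (aeval w p : Po κ r) v }
  exact ψ.finrank_eq

lemma rk_zero {r : ℕ} (w : Fin 3 → Po κ r) (E : Type) [AddCommGroup E] [Module (Po κ r) E]
    [Subsingleton E] : rkw w E = 0 := by
  unfold rkw
  letI : Module (Po κ 3) E := Module.compHom E (aeval w : Po κ 3 →ₐ[κ] Po κ r).toRingHom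
  exact Module.finrank_zero_of_subsingleton

lemma Fw_zero {r : ℕ} (w : Fin 3 → Po κ r) (E : Type) [AddCommGroup E] [Module (Po κ r) E]
    [Subsingleton E] : Fw w E :=
  Fw_of_gen w E ⟨∅, fun v => ⟨fun _ => 0, Subsingleton.elim _ _⟩⟩

lemma pi_rk (hRWA : Stmt_RWA) {r : ℕ} (w : Fin 3 → Po κ r) (N : Type) [AddCommGroup N]
    [Module (Po κ r) N] (hN : Fw w N) (l : ℕ) :
    Fw w (Fin l → N) ∧ rkw w (Fin l → N) = l * rkw w N := by
  induction l with
  | zero => exact ⟨Fw_zero w _, by rw [rk_zero]; simp⟩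
  | succ l ih =>
    have h := hRWA κ r w N (Fin (l + 1) → N) (Fin l → N)
      (LinearMap.single (Po κ r) (fun _ => N) 0) (LinearMap.funLeft (Po κ r) N Fin.succ)
      (fun a b hab => Pi.single_injective (M := fun _ : Fin (l + 1) => N) 0 hab) (by
        intro x
        constructor
        · intro hx
          refine ⟨x 0, ?_⟩
          funext i
          refine Fin.cases ?_ (fun j => ?_) i
          · simp
          · have := congrFun hx j
            simp only [LinearMap.funLeft_apply, Pi.zero_apply] at this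
            rw [this]
            simp
        · rintro ⟨y, rfl⟩
          funext j
          simp [LinearMap.funLeft_apply])
      (LinearMap.funLeft_surjective_of_injective _ _ _ (Fin.succ_injective l))
    have h1 : Fw w (Fin (l + 1) → N) := h.1.2 ⟨hN, ih.1⟩
    refine ⟨h1, ?_⟩
    rw [h.2 h1, ih.2]
    push_cast
    ring

/-- the dimensions of a finitely generated module over `κ[w]` -/
lemma growth (hRSC : Stmt_RSC) {r : ℕ} (w : Fin 3 → Po κ r) (hw : ∀ i, (w i).IsHomogeneous 1)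
    (Q : GMod κ r)
    (hT : ∃ T : Finset Q.M, ∀ m : Q.M, ∃ P : Q.M → Po κ 3,
        m = ∑ t ∈ T, (aeval w (P t) : Po κ r) • t) :
    ∃ C : ℕ, ∀ m : ℕ, |(Module.finrank κ (Q.gr m) : ℚ) - rkw w Q.M * ((m + 1) * (m + 2) / 2)| ≤
      C * ((m : ℚ) + 1) := by
  obtain ⟨N, e, h1, h2, h3, h4, h5⟩ := hRSC κ r w hw Q
  haveI := h5 hT
  obtain ⟨-, -, C, hC⟩ := gro κ 1 N inferInstance
  refine ⟨C, fun m => ?_⟩
  have h6 := hC m
  have h7 : Module.finrank κ (Q.gr m) = Module.finrank κ (N.gr m) := by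
    let e' : Q.M ≃ₗ[κ] N.M := { e with map_smul' := h2 }
    have : N.gr m = (Q.gr m).map (e' : Q.M →ₗ[κ] N.M) := by
      ext y
      constructor
      · intro hy
        refine ⟨e.symm y, ?_, ?_⟩
        · exact (h3 m _).2 (by rw [AddEquiv.apply_symm_apply]; exact hy)
        · exact e.apply_symm_apply y
      · rintro ⟨x, hx, rfl⟩
        exact (h3 m x).1 hx
    rw [this]
    exact (LinearEquiv.finrank_map_eq e' _).symm
  have h8 : Module.finrank (Po κ (1 + 2)) N.M = rkw w Q.M := h4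
  rw [h8, pow_one] at h6
  rw [h7]
  have h9 : (((m + 1 + 1).choose (1 + 1) : ℕ) : ℚ) = (m + 1) * (m + 2) / 2 := by
    rw [Nat.choose_two_right]
    have : 2 ∣ (m + 1 + 1) * (m + 1 + 1 - 1) := by
      rw [mul_comm]
      exact (Nat.even_mul_succ_self (m + 1)).two_dvd
    rw [Nat.cast_div this (by norm_num)]
    push_cast
    simp
    ring
  have h10 : ((|(Module.finrank κ (N.gr m) : ℤ) - rkw w Q.M * ((m + 1 + 1).choose (1 + 1) : ℕ)| : ℤ)
      : ℚ) ≤ ((C * ((m : ℤ) + 1) : ℤ) : ℚ) := by exact_mod_cast h6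
  push_cast at h10
  rw [← h9]
  exact_mod_cast h10

/-- lower bound -/
lemma low (ρ s : ℕ) (d : ℕ → ℕ)
    (h1 : ∃ C : ℕ, ∀ m : ℕ, |(d m : ℚ) - ρ * ((m + 1) * (m + 2) / 2)| ≤ C * ((m : ℚ) + 1))
    (h2 : ∃ C : ℕ, ∀ m : ℕ, s * (m : ℚ) ^ 2 / 2 ≤ d m + C * ((m : ℚ) + 1)) : s ≤ ρ := by
  obtain ⟨C, hC⟩ := h1
  obtain ⟨C', hC'⟩ := h2
  by_contra hcon
  have h3 : ρ + 1 ≤ s := by omega
  have h3' : (ρ : ℚ) + 1 ≤ s := by exact_mod_cast h3
  set K : ℕ := 2 * ρ + C + C' with hK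
  set m : ℕ := 4 * K + 4 with hm
  have h4 := abs_le.1 (hC m)
  have h5 := hC' m
  have hmq : (m : ℚ) = 4 * K + 4 := by rw [hm]; push_cast; ring
  have hKq : (K : ℚ) = 2 * ρ + C + C' := by rw [hK]; push_cast; ring
  have hm0 : (0 : ℚ) ≤ m := by positivity
  have hρ0 : (0 : ℚ) ≤ ρ := by positivity
  have hK0 : (0 : ℚ) ≤ K := by positivity
  have h6 : ((ρ : ℚ) + 1) * (m : ℚ) ^ 2 / 2 ≤ s * (m : ℚ) ^ 2 / 2 := by
    have : ((ρ : ℚ) + 1) * (m : ℚ) ^ 2 ≤ s * (m : ℚ) ^ 2 :=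
      mul_le_mul_of_nonneg_right h3' (by positivity)
    linarith
  have h7 : ((ρ : ℚ) + 1) * (m : ℚ) ^ 2 / 2 ≤
      ρ * ((m + 1) * (m + 2) / 2) + (C + C') * ((m : ℚ) + 1) := by
    linarith [h4.2]
  have h8 : (m : ℚ) ^ 2 / 2 ≤ K * (m + 1) := by
    have : (ρ : ℚ) * ((m + 1) * (m + 2) / 2) ≤ ρ * (m : ℚ) ^ 2 / 2 + 2 * ρ * (m + 1) := by
      nlinarith
    rw [hKq]
    linarith
  rw [hmq] at h8
  nlinarith

/-- upper bound -/
lemma upp (ρ s : ℕ) (d : ℕ → ℕ)
    (h1 : ∃ C : ℕ, ∀ m : ℕ, |(d m : ℚ) - ρ * ((m + 1) * (m + 2) / 2)| ≤ C * ((m : ℚ) + 1))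
    (h2 : ∃ C : ℕ, ∀ m : ℕ, (d m : ℚ) ≤ s * (m : ℚ) ^ 2 / 2 + C * ((m : ℚ) + 1)) : ρ ≤ s := by
  obtain ⟨C, hC⟩ := h1
  obtain ⟨C', hC'⟩ := h2
  by_contra hcon
  have h3 : s + 1 ≤ ρ := by omega
  have h3' : (s : ℚ) + 1 ≤ ρ := by exact_mod_cast h3
  set K : ℕ := C + C' with hK
  set m : ℕ := 4 * K + 4 with hm
  have h4 := abs_le.1 (hC m)
  have h5 := hC' m
  have hmq : (m : ℚ) = 4 * K + 4 := by rw [hm]; push_cast; ring
  have hKq : (K : ℚ) = C + C' := by rw [hK]; push_cast; ring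
  have hm0 : (0 : ℚ) ≤ m := by positivity
  have hs0 : (0 : ℚ) ≤ s := by positivity
  have hK0 : (0 : ℚ) ≤ K := by positivity
  have h6 : ((s : ℚ) + 1) * ((m + 1) * (m + 2) / 2) ≤ ρ * ((m + 1) * (m + 2) / 2) :=
    mul_le_mul_of_nonneg_right h3' (by positivity)
  have h7 : ((s : ℚ) + 1) * ((m + 1) * (m + 2) / 2) ≤
      s * (m : ℚ) ^ 2 / 2 + (C + C') * ((m : ℚ) + 1) := by
    linarith [h4.1]
  have h8 : (m : ℚ) ^ 2 / 2 ≤ K * (m + 1) := by
    have : (s : ℚ) * (m : ℚ) ^ 2 / 2 ≤ s * ((m + 1) * (m + 2) / 2) := by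
      nlinarith
    rw [hKq]
    nlinarith
  rw [hmq] at h8
  nlinarith

end gen

section main

variable {κ : Type} [Field κ] {n : ℕ} (D : XD κ n)

/-- the ideal of the ring of the surface -/
abbrev J0 (D : XD κ n) : Ideal (Po κ n) := D.J'.comap (emb κ n)

lemma homJ0 : HomI (J0 D) := by
  intro p hp d
  change emb κ n (homogeneousComponent d p) ∈ D.J'
  unfold emb
  rw [rename_homogeneousComponent]
  exact D.homJ _ hp d

lemma Xc0 : X D.c₀ ∈ J0 D := by
  change _ ∈ D.J'.comap (emb κ n)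
  rw [D.JX]
  exact Ideal.mem_sup_right (Ideal.subset_span ⟨D.c₀, D.c₀W, rfl⟩)

lemma aF_le {c : ℕ} (hc : 0 < c) : aF D c ≤ J0 D := by
  refine sup_le (Ideal.comap_mono D.le) ?_
  rw [Ideal.span_le, Set.singleton_subset_iff]
  exact Ideal.pow_mem_of_mem _ (Xc0 D) c hc

lemma lin_VI {v : Fin n → κ} (hv : ∀ i, i ∉ D.A → v i = 0) : lin v ∈ VI κ D.A := by
  unfold lin
  refine Ideal.sum_mem _ fun c _ => ?_
  by_cases hc : c ∈ D.A
  · exact Ideal.mul_mem_left _ _ (Ideal.subset_span ⟨c, hc, rfl⟩)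
  · rw [hv c hc]
    simp

lemma toX {v : Fin n → κ} (hv : ∀ i, i ∉ D.A → v i = 0) (f : Po κ (n + 1)) :
    ∃ (k : ℕ) (a : Po κ n), emb κ n (lin v) ^ k * f - emb κ n a ∈ D.I' := by
  obtain ⟨N0, hN0⟩ := D.yA
  obtain ⟨b, hb⟩ := hN0 _ (Ideal.pow_mem_pow (lin_VI D hv) N0)
  rw [map_pow] at hb
  induction f using MvPolynomial.induction_on with
  | C c =>
    refine ⟨0, C c, ?_⟩
    have : emb κ n (C c) = C c := rename_C _ _
    rw [this]
    simp
  | add p q hp hq =>
    obtain ⟨k, a, h1⟩ := hp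
    obtain ⟨k', a', h2⟩ := hq
    refine ⟨k + k', lin v ^ k' * a + lin v ^ k * a', ?_⟩
    have h3 := D.I'.add_mem (D.I'.mul_mem_left (emb κ n (lin v) ^ k') h1)
      (D.I'.mul_mem_left (emb κ n (lin v) ^ k) h2)
    convert h3 using 1
    rw [map_add, map_mul, map_mul, map_pow, map_pow]
    ring
  | mul_X p i hp =>
    obtain ⟨k, a, h1⟩ := hp
    refine Fin.lastCases ?_ (fun j => ?_) i
    · refine ⟨k + N0, a * b, ?_⟩
      have h3 := D.I'.add_mem (D.I'.mul_mem_left (emb κ n (lin v) ^ N0 * Yv κ n) h1)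
        (D.I'.mul_mem_left (emb κ n a) hb)
      have h4 : emb κ n (lin v) ^ (k + N0) * (p * X (Fin.last n)) - emb κ n (a * b) =
          emb κ n (lin v) ^ N0 * Yv κ n * (emb κ n (lin v) ^ k * p - emb κ n a) +
            emb κ n a * (Yv κ n * emb κ n (lin v) ^ N0 - emb κ n b) := by
        rw [map_mul]
        unfold Yv
        ring
      rw [h4]
      exact h3
    · refine ⟨k, a * X j, ?_⟩
      have h3 := D.I'.mul_mem_right (X (Fin.castSucc j)) h1
      have h4 : emb κ n (X j) = X (Fin.castSucc j) := rename_X _ _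
      have h5 : emb κ n (lin v) ^ k * (p * X (Fin.castSucc j)) - emb κ n (a * X j) =
          (emb κ n (lin v) ^ k * p - emb κ n a) * X (Fin.castSucc j) := by
        rw [map_mul, h4]
        ring
      rw [h5]
      exact h3

lemma invp (hZPC : Stmt_ZPC) {c : ℕ} (hc : 0 < c) {z : Fin 3 → Po κ n} (hz : Zp D z)
    (p : Po κ n) (hp : p ∉ J0 D) :
    ∃ (p' : Po κ n) (r : Po κ 3), r ≠ 0 ∧ p * p' - aeval z r ∈ J0 D := by
  haveI := D.primeJ
  haveI hJp : (J0 D).IsPrime := Ideal.comap_isPrime _ _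
  obtain ⟨T, hT⟩ := hZPC κ n D c z hz
  let φ : Po κ 3 →+* (Po κ n ⧸ J0 D) :=
    (Ideal.Quotient.mk (J0 D)).comp (aeval z : Po κ 3 →ₐ[κ] Po κ n).toRingHom
  letI : Algebra (Po κ 3) (Po κ n ⧸ J0 D) := φ.toAlgebra
  have hφ : ∀ r : Po κ 3, algebraMap (Po κ 3) (Po κ n ⧸ J0 D) r =
      Ideal.Quotient.mk (J0 D) (aeval z r : Po κ n) := fun r => rfl
  haveI : Module.Finite (Po κ 3) (Po κ n ⧸ J0 D) := by
    classical
    refine ⟨⟨T.image (Ideal.Quotient.mk (J0 D)), eq_top_iff.2 fun x _ => ?_⟩⟩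
    obtain ⟨f, rfl⟩ := Ideal.Quotient.mk_surjective x
    obtain ⟨P, hP⟩ := hT f
    have h1 := aF_le D hc hP
    rw [← Ideal.Quotient.mk_eq_mk_iff_sub_mem] at h1
    rw [h1, map_sum]
    refine Submodule.sum_mem _ fun t ht => ?_
    rw [map_mul, ← hφ, ← Algebra.smul_def]
    exact Submodule.smul_mem _ _ (Submodule.subset_span (by
      rw [Finset.coe_image]
      exact ⟨t, ht, rfl⟩))
  have h1 : Ideal.Quotient.mk (J0 D) p ≠ 0 := by
    intro h
    exact hp (Ideal.Quotient.eq_zero_iff_mem.1 h)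
  have h2 := Ideal.comap_ne_bot_of_integral_mem (R := Po κ 3)
    (I := Ideal.span {Ideal.Quotient.mk (J0 D) p}) h1 (Ideal.mem_span_singleton_self _)
    (Algebra.IsIntegral.isIntegral _)
  obtain ⟨r, hr, hr0⟩ := Submodule.exists_mem_ne_zero_of_ne_bot h2
  rw [Ideal.mem_comap, Ideal.mem_span_singleton] at hr
  obtain ⟨y, hy⟩ := hr
  obtain ⟨p', rfl⟩ := Ideal.Quotient.mk_surjective y
  refine ⟨p', r, hr0, ?_⟩
  rw [← Ideal.Quotient.mk_eq_mk_iff_sub_mem, map_mul, ← hy, hφ]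

variable {D} {z : Fin 3 → Po κ n} {M : GMod κ n} {E : Type} [AddCommGroup E]
  [Module (Po κ (n + 1)) E] {ι : M.M →+ E}

lemma kill0 (hE : Eta D z M E ι) (hK : Kil M (J0 D)) (p : Po κ n) (hp : p ∈ J0 D) (u : E) :
    emb κ n p • u = 0 := by
  obtain ⟨r, hr, m, hm⟩ := hE.gen u
  apply hE.inj r hr
  rw [smul_comm, hm, ← hE.smul, hK p hp m, map_zero]

lemma injp (hE : Eta D z M E ι) (hK : Kil M (J0 D)) (p : Po κ n)
    (h : ∃ (p' : Po κ n) (r : Po κ 3), r ≠ 0 ∧ p * p' - aeval z r ∈ J0 D) (u : E)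
    (hu : emb κ n p • u = 0) : u = 0 := by
  obtain ⟨p', r, hr, h1⟩ := h
  apply hE.inj r hr
  have h2 := kill0 hE hK _ h1 u
  rw [map_sub, map_mul, sub_smul, mul_comm, mul_smul, hu, smul_zero, zero_sub, neg_eq_zero] at h2
  exact h2

end main

/-- the two ranks of `E` -/
lemma ranks (hRWA : Stmt_RWA) (hRWL : Stmt_RWL) {κ : Type} [Field κ] {n : ℕ} (D : XD κ n)
    {z : Fin 3 → Po κ n} {v : Fin n → κ} {w : Fin 3 → Po κ (n + 1)}
    (hv : ∀ i, i ∉ D.A → v i = 0) (hg : lin v ∉ J0 D)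
    {M : GMod κ n} (hfin : Module.Finite (Po κ n) M.M) {E : Type} [AddCommGroup E]
    [Module (Po κ (n + 1)) E] {ι : M.M →+ E} (hE : Eta D z M E ι) (hK : Kil M (J0 D))
    (hinj : ∀ r : Po κ 3, r ≠ 0 → (aeval z r : Po κ n) ∉ J0 D)
    (hinv : ∀ p : Po κ n, p ∉ J0 D → ∀ u : E, emb κ n p • u = 0 → u = 0)
    (hFY : Fw w (Po κ (n + 1) ⧸ D.J')) (hFS : Fw z (Po κ n ⧸ J0 D)) :
    ∃ l : ℕ, rkw w E = l * rkw w (Po κ (n + 1) ⧸ D.J') ∧
      rkw (fun i => emb κ n (z i)) E = l * rkw z (Po κ n ⧸ J0 D) := by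
  classical
  haveI := D.primeJ
  haveI hJp : (J0 D).IsPrime := Ideal.comap_isPrime _ _
  have hgJ : ∀ k : ℕ, emb κ n (lin v) ^ k ∉ D.J' := by
    intro k hk
    exact hg (Ideal.IsPrime.mem_of_pow_mem D.primeJ k hk)
  have key : ∀ f : Po κ (n + 1), ∃ (k : ℕ) (a : Po κ n),
      emb κ n (lin v) ^ k * f - emb κ n a ∈ D.I' ∧ (f ∈ D.J' ↔ a ∈ J0 D) ∧
      ∀ u : E, emb κ n (lin v) ^ k • f • u = emb κ n a • u := by
    intro f
    obtain ⟨k, a, h⟩ := toX D hv f
    refine ⟨k, a, h, ⟨fun hf => ?_, fun ha => ?_⟩, fun u => ?_⟩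
    · have h2 := D.J'.sub_mem (D.J'.mul_mem_left (emb κ n (lin v) ^ k) hf) (D.le h)
      rw [sub_sub_cancel] at h2
      exact h2
    · have h2 := D.J'.add_mem (D.le h) (show emb κ n a ∈ D.J' from ha)
      rw [sub_add_cancel] at h2
      exact ((Ideal.IsPrime.mem_or_mem inferInstance h2).resolve_left (hgJ k))
    · have h2 := hE.kill _ h u
      rw [sub_smul, mul_smul, sub_eq_zero] at h2
      exact h2
  have hgp : ∀ (k : ℕ) (u : E), emb κ n (lin v) ^ k • u = 0 → u = 0 := by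
    intro k
    induction k with
    | zero => intro u hu; simpa using hu
    | succ k ih =>
      intro u hu
      rw [pow_succ, mul_smul] at hu
      exact hinv _ hg _ (ih _ hu)
  have killJ : ∀ f ∈ D.J', ∀ u : E, f • u = 0 := by
    intro f hf u
    obtain ⟨k, a, -, h1, h2⟩ := key f
    apply hgp k
    rw [h2 u]
    exact kill0 hE hK a (h1.1 hf) u
  have injf : ∀ f, f ∉ D.J' → ∀ u : E, f • u = 0 → u = 0 := by
    intro f hf u hu
    obtain ⟨k, a, -, h1, h2⟩ := key f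
    have h3 := h2 u
    rw [hu, smul_zero] at h3
    exact hinv a (fun h => hf (h1.2 h)) u h3.symm
  have hT : Module.IsTorsionBySet (Po κ (n + 1)) E (D.J' : Set (Po κ (n + 1))) :=
    fun u f => killJ f f.2 u
  letI : Module (Po κ (n + 1) ⧸ D.J') E := hT.module
  have hmk : ∀ (f : Po κ (n + 1)) (u : E), Ideal.Quotient.mk D.J' f • u = f • u :=
    fun f u => rfl
  obtain ⟨s0, m, hm⟩ := Module.Finite.exists_fin (R := Po κ n) (M := M.M)
  obtain ⟨s, hs, hmax⟩ := exists_maximal_linearIndepOn (Po κ (n + 1) ⧸ D.J') (fun i => ι (m i))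
  obtain ⟨l, ⟨e⟩⟩ := Finite.exists_equiv_fin s
  let u : Fin l → E := fun i => ι (m (e.symm i))
  have hu : LinearIndependent (Po κ (n + 1) ⧸ D.J') u :=
    (linearIndependent_equiv e.symm).2 hs
  have hru : Set.range u = (fun i => ι (m i)) '' s := by
    ext y
    constructor
    · rintro ⟨i, rfl⟩
      exact ⟨e.symm i, (e.symm i).2, rfl⟩
    · rintro ⟨i, hi, rfl⟩
      exact ⟨e ⟨i, hi⟩, by simp [u]⟩
  set S : Submodule (Po κ (n + 1) ⧸ D.J') E :=
    Submodule.span (Po κ (n + 1) ⧸ D.J') (Set.range u) with hS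
  have hSs : ∀ (f : Po κ (n + 1)) (y : E), y ∈ S → f • y ∈ S := by
    intro f y hy
    rw [← hmk]
    exact S.smul_mem _ hy
  have hι : ∀ i, ∃ f, f ∉ D.J' ∧ f • ι (m i) ∈ S := by
    intro i
    by_cases hi : i ∈ s
    · refine ⟨1, fun h => D.primeJ.ne_top (D.J'.eq_top_iff_one.2 h), ?_⟩
      rw [one_smul]
      refine Submodule.subset_span ?_
      rw [hru]
      exact ⟨i, hi, rfl⟩
    · obtain ⟨a, ha0, ha⟩ := hmax i hi
      obtain ⟨f, rfl⟩ := Ideal.Quotient.mk_surjective a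
      refine ⟨f, fun h => ha0 (Ideal.Quotient.eq_zero_iff_mem.2 h), ?_⟩
      rw [hS, hru, ← hmk]
      exact ha
  have hι2 : ∀ x : M.M, ∃ f, f ∉ D.J' ∧ f • ι x ∈ S := by
    intro x
    have hx : x ∈ Submodule.span (Po κ n) (Set.range m) := by rw [hm]; trivial
    induction hx using Submodule.span_induction with
    | mem x hx =>
      obtain ⟨i, rfl⟩ := hx
      exact hι i
    | zero =>
      refine ⟨1, fun h => D.primeJ.ne_top (D.J'.eq_top_iff_one.2 h), ?_⟩
      rw [map_zero, smul_zero]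
      exact S.zero_mem
    | add x y _ _ h1 h2 =>
      obtain ⟨f, hf, hfx⟩ := h1
      obtain ⟨f', hf', hfy⟩ := h2
      refine ⟨f * f', fun h => ?_, ?_⟩
      · rcases Ideal.IsPrime.mem_or_mem inferInstance h with h | h
        · exact hf h
        · exact hf' h
      · rw [map_add, smul_add]
        refine S.add_mem ?_ ?_
        · rw [mul_comm, mul_smul]
          exact hSs _ _ hfx
        · rw [mul_smul]
          exact hSs _ _ hfy
    | smul p x _ h1 =>
      obtain ⟨f, hf, hfx⟩ := h1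
      refine ⟨f, hf, ?_⟩
      rw [hE.smul, smul_comm]
      exact hSs _ _ hfx
  have hall : ∀ y : E, ∃ f, f ∉ D.J' ∧ f • y ∈ S := by
    intro y
    obtain ⟨r, hr, x, hx⟩ := hE.gen y
    obtain ⟨f, hf, hfx⟩ := hι2 x
    refine ⟨f * emb κ n (aeval z r), fun h => ?_, ?_⟩
    · rcases Ideal.IsPrime.mem_or_mem inferInstance h with h | h
      · exact hf h
      · exact hinj r hr h
    · rw [mul_smul, hx]
      exact hfx
  refine ⟨l, ?_, ?_⟩
  · -- rank over `κ[w]`
    have h1 := pi_rk hRWA w (Po κ (n + 1) ⧸ D.J') hFY l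
    let j0 : (Fin l → (Po κ (n + 1) ⧸ D.J')) →ₗ[Po κ (n + 1) ⧸ D.J'] E :=
      Fintype.linearCombination (Po κ (n + 1) ⧸ D.J') u
    have hj0 : Function.Injective j0 :=
      linearIndependent_iff_injective_fintypeLinearCombination.1 hu
    let j : (Fin l → (Po κ (n + 1) ⧸ D.J')) →ₗ[Po κ (n + 1)] E :=
      { toFun := j0
        map_add' := j0.map_add
        map_smul' := fun f x => by
          rw [RingHom.id_apply, ← hmk, ← j0.map_smul]
          rfl }
    have h2 := hRWL κ (n + 1) w {f | f ∉ D.J'} (by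
        intro f hf f' hf' h
        rcases Ideal.IsPrime.mem_or_mem inferInstance h with h | h
        · exact hf h
        · exact hf' h) _ E j injf (by
        intro y
        obtain ⟨f, hf, hfy⟩ := hall y
        refine ⟨f, hf, ?_⟩
        rw [hS, ← Fintype.range_linearCombination] at hfy
        exact hfy) h1.1
    rw [h2.2.2 hj0, h1.2]
  · -- rank over `κ[z]`
    have h1 := pi_rk hRWA z (Po κ n ⧸ J0 D) hFS l
    let j0 : (Fin l → (Po κ (n + 1) ⧸ D.J')) →ₗ[Po κ (n + 1) ⧸ D.J'] E :=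
      Fintype.linearCombination (Po κ (n + 1) ⧸ D.J') u
    have hj0 : Function.Injective j0 :=
      linearIndependent_iff_injective_fintypeLinearCombination.1 hu
    let ψ : (Po κ n ⧸ J0 D) →+* (Po κ (n + 1) ⧸ D.J') :=
      Ideal.quotientMap D.J' (emb κ n).toRingHom (fun x hx => hx)
    have hψ : Function.Injective ψ := Ideal.quotientMap_injective' (fun x hx => hx)
    have hψ2 : ∀ p : Po κ n, ψ (Ideal.Quotient.mk (J0 D) p) = Ideal.Quotient.mk D.J' (emb κ n p) :=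
      fun p => rfl
    letI : Module (Po κ n) E := Module.compHom E (emb κ n).toRingHom
    have hsm : ∀ (p : Po κ n) (y : E), p • y = emb κ n p • y := fun p y => rfl
    let j : (Fin l → (Po κ n ⧸ J0 D)) →ₗ[Po κ n] E :=
      { toFun := fun x => j0 (fun i => ψ (x i))
        map_add' := fun x y => by
          rw [← j0.map_add]
          congr 1
          funext i
          exact ψ.map_add _ _
        map_smul' := fun p x => by
          rw [RingHom.id_apply, hsm, ← hmk, ← j0.map_smul]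
          congr 1
          funext i
          obtain ⟨y, hy⟩ := Ideal.Quotient.mk_surjective (x i)
          change ψ (p • x i) = Ideal.Quotient.mk D.J' (emb κ n p) * ψ (x i)
          rw [← hψ2, ← ψ.map_mul]
          rfl }
    have hj : Function.Injective j := by
      intro x y hxy
      have := hj0 hxy
      funext i
      exact hψ (congrFun this i)
    have hnm : ∀ p q : Po κ n, p ∉ J0 D → q ∉ J0 D → p * q ∉ J0 D := by
      intro p q hp hq h
      rcases Ideal.IsPrime.mem_or_mem hJp h with h | h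
      · exact hp h
      · exact hq h
    have hrj : ∀ (p : Po κ n) (y : E), y ∈ LinearMap.range j → emb κ n p • y ∈ LinearMap.range j := by
      intro p y hy
      rw [← hsm]
      exact (LinearMap.range j).smul_mem p hy
    have hone : (1 : Po κ n) ∉ J0 D := fun h => hJp.ne_top ((J0 D).eq_top_iff_one.2 h)
    have hgk : ∀ k : ℕ, lin v ^ k ∉ J0 D := fun k hk =>
      hg (Ideal.IsPrime.mem_of_pow_mem hJp k hk)
    have hZ : ∀ y ∈ S, ∃ p, p ∉ J0 D ∧ emb κ n p • y ∈ LinearMap.range j := by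
      intro y hy
      rw [hS] at hy
      induction hy using Submodule.span_induction with
      | mem y hy =>
        obtain ⟨i, rfl⟩ := hy
        refine ⟨1, hone, ?_⟩
        rw [map_one, one_smul]
        refine ⟨Pi.single i 1, ?_⟩
        change j0 (fun i' => ψ ((Pi.single i 1 : Fin l → (Po κ n ⧸ J0 D)) i')) = u i
        have : (fun i' => ψ ((Pi.single i 1 : Fin l → (Po κ n ⧸ J0 D)) i')) =
            (Pi.single i 1 : Fin l → (Po κ (n + 1) ⧸ D.J')) := by
          funext i'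
          by_cases h : i' = i
          · subst h
            simp
          · simp [h]
        rw [this]
        change Fintype.linearCombination (Po κ (n + 1) ⧸ D.J') u _ = _
        rw [Fintype.linearCombination_apply_single, one_smul]
      | zero =>
        exact ⟨1, hone, by rw [smul_zero]; exact Submodule.zero_mem _⟩
      | add x y _ _ h1 h2 =>
        obtain ⟨p, hp, hx⟩ := h1
        obtain ⟨q, hq, hy⟩ := h2
        refine ⟨p * q, hnm _ _ hp hq, ?_⟩
        rw [smul_add]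
        refine Submodule.add_mem _ ?_ ?_
        · rw [map_mul, mul_comm, mul_smul]
          exact hrj _ _ hx
        · rw [map_mul, mul_smul]
          exact hrj _ _ hy
      | smul f x _ h1 =>
        obtain ⟨f, rfl⟩ := Ideal.Quotient.mk_surjective f
        obtain ⟨p, hp, hx⟩ := h1
        obtain ⟨k, a, -, -, h3⟩ := key f
        refine ⟨p * lin v ^ k, hnm _ _ hp (hgk k), ?_⟩
        rw [hmk, map_mul, map_pow, mul_smul, h3, smul_comm]
        exact hrj _ _ hx
    have h2 := hRWL κ n z {p | p ∉ J0 D} (fun p hp q hq => hnm p q hp hq) _ E j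
      (fun p hp y hy => hinv p hp y hy) (by
        intro y
        obtain ⟨f, hf, hfy⟩ := hall y
        obtain ⟨p, hp, hpy⟩ := hZ _ hfy
        obtain ⟨k, a, -, h4, h3⟩ := key f
        refine ⟨p * a, hnm _ _ hp (fun h => hf (h4.2 h)), ?_⟩
        rw [hsm, map_mul, mul_smul, ← h3]
        have := hrj (lin v ^ k) _ hpy
        rw [smul_comm, map_pow] at this
        exact this) h1.1
    have h3 : rkw (fun i => emb κ n (z i)) E = rkw z E := by
      have h4 : (aeval (fun i => emb κ n (z i)) : Po κ 3 →ₐ[κ] Po κ (n + 1)).toRingHom =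
          (emb κ n).toRingHom.comp (aeval z : Po κ 3 →ₐ[κ] Po κ n).toRingHom := by
        apply RingHom.ext
        intro p
        change (aeval (fun i => emb κ n (z i)) : Po κ 3 →ₐ[κ] Po κ (n + 1)) p =
          emb κ n (aeval z p)
        rw [← AlgHom.comp_apply, MvPolynomial.comp_aeval]
      unfold rkw
      rw [h4]
    rw [h3, h2.2.2 hj, h1.2]

lemma killq {κ : Type} [Field κ] {r : ℕ} (J : Ideal (Po κ r)) (E : Type) [AddCommGroup E]
    [Module (Po κ r) E] (e : (Po κ r ⧸ J) ≃ₗ[Po κ r] E) : ∀ f ∈ J, ∀ x : E, f • x = 0 := by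
  intro f hf x
  obtain ⟨y, rfl⟩ := e.surjective x
  obtain ⟨p, rfl⟩ := Ideal.Quotient.mk_surjective y
  rw [← e.map_smul]
  have : f • (Ideal.Quotient.mk J p) = 0 := by
    change Ideal.Quotient.mk J (f * p) = 0
    exact Ideal.Quotient.eq_zero_iff_mem.2 (J.mul_mem_right p hf)
  rw [this, map_zero]

lemma homw {κ : Type} [Field κ] {n : ℕ} {D : XD κ n} {z : Fin 3 → Po κ n}
    {w : Fin 3 → Po κ (n + 1)} (hz : Zp D z) (hw : WG D z w) : ∀ i, (w i).IsHomogeneous 1 := by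
  have he : ∀ i, (emb κ n (z i)).IsHomogeneous 1 := fun i => (hz.1 i).rename_isHomogeneous
  obtain ⟨⟨a, b, h0⟩, h1, h2, -⟩ := hw
  intro i
  fin_cases i
  · change (w 0).IsHomogeneous 1
    rw [h0]
    have h3 := (isHomogeneous_C (Fin (n + 1)) a).mul (he 0)
    have h4 := (isHomogeneous_C (Fin (n + 1)) b).mul (isHomogeneous_X κ (Fin.last n))
    rw [zero_add] at h3 h4
    exact h3.add h4
  · change (w 1).IsHomogeneous 1
    rw [h1]
    exact he 1
  · change (w 2).IsHomogeneous 1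
    rw [h2]
    exact he 2

end LWS_

open LWS_ in
/-- **LWS**: the two ranks of a module over the ring of the surface `S` -/
theorem lws_proof (hZPC : Stmt_ZPC) (hWFN : Stmt_WFN) (hRSC : Stmt_RSC) (hRWA : Stmt_RWA)
    (hRWL : Stmt_RWL) : Stmt_LWS := by
  intro κ _ n D c z v w hc hz hg hw M hfin hK E _ _ ι hE
  haveI := D.primeJ
  haveI hJp : (J0 D).IsPrime := Ideal.comap_isPrime _ _
  by_cases hinj : ∃ r : Po κ 3, r ≠ 0 ∧ (aeval z r : Po κ n) ∈ J0 D
  · obtain ⟨r, hr, hrJ⟩ := hinj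
    have h0 : ∀ a : E, a = 0 := fun a => hE.inj r hr a (kill0 hE hK _ hrJ a)
    haveI : Subsingleton E := ⟨fun a b => by rw [h0 a, h0 b]⟩
    rw [rk_zero, rk_zero, mul_zero, mul_zero]
  push Not at hinj
  obtain ⟨hv, g', r, hr, hgr⟩ := hg
  have hgJ : lin v ∉ J0 D := by
    intro h
    apply hinj r hr
    have h1 := (J0 D).sub_mem ((J0 D).mul_mem_right g' h) (aF_le D hc hgr)
    rwa [sub_sub_cancel] at h1
  have hinv : ∀ p : Po κ n, p ∉ J0 D → ∀ u : E, emb κ n p • u = 0 → u = 0 :=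
    fun p hp u hu => injp hE hK p (invp D hZPC hc hz p hp) u hu
  -- finiteness over `κ[w]`, `κ[z]`
  have hXc : (X (Fin.castSucc D.c₀) : Po κ (n + 1)) ^ 1 ∈ D.J' := by
    rw [pow_one]
    have h1 : emb κ n (X D.c₀) ∈ D.J' := Xc0 D
    have h2 : emb κ n (X D.c₀) = X (Fin.castSucc D.c₀) := rename_X _ _
    rwa [h2] at h1
  have finY : ∀ (E' : Type) [AddCommGroup E'] [Module (Po κ (n + 1)) E']
      (_ : (Po κ (n + 1) ⧸ D.J') ≃ₗ[Po κ (n + 1)] E'), ∃ T : Finset E', ∀ v : E',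
        ∃ P : E' → Po κ 3, v = ∑ t ∈ T, (aeval w (P t) : Po κ (n + 1)) • t := by
    intro E' _ _ e
    exact hWFN.1 κ n D z w hz hw E' (Module.Finite.equiv e)
      (fun f hf x => killq D.J' E' e f (D.le hf) x)
      ⟨1, fun x => killq D.J' E' e _ hXc x⟩
  have finS : ∀ (E' : Type) [AddCommGroup E'] [Module (Po κ n) E']
      (_ : (Po κ n ⧸ J0 D) ≃ₗ[Po κ n] E'), ∃ T : Finset E', ∀ v : E',
        ∃ P : E' → Po κ 3, v = ∑ t ∈ T, (aeval z (P t) : Po κ n) • t := by
    intro E' _ _ e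
    exact hWFN.2 κ n D c z hz E' (Module.Finite.equiv e)
      (fun f hf x => killq (J0 D) E' e f (aF_le D hc hf) x)
  have hFY : Fw w (Po κ (n + 1) ⧸ D.J') := Fw_of_gen w _ (finY _ (LinearEquiv.refl _ _))
  have hFS : Fw z (Po κ n ⧸ J0 D) := Fw_of_gen z _ (finS _ (LinearEquiv.refl _ _))
  obtain ⟨l, h1, h2⟩ := ranks hRWA hRWL D hv hgJ hfin hE hK hinj hinv hFY hFS
  obtain ⟨QY, eY, hdY⟩ := quot_gmod D.J' D.homJ
  obtain ⟨QS, eS, hdS⟩ := quot_gmod (J0 D) (homJ0 D)
  have h3 : D.s₁ ≤ rkw w (Po κ (n + 1) ⧸ D.J') := by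
    rw [iso_rk w _ _ eY]
    refine low _ _ (fun m => hf D.J' m) ?_ D.gJ'
    obtain ⟨C, hC⟩ := growth hRSC w (homw hz hw) QY (finY _ eY)
    exact ⟨C, fun m => by rw [← hdY m]; exact hC m⟩
  have h4 : rkw z (Po κ n ⧸ J0 D) ≤ D.s₂ := by
    rw [iso_rk z _ _ eS]
    refine upp _ _ (fun m => hf (J0 D) m) ?_ D.gJ
    obtain ⟨C, hC⟩ := growth hRSC z hz.1 QS (finS _ eS)
    exact ⟨C, fun m => by rw [← hdS m]; exact hC m⟩
  rw [h1, h2]
  calc D.s₁ * (l * rkw z (Po κ n ⧸ J0 D)) ≤ D.s₁ * (l * D.s₂) :=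
        Nat.mul_le_mul_left _ (Nat.mul_le_mul_left _ h4)
    _ = D.s₂ * (l * D.s₁) := by ring
    _ ≤ _ := Nat.mul_le_mul_left _ (Nat.mul_le_mul_left _ h3)

end

end Pool.Agent.RST
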