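import Pool.Agent.RST.Stmts

/-!
# RST, module MSP: `M / F B` is separated for the `ϖ`-adic topology
-/

namespace Pool.Agent.RST

open MvPolynomial Pool.Agent.GML

noncomputable section

namespace MSPx

/-- Krull's intersection theorem, localised at a prime ideal -/
theorem krull_loc {A : Type} [CommRing A] [IsNoetherianRing A] (p : Ideal A) [p.IsPrime]
    {N : Type} [AddCommGroup N] [Module A N] [Module.Finite A N] (ϖ : A) (hϖ : ϖ ∈ p) (y : N)
    (h : ∀ k : ℕ, ∃ s : A, s ∉ p ∧ ∃ n : N, s • y = ϖ ^ k • n) :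
    ∃ s : A, s ∉ p ∧ s • y = 0 := by
  have i1 : IsNoetherianRing (Localization.AtPrime p) :=
    IsLocalization.isNoetherianRing p.primeCompl _ inferInstance
  have i2 : Module.Finite (Localization.AtPrime p) (LocalizedModule p.primeCompl N) :=
    inferInstance
  have hbot := Ideal.iInf_pow_smul_eq_bot_of_isLocalRing
    (M := LocalizedModule p.primeCompl N)
    (IsLocalRing.maximalIdeal (Localization.AtPrime p)) (Ideal.IsPrime.ne_top inferInstance)
  have hmem : LocalizedModule.mkLinearMap p.primeCompl N y ∈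
      (⨅ i : ℕ, IsLocalRing.maximalIdeal (Localization.AtPrime p) ^ i • ⊤ :
        Submodule (Localization.AtPrime p) (LocalizedModule p.primeCompl N)) := by
    rw [Submodule.mem_iInf]
    intro k
    obtain ⟨s, hs, n, hn⟩ := h k
    have hϖm : algebraMap A (Localization.AtPrime p) ϖ ∈
        IsLocalRing.maximalIdeal (Localization.AtPrime p) := by
      rw [IsLocalization.AtPrime.to_map_mem_maximal_iff (Localization.AtPrime p) p]
      exact hϖ
    have hunit : IsUnit (algebraMap A (Localization.AtPrime p) s) :=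
      IsLocalization.map_units (Localization.AtPrime p) (⟨s, hs⟩ : p.primeCompl)
    have h1 : algebraMap A (Localization.AtPrime p) s •
        LocalizedModule.mkLinearMap p.primeCompl N y ∈
        (IsLocalRing.maximalIdeal (Localization.AtPrime p) ^ k • ⊤ :
        Submodule (Localization.AtPrime p) (LocalizedModule p.primeCompl N)) := by
      rw [algebraMap_smul, ← map_smul, hn, map_smul,
        ← algebraMap_smul (Localization.AtPrime p) (ϖ ^ k), map_pow]
      exact Submodule.smul_mem_smul (Ideal.pow_mem_pow hϖm k) Submodule.mem_top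
    exact (Submodule.smul_mem_iff_of_isUnit _ hunit).1 h1
  rw [hbot, Submodule.mem_bot] at hmem
  obtain ⟨s, hs, h0⟩ := LocalizedModule.mem_ker_mkLinearMap_iff.1 hmem
  exact ⟨s, hs, h0⟩

end MSPx

open MSPx in
theorem msp_proof (h1 : Stmt_CFI) (h2 : Stmt_CTF) : Stmt_MSP := by
  intro Z Y y hy
  obtain ⟨T, hTS, hT⟩ := (h1 Z Y).1
  let mC : Module (Po Z.V 3) (Z.B ⧸ Ideal.span {Y.F}) := Module.compHom _
    ((Ideal.Quotient.mk (Ideal.span {Y.F})).comp
      (aeval Y.zb : Po Z.V 3 →ₐ[Z.V] Z.B).toRingHom)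
  have hsm : ∀ (P : Po Z.V 3) (b : Z.B), P • (Ideal.Quotient.mk (Ideal.span {Y.F}) b) =
      Ideal.Quotient.mk (Ideal.span {Y.F}) (aeval Y.zb P * b) := fun P b => by
    rw [map_mul]; rfl
  have hmk : ∀ b b' : Z.B, Ideal.Quotient.mk (Ideal.span {Y.F}) b =
      Ideal.Quotient.mk (Ideal.span {Y.F}) b' ↔ ∃ u, b - b' = Y.F * u := fun b b' => by
    rw [Ideal.Quotient.mk_eq_mk_iff_sub_mem, Ideal.mem_span_singleton]; rfl
  set N : Submodule (Po Z.V 3) (Z.B ⧸ Ideal.span {Y.F}) :=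
    Submodule.span _ ((fun t : Z.B => Ideal.Quotient.mk (Ideal.span {Y.F}) t) '' (T : Set Z.B))
    with hN
  have hSN : ∀ s ∈ Z.S, Ideal.Quotient.mk (Ideal.span {Y.F}) s ∈ N := by
    intro s hs
    obtain ⟨P, hP⟩ := hT s hs
    have h4 : ∀ Q : Po Z.V 4, Ideal.Quotient.mk (Ideal.span {Y.F})
        (aeval ![Y.zb 0, Y.zb 1, Y.zb 2, Y.F] Q) = Ideal.Quotient.mk (Ideal.span {Y.F})
        (aeval Y.zb (aeval (![X 0, X 1, X 2, 0] : Fin 4 → Po Z.V 3) Q)) := by
      intro Q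
      have e : ((Ideal.Quotient.mkₐ Z.V (Ideal.span {Y.F})).comp
          (aeval ![Y.zb 0, Y.zb 1, Y.zb 2, Y.F] : Po Z.V 4 →ₐ[Z.V] Z.B)) =
          ((Ideal.Quotient.mkₐ Z.V (Ideal.span {Y.F})).comp
          ((aeval Y.zb : Po Z.V 3 →ₐ[Z.V] Z.B).comp
          (aeval (![X 0, X 1, X 2, 0] : Fin 4 → Po Z.V 3) : Po Z.V 4 →ₐ[Z.V] Po Z.V 3))) := by
        apply MvPolynomial.algHom_ext
        intro i
        fin_cases i
        · simp
        · simp
        · simp
        · simp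
      exact DFunLike.congr_fun e Q
    rw [hP, map_sum]
    refine Submodule.sum_mem _ fun t ht => ?_
    rw [map_mul, h4, ← map_mul, ← hsm]
    exact Submodule.smul_mem _ _ (Submodule.subset_span ⟨t, ht, rfl⟩)
  have : Module.Finite (Po Z.V 3) N := Module.Finite.iff_fg.2
    (Submodule.fg_span (T.finite_toSet.image _))
  obtain ⟨j, hj⟩ := Z.S_lat y
  have hp : (RingHom.ker (MvPolynomial.map Z.σ : Po Z.V 3 →+* Po Z.κ 3)).IsPrime :=
    RingHom.ker_isPrime _
  have hσϖ : Z.σ Z.ϖ = 0 := by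
    have : Z.ϖ ∈ RingHom.ker Z.σ := by rw [Z.kerσ]; exact Ideal.mem_span_singleton_self _
    exact this
  obtain ⟨s, hs, hs0⟩ := krull_loc (RingHom.ker (MvPolynomial.map Z.σ : Po Z.V 3 →+* Po Z.κ 3))
    (C Z.ϖ) (by rw [RingHom.mem_ker, map_C, hσϖ, C_0])
    (⟨Ideal.Quotient.mk (Ideal.span {Y.F}) (Z.ϖ ^ j • y), hSN _ hj⟩ : N) (by
      intro k
      obtain ⟨m, ⟨_, d, P, _, hP, s, hs, b, hb⟩, b', hb'⟩ := hy k
      refine ⟨P, fun h => hP h, ⟨Ideal.Quotient.mk (Ideal.span {Y.F}) (Z.ϖ ^ j • s),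
        hSN _ (Z.S.smul_mem hs _)⟩, ?_⟩
      apply Subtype.ext
      change P • Ideal.Quotient.mk (Ideal.span {Y.F}) (Z.ϖ ^ j • y) =
        (C Z.ϖ : Po Z.V 3) ^ k • Ideal.Quotient.mk (Ideal.span {Y.F}) (Z.ϖ ^ j • s)
      rw [hsm, hsm, hmk]
      refine ⟨Z.ϖ ^ j • (Z.ϖ ^ k • b + aeval Y.zb P * b'), ?_⟩
      rw [map_pow, aeval_C, hb']
      simp only [Algebra.smul_def, map_pow] at hb ⊢
      linear_combination (algebraMap Z.V Z.B Z.ϖ) ^ j * (algebraMap Z.V Z.B Z.ϖ) ^ k * hb)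
  have hs1 := congrArg Subtype.val hs0
  change s • Ideal.Quotient.mk (Ideal.span {Y.F}) (Z.ϖ ^ j • y) = 0 at hs1
  rw [hsm, ← map_zero (Ideal.Quotient.mk (Ideal.span {Y.F})), hmk] at hs1
  obtain ⟨u, hu⟩ := hs1
  have hs' : MvPolynomial.map (algebraMap Z.V Z.K) s ≠ 0 := by
    intro h
    apply hs
    have : s = 0 := MvPolynomial.map_injective _ (IsFractionRing.injective Z.V Z.K)
      (by rw [h, map_zero])
    rw [this]; exact Ideal.zero_mem _
  obtain ⟨b', hb'⟩ := h2 Z Y _ hs' (Z.ϖ ^ j • y) ⟨u, by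
    rw [sub_zero] at hu
    rw [← hu, MvPolynomial.aeval_map_algebraMap]⟩
  refine ⟨(algebraMap Z.V Z.K Z.ϖ ^ j)⁻¹ • b', ?_⟩
  have hne : algebraMap Z.V Z.K Z.ϖ ^ j ≠ 0 := pow_ne_zero _ (by
    rw [Ne, IsFractionRing.to_map_eq_zero_iff]
    exact Z.irr.ne_zero)
  rw [mul_smul_comm, ← hb', ← algebraMap_smul Z.K (Z.ϖ ^ j) y, map_pow, smul_smul,
    inv_mul_cancel₀ hne, one_smul]

end

end Pool.Agent.RST
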