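import Pool.Agent.RST.Stmts
import Pool.Agent.GML.CMP
import Pool.Agent.GML.FRE

/-!
# RST / MSQ: the graded module `M / (ϖ M + F B)`
-/

set_option autoImplicit false

open MvPolynomial Pool.Agent.GML

namespace Pool.Agent.RST

noncomputable section

namespace MSQ_

/-- finiteness of the saturation -/
theorem key {A C : Type} [CommRing A] [IsDomain A] [IsNoetherianRing A] (ϖ : A)
    (hϖ : Prime ϖ) [AddCommGroup C] [Module A C]
    (htf : ∀ a : A, a ≠ 0 → ∀ y : C, a • y = 0 → y = 0) (S : Submodule A C) (hS : S.FG)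
    (hlat : ∀ y : C, ∃ k : ℕ, ϖ ^ k • y ∈ S) (M : Submodule A C)
    (hM : ∀ y ∈ M, ∃ P : A, ¬ ϖ ∣ P ∧ P • y ∈ S) : M.FG := by
  classical
  obtain ⟨T, hT⟩ := hS
  obtain ⟨s, hs, hmax⟩ := exists_maximal_linearIndepOn A (fun t : T => (t : C))
  set v : T → C := fun t => (t : C) with hv
  choose! a ha0 ha using hmax
  set N₀ : Submodule A C := Submodule.span A (v '' s) with hN₀
  have hfin : N₀.FG := Submodule.fg_span (Set.toFinite _)
  set f : A := ∏ i : T, if i ∈ s then 1 else a i with hf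
  have hf0 : f ≠ 0 := by
    rw [hf, Finset.prod_ne_zero_iff]
    intro i _
    split_ifs with h
    · exact one_ne_zero
    · exact ha0 i h
  have hgen : ∀ i : T, f • v i ∈ N₀ := by
    intro i
    rw [hf, ← Finset.mul_prod_erase Finset.univ _ (Finset.mem_univ i), mul_comm, mul_smul]
    apply Submodule.smul_mem
    split_ifs with h
    · rw [one_smul]
      exact Submodule.subset_span ⟨i, h, rfl⟩
    · exact ha i h
  have hSN : ∀ y ∈ S, f • y ∈ N₀ := by
    intro y hy
    rw [← hT] at hy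
    induction hy using Submodule.span_induction with
    | mem x hx => exact hgen ⟨x, hx⟩
    | zero => rw [smul_zero]; exact Submodule.zero_mem _
    | add x y _ _ h1 h2 => rw [smul_add]; exact Submodule.add_mem _ h1 h2
    | smul b x _ h1 => rw [smul_comm]; exact Submodule.smul_mem _ _ h1
  have hli : LinearIndependent A (fun i : s => v i) := hs
  have hran : Set.range (fun i : s => v i) = v '' s := by
    rw [Set.image_eq_range]
  have hMN : ∀ y ∈ M, f • y ∈ N₀ := by
    intro y hy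
    obtain ⟨P, hP, hPy⟩ := hM y hy
    obtain ⟨k, hk⟩ := hlat y
    have h1 : f • ϖ ^ k • y ∈ Submodule.span A (Set.range fun i : s => v i) := by
      rw [hran]; exact hSN _ hk
    have h2 : f • P • y ∈ Submodule.span A (Set.range fun i : s => v i) := by
      rw [hran]; exact hSN _ hPy
    have h3 : P • hli.repr ⟨_, h1⟩ = ϖ ^ k • hli.repr ⟨_, h2⟩ := by
      rw [← map_smul, ← map_smul]
      congr 1
      apply Subtype.ext
      change P • f • ϖ ^ k • y = ϖ ^ k • f • P • y
      rw [smul_smul, smul_smul, smul_smul, smul_smul]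
      congr 1
      ring
    have h4 : ∀ i, ϖ ^ k ∣ hli.repr ⟨_, h1⟩ i := by
      intro i
      apply hϖ.pow_dvd_of_dvd_mul_left k hP
      refine ⟨hli.repr ⟨_, h2⟩ i, ?_⟩
      have := DFunLike.congr_fun h3 i
      simpa using this
    choose c hc using h4
    have h5 : ϖ ^ k • (f • y - ∑ i, c i • v i) = 0 := by
      rw [smul_sub, sub_eq_zero, smul_comm]
      have h6 := hli.linearCombination_repr ⟨_, h1⟩
      rw [Finsupp.linearCombination_apply, Finsupp.sum_fintype _ _ (by intro; simp)] at h6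
      change _ = f • ϖ ^ k • y at h6
      refine h6.symm.trans ?_
      rw [Finset.smul_sum]
      refine Finset.sum_congr rfl fun i _ => ?_
      rw [hc i, mul_smul]
    have h7 := htf _ (pow_ne_zero k hϖ.ne_zero) _ h5
    rw [sub_eq_zero] at h7
    rw [h7]
    exact Submodule.sum_mem _ fun i _ => Submodule.smul_mem _ _
      (Submodule.subset_span ⟨i, i.2, rfl⟩)
  have hnoe : IsNoetherian A N₀ := isNoetherian_of_fg_of_noetherian N₀ hfin
  let φ : M →ₗ[A] N₀ :=
    { toFun := fun y => ⟨f • (y : C), hMN _ y.2⟩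
      map_add' := fun x y => by
        apply Subtype.ext
        exact smul_add _ _ _
      map_smul' := fun b x => by
        apply Subtype.ext
        exact smul_comm _ _ _ }
  have hφ : Function.Injective φ := by
    rw [← LinearMap.ker_eq_bot, LinearMap.ker_eq_bot']
    intro y hy
    apply Subtype.ext
    exact htf f hf0 _ (congrArg Subtype.val hy)
  have hnM : IsNoetherian A M := isNoetherian_of_injective φ hφ
  exact Module.Finite.iff_fg.1 inferInstance

variable {Z : Ctx} {Y : Cut Z}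

theorem aeval_mem (G : Po Z.V Z.n) : aeval Z.x G ∈ Z.S := by
  have h2 := (Algebra.adjoin_le (S := Z.S) (by rintro _ ⟨c, rfl⟩; exact Z.x_mem c) :
    Algebra.adjoin Z.V (Set.range Z.x) ≤ Z.S)
  apply h2
  rw [Algebra.adjoin_range_eq_range_aeval]
  exact ⟨G, rfl⟩

theorem aeval_zb (P : Po Z.V 3) : aeval Y.zb P = aeval Z.x (aeval Y.z P) := by
  have h : (aeval Y.zb : Po Z.V 3 →ₐ[Z.V] Z.B) = (aeval Z.x).comp (aeval Y.z) := by
    apply MvPolynomial.algHom_ext
    intro i
    simp [Cut.zb]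
  rw [h]
  rfl

theorem map_zb (P : Po Z.V 3) :
    MvPolynomial.map Z.σ (aeval Y.z P) = aeval Y.zk (MvPolynomial.map Z.σ P) := by
  induction P using MvPolynomial.induction_on with
  | C a =>
    simp [MvPolynomial.algebraMap_eq]
  | add p q hp hq => rw [map_add, map_add, hp, hq, map_add, map_add]
  | mul_X p i hp =>
    rw [map_mul, map_mul, hp, map_mul, map_mul, aeval_X, map_X, aeval_X]
    rfl

/-- `mM` is stable under `S` -/
theorem mM_smul (s : Z.B) (hs : s ∈ Z.S) (y : Z.B) (hy : y ∈ mM Y) : s * y ∈ mM Y := by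
  obtain ⟨hq, k, P, hk, hP, s', hs', b, h⟩ := hy
  refine ⟨Z.q.mul_mem_left _ hq, k, P, hk, hP, s * s', Z.S.mul_mem hs hs', s * b, ?_⟩
  calc aeval Y.zb P * (s * y) = s * (aeval Y.zb P * y) := by ring
    _ = _ := by rw [h]; ring

theorem inv_smul (y : Z.B) : ∃ y' : Z.B, Z.ϖ • y' = y := by
  have h0 : (algebraMap Z.V Z.K Z.ϖ) ≠ 0 := by
    rw [Ne, FaithfulSMul.algebraMap_eq_zero_iff]
    exact Z.irr.ne_zero
  refine ⟨(algebraMap Z.V Z.K Z.ϖ)⁻¹ • y, ?_⟩
  rw [← IsScalarTower.algebraMap_smul Z.K Z.ϖ, smul_smul, mul_inv_cancel₀ h0, one_smul]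

theorem smul_inj {y y' : Z.B} (h : Z.ϖ • y = Z.ϖ • y') : y = y' := by
  have h0 : (algebraMap Z.V Z.K Z.ϖ) ≠ 0 := by
    rw [Ne, FaithfulSMul.algebraMap_eq_zero_iff]
    exact Z.irr.ne_zero
  rw [← IsScalarTower.algebraMap_smul Z.K Z.ϖ, ← IsScalarTower.algebraMap_smul Z.K Z.ϖ y'] at h
  exact smul_right_injective _ h0 h

/-- a finite family generating `M` over `V[z]` modulo `F B` -/
theorem gens (hCFI : Stmt_CFI) (hCTF : Stmt_CTF) (Y : Cut Z) : ∃ T : Finset Z.B,
    (∀ t ∈ T, t ∈ mM Y) ∧ ∀ y ∈ mM Y, ∃ (P : Z.B → Po Z.V 3) (b : Z.B),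
      y = ∑ t ∈ T, aeval Y.zb (P t) * t + Y.F * b := by
  classical
  let mA : Module (Po Z.V 3) Z.B :=
    Module.compHom Z.B (aeval Y.zb : Po Z.V 3 →ₐ[Z.V] Z.B).toRingHom
  have hsm : ∀ (P : Po Z.V 3) (y : Z.B), P • y = aeval Y.zb P * y := fun _ _ => rfl
  let FB : Submodule (Po Z.V 3) Z.B :=
    { carrier := {y | ∃ b : Z.B, y = Y.F * b}
      add_mem' := by
        rintro _ _ ⟨b, rfl⟩ ⟨c, rfl⟩
        exact ⟨b + c, by ring⟩
      zero_mem' := ⟨0, by simp⟩
      smul_mem' := by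
        rintro P _ ⟨b, rfl⟩
        exact ⟨aeval Y.zb P * b, by rw [hsm]; ring⟩ }
  have hFB : ∀ y, y ∈ FB ↔ ∃ b : Z.B, y = Y.F * b := fun _ => Iff.rfl
  have hϖV : Prime (C Z.ϖ : Po Z.V 3) := by
    rw [MvPolynomial.prime_C_iff]
    exact Z.irr.prime
  -- reduction of polynomials
  have hred : ∀ P : Po Z.V 3, MvPolynomial.map Z.σ P ≠ 0 → ¬ (C Z.ϖ : Po Z.V 3) ∣ P := by
    intro P hP hd
    obtain ⟨Q, rfl⟩ := hd
    apply hP
    rw [map_mul, map_C]
    have : Z.σ Z.ϖ = 0 := by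
      rw [← RingHom.mem_ker, Z.kerσ]
      exact Ideal.mem_span_singleton_self _
    rw [this, map_zero, zero_mul]
  let qm : Z.B →ₗ[Po Z.V 3] (Z.B ⧸ FB) := FB.mkQ
  have hq0 : ∀ y, qm y = 0 ↔ ∃ b : Z.B, y = Y.F * b := by
    intro y
    rw [← hFB]
    exact Submodule.Quotient.mk_eq_zero _
  obtain ⟨⟨T₀, hT₀S, hT₀⟩, -⟩ := hCFI Z Y
  let Sm : Submodule (Po Z.V 3) Z.B :=
    { carrier := {y | y ∈ Z.S}
      add_mem' := fun h h' => Z.S.add_mem h h'
      zero_mem' := Z.S.zero_mem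
      smul_mem' := fun P y hy => by
        change aeval Y.zb P * y ∈ Z.S
        rw [aeval_zb]
        exact Z.S.mul_mem (aeval_mem _) hy }
  -- torsion free
  have htf : ∀ a : Po Z.V 3, a ≠ 0 → ∀ y : Z.B ⧸ FB, a • y = 0 → y = 0 := by
    intro a ha y hy
    obtain ⟨y, rfl⟩ := Submodule.mkQ_surjective _ y
    change a • qm y = 0 at hy
    rw [← map_smul, hq0, hsm] at hy
    change qm y = 0
    rw [hq0]
    have h1 : aeval Y.zb (MvPolynomial.map (algebraMap Z.V Z.K) a) = aeval Y.zb a := by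
      rw [MvPolynomial.aeval_map_algebraMap]
    have h2 : MvPolynomial.map (algebraMap Z.V Z.K) a ≠ 0 := by
      intro h
      apply ha
      apply MvPolynomial.map_injective (algebraMap Z.V Z.K) (FaithfulSMul.algebraMap_injective _ _)
      rw [h, map_zero]
    exact hCTF Z Y _ h2 y (by rw [h1]; exact hy)
  -- the last coordinate is zero modulo `F`
  have h4 : ∀ P : Po Z.V 4, ∃ b : Z.B, aeval ![Y.zb 0, Y.zb 1, Y.zb 2, Y.F] P =
      aeval Y.zb (aeval ![X 0, X 1, X 2, (0 : Po Z.V 3)] P : Po Z.V 3) + Y.F * b := by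
    intro P
    induction P using MvPolynomial.induction_on with
    | C a => exact ⟨0, by simp [MvPolynomial.algebraMap_eq]⟩
    | add p q hp hq =>
      obtain ⟨b, hb⟩ := hp
      obtain ⟨c, hc⟩ := hq
      exact ⟨b + c, by rw [map_add, hb, hc, map_add, map_add]; ring⟩
    | mul_X p i hp =>
      obtain ⟨b, hb⟩ := hp
      rw [map_mul, map_mul, map_mul, hb, aeval_X, aeval_X]
      fin_cases i
      · refine ⟨b * Y.zb 0, ?_⟩
        simp
        ring
      · refine ⟨b * Y.zb 1, ?_⟩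
        simp
        ring
      · refine ⟨b * Y.zb 2, ?_⟩
        simp
        ring
      · refine ⟨aeval Y.zb (aeval ![X 0, X 1, X 2, (0 : Po Z.V 3)] p : Po Z.V 3) + Y.F * b, ?_⟩
        simp
        ring
  have hSfg : (Sm.map qm).FG := by
    refine ⟨T₀.image qm, ?_⟩
    apply le_antisymm
    · rw [Submodule.span_le]
      intro y hy
      rw [Finset.coe_image] at hy
      obtain ⟨t, ht, rfl⟩ := hy
      exact ⟨t, hT₀S t ht, rfl⟩
    · rintro _ ⟨s, hs, rfl⟩
      obtain ⟨P, hP⟩ := hT₀ s hs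
      rw [hP, map_sum]
      refine Submodule.sum_mem _ fun t ht => ?_
      obtain ⟨b, hb⟩ := h4 (P t)
      rw [hb, add_mul, map_add, ← hsm, map_smul]
      have : qm (Y.F * b * t) = 0 := by
        rw [hq0]
        exact ⟨b * t, by ring⟩
      rw [this, add_zero]
      apply Submodule.smul_mem
      apply Submodule.subset_span
      rw [Finset.coe_image]
      exact ⟨t, ht, rfl⟩
  let Mm : Submodule (Po Z.V 3) Z.B :=
    { carrier := {y | y ∈ mM Y}
      add_mem' := fun h h' => (mM Y).add_mem h h'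
      zero_mem' := (mM Y).zero_mem
      smul_mem' := fun P y hy => by
        change aeval Y.zb P * y ∈ mM Y
        rw [aeval_zb]
        exact mM_smul _ (aeval_mem _) y hy }
  have hfg : (Mm.map qm).FG := by
    refine key (C Z.ϖ : Po Z.V 3) hϖV htf (Sm.map qm) hSfg ?_ _ ?_
    · intro y
      obtain ⟨y, rfl⟩ := Submodule.mkQ_surjective _ y
      obtain ⟨k, hk⟩ := Z.S_lat y
      refine ⟨k, Z.ϖ ^ k • y, hk, ?_⟩
      change qm _ = _ • qm y
      rw [← map_smul, hsm, map_pow, MvPolynomial.aeval_C, ← map_pow, ← Algebra.smul_def]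
    · rintro _ ⟨y, hy, rfl⟩
      obtain ⟨hq, k, P, hk, hP, s, hs, b, h⟩ := hy
      refine ⟨P, hred P hP, s, hs, ?_⟩
      rw [← map_smul, hsm, h, map_add, (hq0 _).2 ⟨b, rfl⟩, add_zero]
  obtain ⟨T, hT⟩ := hfg
  have hlift : ∀ t : (Z.B ⧸ FB), t ∈ T → ∃ y ∈ mM Y, qm y = t := by
    intro t ht
    have : t ∈ Mm.map qm := by
      rw [← hT]
      exact Submodule.subset_span ht
    obtain ⟨y, hy, h⟩ := this
    exact ⟨y, hy, h⟩
  choose! l hl hl' using hlift
  refine ⟨T.image l, ?_, ?_⟩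
  · intro t ht
    rw [Finset.mem_image] at ht
    obtain ⟨u, hu, rfl⟩ := ht
    exact hl u hu
  · intro y hy
    have h1 : qm y ∈ Submodule.span (Po Z.V 3) (T : Set (Z.B ⧸ FB)) := by
      rw [hT]
      exact ⟨y, hy, rfl⟩
    have h2 : Submodule.span (Po Z.V 3) (T : Set (Z.B ⧸ FB)) ≤
        (Submodule.span (Po Z.V 3) ((T.image l : Finset Z.B) : Set Z.B)).map qm := by
      rw [Submodule.span_le]
      intro t ht
      refine ⟨l t, Submodule.subset_span ?_, hl' t ht⟩
      rw [Finset.coe_image]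
      exact ⟨t, ht, rfl⟩
    obtain ⟨w, hw, hwy⟩ := h2 h1
    rw [SetLike.mem_coe, Submodule.mem_span_finset] at hw
    obtain ⟨P, -, hP⟩ := hw
    have h3 : qm (y - w) = 0 := by
      rw [map_sub, hwy, sub_self]
    obtain ⟨b, hb⟩ := (hq0 _).1 h3
    refine ⟨P, b, ?_⟩
    rw [← hb]
    have h5 : ∑ t ∈ T.image l, aeval Y.zb (P t) * t = w := by
      rw [← hP]
      rfl
    rw [h5]
    ring

theorem aeval_hom {κ : Type} [Field κ] {n : ℕ} {z : Fin 3 → Po κ n}
    (hz : ∀ i, (z i).IsHomogeneous 1) {k : ℕ} {p : Po κ 3} (hp : p.IsHomogeneous k) :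
    (aeval z p : Po κ n).IsHomogeneous k := by
  have h := hp.aeval z hz
  rwa [one_mul] at h

/-- torsion freeness can be tested with homogeneous polynomials -/
theorem top {κ : Type} [Field κ] {n : ℕ} {z : Fin 3 → Po κ n}
    (hz : ∀ i, (z i).IsHomogeneous 1) (M : GMod κ n)
    (H : ∀ (k : ℕ) (p : Po κ 3), p.IsHomogeneous k → p ≠ 0 → ∀ m : M.M,
      (aeval z p : Po κ n) • m = 0 → m = 0) : ZTf z M := by
  classical
  intro p hp m hm
  by_contra hm0
  obtain ⟨h1, h2, h3, h4, h5, h6, h7, h8, -⟩ := cmp_proof κ n M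
  let φ : ℤ → M.M →+ M.M := fun N => AddMonoidHom.mk' (M.cmp N) (h4 N)
  have hφ : ∀ N x, φ N x = M.cmp N x := fun _ _ => rfl
  obtain ⟨S, hS, hS'⟩ := h7 m
  have hne : (S.filter fun j => M.cmp j m ≠ 0).Nonempty := by
    by_contra hcon
    rw [Finset.not_nonempty_iff_eq_empty, Finset.filter_eq_empty_iff] at hcon
    apply hm0
    rw [hS]
    refine Finset.sum_eq_zero fun j hj => ?_
    by_contra h
    exact hcon hj h
  set b := (S.filter fun j => M.cmp j m ≠ 0).max' hne with hb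
  have hbm : b ∈ S.filter fun j => M.cmp j m ≠ 0 := Finset.max'_mem _ hne
  have hbmax : ∀ j, M.cmp j m ≠ 0 → j ≤ b := by
    intro j hj
    apply Finset.le_max'
    rw [Finset.mem_filter]
    refine ⟨?_, hj⟩
    by_contra h
    exact hj (hS' j h)
  rw [Finset.mem_filter] at hbm
  set a := p.totalDegree with ha
  have hpa : homogeneousComponent a p ≠ 0 := by
    intro h
    obtain ⟨d, hd, hda⟩ := Finset.exists_mem_eq_sup p.support (support_nonempty.2 hp)
      (fun s => s.sum fun _ e => e)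
    have h9 := congrArg (coeff d) h
    have hda' : d.degree = a := by
      rw [ha, totalDegree, hda]
      rfl
    rw [coeff_homogeneousComponent, if_pos hda', coeff_zero] at h9
    exact (mem_support_iff.1 hd) h9
  apply hbm.2
  refine H a _ (homogeneousComponent_isHomogeneous a p) hpa _ ?_
  -- the component of degree `b + a`
  have h10 : (aeval z p : Po κ n) • m = ∑ i ∈ Finset.range (a + 1), ∑ j ∈ S,
      (aeval z (homogeneousComponent i p) : Po κ n) • M.cmp j m := by
    conv_lhs => rw [← sum_homogeneousComponent p, map_sum, Finset.sum_smul]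
    refine Finset.sum_congr rfl fun i _ => ?_
    conv_lhs => rw [hS, Finset.smul_sum]
  have h11 : ∀ (i : ℕ) (j : ℤ), (aeval z (homogeneousComponent i p) : Po κ n) • M.cmp j m ∈
      M.gr (j + i) := fun i j =>
    FRE_.hom_smul M (aeval_hom hz (homogeneousComponent_isHomogeneous i p)) j _ (h1 j m)
  have h12 : φ (b + a) ((aeval z p : Po κ n) • m) =
      (aeval z (homogeneousComponent a p) : Po κ n) • M.cmp b m := by
    rw [h10, map_sum, Finset.sum_eq_single_of_mem a (by simp)]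
    · rw [map_sum, Finset.sum_eq_single_of_mem b hbm.1]
      · rw [hφ, h2 _ _ (h11 a b)]
      · intro j _ hj
        rw [hφ, h3 _ _ _ (h11 a j)]
        intro h
        apply hj
        omega
    · intro i hi hia
      rw [map_sum]
      refine Finset.sum_eq_zero fun j _ => ?_
      by_cases hj0 : M.cmp j m = 0
      · rw [hj0, smul_zero, map_zero]
      · rw [hφ, h3 _ _ _ (h11 i j)]
        intro h
        have := hbmax j hj0
        rw [Finset.mem_range] at hi
        omega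
  rw [← h12, hm, map_zero]

theorem map_comp (k : ℕ) (Q : Po Z.V 3) : MvPolynomial.map Z.σ (homogeneousComponent k Q) =
    homogeneousComponent k (MvPolynomial.map Z.σ Q) := by
  classical
  ext d
  rw [coeff_map, coeff_homogeneousComponent, coeff_homogeneousComponent, coeff_map]
  split_ifs with h
  · rfl
  · rw [map_zero]

theorem lift_hom {k : ℕ} {p : Po Z.κ 3} (hp : p.IsHomogeneous k) :
    ∃ P : Po Z.V 3, P.IsHomogeneous k ∧ MvPolynomial.map Z.σ P = p := by
  obtain ⟨Q, rfl⟩ := MvPolynomial.map_surjective Z.σ Z.surjσ p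
  refine ⟨homogeneousComponent k Q, homogeneousComponent_isHomogeneous k Q, ?_⟩
  rw [map_comp]
  ext d
  rw [coeff_homogeneousComponent]
  split_ifs with h
  · rfl
  · exact (hp.coeff_eq_zero (by rwa [Finsupp.degree] at h ⊢)).symm

theorem tf_hom {k : ℕ} {P : Po Z.V 3} (hk : P.IsHomogeneous k) (hP : MvPolynomial.map Z.σ P ≠ 0)
    {y : Z.B} (hy : y ∈ mM Y) (h : aeval Y.zb P * y ∈ mM1 Y) : y ∈ mM1 Y := by
  obtain ⟨m', hm', b, hb⟩ := h
  obtain ⟨y', rfl⟩ := inv_smul y
  obtain ⟨b', rfl⟩ := inv_smul b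
  have h1 : aeval Y.zb P * y' = m' + Y.F * b' := by
    apply smul_inj
    rw [smul_add, ← mul_smul_comm, ← mul_smul_comm]
    exact hb
  have hq' : y' ∈ Z.q := by
    have h0 : (algebraMap Z.V Z.K Z.ϖ) ≠ 0 := by
      rw [Ne, FaithfulSMul.algebraMap_eq_zero_iff]
      exact Z.irr.ne_zero
    have h2 : y' = (algebraMap Z.V Z.K Z.ϖ)⁻¹ • (Z.ϖ • y') := by
      rw [← IsScalarTower.algebraMap_smul Z.K Z.ϖ, smul_smul, inv_mul_cancel₀ h0, one_smul]
    rw [h2, Algebra.smul_def]
    exact Z.q.mul_mem_left _ hy.1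
  obtain ⟨-, l, P', hl, hP', s, hs, c, hc⟩ := hm'
  refine ⟨y', ⟨hq', l + k, P' * P, hl.mul hk, ?_, s, hs, c + aeval Y.zb P' * b', ?_⟩, 0, ?_⟩
  · rw [map_mul]
    exact mul_ne_zero hP' hP
  · rw [map_mul, mul_assoc, h1, mul_add, hc]
    ring
  · rw [mul_zero, add_zero]

end MSQ_

open MSQ_ in
theorem msq_proof (hCFI : Stmt_CFI) (hCTF : Stmt_CTF) (_hCFS : Stmt_CFS) (hCST : Stmt_CST)
    (hQMF : Stmt_QMF) : Stmt_MSQ := by
  classical
  intro Z Y Q p hQM
  obtain ⟨hfin, hkil, -, -⟩ := hQMF Z (mM Y) (mM1 Y) Q p hQM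
  obtain ⟨-, -, -, -, -, -, -, -, -, hle, -, -⟩ := hCST Z Y
  refine ⟨?_, ?_, ?_⟩
  · apply hfin
    obtain ⟨T, hT, hT'⟩ := gens hCFI hCTF Y
    refine ⟨T, hT, fun y hy => ?_⟩
    obtain ⟨P, b, hb⟩ := hT' y hy
    refine ⟨fun t => aeval Y.z (P t), 0, (mM Y).zero_mem, b, ?_⟩
    rw [smul_zero, zero_add, sub_eq_iff_eq_add', hb]
    congr 1
    refine Finset.sum_congr rfl fun t _ => ?_
    rw [aeval_zb]
  · apply top Y.z_par.1
    intro k r hr hr0 u hu
    obtain ⟨P, hP, rfl⟩ := lift_hom hr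
    obtain ⟨y, rfl⟩ := hQM.surj u
    have h1 : aeval Z.x (aeval Y.z P : Po Z.V Z.n) * (y : Z.B) ∈ mM Y :=
      mM_smul _ (aeval_mem _) _ y.2
    have h2 := hQM.smul (aeval Y.z P) y ⟨_, h1⟩ rfl
    rw [map_zb] at h2
    have h3 : p ⟨_, h1⟩ = 0 := by
      rw [h2]
      exact hu
    rw [hQM.ker] at h3
    rw [hQM.ker]
    refine tf_hom hP hr0 y.2 ?_
    rw [aeval_zb]
    exact h3
  · have hIX : ∀ f ∈ Z.D.IX, ∀ u : Q.M, f • u = 0 := by
      intro f hf
      obtain ⟨G, rfl⟩ := MvPolynomial.map_surjective Z.σ Z.surjσ f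
      apply hkil
      intro y hy
      obtain ⟨s, hs, h⟩ := Z.red0 G hf
      refine ⟨s * y, mM_smul s hs y hy, 0, ?_⟩
      rw [h, mul_zero, add_zero, smul_mul_assoc]
    have hX : ∀ u : Q.M, ((X Z.D.c₀ : Po Z.κ Z.n) ^ Y.c) • u = 0 := by
      rw [← Y.G_red]
      apply hkil
      intro y hy
      refine ⟨0, (mM Y).zero_mem, y, ?_⟩
      rw [smul_zero, zero_add]
      rfl
    let I : Ideal (Po Z.κ Z.n) :=
      { carrier := {f | ∀ u : Q.M, f • u = 0}
        add_mem' := fun h h' u => by rw [add_smul, h u, h' u, add_zero]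
        zero_mem' := fun u => zero_smul _ u
        smul_mem' := fun c f h u => by
          rw [smul_eq_mul, mul_smul, h u, smul_zero] }
    have hI : aF Z.D Y.c ≤ I := by
      apply sup_le
      · intro f hf
        exact hIX f hf
      · rw [Ideal.span_le, Set.singleton_subset_iff]
        exact hX
    exact fun f hf u => hI hf u

end

end Pool.Agent.RST
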