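import Pool.Agent.RST.Stmts

/-!
# Finiteness and annihilators of the quotients
-/

set_option autoImplicit false

open MvPolynomial Pool.Agent.GML

namespace Pool.Agent.RST

namespace QMF_

variable {Z : Ctx} {M₀ M₁ : Submodule Z.V Z.B} {Q : GMod Z.κ Z.n} {p : M₀ →+ Q.M}

theorem fin (hst : ∀ (G : Po Z.V Z.n), ∀ y ∈ M₀, aeval Z.x G * y ∈ M₀) (h : QM M₀ M₁ Q p)
    (hT : ∃ T : Finset Z.B, (∀ t ∈ T, t ∈ M₀) ∧ ∀ y ∈ M₀, ∃ G : Z.B → Po Z.V Z.n,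
      y - ∑ t ∈ T, aeval Z.x (G t) * t ∈ M₁) : Module.Finite (Po Z.κ Z.n) Q.M := by
  classical
  obtain ⟨T, hT, hG⟩ := hT
  refine ⟨⟨Finset.univ.image fun t : T => p ⟨t.1, hT t.1 t.2⟩, ?_⟩⟩
  rw [eq_top_iff]
  rintro u -
  obtain ⟨y, rfl⟩ := h.surj u
  obtain ⟨G, hG⟩ := hG y.1 y.2
  have hsum : ∑ t ∈ T, aeval Z.x (G t) * t = ∑ t : T, aeval Z.x (G t.1) * t.1 :=
    (Finset.sum_coe_sort T fun t => aeval Z.x (G t) * t).symm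
  have hm : ∀ t : T, aeval Z.x (G t.1) * t.1 ∈ M₀ := fun t => hst _ _ (hT t.1 t.2)
  have h1 : p (y - ∑ t : T, ⟨aeval Z.x (G t.1) * t.1, hm t⟩) = 0 := by
    rw [h.ker]
    have h2 : ((y - ∑ t : T, (⟨aeval Z.x (G t.1) * t.1, hm t⟩ : M₀) : M₀) : Z.B) =
        (y : Z.B) - ∑ t ∈ T, aeval Z.x (G t) * t := by
      rw [hsum, AddSubgroupClass.coe_sub, AddSubmonoidClass.coe_finsetSum]
    rw [h2]
    exact hG
  rw [map_sub, sub_eq_zero, map_sum] at h1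
  rw [h1]
  refine Submodule.sum_mem _ fun t _ => ?_
  rw [h.smul (G t.1) ⟨t.1, hT t.1 t.2⟩ ⟨aeval Z.x (G t.1) * t.1, hm t⟩ rfl]
  refine Submodule.smul_mem _ _ (Submodule.subset_span ?_)
  rw [Finset.coe_image]
  exact ⟨t, Finset.mem_coe.mpr (Finset.mem_univ t), rfl⟩

theorem ann (hst : ∀ (G : Po Z.V Z.n), ∀ y ∈ M₀, aeval Z.x G * y ∈ M₀) (h : QM M₀ M₁ Q p)
    (G : Po Z.V Z.n) (hG : ∀ y ∈ M₀, aeval Z.x G * y ∈ M₁) (u : Q.M) :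
    MvPolynomial.map Z.σ G • u = 0 := by
  obtain ⟨y, rfl⟩ := h.surj u
  rw [← h.smul G y ⟨aeval Z.x G * y, hst G y.1 y.2⟩ rfl, h.ker]
  exact hG y.1 y.2

theorem lin (h : QM M₀ M₁ Q p) (v : Z.V) (y y' : M₀) (hy : (y' : Z.B) = v • (y : Z.B)) :
    p y' = Z.σ v • p y := by
  have h1 := h.smul (C v) y y' (by rw [hy, aeval_C, Algebra.smul_def])
  rw [h1, map_C, ← algebraMap_eq, algebraMap_smul]

end QMF_

theorem qmf_proof : Stmt_QMF := by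
  intro Z M₀ M₁ Q p h
  refine ⟨QMF_.fin h.stab h, QMF_.ann h.stab h, QMF_.lin h, fun m hm => ?_⟩
  rw [eq_bot_iff]
  intro u hu
  rcases h.gr m u hu with h1 | ⟨m', h1, -⟩
  · exact (Submodule.mem_bot _).mpr h1
  · omega

end Pool.Agent.RST
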