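import Pool.Agent.RST.Stmts

/-!
# RST, QQQ: the graded module `S / (q ∩ S + ϖ S)`
-/

set_option autoImplicit false

namespace Pool.Agent.RST

open MvPolynomial Pool.Agent.GML

noncomputable section

namespace QQQ_

section

variable (Z : Ctx)

theorem aev_mem (G : Po Z.V Z.n) : aeval Z.x G ∈ Z.S := by
  have h1 := (Algebra.adjoin_le (S := Z.S) (by rintro _ ⟨c, rfl⟩; exact Z.x_mem c) :
    Algebra.adjoin Z.V (Set.range Z.x) ≤ Z.S)
  apply h1
  rw [Algebra.adjoin_range_eq_range_aeval]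
  exact ⟨G, rfl⟩

theorem mapσ_surj : Function.Surjective (MvPolynomial.map (σ := Fin Z.n) Z.σ) :=
  MvPolynomial.map_surjective _ Z.surjσ

theorem proj_self {b : Z.B} {m : ℕ} (hb : b ∈ Z.ℬ m) : GradedRing.proj Z.ℬ m b = b := by
  rw [GradedRing.proj_apply]
  exact DirectSum.decompose_of_mem_same _ hb

theorem proj_mem (b : Z.B) (m : ℕ) : GradedRing.proj Z.ℬ m b ∈ Z.ℬ m := by
  rw [GradedRing.proj_apply]
  exact SetLike.coe_mem _

theorem proj_mul {a b : Z.B} {i m : ℕ} (ha : a ∈ Z.ℬ i) (h : i ≤ m) :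
    GradedRing.proj Z.ℬ m (a * b) = a * GradedRing.proj Z.ℬ (m - i) b := by
  rw [GradedRing.proj_apply, GradedRing.proj_apply]
  exact DirectSum.coe_decompose_mul_of_left_mem_of_le _ ha h

theorem proj_mul_lt {a b : Z.B} {i m : ℕ} (ha : a ∈ Z.ℬ i) (h : ¬ i ≤ m) :
    GradedRing.proj Z.ℬ m (a * b) = 0 := by
  rw [GradedRing.proj_apply]
  exact DirectSum.coe_decompose_mul_of_left_mem_of_not_le _ ha h

theorem proj_smulK (v : Z.K) (b : Z.B) (m : ℕ) :
    GradedRing.proj Z.ℬ m (v • b) = v • GradedRing.proj Z.ℬ m b := by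
  rw [GradedRing.proj_apply, GradedRing.proj_apply, DirectSum.decompose_smul]
  rfl

theorem smul_eqK (v : Z.V) (b : Z.B) : v • b = (algebraMap Z.V Z.K v) • b :=
  (algebraMap_smul Z.K v b).symm

theorem proj_smul (v : Z.V) (b : Z.B) (m : ℕ) :
    GradedRing.proj Z.ℬ m (v • b) = v • GradedRing.proj Z.ℬ m b := by
  rw [smul_eqK, smul_eqK, proj_smulK]

theorem smul_memV {v : Z.V} {b : Z.B} {m : ℕ} (hb : b ∈ Z.ℬ m) : v • b ∈ Z.ℬ m := by
  rw [smul_eqK]
  exact Submodule.smul_mem _ _ hb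

/-- monomials in the coordinates -/
def xm (α : Fin Z.n →₀ ℕ) : Z.B := α.prod fun c k => Z.x c ^ k

theorem xm_mem (α : Fin Z.n →₀ ℕ) : xm Z α ∈ Z.ℬ α.degree := by
  have h := SetLike.prod_mem_graded Z.ℬ (fun c => α c • 1) (fun c => Z.x c ^ α c)
    (F := α.support) (fun c _ => SetLike.pow_mem_graded (α c) (Z.x_deg c))
  simp only [smul_eq_mul, mul_one] at h
  exact h

theorem aeval_mono (α : Fin Z.n →₀ ℕ) (v : Z.V) : aeval Z.x (monomial α v) = v • xm Z α := by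
  rw [aeval_monomial, Algebra.smul_def]
  rfl

theorem xm_S (α : Fin Z.n →₀ ℕ) : xm Z α ∈ Z.S := by
  have h := aev_mem Z (monomial α 1)
  rwa [aeval_mono, one_smul] at h

theorem fgS (m : ℕ) : ∃ U : Finset Z.B, (∀ u ∈ U, u ∈ Z.S ∧ u ∈ Z.ℬ m) ∧
    ∀ s ∈ Z.S, GradedRing.proj Z.ℬ m s ∈ Submodule.span Z.V (U : Set Z.B) := by
  classical
  obtain ⟨T, hT1, hT2⟩ := Z.S_fin
  have hfin : {α : Fin Z.n →₀ ℕ | α.degree ≤ m}.Finite := Finsupp.finite_of_degree_le m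
  let U : Finset Z.B := (hfin.toFinset ×ˢ T).image fun p =>
    xm Z p.1 * GradedRing.proj Z.ℬ (m - p.1.degree) p.2
  refine ⟨U, ?_, ?_⟩
  · intro u hu
    obtain ⟨⟨α, t⟩, hp, rfl⟩ := Finset.mem_image.1 hu
    rw [Finset.mem_product, Set.Finite.mem_toFinset] at hp
    have hα : α.degree ≤ m := hp.1
    refine ⟨Z.S.mul_mem (xm_S Z α) (Z.S_hom _ (hT1 t hp.2) _), ?_⟩
    have h := SetLike.mul_mem_graded (xm_mem Z α) (proj_mem Z t (m - α.degree))
    rwa [Nat.add_sub_cancel' hα] at h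
  · intro s hs
    obtain ⟨G, hG⟩ := hT2 s hs
    rw [hG, map_sum]
    refine Submodule.sum_mem _ fun t ht => ?_
    induction G t using MvPolynomial.induction_on' with
    | monomial α v =>
      rw [aeval_mono, smul_mul_assoc, proj_smul]
      refine Submodule.smul_mem _ _ ?_
      by_cases hα : α.degree ≤ m
      · rw [proj_mul Z (xm_mem Z α) hα]
        refine Submodule.subset_span (Finset.mem_coe.2 (Finset.mem_image.2 ⟨(α, t), ?_, rfl⟩))
        rw [Finset.mem_product, Set.Finite.mem_toFinset]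
        exact ⟨hα, ht⟩
      · rw [proj_mul_lt Z (xm_mem Z α) hα]
        exact Submodule.zero_mem _
    | add p q hp hq =>
      rw [map_add, add_mul, map_add]
      exact Submodule.add_mem _ hp hq

/-- the homogeneous elements of degree `m` of `S` -/
def Sm (m : ℕ) : Submodule Z.V Z.B where
  carrier := {y | y ∈ Z.S ∧ y ∈ Z.ℬ m}
  add_mem' := fun h1 h2 => ⟨Z.S.add_mem h1.1 h2.1, Submodule.add_mem _ h1.2 h2.2⟩
  zero_mem' := ⟨Z.S.zero_mem, Submodule.zero_mem _⟩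
  smul_mem' := fun v _ h => ⟨Z.S.smul_mem h.1 v, smul_memV Z h.2⟩

theorem Sm_fg (m : ℕ) : (Sm Z m).FG := by
  obtain ⟨U, hU1, hU2⟩ := fgS Z m
  refine ⟨U, le_antisymm ?_ ?_⟩
  · rw [Submodule.span_le]
    exact fun u hu => hU1 u hu
  · rintro y ⟨h1, h2⟩
    have := hU2 y h1
    rwa [proj_self Z h2] at this

/-- the image of `Sm` in `B / q` -/
def Lam (m : ℕ) : Submodule Z.V (Z.B ⧸ Z.q) :=
  (Sm Z m).map (Ideal.Quotient.mkₐ Z.V Z.q).toLinearMap

theorem mem_Lam {m : ℕ} {w : Z.B ⧸ Z.q} : w ∈ Lam Z m ↔ ∃ y, y ∈ Z.S ∧ y ∈ Z.ℬ m ∧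
    Ideal.Quotient.mk Z.q y = w := by
  constructor
  · rintro ⟨y, ⟨h1, h2⟩, rfl⟩
    exact ⟨y, h1, h2, rfl⟩
  · rintro ⟨y, h1, h2, rfl⟩
    exact ⟨y, ⟨h1, h2⟩, rfl⟩

/-- the homogeneous elements of `B / q` -/
abbrev Wm (m : ℕ) : Submodule Z.K (Z.B ⧸ Z.q) :=
  (Z.ℬ m).map (Ideal.Quotient.mkₐ Z.K Z.q).toLinearMap

theorem mk_smul (v : Z.V) (b : Z.B) :
    Ideal.Quotient.mk Z.q (v • b) = v • Ideal.Quotient.mk Z.q b := rfl

theorem q_smul_mem {v : Z.V} (hv : v ≠ 0) {b : Z.B} (h : v • b ∈ Z.q) : b ∈ Z.q := by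
  have hv' : algebraMap Z.V Z.K v ≠ 0 := by
    intro h0
    exact hv ((IsFractionRing.injective Z.V Z.K) (by rw [h0, map_zero]))
  have h1 : (algebraMap Z.V Z.K v)⁻¹ • (v • b) = b := by
    rw [smul_eqK, smul_smul, inv_mul_cancel₀ hv', one_smul]
  rw [← h1, Algebra.smul_def]
  exact Z.q.mul_mem_left _ h

instance : Module.IsTorsionFree Z.V (Z.B ⧸ Z.q) := by
  refine Module.IsTorsionFree.of_smul_eq_zero ?_
  intro v w hw
  by_cases hv : v = 0
  · exact Or.inl hv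
  · right
    obtain ⟨b, rfl⟩ := Ideal.Quotient.mk_surjective w
    rw [← mk_smul, Ideal.Quotient.eq_zero_iff_mem] at hw
    exact Ideal.Quotient.eq_zero_iff_mem.2 (q_smul_mem Z hv hw)

instance (m : ℕ) : Module.Finite Z.V (Lam Z m) :=
  Module.Finite.iff_fg.2 (Submodule.FG.map _ (Sm_fg Z m))

theorem ϖ_ne : Z.ϖ ≠ 0 := Z.irr.ne_zero

/-- the dimension of the homogeneous elements of `B / q` -/
theorem finrank_W {ι : Type} [Fintype ι] (m : ℕ) (b : Module.Basis ι Z.V (Lam Z m)) :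
    Module.finrank Z.K (Wm Z m) = Fintype.card ι := by
  have hli : LinearIndependent Z.K fun i => ((b i : Lam Z m) : Z.B ⧸ Z.q) := by
    rw [← LinearIndependent.iff_fractionRing (R := Z.V)]
    exact b.linearIndependent.map' (Lam Z m).subtype (Submodule.ker_subtype _)
  have hsp : Submodule.span Z.K (Set.range fun i => ((b i : Lam Z m) : Z.B ⧸ Z.q)) = Wm Z m := by
    apply le_antisymm
    · rw [Submodule.span_le]
      rintro _ ⟨i, rfl⟩
      obtain ⟨y, h1, h2, h3⟩ := (mem_Lam Z).1 (b i).2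
      exact ⟨y, h2, h3⟩
    · rintro _ ⟨y, hy, rfl⟩
      obtain ⟨k, hk⟩ := Z.S_lat y
      have h1 : Ideal.Quotient.mk Z.q (Z.ϖ ^ k • y) ∈ Lam Z m :=
        (mem_Lam Z).2 ⟨_, hk, smul_memV Z hy, rfl⟩
      have h2 : Ideal.Quotient.mk Z.q (Z.ϖ ^ k • y) ∈
          Submodule.span Z.K (Set.range fun i => ((b i : Lam Z m) : Z.B ⧸ Z.q)) := by
        have h3 := b.sum_repr ⟨_, h1⟩
        change ((⟨_, h1⟩ : Lam Z m) : Z.B ⧸ Z.q) ∈ _
        rw [← h3, Submodule.coe_sum]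
        refine Submodule.sum_mem _ fun i _ => ?_
        rw [Submodule.coe_smul, ← algebraMap_smul Z.K]
        exact Submodule.smul_mem _ _ (Submodule.subset_span ⟨i, rfl⟩)
      have hv' : algebraMap Z.V Z.K (Z.ϖ ^ k) ≠ 0 := by
        intro h0
        exact pow_ne_zero k (ϖ_ne Z) ((IsFractionRing.injective Z.V Z.K) (by rw [h0, map_zero]))
      have h5 : (algebraMap Z.V Z.K (Z.ϖ ^ k))⁻¹ • Ideal.Quotient.mk Z.q (Z.ϖ ^ k • y) =
          Ideal.Quotient.mk Z.q y := by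
        rw [mk_smul, ← algebraMap_smul Z.K (Z.ϖ ^ k) (Ideal.Quotient.mk Z.q y), smul_smul,
          inv_mul_cancel₀ hv', one_smul]
      have h6 := Submodule.smul_mem _ (algebraMap Z.V Z.K (Z.ϖ ^ k))⁻¹ h2
      rw [h5] at h6
      exact h6
  rw [← hsp]
  exact finrank_span_eq_card hli

/-- the dimension of the homogeneous elements of `S / (q ∩ S + ϖ S)` -/
theorem finrank_Q {ι : Type} [Fintype ι] (m : ℕ) (b : Module.Basis ι Z.V (Lam Z m))
    (Q : GMod Z.κ Z.n) (p : mS Z →+ Q.M) (hp : QM (mS Z) (mQ Z) Q p)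
    (hσ : ∀ (v : Z.V) (y : mS Z), p (v • y) = Z.σ v • p y) :
    Module.finrank Z.κ (Q.gr m) = Fintype.card ι := by
  have ht : ∀ i, ∃ t : mS Z, (t : Z.B) ∈ Z.ℬ m ∧
      Ideal.Quotient.mk Z.q (t : Z.B) = ((b i : Lam Z m) : Z.B ⧸ Z.q) := by
    intro i
    obtain ⟨y, h1, h2, h3⟩ := (mem_Lam Z).1 (b i).2
    exact ⟨⟨y, h1⟩, h2, h3⟩
  choose t ht1 ht2 using ht
  have hsum : ∀ v : ι → Z.V, p (∑ i, v i • t i) = ∑ i, Z.σ (v i) • p (t i) := by
    intro v
    rw [map_sum]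
    exact Finset.sum_congr rfl fun i _ => hσ _ _
  have hmk : ∀ v : ι → Z.V, Ideal.Quotient.mk Z.q ((∑ i, v i • t i : mS Z) : Z.B) =
      ((∑ i, v i • b i : Lam Z m) : Z.B ⧸ Z.q) := by
    intro v
    rw [Submodule.coe_sum, Submodule.coe_sum, map_sum]
    refine Finset.sum_congr rfl fun i _ => ?_
    rw [Submodule.coe_smul, Submodule.coe_smul, mk_smul, ht2]
  have hdeg : ∀ v : ι → Z.V, ((∑ i, v i • t i : mS Z) : Z.B) ∈ Z.ℬ m := by
    intro v
    rw [Submodule.coe_sum]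
    refine Submodule.sum_mem _ fun i _ => ?_
    rw [Submodule.coe_smul]
    exact smul_memV Z (ht1 i)
  have hli : LinearIndependent Z.κ fun i => p (t i) := by
    rw [Fintype.linearIndependent_iff]
    intro g hg
    choose v hv using fun i => Z.surjσ (g i)
    have h1 : p (∑ i, v i • t i) = 0 := by
      rw [hsum, ← hg]
      exact Finset.sum_congr rfl fun i _ => by rw [hv]
    obtain ⟨s, hs, hsq, s', hs', he⟩ := (hp.ker _).1 h1
    have h2 := congrArg (GradedRing.proj Z.ℬ m) he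
    rw [proj_self Z (hdeg v), map_add, proj_smul] at h2
    have h3 : GradedRing.proj Z.ℬ m s ∈ Z.q := Z.q_hom m hsq
    have h4 := congrArg (Ideal.Quotient.mk Z.q) h2
    rw [hmk, map_add, Ideal.Quotient.eq_zero_iff_mem.2 h3, zero_add, mk_smul] at h4
    have h5 : Ideal.Quotient.mk Z.q (GradedRing.proj Z.ℬ m s') ∈ Lam Z m :=
      (mem_Lam Z).2 ⟨_, Z.S_hom _ hs' m, proj_mem Z _ _, rfl⟩
    have h6 : (∑ i, v i • b i : Lam Z m) = Z.ϖ • (⟨_, h5⟩ : Lam Z m) := Subtype.ext h4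
    intro i
    have h7 : v i = Z.ϖ * b.repr (⟨_, h5⟩ : Lam Z m) i := by
      have h71 := congrArg (fun w => b.repr w i) h6
      have h72 : b.repr (∑ i, v i • b i) i = v i := congrFun (b.repr_sum_self v) i
      have h73 : b.repr (Z.ϖ • (⟨_, h5⟩ : Lam Z m)) i = Z.ϖ * b.repr (⟨_, h5⟩ : Lam Z m) i := by
        rw [map_smul]
        rfl
      rw [← h72, ← h73]
      exact h71
    rw [← hv i, h7, map_mul]
    have h8 : Z.σ Z.ϖ = 0 := by
      rw [← RingHom.mem_ker, Z.kerσ]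
      exact Ideal.mem_span_singleton_self _
    rw [h8, zero_mul]
  have hsp : Submodule.span Z.κ (Set.range fun i => p (t i)) = Q.gr m := by
    apply le_antisymm
    · rw [Submodule.span_le]
      rintro _ ⟨i, rfl⟩
      exact hp.deg m (t i) (ht1 i)
    · intro u hu
      have h0 : ∃ y : mS Z, (y : Z.B) ∈ Z.ℬ m ∧ p y = u := by
        rcases hp.gr _ u hu with h | ⟨m', hm', y, h1, h2⟩
        · exact ⟨0, Submodule.zero_mem _, by rw [h, map_zero]⟩
        · have : m = m' := by exact_mod_cast hm'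
          subst this
          exact ⟨y, h1, h2⟩
      obtain ⟨y, hy, rfl⟩ := h0
      have h1 : Ideal.Quotient.mk Z.q (y : Z.B) ∈ Lam Z m := (mem_Lam Z).2 ⟨_, y.2, hy, rfl⟩
      have h3 := b.sum_repr ⟨_, h1⟩
      set v := fun i => b.repr ⟨_, h1⟩ i with hv
      have h4 : Ideal.Quotient.mk Z.q ((∑ i, v i • t i : mS Z) : Z.B) =
          Ideal.Quotient.mk Z.q (y : Z.B) := by
        rw [hmk]
        exact congrArg Subtype.val h3
      rw [Ideal.Quotient.eq] at h4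
      have h5 : p (∑ i, v i • t i - y) = 0 := by
        rw [hp.ker]
        refine ⟨_, (∑ i, v i • t i - y : mS Z).2, ?_, 0, Z.S.zero_mem, ?_⟩
        · exact h4
        · rw [smul_zero, add_zero]
      rw [map_sub, sub_eq_zero, hsum] at h5
      rw [← h5]
      exact Submodule.sum_mem _ fun i _ => Submodule.smul_mem _ _ (Submodule.subset_span ⟨i, rfl⟩)
  rw [← hsp]
  exact finrank_span_eq_card hli

/-- the annihilator -/
def ann (Q : GMod Z.κ Z.n) : Ideal (Po Z.κ Z.n) where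
  carrier := {f | ∀ u : Q.M, f • u = 0}
  zero_mem' := fun u => zero_smul _ u
  add_mem' := fun h1 h2 u => by rw [add_smul, h1 u, h2 u, add_zero]
  smul_mem' := fun c f h u => by rw [smul_eq_mul, mul_smul, h u, smul_zero]

end

end QQQ_

open QQQ_ in
theorem qqq_proof (hCFS : Stmt_CFS) (hQMF : Stmt_QMF) : Stmt_QQQ := by
  intro Z Y Q p hp
  obtain ⟨hf, hk, hσ, -⟩ := hQMF Z (mS Z) (mQ Z) Q p hp
  obtain ⟨hF0, hFq, hFS, hFc, -, -, -⟩ := hCFS.2 Z Y
  have hqS : ∀ y ∈ mS Z, y ∈ Z.q → y ∈ mQ Z := fun y hy hq =>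
    ⟨y, hy, hq, 0, Z.S.zero_mem, by rw [smul_zero, add_zero]⟩
  have hϖS : ∀ y ∈ mS Z, Z.ϖ • y ∈ mQ Z := fun y hy =>
    ⟨0, Z.S.zero_mem, Z.q.zero_mem, y, hy, by rw [zero_add]⟩
  have hfin : Module.Finite (Po Z.κ Z.n) Q.M := by
    apply hf
    obtain ⟨T, hT1, hT2⟩ := Z.S_fin
    refine ⟨T, hT1, fun y hy => ?_⟩
    obtain ⟨G, hG⟩ := hT2 y hy
    refine ⟨G, ?_⟩
    rw [← hG, sub_self]
    exact Submodule.zero_mem _
  have hann : ∀ G : Po Z.V Z.n, (∀ y ∈ mS Z, aeval Z.x G * y ∈ mQ Z) →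
      MvPolynomial.map Z.σ G ∈ ann Z Q := fun G hG => hk G hG
  have hIX : Z.D.IX ≤ ann Z Q := by
    intro f hf
    obtain ⟨G, rfl⟩ := mapσ_surj Z f
    apply hann
    intro y hy
    obtain ⟨s, hs, he⟩ := Z.red0 G hf
    rw [he, smul_mul_assoc]
    exact hϖS _ (Z.S.mul_mem hs hy)
  have hc0 : (X Z.D.c₀ : Po Z.κ Z.n) ^ Y.c ∈ ann Z Q := by
    rw [← Y.G_red]
    apply hann
    intro y hy
    exact hqS _ (Z.S.mul_mem hFS hy) (Z.q.mul_mem_right _ hFq)
  have haF : aF Z.D Y.c ≤ ann Z Q := by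
    refine sup_le hIX ?_
    rw [Ideal.span_singleton_le_iff_mem]
    exact hc0
  have hVI : VI Z.κ Z.D.W ≤ (ann Z Q).radical := by
    unfold VI
    rw [Ideal.span_le]
    rintro _ ⟨c, hc, rfl⟩
    obtain ⟨m, G, hm, hG, hG1, hG2⟩ := Z.q_exact c hc
    refine ⟨m, ?_⟩
    rw [← hG1]
    apply hann
    intro y hy
    exact hqS _ (Z.S.mul_mem (aev_mem Z G) hy) (Z.q.mul_mem_right _ hG2)
  refine ⟨hfin, haF, ?_, ?_⟩
  · obtain ⟨k, hk⟩ := Ideal.exists_pow_le_of_le_radical_of_fg hVI (IsNoetherian.noetherian _)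
    exact ⟨k, hk⟩
  · intro m
    have hb := Module.Free.chooseBasis Z.V (Lam Z m)
    rw [finrank_Q Z m hb Q p hp (fun v y => hσ v y (v • y) rfl), finrank_W Z m hb]

end

end Pool.Agent.RST
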