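import Pool.Agent.RST.Stmts

/-!
# RST, module RSC: restriction of graded modules along linear forms
-/

set_option autoImplicit false

namespace Pool.Agent.RST

open MvPolynomial Pool.Agent.GML

noncomputable section

namespace RSC_

theorem lin_mem {κ : Type} [Field κ] {r : ℕ} (M : GMod κ r) (p : Po κ r)
    (hp : p.IsHomogeneous 1) (n : ℤ) (x : M.M) (hx : x ∈ M.gr n) : p • x ∈ M.gr (n + 1) := by
  rw [p.as_sum, Finset.sum_smul]
  refine Submodule.sum_mem _ fun d hd => ?_
  have h1 : d.degree = 1 := by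
    have h2 := hp (mem_support_iff.1 hd)
    rw [Finsupp.degree_eq_weight_one]
    exact h2
  obtain ⟨c, rfl⟩ : ∃ c, d = Finsupp.single c 1 := by
    have h2 : d ∈ Set.range (fun a : Fin r => Finsupp.single a 1) := by
      rw [Finsupp.range_single_one]; exact h1
    obtain ⟨c, hc⟩ := h2
    exact ⟨c, hc.symm⟩
  have h3 : (monomial (Finsupp.single c 1) (coeff (Finsupp.single c 1) p) : Po κ r) • x =
      coeff (Finsupp.single c 1) p • ((X c : Po κ r) • x) := by
    rw [← smul_assoc]
    congr 1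
    rw [X, smul_monomial, smul_eq_mul, mul_one]
  rw [h3]
  exact Submodule.smul_mem _ _ (M.mul_mem c n x hx)

/-- the restricted module -/
def res {κ : Type} [Field κ] {r : ℕ} (w : Fin 3 → Po κ r) (hw : ∀ i, (w i).IsHomogeneous 1)
    (M : GMod κ r) : GMod κ 3 :=
  letI i1 : Module (MvPolynomial (Fin 3) κ) M.M :=
    Module.compHom M.M (aeval w : Po κ 3 →ₐ[κ] Po κ r).toRingHom
  { M := M.M
    acg := M.acg
    mdV := M.mdV
    mdA := i1
    tow := ⟨fun a p x => by
      change (aeval w : Po κ 3 →ₐ[κ] Po κ r) (a • p) • x = a • ((aeval w p : Po κ r) • x)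
      rw [map_smul, smul_assoc]⟩
    gr := M.gr
    int := M.int
    mul_mem := fun i n x hx => by
      change (aeval w (X i) : Po κ r) • x ∈ M.gr (n + 1)
      rw [aeval_X]
      exact lin_mem M (w i) (hw i) n x hx }

end RSC_

open RSC_ in
theorem rsc_proof : Stmt_RSC := by
  intro κ _ r w hw M
  refine ⟨res w hw M, AddEquiv.refl M.M, fun P m => rfl, fun a m => rfl, fun k m => Iff.rfl, rfl,
    fun hT => ?_⟩
  obtain ⟨T, hT⟩ := hT
  refine ⟨⟨T, ?_⟩⟩
  rw [eq_top_iff]
  rintro m -
  obtain ⟨P, hP⟩ := hT m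
  have h : (m : (res w hw M).M) = ∑ t ∈ T, (P t) • (show (res w hw M).M from t) := hP
  rw [h]
  exact Submodule.sum_mem _ fun t ht => Submodule.smul_mem _ _ (Submodule.subset_span ht)

end

end Pool.Agent.RST
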