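import Pool.Agent.RST.Stmts

/-!
# The rank over `κ[w]` is additive
-/

set_option autoImplicit false

open MvPolynomial Pool.Agent.GML

namespace Pool.Agent.RST

theorem rwa_proof : Stmt_RWA := by
  intro κ _ r w E' E E'' _ _ _ _ _ _ f g hf hfg hg
  let φ : Po κ 3 →+* Po κ r := (aeval w : Po κ 3 →ₐ[κ] Po κ r).toRingHom
  letI i1 : Module (Po κ 3) E' := Module.compHom E' φ
  letI i2 : Module (Po κ 3) E := Module.compHom E φ
  letI i3 : Module (Po κ 3) E'' := Module.compHom E'' φ
  let f' : E' →ₗ[Po κ 3] E :=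
    { toFun := f
      map_add' := fun a b => f.map_add a b
      map_smul' := fun p v => f.map_smul (φ p) v }
  let g' : E →ₗ[Po κ 3] E'' :=
    { toFun := g
      map_add' := fun a b => g.map_add a b
      map_smul' := fun p v => g.map_smul (φ p) v }
  have hf' : Function.Injective f' := hf
  have hg' : Function.Surjective g' := hg
  have hfg' : Function.Exact f' g' := hfg
  have h1 := LinearMap.rank_range_add_rank_ker g'
  have h2 : Module.rank (Po κ 3) (LinearMap.range g') = Module.rank (Po κ 3) E'' := by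
    rw [LinearMap.range_eq_top.mpr hg']
    exact rank_top _ _
  have h3 : Module.rank (Po κ 3) (LinearMap.ker g') = Module.rank (Po κ 3) E' := by
    rw [hfg'.linearMap_ker_eq]
    exact (LinearEquiv.ofInjective f' hf').rank_eq.symm
  rw [h2, h3] at h1
  have e0 : Fw w E ↔ Module.rank (Po κ 3) E < Cardinal.aleph0 := Iff.rfl
  have e1 : Fw w E' ↔ Module.rank (Po κ 3) E' < Cardinal.aleph0 := Iff.rfl
  have e2 : Fw w E'' ↔ Module.rank (Po κ 3) E'' < Cardinal.aleph0 := Iff.rfl
  have r0 : rkw w E = Cardinal.toNat (Module.rank (Po κ 3) E) := rfl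
  have r1 : rkw w E' = Cardinal.toNat (Module.rank (Po κ 3) E') := rfl
  have r2 : rkw w E'' = Cardinal.toNat (Module.rank (Po κ 3) E'') := rfl
  have key : Fw w E ↔ Fw w E' ∧ Fw w E'' := by
    rw [e0, e1, e2, ← h1, Cardinal.add_lt_aleph0_iff, and_comm]
  refine ⟨key, fun h => ?_⟩
  have h4 := key.mp h
  rw [e1, e2] at h4
  rw [r0, r1, r2, ← h1, Cardinal.toNat_add h4.2 h4.1, add_comm]

end Pool.Agent.RST
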