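import Pool.Agent.RST.Stmts

/-!
# RST, module RWL: rank of a module obtained by inverting a set of operators
-/

namespace Pool.Agent.RST

open MvPolynomial Pool.Agent.GML

noncomputable section

namespace RWL_

theorem abs {P A M E : Type} [CommRing P] [IsDomain P] [CommRing A] (φ : P →+* A)
    [AddCommGroup M] [Module A M] [AddCommGroup E] [Module A E] [Module P M] [Module P E]
    (hM : ∀ (p : P) (m : M), p • m = φ p • m) (hE : ∀ (p : P) (m : E), p • m = φ p • m)
    (Sg : Set A) (hmul : ∀ s ∈ Sg, ∀ t ∈ Sg, s * t ∈ Sg) (j : M →ₗ[A] E)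
    (h1 : ∀ s ∈ Sg, ∀ v : E, s • v = 0 → v = 0)
    (h2 : ∀ v : E, ∃ s ∈ Sg, s • v ∈ LinearMap.range j)
    (hfin : Module.rank P M < Cardinal.aleph0) :
    Module.rank P E < Cardinal.aleph0 ∧ Module.finrank P E ≤ Module.finrank P M ∧
      (Function.Injective j → Module.finrank P E = Module.finrank P M) := by
  classical
  have hn : Module.rank P M = (Module.finrank P M : Cardinal) :=
    (Cardinal.cast_toNat_of_lt_aleph0 hfin).symm
  have hcom : ∀ s : Finset E, s.Nonempty → ∃ t ∈ Sg, ∀ u ∈ s, t • u ∈ LinearMap.range j := by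
    intro s hs
    induction hs using Finset.Nonempty.cons_induction with
    | singleton a =>
      obtain ⟨t, ht, hta⟩ := h2 a
      exact ⟨t, ht, fun u hu => by rw [Finset.mem_singleton.1 hu]; exact hta⟩
    | cons a s ha hs ih =>
      obtain ⟨t, ht, hts⟩ := ih
      obtain ⟨t', ht', hta⟩ := h2 a
      refine ⟨t * t', hmul t ht t' ht', fun u hu => ?_⟩
      rcases Finset.mem_cons.1 hu with rfl | hu
      · rw [mul_smul]
        exact Submodule.smul_mem _ _ hta
      · rw [mul_comm, mul_smul]
        exact Submodule.smul_mem _ _ (hts u hu)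
  have hle : Module.rank P E ≤ (Module.finrank P M : Cardinal) := by
    refine rank_le fun s hs => ?_
    rcases s.eq_empty_or_nonempty with rfl | hne
    · exact Nat.zero_le _
    · obtain ⟨t, ht, hts⟩ := hcom s hne
      choose m hm using fun u : s => hts u.1 u.2
      have hli : LinearIndependent P m := by
        rw [Fintype.linearIndependent_iff]
        intro g hg
        rw [Fintype.linearIndependent_iff] at hs
        apply hs g
        apply h1 t ht
        have h3 := congrArg j hg
        rw [map_sum, map_zero] at h3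
        rw [Finset.smul_sum, ← h3]
        refine Finset.sum_congr rfl fun u _ => ?_
        rw [hM, map_smul, hm, hE, smul_smul, smul_smul, mul_comm]
      have h4 := hli.cardinal_le_rank
      rw [hn] at h4
      simpa using h4
  refine ⟨hle.trans_lt (Cardinal.natCast_lt_aleph0), ?_, fun hj => ?_⟩
  · exact Module.finrank_le_of_rank_le hle
  · refine le_antisymm (Module.finrank_le_of_rank_le hle) ?_
    have h5 : Module.rank P M ≤ Module.rank P E :=
      LinearMap.rank_le_of_injective
        ({ toFun := j
           map_add' := map_add j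
           map_smul' := fun p m => by
            rw [hM, map_smul, RingHom.id_apply, hE] } : M →ₗ[P] E) hj
    rw [hn] at h5
    have h6 : Module.rank P E = (Module.finrank P E : Cardinal) :=
      (Cardinal.cast_toNat_of_lt_aleph0 (hle.trans_lt (Cardinal.natCast_lt_aleph0))).symm
    rw [h6] at h5
    exact_mod_cast h5

end RWL_

theorem rwl_proof : Stmt_RWL := by
  intro κ _ r w Sg hmul M E _ _ _ _ j h1 h2 hfin
  letI : Module (Po κ 3) M := Module.compHom M (aeval w : Po κ 3 →ₐ[κ] Po κ r).toRingHom
  letI : Module (Po κ 3) E := Module.compHom E (aeval w : Po κ 3 →ₐ[κ] Po κ r).toRingHom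
  exact RWL_.abs (aeval w : Po κ 3 →ₐ[κ] Po κ r).toRingHom (fun _ _ => rfl) (fun _ _ => rfl) Sg
    hmul j h1 h2 hfin

end

end Pool.Agent.RST
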