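import Pool.Agent.RST.Stmts
import Pool.Agent.GML.SUB
import Pool.Agent.GML.QUO
import Pool.Agent.GML.DEG
import Pool.Agent.GML.CMP

/-!
# RST, SEQ: additivity
-/

set_option autoImplicit false

namespace Pool.Agent.RST

open MvPolynomial Pool.Agent.GML

noncomputable section

namespace SEQ_

section

variable (Z : Ctx)

theorem aev_mem (G : Po Z.V Z.n) : aeval Z.x G ∈ Z.S := by
  have h1 := (Algebra.adjoin_le (S := Z.S) (by rintro _ ⟨c, rfl⟩; exact Z.x_mem c) :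
    Algebra.adjoin Z.V (Set.range Z.x) ≤ Z.S)
  apply h1
  rw [Algebra.adjoin_range_eq_range_aeval]
  exact ⟨G, rfl⟩

theorem mapσ_surj : Function.Surjective (MvPolynomial.map (σ := Fin Z.n) Z.σ) :=
  MvPolynomial.map_surjective _ Z.surjσ

theorem proj_mul {a b : Z.B} {i m : ℕ} (ha : a ∈ Z.ℬ i) (h : i ≤ m) :
    GradedRing.proj Z.ℬ m (a * b) = a * GradedRing.proj Z.ℬ (m - i) b := by
  rw [GradedRing.proj_apply, GradedRing.proj_apply]
  exact DirectSum.coe_decompose_mul_of_left_mem_of_le _ ha h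

theorem proj_mul_lt {a b : Z.B} {i m : ℕ} (ha : a ∈ Z.ℬ i) (h : ¬ i ≤ m) :
    GradedRing.proj Z.ℬ m (a * b) = 0 := by
  rw [GradedRing.proj_apply]
  exact DirectSum.coe_decompose_mul_of_left_mem_of_not_le _ ha h

theorem smul_eqK (v : Z.V) (b : Z.B) : v • b = (algebraMap Z.V Z.K v) • b :=
  (algebraMap_smul Z.K v b).symm

theorem proj_smul (v : Z.V) (b : Z.B) (m : ℕ) :
    GradedRing.proj Z.ℬ m (v • b) = v • GradedRing.proj Z.ℬ m b := by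
  rw [smul_eqK, smul_eqK, GradedRing.proj_apply, GradedRing.proj_apply, DirectSum.decompose_smul]
  rfl

theorem q_smul_mem {v : Z.V} (hv : v ≠ 0) {b : Z.B} (h : v • b ∈ Z.q) : b ∈ Z.q := by
  have hv' : algebraMap Z.V Z.K v ≠ 0 := by
    intro h0
    exact hv ((IsFractionRing.injective Z.V Z.K) (by rw [h0, map_zero]))
  have h1 : (algebraMap Z.V Z.K v)⁻¹ • (v • b) = b := by
    rw [smul_eqK, smul_smul, inv_mul_cancel₀ hv', one_smul]
  rw [← h1, Algebra.smul_def]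
  exact Z.q.mul_mem_left _ h

theorem q_smul (v : Z.V) {b : Z.B} (h : b ∈ Z.q) : v • b ∈ Z.q := by
  rw [Algebra.smul_def]
  exact Z.q.mul_mem_left _ h

/-- `q ∩ S` -/
def Nq : Submodule Z.V Z.B where
  carrier := {y | y ∈ Z.S ∧ y ∈ Z.q}
  add_mem' := fun h1 h2 => ⟨Z.S.add_mem h1.1 h2.1, Z.q.add_mem h1.2 h2.2⟩
  zero_mem' := ⟨Z.S.zero_mem, Z.q.zero_mem⟩
  smul_mem' := fun v _ h => ⟨Z.S.smul_mem h.1 v, q_smul Z v h.2⟩

variable {Z} in
/-- `F S + ϖ (q ∩ S)` -/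
def Nq1 (Y : Cut Z) : Submodule Z.V Z.B where
  carrier := {y | ∃ s ∈ Z.S, ∃ s' ∈ Nq Z, y = Y.F * s + Z.ϖ • s'}
  add_mem' := by
    rintro _ _ ⟨s, hs, s', hs', rfl⟩ ⟨u, hu, u', hu', rfl⟩
    exact ⟨s + u, Z.S.add_mem hs hu, s' + u', Submodule.add_mem _ hs' hu', by
      rw [smul_add]; ring⟩
  zero_mem' := ⟨0, Z.S.zero_mem, 0, Submodule.zero_mem _, by simp⟩
  smul_mem' := by
    rintro v _ ⟨s, hs, s', hs', rfl⟩
    exact ⟨v • s, Z.S.smul_mem hs v, v • s', Submodule.smul_mem _ v hs', by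
      rw [smul_add, mul_smul_comm, smul_comm v]⟩

theorem St_Nq : St (Nq Z) where
  mul G _ hy := ⟨Z.S.mul_mem (aev_mem Z G) hy.1, Z.q.mul_mem_left _ hy.2⟩
  hom _ hy m := ⟨Z.S_hom _ hy.1 m, Z.q_hom m hy.2⟩

variable {Z} in
theorem St_Nq1 (Y : Cut Z) (hF : Y.F ∈ Z.ℬ Y.c) : St (Nq1 Y) where
  mul := by
    rintro G _ ⟨s, hs, s', hs', rfl⟩
    refine ⟨aeval Z.x G * s, Z.S.mul_mem (aev_mem Z G) hs, aeval Z.x G * s',
      (St_Nq Z).mul G s' hs', ?_⟩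
    rw [mul_add, mul_smul_comm]
    ring
  hom := by
    rintro _ ⟨s, hs, s', hs', rfl⟩ m
    rw [map_add, proj_smul]
    by_cases h : Y.c ≤ m
    · rw [proj_mul Z hF h]
      exact ⟨_, Z.S_hom _ hs _, _, (St_Nq Z).hom s' hs' m, rfl⟩
    · rw [proj_mul_lt Z hF h]
      exact ⟨0, Z.S.zero_mem, _, (St_Nq Z).hom s' hs' m, by rw [mul_zero]⟩

variable {Z} in
/-- the maps induced by the inclusion -/
theorem ind {M₀ M₁ M₀' M₁' : Submodule Z.V Z.B} {Q Q' : GMod Z.κ Z.n} {p : M₀ →+ Q.M}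
    {p' : M₀' →+ Q'.M} (hp : QM M₀ M₁ Q p) (hp' : QM M₀' M₁' Q' p') (hS : St M₀)
    (h0 : M₀ ≤ M₀') (h1 : M₁ ≤ M₁') :
    ∃ φ : GHom Q Q', ∀ (y : M₀) (y' : M₀'), (y' : Z.B) = y → φ.f (p y) = p' y' := by
  have key : ∀ (y y' : M₀) (z z' : M₀'), p y = p y' → (z : Z.B) = y → (z' : Z.B) = y' →
      p' z = p' z' := by
    intro y y' z z' h hz hz'
    have h2 : p (y - y') = 0 := by rw [map_sub, h, sub_self]
    have h3 := h1 ((hp.ker _).1 h2)
    have h4 : p' (z - z') = 0 := by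
      rw [hp'.ker]
      rw [AddSubgroupClass.coe_sub, hz, hz']
      exact h3
    rwa [map_sub, sub_eq_zero] at h4
  let c : Q.M → M₀ := Function.surjInv hp.surj
  have hc : ∀ u, p (c u) = u := Function.surjInv_eq hp.surj
  let ic : Q.M → M₀' := fun u => ⟨c u, h0 (c u).2⟩
  refine ⟨{ f := { toFun := fun u => p' (ic u), map_add' := ?_, map_smul' := ?_ }, deg := ?_ }, ?_⟩
  · intro u v
    rw [← map_add]
    refine key (c (u + v)) (c u + c v) _ _ ?_ rfl rfl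
    rw [hc, map_add, hc, hc]
  · intro P u
    obtain ⟨G, rfl⟩ := mapσ_surj Z P
    have h2 : aeval Z.x G * (c u : Z.B) ∈ M₀ := hS.mul G _ (c u).2
    have h3 : p ⟨_, h2⟩ = MvPolynomial.map Z.σ G • p (c u) := hp.smul G (c u) ⟨_, h2⟩ rfl
    have h4 : p' ⟨_, h0 h2⟩ = MvPolynomial.map Z.σ G • p' (ic u) :=
      hp'.smul G (ic u) ⟨_, h0 h2⟩ rfl
    rw [RingHom.id_apply, ← h4]
    refine key (c (MvPolynomial.map Z.σ G • u)) ⟨_, h2⟩ _ _ ?_ rfl rfl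
    rw [hc, h3, hc]
  · intro m u hu
    rcases hp.gr m u hu with rfl | ⟨m', rfl, y, h2, rfl⟩
    · have h2 : p' (ic 0) = 0 := by
        rw [key (c 0) 0 (ic 0) 0 (by rw [hc, map_zero]) rfl rfl, map_zero]
      change p' (ic 0) ∈ _
      rw [h2]
      exact Submodule.zero_mem _
    · change p' (ic (p y)) ∈ _
      rw [key (c (p y)) y (ic (p y)) ⟨y, h0 y.2⟩ (hc _) rfl rfl]
      exact hp'.deg m' ⟨y, h0 y.2⟩ h2
  · intro y y' h
    exact key (c (p y)) y _ _ (hc _) rfl h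

variable {Z} in
theorem kil_sub {M N : GMod Z.κ Z.n} (f : M.M →ₗ[Po Z.κ Z.n] N.M) (hf : Function.Injective f)
    {𝔞 : Ideal (Po Z.κ Z.n)} (h : Kil N 𝔞) : Kil M 𝔞 := by
  intro p hp m
  apply hf
  rw [map_smul, h p hp, map_zero]

variable {Z} in
theorem kil_quo {M N : GMod Z.κ Z.n} (f : M.M →ₗ[Po Z.κ Z.n] N.M) (hf : Function.Surjective f)
    {𝔞 : Ideal (Po Z.κ Z.n)} (h : Kil M 𝔞) : Kil N 𝔞 := by
  intro p hp m
  obtain ⟨m, rfl⟩ := hf m
  rw [← map_smul, h p hp, map_zero]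

end

end SEQ_

open SEQ_ in
theorem seq_proof (hCFS : Stmt_CFS) (hCST : Stmt_CST) (hQMX : Stmt_QMX) (_hQMF : Stmt_QMF)
    (hMSQ : Stmt_MSQ) (hSSS : Stmt_SSS) : Stmt_SEQ := by
  intro Z Y e hadd htor Qm pm hm Qk pq hq Qf pf hf
  obtain ⟨hF0, hFq, hFS, hFc, -, -, hzP⟩ := hCFS.2 Z Y
  obtain ⟨St1, St2, St3, St4, St5, St6, hWF, hFQ, hQS, hM1, hϖS, hϖM⟩ := hCST Z Y
  obtain ⟨hQm1, hQm2, hQm3⟩ := hMSQ Z Y Qm pm hm
  -- the module `S / ϖ S`
  obtain ⟨Qs, ps, hs⟩ := hQMX Z (mS Z) (mW Z) St1 St2 (hWF.trans (hFQ.trans hQS)) hϖS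
  obtain ⟨-, -, -, -, hQf1, hQf2, -⟩ := hSSS Z Y Qs ps hs Qf pf hf
  -- the module `(q ∩ S) / (F S + ϖ (q ∩ S))`
  have hN1 : Nq1 Y ≤ Nq Z := by
    rintro _ ⟨s, hs, s', hs', rfl⟩
    exact ⟨Z.S.add_mem (Z.S.mul_mem hFS hs) (Z.S.smul_mem hs'.1 _),
      Z.q.add_mem (Z.q.mul_mem_right _ hFq) (q_smul Z _ hs'.2)⟩
  have hNS : Nq Z ≤ mS Z := fun y hy => hy.1
  have hN1F : Nq1 Y ≤ mF Y := by
    rintro _ ⟨s, hs, s', hs', rfl⟩
    exact ⟨s, hs, s', hs'.1, rfl⟩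
  have hNM : Nq Z ≤ mM Y := by
    intro y hy
    refine ⟨hy.2, 0, 1, isHomogeneous_one _ _, by rw [map_one]; exact one_ne_zero, y, hy.1, 0, ?_⟩
    rw [map_one, one_mul, mul_zero, add_zero]
  have hN1M : Nq1 Y ≤ mM1 Y := by
    rintro _ ⟨s, hs, s', hs', rfl⟩
    exact ⟨s', hNM hs', s, by ring⟩
  obtain ⟨Q2, p2, h2⟩ := hQMX Z (Nq Z) (Nq1 Y) (St_Nq Z) (St_Nq1 Y hFc) hN1 (by
    intro y hy
    exact ⟨0, Z.S.zero_mem, y, hy, by rw [mul_zero, zero_add]⟩)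
  -- the three maps
  obtain ⟨φ, hφ⟩ := ind h2 hf (St_Nq Z) hNS hN1F
  obtain ⟨ψ, hψ⟩ := ind hf hq St1 le_rfl hFQ
  obtain ⟨χ, hχ⟩ := ind h2 hm (St_Nq Z) hNM hN1M
  have hφi : Function.Injective φ.f := by
    rw [injective_iff_map_eq_zero]
    intro u hu
    obtain ⟨y, rfl⟩ := h2.surj u
    rw [hφ y ⟨y, hNS y.2⟩ rfl, hf.ker] at hu
    obtain ⟨s, hs, s', hs', he⟩ := hu
    rw [h2.ker]
    refine ⟨s, hs, s', ⟨hs', ?_⟩, he⟩
    apply q_smul_mem Z Z.irr.ne_zero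
    have he' : Z.ϖ • s' = (y : Z.B) - Y.F * s := by
      have : (y : Z.B) = Y.F * s + Z.ϖ • s' := he
      rw [this]; ring
    rw [he']
    exact Z.q.sub_mem y.2.2 (Z.q.mul_mem_right _ hFq)
  have hψs : Function.Surjective ψ.f := by
    intro u
    obtain ⟨y, rfl⟩ := hq.surj u
    exact ⟨pf y, hψ y y rfl⟩
  have hex : Function.Exact φ.f ψ.f := by
    intro u
    constructor
    · intro hu
      obtain ⟨y, rfl⟩ := hf.surj u
      rw [hψ y y rfl, hq.ker] at hu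
      obtain ⟨s, hs, hsq, s', hs', he⟩ := hu
      refine ⟨p2 ⟨s, hs, hsq⟩, ?_⟩
      rw [hφ _ ⟨s, hs⟩ rfl, ← sub_eq_zero, ← map_sub, hf.ker]
      refine ⟨0, Z.S.zero_mem, -s', Z.S.neg_mem hs', ?_⟩
      rw [AddSubgroupClass.coe_sub, he, mul_zero, smul_neg]
      ring
    · rintro ⟨u, rfl⟩
      obtain ⟨y, rfl⟩ := h2.surj u
      rw [hφ y ⟨y, hNS y.2⟩ rfl, hψ _ ⟨y, hNS y.2⟩ rfl, hq.ker]
      exact ⟨y, y.2.1, y.2.2, 0, Z.S.zero_mem, by rw [smul_zero, add_zero]⟩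
  have e1 : e Qf = e Q2 + e Qk := hadd Q2 Qf Qk φ ψ ⟨hφi, hex, hψs⟩ hQf1 hQf2
  have hQ21 : Module.Finite (Po Z.κ Z.n) Q2.M := Module.Finite.of_injective φ.f hφi
  have hQ22 : Kil Q2 (aF Z.D Y.c) := kil_sub φ.f hφi hQf2
  -- the image and the cokernel
  have hD := deg_proof cmp_proof Z.κ Z.n Q2 Qm χ
  obtain ⟨I, i, hi1, hi2, hi3⟩ := sub_proof cmp_proof Z.κ Z.n Qm (LinearMap.range χ.f) hD.2.2.2.1
  obtain ⟨Ck, g, hg1, hg2, hg3⟩ := quo_proof cmp_proof Z.κ Z.n Qm (LinearMap.range χ.f) hD.2.2.2.1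
  obtain ⟨Kr, k, hk1, hk2, hk3⟩ := sub_proof cmp_proof Z.κ Z.n Q2 (LinearMap.ker χ.f) hD.2.2.1
  have e2 : e Qm = e I + e Ck := by
    refine hadd I Qm Ck i g ⟨hi1, ?_, hg1⟩ hQm1 hQm3
    rw [LinearMap.exact_iff, hg2, hi2]
  have hCk : ZTor Y.zk Ck := by
    intro m
    obtain ⟨u, rfl⟩ := hg1 m
    obtain ⟨y, rfl⟩ := hm.surj u
    obtain ⟨hyq, d, P, hP, hP0, s, hs, b, he⟩ := y.2
    refine ⟨MvPolynomial.map Z.σ P, hP0, ?_⟩
    have h3 : (aeval Y.zk (MvPolynomial.map Z.σ P) : Po Z.κ Z.n) =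
        MvPolynomial.map Z.σ (aeval Y.z P) := by
      have h31 : ((aeval Y.zk : Po Z.κ 3 →ₐ[Z.κ] Po Z.κ Z.n) : Po Z.κ 3 →+* Po Z.κ Z.n).comp
          (MvPolynomial.map Z.σ) = (MvPolynomial.map Z.σ).comp
            ((aeval Y.z : Po Z.V 3 →ₐ[Z.V] Po Z.V Z.n) : Po Z.V 3 →+* Po Z.V Z.n) := by
        apply MvPolynomial.ringHom_ext
        · intro r
          simp [MvPolynomial.algebraMap_eq]
        · intro i
          simp [Cut.zk]
      exact RingHom.congr_fun h31 P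
    have h4 : aeval Z.x (aeval Y.z P : Po Z.V Z.n) = aeval Y.zb P := by
      have h41 : ((aeval Z.x : Po Z.V Z.n →ₐ[Z.V] Z.B).comp
          (aeval Y.z : Po Z.V 3 →ₐ[Z.V] Po Z.V Z.n)) = aeval Y.zb := by
        apply MvPolynomial.algHom_ext
        intro i
        simp [Cut.zb]
      exact AlgHom.congr_fun h41 P
    have h5 : aeval Z.x (aeval Y.z P : Po Z.V Z.n) * (y : Z.B) ∈ mM Y := St5.mul _ _ y.2
    rw [h3, ← map_smul, ← hm.smul _ y ⟨_, h5⟩ rfl, ← LinearMap.mem_ker, hg2]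
    have hsq : s ∈ Z.q := by
      have : s = aeval Y.zb P * (y : Z.B) - Y.F * b := by rw [he]; ring
      rw [this]
      exact Z.q.sub_mem (Z.q.mul_mem_left _ hyq) (Z.q.mul_mem_right _ hFq)
    refine ⟨p2 ⟨s, hs, hsq⟩, ?_⟩
    rw [hχ _ ⟨s, hNM ⟨hs, hsq⟩⟩ rfl, ← sub_eq_zero, ← map_sub, hm.ker]
    refine ⟨0, Submodule.zero_mem _, -b, ?_⟩
    rw [AddSubgroupClass.coe_sub, smul_zero]
    change s - aeval Z.x (aeval Y.z P : Po Z.V Z.n) * (y : Z.B) = _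
    rw [h4, he]
    ring
  have e3 : e Ck = 0 := by
    have := hQm1
    exact htor Ck (Module.Finite.of_surjective g.f hg1) (kil_quo g.f hg1 hQm3) hCk
  -- the map onto the image
  have hIi : ∀ u : Q2.M, ∃ v : I.M, i.f v = χ.f u := by
    intro u
    have : χ.f u ∈ LinearMap.range i.f := by
      rw [hi2]
      exact ⟨u, rfl⟩
    exact this
  choose w hw using hIi
  let π : GHom Q2 I :=
    { f :=
        { toFun := w
          map_add' := by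
            intro a b
            apply hi1
            rw [map_add, hw, hw, hw, map_add]
          map_smul' := by
            intro a b
            apply hi1
            rw [RingHom.id_apply, map_smul, hw, hw, map_smul] }
      deg := by
        intro n x hx
        apply hi3
        change i.f (w x) ∈ _
        rw [hw]
        exact χ.deg n x hx }
  have hπ : ∀ u, i.f (π.f u) = χ.f u := hw
  have e4 : e Q2 = e Kr + e I := by
    refine hadd Kr Q2 I k π ⟨hk1, ?_, ?_⟩ hQ21 hQ22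
    · rw [LinearMap.exact_iff, hk2]
      ext u
      rw [LinearMap.mem_ker, LinearMap.mem_ker, ← hπ]
      constructor
      · intro h
        rw [h, map_zero]
      · intro h
        apply hi1
        rw [h, map_zero]
    · intro v
      have : i.f v ∈ LinearMap.range χ.f := by
        rw [← hi2]
        exact ⟨v, rfl⟩
      obtain ⟨u, hu⟩ := this
      refine ⟨u, hi1 ?_⟩
      rw [hπ, hu]
  omega

end

end Pool.Agent.RST
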