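import Pool.Agent.RST.Stmts

/-!
# RST: SSS, the graded modules `S / ϖ S` and `S / (F S + ϖ S)`
-/

set_option autoImplicit false

open MvPolynomial Pool.Agent.GML

namespace Pool.Agent.RST

noncomputable section

namespace SSS_

lemma aeval_mem (Z : Ctx) (G : Po Z.V Z.n) : aeval Z.x G ∈ Z.S := by
  have h2 := (Algebra.adjoin_le (S := Z.S) (by rintro _ ⟨c, rfl⟩; exact Z.x_mem c) :
    Algebra.adjoin Z.V (Set.range Z.x) ≤ Z.S)
  apply h2
  rw [Algebra.adjoin_range_eq_range_aeval]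
  exact ⟨G, rfl⟩

lemma map_surj (Z : Ctx) (p : Po Z.κ Z.n) : ∃ G : Po Z.V Z.n, MvPolynomial.map Z.σ G = p :=
  MvPolynomial.map_surjective Z.σ Z.surjσ p

/-- multiplication by a polynomial on `S` -/
def act (Z : Ctx) (G : Po Z.V Z.n) (y : mS Z) : mS Z :=
  ⟨aeval Z.x G * (y : Z.B), Z.S.mul_mem (aeval_mem Z G) y.2⟩

lemma act_smul (Z : Ctx) {M₁ : Submodule Z.V Z.B} {Q : GMod Z.κ Z.n} {p : mS Z →+ Q.M}
    (h : QM (mS Z) M₁ Q p) (G : Po Z.V Z.n) (y : mS Z) :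
    p (act Z G y) = MvPolynomial.map Z.σ G • p y := h.smul G y (act Z G y) rfl

lemma mW_le_mF {Z : Ctx} (Y : Cut Z) : mW Z ≤ mF Y := by
  rintro y ⟨s, hs, rfl⟩
  exact ⟨0, Z.S.zero_mem, s, hs, by rw [mul_zero, zero_add]⟩

lemma fin_of {Z : Ctx} (hQMF : Stmt_QMF) {M₁ : Submodule Z.V Z.B} {Q : GMod Z.κ Z.n}
    {p : mS Z →+ Q.M} (h : QM (mS Z) M₁ Q p) : Module.Finite (Po Z.κ Z.n) Q.M := by
  refine (hQMF Z (mS Z) M₁ Q p h).1 ?_
  obtain ⟨T, hT, hS⟩ := Z.S_fin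
  refine ⟨T, hT, fun y hy => ?_⟩
  obtain ⟨G, hG⟩ := hS y hy
  refine ⟨G, ?_⟩
  rw [← hG, sub_self]
  exact M₁.zero_mem

lemma kil_IX {Z : Ctx} {M₁ : Submodule Z.V Z.B} (hM : mW Z ≤ M₁) {Q : GMod Z.κ Z.n}
    {p : mS Z →+ Q.M} (h : QM (mS Z) M₁ Q p) : Kil Q Z.D.IX := by
  intro P hP u
  obtain ⟨G, rfl⟩ := map_surj Z P
  obtain ⟨y, rfl⟩ := h.surj u
  rw [← act_smul Z h, h.ker]
  apply hM
  obtain ⟨s, hs, e⟩ := Z.red0 G hP
  exact ⟨s * (y : Z.B), Z.S.mul_mem hs y.2, by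
    change aeval Z.x G * (y : Z.B) = _
    rw [e, smul_mul_assoc]⟩

/-- the projection `S / ϖ S → S / (F S + ϖ S)`, additive -/
def pr {Z : Ctx} {Y : Cut Z} {Qs : GMod Z.κ Z.n} {ps : mS Z →+ Qs.M}
    (hs : QM (mS Z) (mW Z) Qs ps) {Qf : GMod Z.κ Z.n} {pf : mS Z →+ Qf.M}
    (hf : QM (mS Z) (mF Y) Qf pf) : Qs.M →+ Qf.M :=
  (ps.liftOfSurjective hs.surj) ⟨pf, fun y hy => by
    rw [AddMonoidHom.mem_ker] at hy ⊢
    rw [hf.ker]
    exact mW_le_mF Y ((hs.ker y).1 hy)⟩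

lemma pr_ps {Z : Ctx} {Y : Cut Z} {Qs : GMod Z.κ Z.n} {ps : mS Z →+ Qs.M}
    (hs : QM (mS Z) (mW Z) Qs ps) {Qf : GMod Z.κ Z.n} {pf : mS Z →+ Qf.M}
    (hf : QM (mS Z) (mF Y) Qf pf) (y : mS Z) : pr hs hf (ps y) = pf y :=
  AddMonoidHom.liftOfRightInverse_comp_apply ps _ _ _ y

lemma pr_smul {Z : Ctx} {Y : Cut Z} {Qs : GMod Z.κ Z.n} {ps : mS Z →+ Qs.M}
    (hs : QM (mS Z) (mW Z) Qs ps) {Qf : GMod Z.κ Z.n} {pf : mS Z →+ Qf.M}
    (hf : QM (mS Z) (mF Y) Qf pf) (P : Po Z.κ Z.n) (u : Qs.M) :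
    pr hs hf (P • u) = P • pr hs hf u := by
  obtain ⟨G, rfl⟩ := map_surj Z P
  obtain ⟨y, rfl⟩ := hs.surj u
  rw [← act_smul Z hs, pr_ps, pr_ps, act_smul Z hf]

end SSS_

open SSS_ in
theorem sss_proof (_hCFS : Stmt_CFS) (hQMF : Stmt_QMF) : Stmt_SSS := by
  intro Z Y Qs ps hs Qf pf hf
  have hF : ∀ y : mS Z, ((act Z Y.G y : mS Z) : Z.B) = Y.F * (y : Z.B) := fun y => rfl
  refine ⟨fin_of hQMF hs, kil_IX le_rfl hs, ?_, ?_, fin_of hQMF hf, ?_, ?_⟩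
  · intro P hP u hu
    obtain ⟨G, rfl⟩ := map_surj Z P
    obtain ⟨y, rfl⟩ := hs.surj u
    rw [← act_smul Z hs, hs.ker] at hu
    rw [hs.ker]
    obtain ⟨s', hs', e⟩ := hu
    exact Z.red1 G hP y y.2 ⟨s', hs', e⟩
  · obtain ⟨b, d, f, k, hb, hfk, hfI, hgen⟩ := Z.rank
    refine ⟨fun i => ps ⟨b i, (hb i).1⟩, fun i => (d i : ℤ), MvPolynomial.map Z.σ f, k,
      fun i => hs.deg _ _ (hb i).2, hfI, hfk.map Z.σ, fun u => ?_⟩
    obtain ⟨y, rfl⟩ := hs.surj u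
    obtain ⟨G, s', hs', e⟩ := hgen y y.2
    rw [← act_smul Z hs]
    have e2 : act Z f y = ∑ i, act Z (G i) ⟨b i, (hb i).1⟩ + Z.ϖ • (⟨s', hs'⟩ : mS Z) := by
      apply Subtype.ext
      rw [Submodule.coe_add, Submodule.coe_sum, Submodule.coe_smul]
      exact e
    have e3 : ps (Z.ϖ • (⟨s', hs'⟩ : mS Z)) = 0 := by
      rw [hs.ker]
      exact ⟨s', hs', rfl⟩
    rw [e2, map_add, map_sum, e3, add_zero]
    refine Submodule.sum_mem _ fun i _ => ?_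
    rw [act_smul Z hs]
    exact Submodule.smul_mem _ _ (Submodule.subset_span ⟨i, rfl⟩)
  · intro P hP u
    have hI : Z.D.IX ⊔ Ideal.span {(X Z.D.c₀ : Po Z.κ Z.n) ^ Y.c} ≤
        LinearMap.ker (LinearMap.toSpanSingleton (Po Z.κ Z.n) Qf.M u) := by
      refine sup_le (fun P hP => ?_) ?_
      · rw [LinearMap.mem_ker, LinearMap.toSpanSingleton_apply]
        exact kil_IX (mW_le_mF Y) hf P hP u
      · refine (Ideal.span_le (I := LinearMap.ker (LinearMap.toSpanSingleton (Po Z.κ Z.n) Qf.M u))).2 ?_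
        rw [Set.singleton_subset_iff, SetLike.mem_coe, LinearMap.mem_ker,
          LinearMap.toSpanSingleton_apply, ← Y.G_red]
        obtain ⟨y, rfl⟩ := hf.surj u
        rw [← act_smul Z hf, hf.ker]
        exact ⟨y, y.2, 0, Z.S.zero_mem, by rw [smul_zero, add_zero]; exact hF y⟩
    have h := hI hP
    rw [LinearMap.mem_ker, LinearMap.toSpanSingleton_apply] at h
    exact h
  · refine ⟨⟨{ toFun := pr hs hf
               map_add' := map_add _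
               map_smul' := fun P u => pr_smul hs hf P u }, ?_⟩, ?_, ?_⟩
    · intro m u hu
      change pr hs hf u ∈ Qf.gr m
      rcases hs.gr m u hu with h | ⟨m', hm, y, hy, rfl⟩
      · rw [h, map_zero]
        exact Submodule.zero_mem _
      · rw [pr_ps, hm]
        exact hf.deg m' y hy
    · intro v
      obtain ⟨y, rfl⟩ := hf.surj v
      exact ⟨ps y, pr_ps hs hf y⟩
    · intro x
      change pr hs hf x = 0 ↔ _
      constructor
      · intro h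
        obtain ⟨y, rfl⟩ := hs.surj x
        rw [pr_ps, hf.ker] at h
        obtain ⟨s, hsS, s', hs', e⟩ := h
        refine ⟨ps ⟨s, hsS⟩, ?_⟩
        rw [← Y.G_red, ← act_smul Z hs]
        have e2 : y = act Z Y.G ⟨s, hsS⟩ + Z.ϖ • (⟨s', hs'⟩ : mS Z) := by
          apply Subtype.ext
          rw [Submodule.coe_add, Submodule.coe_smul, hF]
          exact e
        have e3 : ps (Z.ϖ • (⟨s', hs'⟩ : mS Z)) = 0 := by
          rw [hs.ker]
          exact ⟨s', hs', rfl⟩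
        rw [e2, map_add, e3, add_zero]
      · rintro ⟨y, rfl⟩
        obtain ⟨s, rfl⟩ := hs.surj y
        rw [← Y.G_red, ← act_smul Z hs, pr_ps, hf.ker]
        exact ⟨s, s.2, 0, Z.S.zero_mem, by rw [smul_zero, add_zero]; exact hF s⟩

end

end Pool.Agent.RST
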