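import Pool.Agent.RST.Stmts

/-!
# RST, module TEL: telescoping
-/

set_option autoImplicit false

namespace Pool.Agent.RST

noncomputable section

namespace TEL_

theorem tele (a b : ℕ → ℕ) (c e₂ C : ℕ)
    (hmono : Monotone fun m => (a m : ℝ) - b m)
    (hb : ∀ m, c ≤ m → (b m : ℝ) ≤ a (m - c) + e₂ * (m : ℝ) ^ 2 / 2 + C * (m + 1)) (m : ℕ) :
    ∀ k : ℕ, k * c ≤ m → (a m : ℝ) - a (m - k * c) - k * (e₂ * (m : ℝ) ^ 2 / 2 + C * (m + 1)) ≤
      k * ((a m : ℝ) - b m) := by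
  intro k
  induction k with
  | zero =>
    intro _
    simp
  | succ k ih =>
    intro hk
    have hk' : k * c + c ≤ m := by
      rw [Nat.succ_mul] at hk
      exact hk
    have h1 := ih (by omega)
    have h2 := hb (m - k * c) (by omega)
    have h3 := hmono (Nat.sub_le m (k * c))
    have h4 : m - k * c - c = m - (k + 1) * c := by
      rw [Nat.succ_mul, Nat.sub_sub]
    rw [h4] at h2
    simp only at h3
    have h5 : ((m - k * c : ℕ) : ℝ) ≤ m := by exact_mod_cast Nat.sub_le _ _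
    have h6 : (0 : ℝ) ≤ ((m - k * c : ℕ) : ℝ) := Nat.cast_nonneg _
    have h7 : ((m - k * c : ℕ) : ℝ) ^ 2 ≤ (m : ℝ) ^ 2 := pow_le_pow_left₀ h6 h5 2
    have h8 : (0 : ℝ) ≤ e₂ := Nat.cast_nonneg _
    have h9 : (0 : ℝ) ≤ C := Nat.cast_nonneg _
    have h10 := mul_le_mul_of_nonneg_left h7 h8
    have h11 := mul_le_mul_of_nonneg_left h5 h9
    push_cast
    linarith

end TEL_

open TEL_ in
theorem tel_proof : Stmt_TEL := by
  intro a b c e₂ A C τ _ h1 h2 h3 h4 ε hε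
  have hmono : Monotone fun m => (a m : ℝ) - b m := by
    refine monotone_nat_of_le_succ fun m => ?_
    have h5 : ((a m + b (m + 1) : ℕ) : ℝ) ≤ ((a (m + 1) + b m : ℕ) : ℝ) := by
      exact_mod_cast (h1 m).2
    push_cast at h5
    linarith
  obtain ⟨k, hk⟩ := exists_nat_ge (16 * (C : ℝ) / ε + 1)
  have hk0 : (0 : ℝ) < k := by
    have : 0 ≤ 16 * (C : ℝ) / ε := by positivity
    linarith
  have hk1 : 16 * (C : ℝ) ≤ ε * k := by
    have h5 : 16 * (C : ℝ) / ε ≤ k := by linarith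
    rw [div_le_iff₀ hε] at h5
    linarith
  obtain ⟨M, hM⟩ := exists_nat_ge (((A : ℝ) * k * (c : ℝ) ^ 2 + 4 * C) / ε)
  refine ⟨max (k * c) (max M 1), fun m hm => ?_⟩
  have hm1 : k * c ≤ m := le_trans (le_max_left _ _) hm
  have hm2 : M ≤ m := le_trans (le_trans (le_max_left _ _) (le_max_right _ _)) hm
  have hm3 : 1 ≤ m := le_trans (le_trans (le_max_right _ _) (le_max_right _ _)) hm
  have h5 := tele a b c e₂ C hmono h2 m k hm1
  have h6 := (abs_le.1 (h3 m)).1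
  have h7 := (abs_le.1 (h3 (m - k * c))).2
  have hmc : ((m - k * c : ℕ) : ℝ) = (m : ℝ) - k * c := by
    rw [Nat.cast_sub hm1]
    push_cast
    ring
  rw [hmc] at h7
  have hm1' : (k : ℝ) * c ≤ m := by exact_mod_cast hm1
  have hm3' : (1 : ℝ) ≤ m := by exact_mod_cast hm3
  have hA : (0 : ℝ) ≤ A := Nat.cast_nonneg _
  have hC : (0 : ℝ) ≤ C := Nat.cast_nonneg _
  have hc : (0 : ℝ) ≤ c := Nat.cast_nonneg _
  have h8 : (A : ℝ) * k * (c : ℝ) ^ 2 + 4 * C ≤ ε * m := by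
    have h9 : ((A : ℝ) * k * (c : ℝ) ^ 2 + 4 * C) / ε ≤ m :=
      le_trans hM (by exact_mod_cast hm2)
    rw [div_le_iff₀ hε] at h9
    linarith
  -- the cubic term
  set x : ℝ := (m : ℝ) with hx
  set y : ℝ := k * c with hy
  have hy0 : 0 ≤ y := by positivity
  have h9 : y * x ^ 2 / 2 - y ^ 2 * x / 2 ≤ (x ^ 3 - (x - y) ^ 3) / 6 := by
    have : (x ^ 3 - (x - y) ^ 3) / 6 - (y * x ^ 2 / 2 - y ^ 2 * x / 2) = y ^ 3 / 6 := by ring
    have h10 : 0 ≤ y ^ 3 / 6 := by positivity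
    linarith
  have h10 : A * (y * x ^ 2 / 2 - y ^ 2 * x / 2) ≤ A * ((x ^ 3 - (x - y) ^ 3) / 6) :=
    mul_le_mul_of_nonneg_left h9 hA
  -- squares
  have h11 : (x - y + 1) ^ 2 ≤ (x + 1) ^ 2 := pow_le_pow_left₀ (by linarith) (by linarith) 2
  have h12 : (x + 1) ^ 2 ≤ 4 * x ^ 2 := by nlinarith
  have h13 : (C : ℝ) * (x - y + 1) ^ 2 ≤ C * (x + 1) ^ 2 := mul_le_mul_of_nonneg_left h11 hC
  have h14 : (C : ℝ) * (x + 1) ^ 2 ≤ C * (4 * x ^ 2) := mul_le_mul_of_nonneg_left h12 hC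
  have h15 : 16 * (C : ℝ) * x ^ 2 ≤ ε * k * x ^ 2 :=
    mul_le_mul_of_nonneg_right hk1 (by positivity)
  have h16 : (k : ℝ) * x * ((A : ℝ) * k * (c : ℝ) ^ 2 + 4 * C) ≤ k * x * (ε * x) :=
    mul_le_mul_of_nonneg_left h8 (by positivity)
  have h17 : (k : ℝ) * (C * (x + 1)) ≤ k * (C * (2 * x)) := by
    refine mul_le_mul_of_nonneg_left (mul_le_mul_of_nonneg_left (by linarith) hC) hk0.le
  have h18 : (k : ℝ) * x ^ 2 * ((e₂ : ℝ) + τ) ≤ k * x ^ 2 * (A * c) :=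
    mul_le_mul_of_nonneg_left h4 (by positivity)
  have h19 : (k : ℝ) * ((τ / 2 - ε) * x ^ 2) ≤ k * ((a m : ℝ) - b m) := by
    have e1 : A * (y * x ^ 2 / 2 - y ^ 2 * x / 2) =
        k * x ^ 2 * (A * c) / 2 - (k : ℝ) * x * ((A : ℝ) * k * (c : ℝ) ^ 2) / 2 := by
      rw [hy]
      ring
    have e2 : A * ((x ^ 3 - (x - y) ^ 3) / 6) = A * x ^ 3 / 6 - A * (x - y) ^ 3 / 6 := by ring
    nlinarith
  exact le_of_mul_le_mul_left h19 hk0

end

end Pool.Agent.RST
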