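import Pool.Agent.RST.Stmts
import Pool.Agent.GML.CMP
import Pool.Agent.GML.QUO

/-!
# RST: UPE, the rank of `M / X c₀ ^ c M` for `M` torsion free of rank `r` over `R`
-/

set_option autoImplicit false

open MvPolynomial Pool.Agent.GML

namespace Pool.Agent.RST

namespace UPE_

section E
variable {κ : Type} [Field κ] {n : ℕ} {D : XD κ n} {c : ℕ} {z : Fin 3 → Po κ n} {v : Fin n → κ}
  {Q : GMod κ n} {E : Type} [AddCommGroup E] [Module (Po κ (n + 1)) E] {ι : Q.M →+ E}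

/-- the annihilator of `Q` kills the localisation -/
theorem kill_E (hE : Eta D z Q E ι) {p : Po κ n} (hp : ∀ q : Q.M, p • q = 0) (u : E) :
    emb κ n p • u = 0 := by
  obtain ⟨s, hs, q, hq⟩ := hE.gen u
  apply hE.inj s hs
  rw [smul_comm, hq, ← hE.smul, hp, map_zero]

theorem g_inj (hE : Eta D z Q E ι) (hk : Kil Q (aF D c)) (hg : GG D c z v) (u : E)
    (h : emb κ n (lin v) • u = 0) : u = 0 := by
  obtain ⟨-, g', r, hr, hgr⟩ := hg
  apply hE.inj r hr
  have h1 := kill_E hE (fun q => hk _ hgr q) u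
  rw [map_sub, sub_smul, sub_eq_zero, map_mul, mul_comm, mul_smul, h, smul_zero] at h1
  exact h1.symm

theorem g_surj (hE : Eta D z Q E ι) (hk : Kil Q (aF D c)) (hg : GG D c z v) (u : E) :
    ∃ u' : E, emb κ n (lin v) • u' = u := by
  obtain ⟨-, g', r, hr, hgr⟩ := hg
  obtain ⟨u', hu'⟩ := hE.surj r hr u
  refine ⟨emb κ n g' • u', ?_⟩
  have h1 := kill_E hE (fun q => hk _ hgr q) u'
  rw [map_sub, sub_smul, sub_eq_zero, map_mul, mul_smul, hu'] at h1
  exact h1

theorem gp_inj (hE : Eta D z Q E ι) (hk : Kil Q (aF D c)) (hg : GG D c z v) (N : ℕ) :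
    ∀ u : E, emb κ n (lin v) ^ N • u = 0 → u = 0 := by
  induction N with
  | zero => intro u h; rwa [pow_zero, one_smul] at h
  | succ N ih =>
    intro u h
    rw [pow_succ, mul_smul] at h
    exact g_inj hE hk hg u (ih _ h)

theorem gp_surj (hE : Eta D z Q E ι) (hk : Kil Q (aF D c)) (hg : GG D c z v) (N : ℕ) :
    ∀ u : E, ∃ u' : E, emb κ n (lin v) ^ N • u' = u := by
  induction N with
  | zero => intro u; exact ⟨u, by rw [pow_zero, one_smul]⟩
  | succ N ih =>
    intro u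
    obtain ⟨u', hu'⟩ := g_surj hE hk hg u
    obtain ⟨u'', hu''⟩ := ih u'
    exact ⟨u'', by rw [pow_succ', mul_smul, hu'', hu']⟩

end E

section Rel
variable {κ : Type} [Field κ] {n : ℕ} {D : XD κ n} {c : ℕ} {z : Fin 3 → Po κ n} {v : Fin n → κ}
  {M Q : GMod κ n} {π : GHom M Q} {M' : GMod κ (n + 1)} {j : M.M →+ M'.M}
  {E : Type} [AddCommGroup E] [Module (Po κ (n + 1)) E] {ι : Q.M →+ E}

/-- the graph of the extension of `M → Q → E` to `M'` -/
def Rl (v : Fin n → κ) (π : GHom M Q) (j : M.M →+ M'.M) (ι : Q.M →+ E) (x : M'.M) (u : E) : Prop :=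
  ∃ (N : ℕ) (m : M.M), emb κ n (lin v) ^ N • x = j m ∧ emb κ n (lin v) ^ N • u = ι (π.f m)

theorem Rl_up (hj : Ymd D v M M' j) (hE : Eta D z Q E ι) {x : M'.M} {u : E} {N : ℕ} {m : M.M}
    (h1 : emb κ n (lin v) ^ N • x = j m) (h2 : emb κ n (lin v) ^ N • u = ι (π.f m)) (k : ℕ) :
    emb κ n (lin v) ^ (k + N) • x = j (lin v ^ k • m) ∧
      emb κ n (lin v) ^ (k + N) • u = ι (π.f (lin v ^ k • m)) := by
  constructor
  · rw [pow_add, mul_smul, h1, hj.smul, map_pow]
  · rw [pow_add, mul_smul, h2, map_smul, hE.smul, map_pow]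

theorem Rl_add (hj : Ymd D v M M' j) (hE : Eta D z Q E ι) {x y : M'.M} {u w : E}
    (hx : Rl v π j ι x u) (hy : Rl v π j ι y w) : Rl v π j ι (x + y) (u + w) := by
  obtain ⟨N, m, h1, h2⟩ := hx
  obtain ⟨N', m', h1', h2'⟩ := hy
  obtain ⟨a1, a2⟩ := Rl_up hj hE h1 h2 N'
  obtain ⟨b1, b2⟩ := Rl_up hj hE h1' h2' N
  rw [add_comm N N'] at b1 b2
  refine ⟨N' + N, lin v ^ N' • m + lin v ^ N • m', ?_, ?_⟩
  · rw [smul_add, a1, b1, map_add]
  · rw [smul_add, a2, b2, map_add, map_add]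

theorem Rl_emb (hj : Ymd D v M M' j) (hE : Eta D z Q E ι) {x : M'.M} {u : E}
    (hx : Rl v π j ι x u) (p : Po κ n) : Rl v π j ι (emb κ n p • x) (emb κ n p • u) := by
  obtain ⟨N, m, h1, h2⟩ := hx
  refine ⟨N, p • m, ?_, ?_⟩
  · rw [smul_comm, h1, hj.smul]
  · rw [smul_comm, h2, map_smul, hE.smul]

theorem lin_mem (hv : ∀ i, i ∉ D.A → v i = 0) : lin v ∈ VI κ D.A := by
  unfold lin
  refine Ideal.sum_mem _ fun i _ => ?_
  by_cases hi : i ∈ D.A
  · exact Ideal.mul_mem_left _ _ (Ideal.subset_span ⟨i, hi, rfl⟩)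
  · rw [hv i hi, map_zero, zero_mul]
    exact zero_mem _

theorem Rl_Y (hv : ∀ i, i ∉ D.A → v i = 0) (hj : Ymd D v M M' j) (hE : Eta D z Q E ι)
    {x : M'.M} {u : E} (hx : Rl v π j ι x u) : Rl v π j ι (Yv κ n • x) (Yv κ n • u) := by
  obtain ⟨N, m, h1, h2⟩ := hx
  obtain ⟨N₀, hN₀⟩ := D.yA
  obtain ⟨a, ha⟩ := hN₀ (lin v ^ N₀) (Ideal.pow_mem_pow (lin_mem hv) N₀)
  have e1 : ∀ y : M'.M, (Yv κ n * emb κ n (lin v ^ N₀)) • y = emb κ n a • y := by
    intro y
    have := hj.kill _ ha y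
    rwa [sub_smul, sub_eq_zero] at this
  have e2 : ∀ y : E, (Yv κ n * emb κ n (lin v ^ N₀)) • y = emb κ n a • y := by
    intro y
    have := hE.kill _ ha y
    rwa [sub_smul, sub_eq_zero] at this
  refine ⟨N + N₀, a • m, ?_, ?_⟩
  · have h3 : (emb κ n (lin v) ^ (N + N₀) * Yv κ n : Po κ (n + 1)) =
        (Yv κ n * emb κ n (lin v ^ N₀)) * emb κ n (lin v) ^ N := by
      rw [map_pow, pow_add]; ring
    rw [← mul_smul, h3, mul_smul, h1, e1, hj.smul]
  · have h3 : (emb κ n (lin v) ^ (N + N₀) * Yv κ n : Po κ (n + 1)) =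
        (Yv κ n * emb κ n (lin v ^ N₀)) * emb κ n (lin v) ^ N := by
      rw [map_pow, pow_add]; ring
    rw [← mul_smul, h3, mul_smul, h2, e2, map_smul, hE.smul]

theorem Rl_smul (hv : ∀ i, i ∉ D.A → v i = 0) (hj : Ymd D v M M' j) (hE : Eta D z Q E ι)
    (P : Po κ (n + 1)) : ∀ {x : M'.M} {u : E}, Rl v π j ι x u → Rl v π j ι (P • x) (P • u) := by
  induction P using MvPolynomial.induction_on with
  | C a =>
    intro x u hx
    have := Rl_emb hj hE hx (C a)
    have h1 : emb κ n (C a) = (C a : Po κ (n + 1)) := rename_C _ _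
    rwa [h1] at this
  | add p q hp hq =>
    intro x u hx
    rw [add_smul, add_smul]
    exact Rl_add hj hE (hp hx) (hq hx)
  | mul_X p i hp =>
    intro x u hx
    rw [mul_smul, mul_smul]
    apply hp
    refine Fin.lastCases ?_ (fun i => ?_) i
    · exact Rl_Y hv hj hE hx
    · have := Rl_emb hj hE hx (X i)
      have h1 : emb κ n (X i) = (X (Fin.castSucc i) : Po κ (n + 1)) := rename_X _ _
      rwa [h1] at this

theorem Rl_unique (hj : Ymd D v M M' j) (hE : Eta D z Q E ι) (hk : Kil Q (aF D c))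
    (hg : GG D c z v) {x : M'.M} {u u' : E} (h : Rl v π j ι x u) (h' : Rl v π j ι x u') :
    u = u' := by
  obtain ⟨N, m, h1, h2⟩ := h
  obtain ⟨N', m', h1', h2'⟩ := h'
  obtain ⟨a1, a2⟩ := Rl_up hj hE h1 h2 N'
  obtain ⟨b1, b2⟩ := Rl_up hj hE h1' h2' N
  rw [add_comm N N'] at b1 b2
  have h3 : lin v ^ N' • m = lin v ^ N • m' := hj.inj (a1.symm.trans b1)
  rw [h3] at a2
  rw [← sub_eq_zero]
  apply gp_inj hE hk hg (N' + N)
  rw [smul_sub, a2, b2, sub_self]

theorem Rl_exists (hj : Ymd D v M M' j) (hE : Eta D z Q E ι) (hk : Kil Q (aF D c))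
    (hg : GG D c z v) (x : M'.M) : ∃ u, Rl v π j ι x u := by
  obtain ⟨h1, -, -, -, -, -, h7, -, -, -⟩ := cmp_proof κ (n + 1) M'
  have hom : ∀ k x, x ∈ M'.gr k → ∃ u, Rl v π j ι x u := by
    intro k x hx
    obtain ⟨N, m, -, hm⟩ := hj.back k x hx
    obtain ⟨u, hu⟩ := gp_surj hE hk hg N (ι (π.f m))
    exact ⟨u, N, m, hm, hu⟩
  obtain ⟨S, hS, -⟩ := h7 x
  rw [hS]
  clear hS
  classical
  induction S using Finset.induction_on with
  | empty =>
    refine ⟨0, 0, 0, ?_, ?_⟩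
    · rw [Finset.sum_empty, smul_zero, map_zero]
    · rw [smul_zero, map_zero, map_zero]
  | insert k S hk' ih =>
    obtain ⟨u, hu⟩ := ih
    obtain ⟨u', hu'⟩ := hom k _ (h1 k x)
    rw [Finset.sum_insert hk']
    exact ⟨u' + u, Rl_add hj hE hu' hu⟩

/-- the extension -/
theorem extend (hv : ∀ i, i ∉ D.A → v i = 0) (hj : Ymd D v M M' j) (hE : Eta D z Q E ι)
    (hk : Kil Q (aF D c)) (hg : GG D c z v) :
    ∃ J : M'.M →ₗ[Po κ (n + 1)] E, ∀ m : M.M, J (j m) = ι (π.f m) := by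
  choose J hJ using fun x => Rl_exists (π := π) hj hE hk hg x
  refine ⟨{ toFun := J, map_add' := fun x y => ?_, map_smul' := fun P x => ?_ }, fun m => ?_⟩
  · exact Rl_unique hj hE hk hg (hJ _) (Rl_add hj hE (hJ x) (hJ y))
  · exact Rl_unique hj hE hk hg (hJ _) (Rl_smul hv hj hE P (hJ x))
  · exact Rl_unique hj hE hk hg (hJ _) ⟨0, m, by rw [pow_zero, one_smul],
      by rw [pow_zero, one_smul]⟩

end Rel

/-- multiplication by a power of a variable commutes with the components -/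
theorem cmp_pow {κ : Type} [Field κ] {r : ℕ} (M : GMod κ r) (i : Fin r) (c : ℕ) :
    ∀ (k : ℤ) (x : M.M), M.cmp (k + c) ((X i : Po κ r) ^ c • x) = (X i : Po κ r) ^ c • M.cmp k x := by
  obtain ⟨-, -, -, -, -, h6, -, -, -, -⟩ := cmp_proof κ r M
  induction c with
  | zero => intro k x; simp
  | succ c ih =>
    intro k x
    have e1 : k + ((c + 1 : ℕ) : ℤ) = (k + 1) + c := by push_cast; ring
    rw [e1, pow_succ, mul_smul, ih (k + 1), h6, mul_smul]

/-- `X i ^ c M` is a homogeneous submodule -/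
theorem hom_pow {κ : Type} [Field κ] {r : ℕ} (M : GMod κ r) (i : Fin r) (c : ℕ) :
    IsHom M (LinearMap.range (LinearMap.lsmul (Po κ r) M.M ((X i : Po κ r) ^ c))) := by
  obtain ⟨-, -, -, -, -, -, -, -, h9, -⟩ := cmp_proof κ r M
  rw [h9]
  rintro _ ⟨y, rfl⟩ k
  refine ⟨M.cmp (k - c) y, ?_⟩
  rw [LinearMap.lsmul_apply, LinearMap.lsmul_apply, ← cmp_pow, sub_add_cancel]

end UPE_

open UPE_ in
theorem upe_proof (hYMD : Stmt_YMD) (hYGR : Stmt_YGR) (hYTL : Stmt_YTL) (hRWL : Stmt_RWL) :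
    Stmt_UPE := by
  classical
  intro κ _ n D c z v w hc hz hg hw r M Q π hπ hker hfin hkil htf hrk E _ _ ι hE
  have hv := hg.1
  -- `Q` is killed by `aF`
  have hQk : Kil Q (aF D c) := by
    have h1 : aF D c ≤ Module.annihilator (Po κ n) Q.M := by
      unfold aF
      refine sup_le (fun p hp => ?_) ?_
      · rw [Module.mem_annihilator]
        intro q
        obtain ⟨m, rfl⟩ := hπ q
        rw [← map_smul, hkil p hp m, map_zero]
      · rw [Ideal.span_le, Set.singleton_subset_iff]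
        change _ ∈ Module.annihilator (Po κ n) Q.M
        rw [Module.mem_annihilator]
        intro q
        obtain ⟨m, rfl⟩ := hπ q
        rw [← map_smul]
        exact (hker _).2 ⟨m, rfl⟩
    intro p hp q
    exact Module.mem_annihilator.1 (h1 hp) q
  by_cases hgI : lin v ∈ D.IX
  · -- `E = 0`
    have hE0 : ∀ u : E, u = 0 := by
      intro u
      obtain ⟨-, g', s, hs, hgr⟩ := hg
      have h2 : (aeval z s : Po κ n) ∈ aF D c := by
        have h3 : lin v * g' ∈ aF D c := Ideal.mul_mem_right _ _ (Ideal.mem_sup_left hgI)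
        have h4 := sub_mem h3 hgr
        rwa [sub_sub_cancel] at h4
      exact hE.inj s hs u (kill_E hE (fun q => hQk _ h2 q) u)
    have : Subsingleton E := ⟨fun a b => (hE0 a).trans (hE0 b).symm⟩
    have h3 : rkw w E = 0 := by
      unfold rkw
      letI : Module (Po κ 3) E := Module.compHom E (aeval w : Po κ 3 →ₐ[κ] Po κ (n + 1)).toRingHom
      exact Module.finrank_zero_of_subsingleton
    rw [h3]
    exact Nat.zero_le _
  obtain ⟨M', j, hj⟩ := hYMD κ n D v hv M hkil (fun m hm => htf _ hgI m hm)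
  set x₀ : Po κ (n + 1) := X (Fin.castSucc D.c₀) with hx₀
  have hemb : emb κ n (X D.c₀) = x₀ := rename_X _ _
  have hcI : (X D.c₀ : Po κ n) ∉ D.IX := by
    intro h
    apply D.c₀I
    have h' : emb κ n (X D.c₀) ∈ D.I' := h
    rwa [hemb] at h'
  obtain ⟨C1, -, -, -, -, C6, C7, C8, -, -⟩ := cmp_proof κ (n + 1) M'
  -- `X c₀` is injective on `M'`
  have gpow : ∀ (N : ℕ) (x : M'.M), emb κ n (lin v) ^ N • x = 0 → x = 0 := by
    intro N
    induction N with
    | zero => intro x h; rwa [pow_zero, one_smul] at h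
    | succ N ih =>
      intro x h
      rw [pow_succ, mul_smul] at h
      exact hj.ginj x (ih _ h)
  have hxinj : ∀ x : M'.M, x₀ • x = 0 → x = 0 := by
    intro x hx
    apply C8
    intro k
    have h1 : x₀ • M'.cmp k x = 0 := by
      rw [hx₀, ← C6, ← hx₀, hx]
      have := C1 (k + 1) (0 : M'.M)
      have h2 := (cmp_proof κ (n + 1) M').2.2.2.2.1 (k + 1) 0 (0 : M'.M)
      rwa [zero_smul, zero_smul] at h2
    obtain ⟨N, m, -, hm⟩ := hj.back k _ (C1 k x)
    have h2 : j ((X D.c₀ : Po κ n) • m) = 0 := by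
      rw [hj.smul, hemb, ← hm, smul_comm, h1, smul_zero]
    have h3 : (X D.c₀ : Po κ n) • m = 0 := by
      apply hj.inj
      rw [h2, map_zero]
    have h4 : m = 0 := htf _ hcI m h3
    rw [h4, map_zero] at hm
    exact gpow N _ hm
  -- `M'` is finite
  have hfin' : Module.Finite (Po κ (n + 1)) M'.M := by
    obtain ⟨S, hS⟩ := hfin.fg_top
    refine ⟨⟨S.image j, ?_⟩⟩
    rw [eq_top_iff, ← hj.gen, Submodule.span_le]
    rintro _ ⟨m, rfl⟩
    have hm : m ∈ Submodule.span (Po κ n) (S : Set M.M) := by rw [hS]; trivial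
    change j m ∈ Submodule.span (Po κ (n + 1)) ((S.image j : Finset M'.M) : Set M'.M)
    induction hm using Submodule.span_induction with
    | mem m hm => exact Submodule.subset_span (by simpa using ⟨m, hm, rfl⟩)
    | zero => rw [map_zero]; exact zero_mem _
    | add a b _ _ ha hb => rw [map_add]; exact add_mem ha hb
    | smul p a _ ha => rw [hj.smul]; exact Submodule.smul_mem _ _ ha
  obtain ⟨Q', π', hπ', hker', -⟩ := quo_proof cmp_proof κ (n + 1) M' _
    (hom_pow M' (Fin.castSucc D.c₀) c)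
  have hk' : ∀ x : M'.M, π'.f x = 0 ↔ ∃ y : M'.M, x = x₀ ^ c • y := by
    intro x
    rw [← LinearMap.mem_ker, hker', LinearMap.mem_range]
    exact ⟨fun ⟨y, hy⟩ => ⟨y, hy.symm⟩, fun ⟨y, hy⟩ => ⟨y, hy.symm⟩⟩
  obtain ⟨C, hC⟩ := hYGR κ n D v r hv hgI M hfin hkil htf hrk M' j hj
  obtain ⟨hFw, hle⟩ := hYTL κ n D z w hz hw c hc (r * D.e') M' Q' π' hπ' hk' hxinj hfin' hj.kill
    ⟨C, fun m => by
      have := (hC m).2
      push_cast
      exact this⟩
  -- the map to `E`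
  obtain ⟨J, hJ⟩ := extend (π := π) hv hj hE hQk hg
  have hJk : LinearMap.ker π'.f ≤ LinearMap.ker J := by
    intro x hx
    obtain ⟨y, rfl⟩ := (hk' x).1 hx
    rw [LinearMap.mem_ker, map_smul, ← hemb, ← map_pow]
    exact kill_E hE (fun q => hQk _ (Ideal.mem_sup_right (Ideal.subset_span rfl)) q) _
  let l : Q'.M →ₗ[Po κ (n + 1)] E :=
    ((LinearMap.ker π'.f).liftQ J hJk).comp
      (π'.f.quotKerEquivOfSurjective hπ').symm.toLinearMap
  have hl : ∀ x, l (π'.f x) = J x := by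
    intro x
    change (LinearMap.ker π'.f).liftQ J hJk ((π'.f.quotKerEquivOfSurjective hπ').symm (π'.f x)) = J x
    have h1 : (π'.f.quotKerEquivOfSurjective hπ').symm (π'.f x) =
        Submodule.Quotient.mk x := by
      rw [LinearEquiv.symm_apply_eq]
      rfl
    rw [h1]
    exact Submodule.liftQ_apply _ _ _
  obtain ⟨-, h2, -⟩ := hRWL κ (n + 1) w {s | ∃ p : Po κ 3, p ≠ 0 ∧ s = emb κ n (aeval z p)}
    (by
      rintro _ ⟨p, hp, rfl⟩ _ ⟨p', hp', rfl⟩
      exact ⟨p * p', mul_ne_zero hp hp', by rw [map_mul, map_mul]⟩)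
    Q'.M E l (by
      rintro _ ⟨p, hp, rfl⟩ u hu
      exact hE.inj p hp u hu)
    (by
      intro u
      obtain ⟨p, hp, q, hq⟩ := hE.gen u
      obtain ⟨m, rfl⟩ := hπ q
      exact ⟨_, ⟨p, hp, rfl⟩, π'.f (j m), by rw [hl, hJ, hq]⟩) hFw
  exact h2.trans hle

end Pool.Agent.RST
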