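import Pool.Agent.RST.Stmts

/-!
# RST, module WFN: finite generation over the polynomial ring in `w`
-/

set_option autoImplicit false

open MvPolynomial Pool.Agent.GML

namespace Pool.Agent.RST

namespace WFN_

variable {κ : Type} [Field κ]

lemma hc_mul {r : ℕ} (w b : Po κ r) {e : ℕ} (hw : w.IsHomogeneous e) (d : ℕ) :
    homogeneousComponent (d + e) (w * b) = w * homogeneousComponent d b := by
  classical
  have h1 : w * b = ∑ k ∈ Finset.range (b.totalDegree + 1), w * homogeneousComponent k b := by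
    rw [← Finset.mul_sum, sum_homogeneousComponent]
  rw [h1, map_sum]
  have h2 : ∀ k ∈ Finset.range (b.totalDegree + 1),
      homogeneousComponent (d + e) (w * homogeneousComponent k b) =
        if d = k then w * homogeneousComponent k b else 0 := by
    intro k _
    have h3 : w * homogeneousComponent k b ∈ homogeneousSubmodule (Fin r) κ (e + k) :=
      hw.mul (homogeneousComponent_isHomogeneous k b)
    rw [homogeneousComponent_of_mem h3]
    by_cases hk : d = k
    · rw [if_pos hk, if_pos (by omega)]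
    · rw [if_neg hk, if_neg (by omega)]
  rw [Finset.sum_congr rfl h2, Finset.sum_ite_eq]
  split_ifs with h
  · rfl
  · rw [homogeneousComponent_eq_zero d b (by
      rw [Finset.mem_range] at h; omega), mul_zero]

lemma hc_mul_lt {r : ℕ} (w b : Po κ r) {e : ℕ} (hw : w.IsHomogeneous e) {d : ℕ} (hd : d < e) :
    homogeneousComponent d (w * b) = 0 := by
  classical
  have h1 : w * b = ∑ k ∈ Finset.range (b.totalDegree + 1), w * homogeneousComponent k b := by
    rw [← Finset.mul_sum, sum_homogeneousComponent]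
  rw [h1, map_sum]
  refine Finset.sum_eq_zero fun k _ => ?_
  have h3 : w * homogeneousComponent k b ∈ homogeneousSubmodule (Fin r) κ (e + k) :=
    hw.mul (homogeneousComponent_isHomogeneous k b)
  rw [homogeneousComponent_of_mem h3, if_neg (by omega)]

lemma homI_sup {r : ℕ} {I : Ideal (Po κ r)} (hI : HomI I) {y : Po κ r} {e : ℕ}
    (hy : y.IsHomogeneous e) : HomI (I ⊔ Ideal.span {y}) := by
  intro p hp d
  obtain ⟨a, ha, b, hb, rfl⟩ := Submodule.mem_sup.1 hp
  obtain ⟨c, rfl⟩ := Ideal.mem_span_singleton.1 hb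
  rw [map_add]
  refine Ideal.add_mem _ (Ideal.mem_sup_left (hI a ha d)) (Ideal.mem_sup_right ?_)
  by_cases hd : d < e
  · rw [hc_mul_lt y c hy hd]
    exact Ideal.zero_mem _
  · obtain ⟨d', rfl⟩ : ∃ d', d = d' + e := ⟨d - e, by omega⟩
    rw [hc_mul y c hy]
    exact Ideal.mul_mem_right _ _ (Ideal.mem_span_singleton_self y)

lemma pow_sup {A : Type} [CommRing A] (I J : Ideal A) (x y : A) (N c : ℕ)
    (h : x ^ N ∈ I ⊔ Ideal.span {y} ⊔ J) : x ^ (N * c) ∈ I ⊔ Ideal.span {y ^ c} ⊔ J := by
  have h0 : x ^ N ∈ (I ⊔ J) ⊔ Ideal.span {y} := by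
    rwa [sup_right_comm] at h
  obtain ⟨a, ha, b, hb, hab⟩ := Submodule.mem_sup.1 h0
  obtain ⟨t, rfl⟩ := Ideal.mem_span_singleton.1 hb
  have h1 : x ^ (N * c) - y ^ c * t ^ c ∈ I ⊔ J := by
    rw [← Ideal.Quotient.eq, pow_mul, ← hab, ← mul_pow, map_pow, map_pow, map_add,
      Ideal.Quotient.eq_zero_iff_mem.2 ha, zero_add]
  have h2 : y ^ c * t ^ c ∈ Ideal.span {y ^ c} :=
    Ideal.mul_mem_right _ _ (Ideal.mem_span_singleton_self _)
  have h3 : x ^ (N * c) = (x ^ (N * c) - y ^ c * t ^ c) + y ^ c * t ^ c := by ring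
  rw [h3, sup_right_comm]
  exact Ideal.add_mem _ (Ideal.mem_sup_left h1) (Ideal.mem_sup_right h2)

lemma nak {r : ℕ} (w : Fin 3 → Po κ r) (hw : ∀ i, (w i).IsHomogeneous 1) (I : Ideal (Po κ r))
    (hI : HomI I)
    (hN : ∀ i : Fin r, ∃ N : ℕ, (X i : Po κ r) ^ N ∈ I ⊔ Ideal.span (Set.range w)) :
    ∃ T : Finset (Po κ r), ∀ f : Po κ r, ∃ P : Po κ r → Po κ 3,
      f - ∑ t ∈ T, aeval w (P t) * t ∈ I := by
  classical
  choose N hN using hN
  set m0 : ℕ := ∑ i, N i with hm0
  set T : Finset (Po κ r) := (Finset.univ : Finset (Fin r → Fin (m0 + 1))).image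
    (fun e => monomial (Finsupp.equivFunOnFinite.symm (fun i => (e i : ℕ))) (1 : κ)) with hT
  refine ⟨T, ?_⟩
  set Q : Po κ r → Prop := fun f => ∃ P : Po κ r → Po κ 3,
      f - ∑ t ∈ T, aeval w (P t) * t ∈ I with hQ
  have Qadd : ∀ f g, Q f → Q g → Q (f + g) := by
    rintro f g ⟨P, hP⟩ ⟨P', hP'⟩
    refine ⟨fun t => P t + P' t, ?_⟩
    have h1 : f + g - ∑ t ∈ T, aeval w (P t + P' t) * t =
        (f - ∑ t ∈ T, aeval w (P t) * t) + (g - ∑ t ∈ T, aeval w (P' t) * t) := by
      rw [Finset.sum_congr rfl (fun t _ => by rw [map_add, add_mul]), Finset.sum_add_distrib]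
      ring
    rw [h1]
    exact I.add_mem hP hP'
  have Qmul : ∀ (p : Po κ 3) f, Q f → Q (aeval w p * f) := by
    rintro p f ⟨P, hP⟩
    refine ⟨fun t => p * P t, ?_⟩
    have h1 : aeval w p * f - ∑ t ∈ T, aeval w (p * P t) * t =
        aeval w p * (f - ∑ t ∈ T, aeval w (P t) * t) := by
      rw [mul_sub, Finset.mul_sum]
      congr 1
      exact Finset.sum_congr rfl (fun t _ => by rw [map_mul]; ring)
    rw [h1]
    exact I.mul_mem_left _ hP
  have QI : ∀ f ∈ I, Q f := by
    intro f hf
    refine ⟨fun _ => 0, ?_⟩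
    rw [Finset.sum_eq_zero (fun t _ => by rw [map_zero, zero_mul]), sub_zero]
    exact hf
  have Qt : ∀ t ∈ T, Q t := by
    intro t ht
    refine ⟨fun s => if s = t then 1 else 0, ?_⟩
    have h1 : ∑ s ∈ T, aeval w (if s = t then (1 : Po κ 3) else 0) * s = t := by
      rw [Finset.sum_eq_single t]
      · rw [if_pos rfl, map_one, one_mul]
      · intro s _ hs
        rw [if_neg hs, map_zero, zero_mul]
      · intro h
        exact absurd ht h
    rw [h1, sub_self]
    exact I.zero_mem
  have Qsum : ∀ {ι : Type} (s : Finset ι) (g : ι → Po κ r), (∀ i ∈ s, Q (g i)) →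
      Q (∑ i ∈ s, g i) := by
    intro ι s g h
    refine Finset.sum_induction g Q Qadd (QI 0 I.zero_mem) h
  have hstep : ∀ (f : Po κ r), (∀ s ∈ f.support, Q (monomial s (1 : κ))) → Q f := by
    intro f hf
    rw [f.as_sum]
    refine Qsum _ _ fun s hs => ?_
    have h1 : monomial s (coeff s f) = aeval w (C (coeff s f) : Po κ 3) * monomial s (1 : κ) := by
      rw [aeval_C, algebraMap_eq, C_mul_monomial, mul_one]
    rw [h1]
    exact Qmul _ _ (hf s hs)
  have hmon : ∀ (d : ℕ) (s : Fin r →₀ ℕ), s.degree = d → Q (monomial s (1 : κ)) := by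
    intro d
    induction d using Nat.strong_induction_on with
    | _ d ih =>
      intro s hs
      by_cases hall : ∀ i, s i ≤ m0
      · apply Qt
        rw [hT, Finset.mem_image]
        refine ⟨fun i => ⟨s i, by have := hall i; omega⟩, Finset.mem_univ _, ?_⟩
        have h0 : (Finsupp.equivFunOnFinite.symm (fun i => s i) : Fin r →₀ ℕ) = s := by
          ext i
          rfl
        show monomial (Finsupp.equivFunOnFinite.symm (fun i => s i)) (1 : κ) = monomial s 1
        rw [h0]
      · push Not at hall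
        obtain ⟨i, hi⟩ := hall
        have hNi : N i ≤ m0 := Finset.single_le_sum (f := N) (fun _ _ => Nat.zero_le _)
          (Finset.mem_univ i)
        have hsd : s i ≤ d := by
          rw [← hs]
          exact Finsupp.le_degree i s
        have h1 : monomial s (1 : κ) = X i ^ N i * monomial (s - Finsupp.single i (N i)) 1 := by
          have hle : Finsupp.single i (N i) ≤ s := by
            rw [Finsupp.single_le_iff]
            omega
          rw [X_pow_eq_monomial, monomial_mul, one_mul, add_tsub_cancel_of_le hle]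
        have h2 : monomial s (1 : κ) ∈ I ⊔ Ideal.span (Set.range w) := by
          rw [h1]
          exact Ideal.mul_mem_right _ _ (hN i)
        obtain ⟨a, ha, b, hb, hab⟩ := Submodule.mem_sup.1 h2
        obtain ⟨c, hc⟩ := (Ideal.mem_span_range_iff_exists_fun).1 hb
        obtain ⟨d', rfl⟩ : ∃ d', d = d' + 1 := ⟨d - 1, by omega⟩
        have h3 : monomial s (1 : κ) = homogeneousComponent (d' + 1) a +
            ∑ j, w j * homogeneousComponent d' (c j) := by
          have h4 : monomial s (1 : κ) ∈ homogeneousSubmodule (Fin r) κ (d' + 1) :=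
            isHomogeneous_monomial _ hs
          have h5 := homogeneousComponent_of_mem (m := d' + 1) h4
          rw [if_pos rfl] at h5
          rw [← h5, ← hab, map_add, ← hc, map_sum]
          congr 1
          exact Finset.sum_congr rfl fun j _ => by rw [mul_comm, hc_mul _ _ (hw j)]
        rw [h3]
        refine Qadd _ _ (QI _ (hI a ha _)) (Qsum _ _ fun j _ => ?_)
        have h6 : w j * homogeneousComponent d' (c j) =
            aeval w (X j : Po κ 3) * homogeneousComponent d' (c j) := by rw [aeval_X]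
        rw [h6]
        refine Qmul _ _ (hstep _ fun s' hs' => ?_)
        refine ih d' (Nat.lt_succ_self d') s' ?_
        by_contra hne
        exact (mem_support_iff.1 hs') (by
          rw [coeff_homogeneousComponent, if_neg hne])
  intro f
  exact hstep f fun s _ => hmon _ s rfl

lemma gens {r : ℕ} (w : Fin 3 → Po κ r) (I : Ideal (Po κ r))
    (hT : ∃ T : Finset (Po κ r), ∀ f : Po κ r, ∃ P : Po κ r → Po κ 3,
      f - ∑ t ∈ T, aeval w (P t) * t ∈ I)
    (E : Type) [AddCommGroup E] [Module (Po κ r) E] (hfin : Module.Finite (Po κ r) E)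
    (hk : ∀ f ∈ I, ∀ v : E, f • v = 0) :
    ∃ T : Finset E, ∀ v : E, ∃ P : E → Po κ 3, v = ∑ t ∈ T, (aeval w (P t) : Po κ r) • t := by
  classical
  obtain ⟨T, hT⟩ := hT
  obtain ⟨G, hG⟩ := hfin.fg_top
  set U : Finset E := (T ×ˢ G).image (fun x => x.1 • x.2) with hU
  refine ⟨U, ?_⟩
  set Q : E → Prop := fun v => ∃ P : E → Po κ 3,
    v = ∑ t ∈ U, (aeval w (P t) : Po κ r) • t with hQ
  have Qadd : ∀ f g, Q f → Q g → Q (f + g) := by
    rintro f g ⟨P, hP⟩ ⟨P', hP'⟩
    refine ⟨fun t => P t + P' t, ?_⟩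
    rw [Finset.sum_congr rfl (fun t _ => by rw [map_add, add_smul]), Finset.sum_add_distrib,
      ← hP, ← hP']
  have Qmul : ∀ (p : Po κ 3) f, Q f → Q ((aeval w p : Po κ r) • f) := by
    rintro p f ⟨P, hP⟩
    refine ⟨fun t => p * P t, ?_⟩
    rw [Finset.sum_congr rfl (fun t _ => by rw [map_mul, mul_smul]), ← Finset.smul_sum, ← hP]
  have Q0 : Q 0 := ⟨fun _ => 0, by
    rw [Finset.sum_eq_zero (fun t _ => by rw [map_zero, zero_smul])]⟩
  have Qt : ∀ t ∈ U, Q t := by
    intro t ht
    refine ⟨fun s => if s = t then 1 else 0, ?_⟩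
    have h1 : ∑ s ∈ U, (aeval w (if s = t then (1 : Po κ 3) else 0) : Po κ r) • s = t := by
      rw [Finset.sum_eq_single t]
      · rw [if_pos rfl, map_one, one_smul]
      · intro s _ hs
        rw [if_neg hs, map_zero, zero_smul]
      · intro h
        exact absurd ht h
    exact h1.symm
  have Qsum : ∀ {ι : Type} (s : Finset ι) (g : ι → E), (∀ i ∈ s, Q (g i)) →
      Q (∑ i ∈ s, g i) := by
    intro ι s g h
    exact Finset.sum_induction g Q Qadd Q0 h
  intro v
  have hv : v ∈ Submodule.span (Po κ r) (G : Set E) := by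
    rw [hG]
    exact Submodule.mem_top
  have hall : ∀ a : Po κ r, Q (a • v) := by
    induction hv using Submodule.span_induction with
    | mem x hx =>
      intro a
      obtain ⟨P, hP⟩ := hT a
      have h1 : a • x = ∑ t ∈ T, (aeval w (P t) : Po κ r) • (t • x) := by
        have h2 := hk _ hP x
        rw [sub_smul, sub_eq_zero, Finset.sum_smul] at h2
        exact h2.trans (Finset.sum_congr rfl fun t _ => by rw [mul_smul])
      rw [h1]
      exact Qsum _ _ fun t ht => Qmul _ _ (Qt _ (by
          rw [hU, Finset.mem_image]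
          exact ⟨(t, x), Finset.mem_product.2 ⟨ht, hx⟩, rfl⟩))
    | zero =>
      intro a
      rw [smul_zero]
      exact Q0
    | add x y _ _ hx hy =>
      intro a
      rw [smul_add]
      exact Qadd _ _ (hx a) (hy a)
    | smul b x _ hx =>
      intro a
      rw [← mul_smul]
      exact hx (a * b)
  have h1 := hall 1
  rw [one_smul] at h1
  exact h1

end WFN_

theorem wfn_proof (hZPC : Stmt_ZPC) : Stmt_WFN := by
  constructor
  · intro κ _ n D z w hz hw E _ _ hfin hI' hc
    obtain ⟨c, hc⟩ := hc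
    obtain ⟨⟨a, b, hw0⟩, hw1, hw2, hnil⟩ := hw
    have hemb : ∀ i, (emb κ n (z i)).IsHomogeneous 1 := fun i =>
      (hz.1 i).rename_isHomogeneous
    have hwh : ∀ i, (w i).IsHomogeneous 1 := by
      intro i
      fin_cases i
      · show (w 0).IsHomogeneous 1
        rw [hw0]
        have h1 : (C a * emb κ n (z 0)).IsHomogeneous (0 + 1) :=
          (isHomogeneous_C _ a).mul (hemb 0)
        have h2 : (C b * Yv κ n).IsHomogeneous (0 + 1) :=
          (isHomogeneous_C _ b).mul (isHomogeneous_X _ _)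
        exact h1.add h2
      · show (w 1).IsHomogeneous 1
        rw [hw1]
        exact hemb 1
      · show (w 2).IsHomogeneous 1
        rw [hw2]
        exact hemb 2
    have hX : ((X (Fin.castSucc D.c₀) : Po κ (n + 1)) ^ c).IsHomogeneous (1 * c) :=
      (isHomogeneous_X κ _).pow c
    refine WFN_.gens w (D.I' ⊔ Ideal.span {(X (Fin.castSucc D.c₀) : Po κ (n + 1)) ^ c})
      (WFN_.nak w hwh _ (WFN_.homI_sup D.hom hX) fun i => ?_) E hfin ?_
    · obtain ⟨N, hN⟩ := hnil i
      exact ⟨N * c, WFN_.pow_sup _ _ _ _ N c hN⟩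
    · intro f hf v
      obtain ⟨p, hp, q, hq, rfl⟩ := Submodule.mem_sup.1 hf
      obtain ⟨t, rfl⟩ := Ideal.mem_span_singleton.1 hq
      rw [add_smul, hI' p hp v, zero_add, mul_comm, mul_smul, hc v, smul_zero]
  · intro κ _ n D c z hz E _ _ hfin hk
    exact WFN_.gens z (aF D c) (hZPC κ n D c z hz) E hfin hk

end Pool.Agent.RST
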