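import Pool.Agent.RST.Stmts

/-!
# The sections in `F B` are `F` times sections
-/

set_option autoImplicit false

open MvPolynomial Pool.Agent.GML

namespace Pool.Agent.RST

theorem wfs_proof (hCFS : Stmt_CFS) : Stmt_WFS := by
  intro Z Y m hm
  classical
  obtain ⟨hF0, -, -, hFc, -, -, -⟩ := hCFS.2 Z Y
  have hFL : algebraMap Z.B Z.L Y.F ≠ 0 := by
    rw [Ne, FaithfulSMul.algebraMap_eq_zero_iff]
    exact hF0
  have := Z.W_fin (m - Y.c)
  let f : Z.L →ₗ[Z.K] Z.L := LinearMap.mulLeft Z.K (algebraMap Z.B Z.L Y.F)⁻¹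
  have hf : ∀ b, f b = (algebraMap Z.B Z.L Y.F)⁻¹ * b := fun b => rfl
  have hmem : ∀ b ∈ Z.WP' (Ideal.span {Y.F}) m, f b ∈ Z.WP' ⊤ (m - Y.c) := by
    rintro b ⟨J, hJ, h⟩
    refine ⟨J, hJ, fun i j hj hji => ?_⟩
    obtain ⟨b', hb', hbd, hb⟩ := h i j hj hji
    obtain ⟨a, rfl⟩ := Ideal.mem_span_singleton'.mp hb'
    refine ⟨a, Submodule.mem_top, ?_, ?_⟩
    · have h1 : Y.c ≤ i + m := by omega
      have h2 := DirectSum.coe_decompose_mul_of_left_mem_of_le Z.ℬ (b := a) hFc h1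
      rw [mul_comm] at hbd
      rw [DirectSum.decompose_of_mem_same _ hbd] at h2
      have h3 := mul_left_cancel₀ hF0 h2
      rw [h3, show i + (m - Y.c) = i + m - Y.c by omega]
      exact SetLike.coe_mem _
    · rw [hf, mul_left_comm, hb, map_mul, mul_comm (algebraMap Z.B Z.L a), ← mul_assoc,
        inv_mul_cancel₀ hFL, one_mul]
  let g : Z.WP' (Ideal.span {Y.F}) m →ₗ[Z.K] Z.WP' ⊤ (m - Y.c) := f.restrict hmem
  refine LinearMap.finrank_le_finrank_of_injective (f := g) ?_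
  intro a b hab
  have h1 : f a.1 = f b.1 := congrArg Subtype.val hab
  rw [hf, hf] at h1
  exact Subtype.ext (mul_left_cancel₀ (inv_ne_zero hFL) h1)

end Pool.Agent.RST
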