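import Pool.Agent.RST.Stmts

/-!
# RST, module WMN: the number of sections modulo `q` is nondecreasing
-/

set_option autoImplicit false

open MvPolynomial Pool.Agent.GML

namespace Pool.Agent.RST

namespace WMN_

lemma smul_eq (Z : Ctx) (v : Z.V) (y : Z.B) : v • y = algebraMap Z.V Z.K v • y := by
  rw [algebraMap_smul]

lemma proj_smul (Z : Ctx) (v : Z.V) (y : Z.B) (m : ℕ) :
    GradedRing.proj Z.ℬ m (v • y) = v • GradedRing.proj Z.ℬ m y := by
  rw [smul_eq, smul_eq, GradedRing.proj_apply, GradedRing.proj_apply, DirectSum.decompose_smul]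
  rfl

lemma proj_self (Z : Ctx) (y : Z.B) (m : ℕ) (h : y ∈ Z.ℬ m) : GradedRing.proj Z.ℬ m y = y := by
  rw [GradedRing.proj_apply, DirectSum.decompose_of_mem_same _ h]

lemma proj_q (Z : Ctx) (y : Z.B) (m : ℕ) (h : y ∈ Z.q) : GradedRing.proj Z.ℬ m y ∈ Z.q := by
  rw [GradedRing.proj_apply]
  exact Z.q_hom m h

lemma proj_zero (Z : Ctx) (y : Z.B) : ∃ N : ℕ, ∀ m, N ≤ m → GradedRing.proj Z.ℬ m y = 0 := by
  classical
  refine ⟨(DirectSum.decompose Z.ℬ y).support.sup id + 1, fun m hm => ?_⟩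
  rw [GradedRing.proj_apply]
  by_contra h
  have h1 : m ∈ (DirectSum.decompose Z.ℬ y).support := by
    rw [DFinsupp.mem_support_toFun]
    intro h2
    exact h (by rw [h2]; rfl)
  have h2 : id m ≤ (DirectSum.decompose Z.ℬ y).support.sup id := Finset.le_sup h1
  simp only [id_eq] at h2
  omega

lemma proj_zero_fin (Z : Ctx) (T : Finset Z.B) :
    ∃ N : ℕ, ∀ t ∈ T, ∀ m, N ≤ m → GradedRing.proj Z.ℬ m t = 0 := by
  classical
  choose N hN using proj_zero Z
  exact ⟨T.sup N, fun t ht m hm => hN t m (le_trans (Finset.le_sup ht) hm)⟩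

lemma aeval_sub (Z : Ctx) (h : ∀ c, Z.x c ∈ Z.q) (G : Po Z.V Z.n) :
    aeval Z.x G - algebraMap Z.V Z.B (constantCoeff G) ∈ Z.q := by
  induction G using MvPolynomial.induction_on with
  | C a => simp
  | add p q hp hq =>
    have h1 := Z.q.add_mem hp hq
    convert h1 using 1
    rw [map_add, map_add, map_add]
    ring
  | mul_X p c hp =>
    rw [map_mul, map_mul, aeval_X, constantCoeff_X, mul_zero, map_zero, sub_zero]
    exact Z.q.mul_mem_left _ (h c)

lemma exists_x (Z : Ctx) (hδ : 0 < Z.δ) : ∃ c, Z.x c ∉ Z.q := by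
  by_contra hcon
  have h : ∀ c, Z.x c ∈ Z.q := fun c => by
    by_contra hc
    exact hcon ⟨c, hc⟩
  obtain ⟨T, hT, hfin⟩ := Z.S_fin
  obtain ⟨N, hN⟩ := proj_zero_fin Z T
  have hϖ : algebraMap Z.V Z.K Z.ϖ ≠ 0 := by
    intro h0
    exact Z.irr.ne_zero ((IsFractionRing.injective Z.V Z.K) (by rw [h0, map_zero]))
  have hB : ∀ m, N ≤ m → ∀ b ∈ Z.ℬ m, b ∈ Z.q := by
    intro m hm b hb
    obtain ⟨k, hk⟩ := Z.S_lat b
    obtain ⟨G, hG⟩ := hfin _ hk
    have h1 : Z.ϖ ^ k • b - ∑ t ∈ T, (constantCoeff (G t)) • t ∈ Z.q := by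
      rw [hG, ← Finset.sum_sub_distrib]
      refine Z.q.sum_mem fun t _ => ?_
      rw [Algebra.smul_def, ← sub_mul]
      exact Z.q.mul_mem_right _ (aeval_sub Z h _)
    have h2 := proj_q Z _ m h1
    rw [map_sub, proj_smul, proj_self Z b m hb, map_sum, Finset.sum_eq_zero, sub_zero] at h2
    · have h3 : b = algebraMap Z.K Z.B ((algebraMap Z.V Z.K Z.ϖ ^ k)⁻¹) * (Z.ϖ ^ k • b) := by
        rw [← Algebra.smul_def, smul_eq, smul_smul, map_pow, inv_mul_cancel₀ (pow_ne_zero _ hϖ),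
          one_smul]
      rw [h3]
      exact Z.q.mul_mem_left _ h2
    · intro t ht
      rw [proj_smul, hN t ht m hm, smul_zero]
  obtain ⟨C, hC⟩ := Z.q_grow
  have h1 := hC (N + 4 * C + 4)
  have h2 : (Z.ℬ (N + 4 * C + 4)).map (Ideal.Quotient.mkₐ Z.K Z.q).toLinearMap = ⊥ := by
    rw [eq_bot_iff]
    rintro _ ⟨b, hb, rfl⟩
    rw [Submodule.mem_bot]
    exact Ideal.Quotient.eq_zero_iff_mem.mpr (hB _ (by omega) b hb)
  rw [h2, finrank_bot] at h1
  have h3 : (1 : ℚ) ≤ Z.δ := by exact_mod_cast hδ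
  push_cast at h1
  set M : ℚ := (N : ℚ) + 4 * C + 4 with hM
  have hCpos : (0 : ℚ) ≤ C := Nat.cast_nonneg _
  have hNpos : (0 : ℚ) ≤ N := Nat.cast_nonneg _
  have h4 : M ^ 2 / 2 ≤ Z.δ * M ^ 2 / 2 := by
    have : 0 ≤ M ^ 2 := sq_nonneg M
    nlinarith
  have h5 : M ^ 2 / 2 ≤ C * (M + 1) := by linarith
  have h6 : 4 * (C : ℚ) + 4 ≤ M := by rw [hM]; linarith
  nlinarith

lemma wp_mono (Z : Ctx) (m : ℕ) : Z.WP' Z.q m ≤ Z.WP' ⊤ m := by
  rintro b ⟨J, hJ, h⟩
  refine ⟨J, hJ, fun i j hj hji => ?_⟩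
  obtain ⟨b', -, hb', hb⟩ := h i j hj hji
  exact ⟨b', Submodule.mem_top, hb', hb⟩

end WMN_

theorem wmn_proof : Stmt_WMN := by
  intro Z hδ m
  have := Z.W_fin m
  have := Z.W_fin (m + 1)
  have : Module.Finite Z.K (Z.WP' Z.q m) :=
    Module.Finite.of_injective (Submodule.inclusion (WMN_.wp_mono Z m))
      (Submodule.inclusion_injective _)
  have : Module.Finite Z.K (Z.WP' Z.q (m + 1)) :=
    Module.Finite.of_injective (Submodule.inclusion (WMN_.wp_mono Z (m + 1)))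
      (Submodule.inclusion_injective _)
  refine ⟨LinearMap.finrank_le_finrank_of_injective
    (f := Submodule.inclusion (WMN_.wp_mono Z m)) (Submodule.inclusion_injective _), ?_⟩
  obtain ⟨c, hc⟩ := WMN_.exists_x Z hδ
  -- multiplication by `x_c`
  have hmul : ∀ b ∈ Z.WP' ⊤ m, algebraMap Z.B Z.L (Z.x c) * b ∈ Z.WP' ⊤ (m + 1) := by
    rintro b ⟨J, hJ, h⟩
    refine ⟨J, hJ, fun i j hj hji => ?_⟩
    obtain ⟨b', -, hb', hb⟩ := h i j hj hji
    refine ⟨Z.x c * b', Submodule.mem_top, ?_, ?_⟩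
    · have h1 := SetLike.mul_mem_graded (Z.x_deg c) hb'
      rwa [show 1 + (i + m) = i + (m + 1) by ring] at h1
    · rw [mul_left_comm, hb, map_mul]
  let φ : Z.WP' ⊤ m →ₗ[Z.K] Z.WP' ⊤ (m + 1) :=
    { toFun := fun b => ⟨algebraMap Z.B Z.L (Z.x c) * b, hmul b b.2⟩
      map_add' := fun b b' => by
        apply Subtype.ext
        simp only [Submodule.coe_add, mul_add]
      map_smul' := fun v b => by
        apply Subtype.ext
        simp only [SetLike.val_smul, RingHom.id_apply, mul_smul_comm] }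
  let Q1 : Submodule Z.K (Z.WP' ⊤ (m + 1)) := (Z.WP' Z.q (m + 1)).comap (Submodule.subtype _)
  let Q0 : Submodule Z.K (Z.WP' ⊤ m) := (Z.WP' Z.q m).comap (Submodule.subtype _)
  have hker : ∀ b : Z.WP' ⊤ m, φ b ∈ Q1 → b ∈ Q0 := by
    rintro ⟨b, J, hJ, h⟩ ⟨J', hJ', h'⟩
    refine ⟨J * J', Z.JJ_mul J hJ J' hJ', fun i j hj hji => ?_⟩
    have hj2 : j ∈ J ⊓ J' := Ideal.mul_le_inf hj
    obtain ⟨b', -, hbd, hb⟩ := h i j hj2.1 hji
    obtain ⟨c', hc', hcd, hcc⟩ := h' i j hj2.2 hji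
    refine ⟨b', ?_, hbd, hb⟩
    have h1 : Z.x c * b' = c' := by
      apply IsFractionRing.injective Z.B Z.L
      rw [map_mul, ← hb, ← hcc]
      change _ = _ * (_ * b)
      ring
    rw [← h1] at hc'
    rcases Z.q_prime.mem_or_mem hc' with h2 | h2
    · exact absurd h2 hc
    · exact h2
  have h1 : Module.finrank Z.K (Z.WP' ⊤ m ⧸ Q0) ≤ Module.finrank Z.K (Z.WP' ⊤ (m + 1) ⧸ Q1) := by
    have hle : Q0 ≤ Q1.comap φ := by
      rintro ⟨b, hb⟩ ⟨J, hJ, h⟩
      refine ⟨J, hJ, fun i j hj hji => ?_⟩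
      obtain ⟨b', hbq, hb', hb⟩ := h i j hj hji
      refine ⟨Z.x c * b', Z.q.mul_mem_left _ hbq, ?_, ?_⟩
      · have h1 := SetLike.mul_mem_graded (Z.x_deg c) hb'
        rwa [show 1 + (i + m) = i + (m + 1) by ring] at h1
      · change _ * (algebraMap Z.B Z.L (Z.x c) * b) = _
        change _ * b = _ at hb
        rw [mul_left_comm, hb, map_mul]
    refine LinearMap.finrank_le_finrank_of_injective (f := Submodule.mapQ Q0 Q1 φ hle) ?_
    rw [← LinearMap.ker_eq_bot, LinearMap.ker_eq_bot']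
    intro b hb
    obtain ⟨b, rfl⟩ := Submodule.Quotient.mk_surjective _ b
    rw [Submodule.mapQ_apply, Submodule.Quotient.mk_eq_zero] at hb
    rw [Submodule.Quotient.mk_eq_zero]
    exact hker b hb
  have h2 := Submodule.finrank_quotient_add_finrank Q0
  have h3 := Submodule.finrank_quotient_add_finrank Q1
  have h4 : Module.finrank Z.K Q0 = Module.finrank Z.K (Z.WP' Z.q m) :=
    LinearEquiv.finrank_eq (Submodule.comapSubtypeEquivOfLe (WMN_.wp_mono Z m))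
  have h5 : Module.finrank Z.K Q1 = Module.finrank Z.K (Z.WP' Z.q (m + 1)) :=
    LinearEquiv.finrank_eq (Submodule.comapSubtypeEquivOfLe (WMN_.wp_mono Z (m + 1)))
  omega

end Pool.Agent.RST
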