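import Pool.Agent.RST.Stmts

/-!
# RST: parameters `w` for `R' / (X c₀)`
-/

set_option autoImplicit false

namespace Pool.Agent.RST

open MvPolynomial Pool.Agent.GML

namespace WZR_

variable {κ : Type} [Field κ]

section hom

attribute [local instance] MvPolynomial.gradedAlgebra

lemma dec_eq {r : ℕ} (p : Po κ r) (i : ℕ) :
    (DirectSum.decompose (homogeneousSubmodule (Fin r) κ) p i : Po κ r) =
      homogeneousComponent i p := decomposition.decompose'_apply p i

lemma homI_iff {r : ℕ} (I : Ideal (Po κ r)) :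
    HomI I ↔ I.IsHomogeneous (homogeneousSubmodule (Fin r) κ) := by
  constructor
  · intro h i p hp
    rw [dec_eq]
    exact h p hp i
  · intro h p hp d
    exact homogeneousComponent_mem_of_mem h hp d

lemma homI_sup {r : ℕ} {I J : Ideal (Po κ r)} (hI : HomI I) (hJ : HomI J) : HomI (I ⊔ J) := by
  rw [homI_iff] at *
  exact hI.sup hJ

lemma homI_span {r : ℕ} {s : Set (Po κ r)} (d : ℕ) (h : ∀ p ∈ s, p.IsHomogeneous d) :
    HomI (Ideal.span s) := by
  rw [homI_iff]
  exact Ideal.homogeneous_span _ _ fun p hp => ⟨d, h p hp⟩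

lemma homI_comap {n : ℕ} {I : Ideal (Po κ (n + 1))} (hI : HomI I) : HomI (I.comap (emb κ n)) := by
  intro p hp d
  change emb κ n (homogeneousComponent d p) ∈ I
  have h : emb κ n (homogeneousComponent d p) = homogeneousComponent d (emb κ n p) :=
    rename_homogeneousComponent d p
  rw [h]
  exact hI _ hp d

lemma hc_mul {r : ℕ} (m : ℕ) (a b : Po κ r) (hb : b.IsHomogeneous 1) :
    homogeneousComponent (m + 1) (a * b) = homogeneousComponent m a * b := by
  have h := DirectSum.coe_decompose_mul_of_right_mem_of_le (homogeneousSubmodule (Fin r) κ)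
    (a := a) (n := m + 1) (i := 1) (b := b) hb (by omega)
  rwa [dec_eq, dec_eq, Nat.add_sub_cancel] at h

end hom

/-- graded Nakayama -/
lemma nak {r k : ℕ} (J : Ideal (Po κ r)) (hJ : HomI J) (w : Fin k → Po κ r)
    (hw : ∀ i, (w i).IsHomogeneous 1)
    (h : ∀ i, ∃ N : ℕ, (X i : Po κ r) ^ N ∈ J ⊔ Ideal.span (Set.range w)) :
    ((Ideal.Quotient.mk J).comp (aeval w : Po κ k →ₐ[κ] Po κ r).toRingHom).Finite := by
  choose N' hN' using h
  obtain ⟨N, hN0, hN⟩ : ∃ N : ℕ, 0 < N ∧ ∀ i, (X i : Po κ r) ^ N ∈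
      J ⊔ Ideal.span (Set.range w) := by
    refine ⟨(∑ i, N' i) + 1, Nat.succ_pos _, fun i => ?_⟩
    have : N' i ≤ (∑ i, N' i) + 1 :=
      (Finset.single_le_sum (f := N') (fun _ _ => Nat.zero_le _) (Finset.mem_univ i)).trans
        (Nat.le_succ _)
    exact Ideal.pow_mem_of_pow_mem _ (hN' i) this
  set φ := (Ideal.Quotient.mk J).comp (aeval w : Po κ k →ₐ[κ] Po κ r).toRingHom with hφ
  let _ := φ.toAlgebra
  change Module.Finite (Po κ k) (Po κ r ⧸ J)
  have hsm : ∀ (p : Po κ k) (q : Po κ r), p • (Ideal.Quotient.mk J q) =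
      Ideal.Quotient.mk J (aeval w p * q) := fun p q => by
    rw [map_mul, Algebra.smul_def]
    rfl
  -- the finite set of monomials
  let S : Set (Fin r →₀ ℕ) := {m | ∀ i, m i < N}
  have hS : S.Finite := by
    refine Set.Finite.of_injOn (f := fun m i => (⟨m i % N, Nat.mod_lt _ hN0⟩ : Fin N))
      (t := Set.univ) (fun _ _ => Set.mem_univ _) ?_ Set.finite_univ
    intro m hm m' hm' e
    ext i
    have h1 := congrArg Fin.val (congrFun e i)
    simp only at h1
    rwa [Nat.mod_eq_of_lt (hm i), Nat.mod_eq_of_lt (hm' i)] at h1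
  let T : Set (Po κ r ⧸ J) := (fun m => Ideal.Quotient.mk J (monomial m 1)) '' S
  have hT : T.Finite := hS.image _
  have key : ∀ d : ℕ, ∀ p : Po κ r, p.IsHomogeneous d →
      Ideal.Quotient.mk J p ∈ Submodule.span (Po κ k) T := by
    intro d
    induction d using Nat.strong_induction_on with
    | _ d IH =>
      intro p hp
      rw [p.as_sum, map_sum]
      refine Submodule.sum_mem _ fun m hm => ?_
      have hmd : m.degree = d := by
        by_contra hne
        exact (mem_support_iff.1 hm) (hp.coeff_eq_zero hne)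
      have hc : Ideal.Quotient.mk J (monomial m (coeff m p)) = (C (coeff m p) : Po κ k) •
          Ideal.Quotient.mk J (monomial m 1) := by
        rw [hsm, aeval_C, algebraMap_eq, C_mul_monomial, mul_one]
      rw [hc]
      apply Submodule.smul_mem
      by_cases hmS : m ∈ S
      · exact Submodule.subset_span ⟨m, hmS, rfl⟩
      · simp only [S, Set.mem_ofPred_eq, not_forall, not_lt] at hmS
        obtain ⟨i, hi⟩ := hmS
        obtain ⟨j, hj, y, hy, hjy⟩ := Submodule.mem_sup.1 (hN i)
        obtain ⟨g, hg⟩ := (Ideal.mem_span_range_iff_exists_fun).1 hy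
        have hXN : (X i : Po κ r) ^ N = homogeneousComponent N j +
            ∑ l, homogeneousComponent (N - 1) (g l) * w l := by
          have h1 : homogeneousComponent N ((X i : Po κ r) ^ N) = (X i : Po κ r) ^ N :=
            homogeneousComponent_eq_self (isHomogeneous_X_pow i N)
          rw [← h1, ← hjy, ← hg, map_add, map_sum]
          congr 1
          refine Finset.sum_congr rfl fun l _ => ?_
          have : N = (N - 1) + 1 := by omega
          conv_lhs => rw [this]
          exact hc_mul _ _ _ (hw l)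
        set m' := m - Finsupp.single i N with hm'
        have hmm : m = Finsupp.single i N + m' := by
          rw [hm', add_tsub_cancel_of_le]
          exact Finsupp.single_le_iff.2 hi
        have hdeg : m'.degree + N = d := by
          rw [← hmd, hmm, map_add, Finsupp.degree_single, add_comm]
        have hmon : (monomial m 1 : Po κ r) = X i ^ N * monomial m' 1 := by
          rw [X_pow_eq_monomial, monomial_mul, mul_one, ← hmm]
        rw [hmon, hXN, add_mul, map_add, Finset.sum_mul, map_sum]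
        refine Submodule.add_mem _ ?_ (Submodule.sum_mem _ fun l _ => ?_)
        · have : Ideal.Quotient.mk J (homogeneousComponent N j * monomial m' 1) = 0 :=
            Ideal.Quotient.eq_zero_iff_mem.2 (J.mul_mem_right _ (hJ j hj N))
          rw [this]
          exact Submodule.zero_mem _
        · have : Ideal.Quotient.mk J (homogeneousComponent (N - 1) (g l) * w l * monomial m' 1) =
              (X l : Po κ k) • Ideal.Quotient.mk J
                (homogeneousComponent (N - 1) (g l) * monomial m' 1) := by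
            rw [hsm, aeval_X]
            congr 1
            ring
          rw [this]
          apply Submodule.smul_mem
          refine IH (N - 1 + m'.degree) (by omega) _ ?_
          exact (homogeneousComponent_isHomogeneous _ _).mul (isHomogeneous_monomial 1 rfl)
  refine ⟨⟨hT.toFinset, ?_⟩⟩
  rw [Set.Finite.coe_toFinset, eq_top_iff]
  rintro q -
  obtain ⟨p, rfl⟩ := Ideal.Quotient.mk_surjective q
  rw [← sum_homogeneousComponent p, map_sum]
  exact Submodule.sum_mem _ fun i _ => key i _ (homogeneousComponent_isHomogeneous _ _)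

lemma hom_smul {B : Type} [CommRing B] [Algebra κ B] {k : ℕ} (f : Po κ k) (d : ℕ)
    (hf : f.IsHomogeneous d) (s : B) (u : Fin k → B) :
    aeval (fun i => s * u i) f = s ^ d * aeval u f := by
  rw [aeval_def, aeval_def, eval₂_eq, eval₂_eq, Finset.mul_sum]
  refine Finset.sum_congr rfl fun m hm => ?_
  have hmd : ∑ i ∈ m.support, m i = d := by
    by_contra hne
    exact (mem_support_iff.1 hm) (hf.coeff_eq_zero hne)
  have : ∏ i ∈ m.support, (s * u i) ^ m i = s ^ d * ∏ i ∈ m.support, u i ^ m i := by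
    rw [← hmd, ← Finset.prod_pow_eq_pow_sum, ← Finset.prod_mul_distrib]
    exact Finset.prod_congr rfl fun i _ => mul_pow _ _ _
  rw [this]
  ring

/-- a nonzero form in two variables and a general linear form generate an ideal which contains
powers of the variables -/
lemma nilp {B : Type} [CommRing B] [Algebra κ B] (f : Po κ 2) (d : ℕ) (hf : f.IsHomogeneous d)
    (a b : κ) (he : eval ![b, -a] f ≠ 0) (s t : B) (h0 : aeval ![s, t] f = 0)
    (hl : algebraMap κ B a * s + algebraMap κ B b * t = 0) : s ^ d = 0 ∧ t ^ d = 0 := by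
  set ca := algebraMap κ B a with hca
  set cb := algebraMap κ B b with hcb
  have hab : aeval ![cb, -ca] f = algebraMap κ B (eval ![b, -a] f) := by
    have h1 : (![cb, -ca] : Fin 2 → B) = fun i => algebraMap κ B (![b, -a] i) := by
      funext i
      fin_cases i
      · rfl
      · simp [hca]
    rw [h1]
    exact aeval_algebraMap_apply B ![b, -a] f
  have hu : IsUnit (algebraMap κ B (eval ![b, -a] f)) := (Ne.isUnit he).map _
  constructor
  · have h1 := hom_smul f d hf cb ![s, t]
    have h2 : (fun i => cb * ![s, t] i) = fun i => s * ![cb, -ca] i := by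
      funext i
      fin_cases i
      · exact mul_comm _ _
      · change cb * t = s * -ca
        linear_combination hl
    rw [h0, mul_zero, h2, hom_smul f d hf s, hab] at h1
    exact (hu.mul_left_eq_zero).1 h1
  · have h1 := hom_smul f d hf ca ![s, t]
    have h2 : (fun i => ca * ![s, t] i) = fun i => (-t) * ![cb, -ca] i := by
      funext i
      fin_cases i
      · change ca * s = -t * cb
        linear_combination hl
      · change ca * t = -t * -ca
        ring
    rw [h0, mul_zero, h2, hom_smul f d hf (-t), hab] at h1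
    have h3 := (hu.mul_left_eq_zero).1 h1
    rw [neg_pow] at h3
    exact (((isUnit_one.neg).pow d).mul_right_eq_zero).1 h3

section claimA

variable {n : ℕ} (D : XD κ n) (z : Fin 3 → Po κ n)

/-- the ideal of `X c₀`, `z 1`, `z 2` in the special fibre -/
noncomputable def I2 : Ideal (Po κ (n + 1)) :=
  D.I' ⊔ Ideal.span {(X (Fin.castSucc D.c₀) : Po κ (n + 1))} ⊔
    Ideal.span {emb κ n (z 1), emb κ n (z 2)}

noncomputable def J1 : Ideal (Po κ n) :=
  D.IX ⊔ Ideal.span {(X D.c₀ : Po κ n)} ⊔ Ideal.span {z 1, z 2}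

lemma emb_X (c : Fin n) : emb κ n (X c) = X (Fin.castSucc c) := rename_X _ _

lemma emb_hom {p : Po κ n} {d : ℕ} (h : p.IsHomogeneous d) : (emb κ n p).IsHomogeneous d :=
  h.rename_isHomogeneous

variable {z}

lemma homI2 (hz : Zp D z) : HomI (I2 D z) := by
  refine homI_sup (homI_sup D.hom (homI_span 1 ?_)) (homI_span 1 ?_)
  · rintro p rfl
    exact isHomogeneous_X _ _
  · rintro p (rfl | rfl)
    · exact emb_hom (hz.1 1)
    · exact emb_hom (hz.1 2)

lemma homJ1 (hz : Zp D z) : HomI (J1 D z) := by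
  refine homI_sup (homI_sup (homI_comap D.hom) (homI_span 1 ?_)) (homI_span 1 ?_)
  · rintro p rfl
    exact isHomogeneous_X _ _
  · rintro p (rfl | rfl)
    · exact hz.1 1
    · exact hz.1 2

/-- the powers of the variables in terms of `z 0` -/
lemma powJ1 (hz : Zp D z) (c : Fin n) : ∃ N : ℕ, (X c : Po κ n) ^ N ∈
    J1 D z ⊔ Ideal.span {z 0} := by
  obtain ⟨N, hN⟩ := hz.2 c
  refine ⟨N, ?_⟩
  have h : D.IX ⊔ Ideal.span {(X D.c₀ : Po κ n)} ⊔ Ideal.span (Set.range z) ≤
      J1 D z ⊔ Ideal.span {z 0} := by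
    refine sup_le (le_sup_of_le_left le_sup_left) ?_
    rw [Ideal.span_le]
    rintro _ ⟨i, rfl⟩
    fin_cases i
    · exact Ideal.mem_sup_right (Ideal.subset_span rfl)
    · exact Ideal.mem_sup_left (Ideal.mem_sup_right (Ideal.subset_span (Or.inl rfl)))
    · exact Ideal.mem_sup_left (Ideal.mem_sup_right (Ideal.subset_span (Or.inr rfl)))
  exact h hN

lemma map_J1 : (J1 D z).map (emb κ n) ≤ I2 D z := by
  unfold J1 I2
  rw [Ideal.map_sup, Ideal.map_sup, Ideal.map_span, Ideal.map_span, Set.image_singleton,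
    Set.image_pair]
  refine sup_le_sup (sup_le_sup ?_ ?_) le_rfl
  · exact Ideal.map_comap_le
  · change Ideal.span {emb κ n (X D.c₀)} ≤ _
    rw [emb_X]

lemma powI2 (hz : Zp D z) (c : Fin n) : ∃ N : ℕ, (X (Fin.castSucc c) : Po κ (n + 1)) ^ N ∈
    I2 D z ⊔ Ideal.span {emb κ n (z 0)} := by
  obtain ⟨N, hN⟩ := powJ1 D hz c
  refine ⟨N, ?_⟩
  have h := Ideal.mem_map_of_mem (emb κ n) hN
  rw [map_pow, emb_X, Ideal.map_sup, Ideal.map_span, Set.image_singleton] at h
  exact sup_le_sup (map_J1 D) le_rfl h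

/-- there is a relation between `z 0` and `Y` -/
lemma claimA (hz : Zp D z) : ∃ f : Po κ 2, f ≠ 0 ∧
    aeval ![emb κ n (z 0), Yv κ n] f ∈ I2 D z := by
  by_contra hcon
  push Not at hcon
  set Ψ : Po κ 2 →ₐ[κ] Po κ (n + 1) := aeval ![emb κ n (z 0), Yv κ n] with hΨ
  have hY : (Yv κ n).IsHomogeneous 1 := isHomogeneous_X _ _
  have hfin : ((Ideal.Quotient.mk (I2 D z)).comp Ψ.toRingHom).Finite := by
    refine nak (I2 D z) (homI2 D hz) _ ?_ ?_
    · intro i
      fin_cases i
      · exact emb_hom (hz.1 0)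
      · exact hY
    · intro i
      refine Fin.lastCases ?_ (fun c => ?_) i
      · refine ⟨1, ?_⟩
        rw [pow_one]
        exact Ideal.mem_sup_right (Ideal.subset_span ⟨1, rfl⟩)
      · obtain ⟨N, hN⟩ := powI2 D hz c
        refine ⟨N, (sup_le_sup_left (Ideal.span_mono ?_) (I2 D z) : _ ≤ _) hN⟩
        rintro _ rfl
        exact ⟨0, rfl⟩
  obtain ⟨P, hP, hI2P, hPΨ⟩ : ∃ P : Ideal (Po κ (n + 1)), P.IsPrime ∧ I2 D z ≤ P ∧
      ∀ f : Po κ 2, Ψ f ∈ P → f = 0 := by
    let _ := ((Ideal.Quotient.mk (I2 D z)).comp Ψ.toRingHom).toAlgebra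
    have hint : Algebra.IsIntegral (Po κ 2) (Po κ (n + 1) ⧸ I2 D z) :=
      ⟨hfin.to_isIntegral⟩
    have hker : (⊥ : Ideal (Po κ (n + 1) ⧸ I2 D z)).comap
        (algebraMap (Po κ 2) (Po κ (n + 1) ⧸ I2 D z)) ≤ ⊥ := by
      intro f hf
      by_contra h0
      exact hcon f h0 (Ideal.Quotient.eq_zero_iff_mem.1 hf)
    obtain ⟨Q, -, hQ, hQ'⟩ := Ideal.exists_ideal_over_prime_of_isIntegral ⊥ ⊥ hker
    refine ⟨Q.comap (Ideal.Quotient.mk (I2 D z)), hQ.comap _, ?_, ?_⟩
    · intro p hp
      rw [Ideal.mem_comap, Ideal.Quotient.eq_zero_iff_mem.2 hp]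
      exact Q.zero_mem
    · intro f hf
      have : f ∈ Q.comap (algebraMap (Po κ 2) (Po κ (n + 1) ⧸ I2 D z)) := hf
      rw [hQ'] at this
      exact this
  have hI'P : D.I' ≤ P := (le_sup_left.trans le_sup_left).trans hI2P
  by_cases hA : ∀ c ∈ D.A, (X (Fin.castSucc c) : Po κ (n + 1)) ∈ P
  · -- all the variables are in `P`
    have hX : ∀ c : Fin n, emb κ n (X c) ∈ P := by
      intro c
      obtain ⟨N, hN⟩ := D.xA c
      rw [emb_X]
      refine hP.mem_of_pow_mem N ((sup_le (Ideal.span_le.2 ?_) hI'P : _ ≤ P) hN)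
      rintro _ ⟨c', hc', rfl⟩
      exact hA c' hc'
    have hz0 : emb κ n (z 0) ∈ P := by
      have h1 : z 0 ∈ Submodule.span κ (Set.range (X : Fin n → Po κ n)) := by
        rw [← homogeneousSubmodule_one_eq_span_X]
        exact hz.1 0
      refine Submodule.span_induction (p := fun p _ => emb κ n p ∈ P) ?_ ?_ ?_ ?_ h1
      · rintro _ ⟨c, rfl⟩
        exact hX c
      · rw [map_zero]
        exact P.zero_mem
      · intro x y _ _ hx hy
        rw [map_add]
        exact P.add_mem hx hy
      · intro a x _ hx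
        rw [map_smul, Algebra.smul_def]
        exact P.mul_mem_left _ hx
    have h2 := hPΨ (X 0) (by rw [hΨ, aeval_X]; exact hz0)
    exact X_ne_zero _ h2
  · push Not at hA
    obtain ⟨c, hcA, hcP⟩ := hA
    obtain ⟨N, hN⟩ := D.yA
    have hXc : (X c : Po κ n) ∈ VI κ D.A := Ideal.subset_span ⟨c, hcA, rfl⟩
    obtain ⟨a, ha⟩ := hN (X c ^ N) (Ideal.pow_mem_pow hXc N)
    set Dm := Po κ (n + 1) ⧸ P with hDm
    let η : Po κ n →+* Dm := (Ideal.Quotient.mk P).comp (emb κ n).toRingHom
    set x : Fin 2 → Dm := ![Ideal.Quotient.mk P (emb κ n (z 0)), Ideal.Quotient.mk P (Yv κ n)]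
      with hx
    have hxa : ∀ f : Po κ 2, aeval x f = Ideal.Quotient.mk P (Ψ f) := by
      intro f
      have : x = fun i => Ideal.Quotient.mkₐ κ P (![emb κ n (z 0), Yv κ n] i) := by
        funext i
        fin_cases i <;> rfl
      rw [this, hΨ]
      exact (comp_aeval_apply _ (Ideal.Quotient.mkₐ κ P) f).symm
    have hind : AlgebraicIndependent κ x := by
      rw [algebraicIndependent_iff]
      intro p hp
      rw [hxa] at hp
      exact hPΨ p (Ideal.Quotient.eq_zero_iff_mem.1 hp)
    have htr := hind.transcendental_adjoin (s := {0}) (i := 1) (by simp)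
    rw [Set.image_singleton] at htr
    -- the images of the elements of `κ[X]` are integral over `κ[z 0]`
    have hint : ∀ g : Po κ n, IsIntegral (Algebra.adjoin κ {x 0}) (η g) := by
      intro g
      have hfin1 : ((Ideal.Quotient.mk (J1 D z)).comp
          (aeval ![z 0] : Po κ 1 →ₐ[κ] Po κ n).toRingHom).Finite := by
        refine nak (J1 D z) (homJ1 D hz) _ ?_ ?_
        · intro i
          fin_cases i
          exact hz.1 0
        · intro c
          obtain ⟨N, hN⟩ := powJ1 D hz c
          refine ⟨N, (sup_le_sup_left (Ideal.span_mono ?_) (J1 D z) : _ ≤ _) hN⟩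
          rintro _ rfl
          exact ⟨0, rfl⟩
      obtain ⟨p, hp, hp0⟩ := hfin1.to_isIntegral (Ideal.Quotient.mk (J1 D z) g)
      have hJη : ∀ q ∈ J1 D z, η q = 0 := by
        intro q hq
        exact Ideal.Quotient.eq_zero_iff_mem.2 (hI2P (map_J1 D (Ideal.mem_map_of_mem _ hq)))
      let η' : Po κ n ⧸ J1 D z →+* Dm := Ideal.Quotient.lift (J1 D z) η hJη
      let ρ : Po κ 1 →+* Algebra.adjoin κ {x 0} :=
        (aeval ![(⟨x 0, Algebra.subset_adjoin rfl⟩ : Algebra.adjoin κ {x 0})] :
          Po κ 1 →ₐ[κ] Algebra.adjoin κ {x 0}).toRingHom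
      have hρ : (algebraMap (Algebra.adjoin κ {x 0}) Dm).comp ρ =
          η'.comp ((Ideal.Quotient.mk (J1 D z)).comp
            (aeval ![z 0] : Po κ 1 →ₐ[κ] Po κ n).toRingHom) := by
        apply MvPolynomial.ringHom_ext
        · intro a
          simp [ρ, η', η]
          rfl
        · intro i
          fin_cases i
          simp [ρ, η', η]
          rfl
      refine ⟨p.map ρ, hp.map ρ, ?_⟩
      rw [Polynomial.eval₂_map, hρ]
      have := congrArg η' hp0
      rw [Polynomial.hom_eval₂, map_zero] at this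
      exact this
    have hX0 : η (X c ^ N) ≠ 0 := by
      rw [map_pow]
      have : IsDomain Dm := Ideal.Quotient.isDomain P
      refine pow_ne_zero _ fun h => hcP ?_
      rw [← emb_X]
      exact Ideal.Quotient.eq_zero_iff_mem.1 h
    have hmul : η (X c ^ N) * x 1 = η a := by
      have h1 : Ideal.Quotient.mk P (Yv κ n * emb κ n (X c ^ N)) = Ideal.Quotient.mk P (emb κ n a) :=
        Ideal.Quotient.eq.2 (hI'P ha)
      rw [map_mul, mul_comm] at h1
      exact h1
    have : IsDomain Dm := Ideal.Quotient.isDomain P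
    refine htr (IsAlgebraic.of_mul (y := η (X c ^ N)) (mem_nonZeroDivisors_of_ne_zero hX0)
      (hint _).isAlgebraic ?_)
    rw [hmul]
    exact (hint a).isAlgebraic

end claimA

end WZR_

theorem wzr_proof : Stmt_WZR := by
  intro κ _ _ n D z hz
  obtain ⟨f₀, hf₀, hf₀'⟩ := WZR_.claimA D hz
  -- a homogeneous relation
  obtain ⟨d, hd⟩ : ∃ d, homogeneousComponent d f₀ ≠ 0 := by
    by_contra h
    push Not at h
    apply hf₀
    rw [← sum_homogeneousComponent f₀]
    exact Finset.sum_eq_zero fun i _ => h i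
  set f := homogeneousComponent d f₀ with hf
  have hfh : f.IsHomogeneous d := homogeneousComponent_isHomogeneous _ _
  have hfI : aeval ![emb κ n (z 0), Yv κ n] f ∈ WZR_.I2 D z := by
    have h1 : aeval ![emb κ n (z 0), Yv κ n] f =
        homogeneousComponent d (aeval ![emb κ n (z 0), Yv κ n] f₀) := by
      conv_rhs => rw [← sum_homogeneousComponent f₀, map_sum, map_sum]
      have h2 : ∀ i, homogeneousComponent d (aeval ![emb κ n (z 0), Yv κ n]
          (homogeneousComponent i f₀)) = if i = d then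
            aeval ![emb κ n (z 0), Yv κ n] f else 0 := by
        intro i
        have h3 : (aeval ![emb κ n (z 0), Yv κ n] (homogeneousComponent i f₀)).IsHomogeneous i := by
          have := (homogeneousComponent_isHomogeneous i f₀).aeval ![emb κ n (z 0), Yv κ n]
            (n := 1) (by
              intro j
              fin_cases j
              · exact WZR_.emb_hom (hz.1 0)
              · exact isHomogeneous_X _ _)
          rwa [one_mul] at this
        rw [homogeneousComponent_of_mem h3]
        split_ifs with h4 h5 h5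
        · rw [hf, h5]
        · exact absurd h4.symm h5
        · exact absurd h5.symm h4
        · rfl
      rw [Finset.sum_congr rfl fun i _ => h2 i, Finset.sum_ite_eq']
      split_ifs with h
      · rfl
      · exfalso
        apply hd
        rw [Finset.mem_range, not_lt] at h
        exact homogeneousComponent_eq_zero _ _ (by omega)
    rw [h1]
    exact WZR_.homI2 D hz _ hf₀' d
  -- the linear form
  obtain ⟨u, hu⟩ : ∃ u : Fin 2 → κ, eval u f ≠ 0 := by
    by_contra h
    push Not at h
    exact hd (MvPolynomial.funext fun u => by rw [h u, map_zero])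
  set b := u 0 with hb
  set a := -(u 1) with ha
  have hu' : eval ![b, -a] f ≠ 0 := by
    have : ![b, -a] = u := by
      funext i
      fin_cases i
      · rfl
      · simp [ha]
    rw [this]
    exact hu
  let w : Fin 3 → Po κ (n + 1) := ![C a * emb κ n (z 0) + C b * Yv κ n, emb κ n (z 1),
    emb κ n (z 2)]
  set I := D.I' ⊔ Ideal.span {(X (Fin.castSucc D.c₀) : Po κ (n + 1))} ⊔ Ideal.span (Set.range w)
    with hI
  have hI2 : WZR_.I2 D z ≤ I := by
    refine sup_le_sup_left (Ideal.span_mono ?_) _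
    rintro _ (rfl | rfl)
    · exact ⟨1, rfl⟩
    · exact ⟨2, rfl⟩
  have hmk : ∀ p : Po κ (n + 1), Ideal.Quotient.mk I p = 0 ↔ p ∈ I := fun p =>
    Ideal.Quotient.eq_zero_iff_mem
  obtain ⟨h0, h1⟩ := WZR_.nilp f d hfh a b hu' (Ideal.Quotient.mk I (emb κ n (z 0)))
    (Ideal.Quotient.mk I (Yv κ n)) (by
      have h2 : (![Ideal.Quotient.mk I (emb κ n (z 0)), Ideal.Quotient.mk I (Yv κ n)] :
          Fin 2 → Po κ (n + 1) ⧸ I) =
          fun i => Ideal.Quotient.mkₐ κ I (![emb κ n (z 0), Yv κ n] i) := by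
        funext i
        fin_cases i <;> rfl
      rw [h2, ← comp_aeval_apply]
      exact (hmk _).2 (hI2 hfI)) (by
      have h2 : C a * emb κ n (z 0) + C b * Yv κ n ∈ I :=
        Ideal.mem_sup_right (Ideal.subset_span ⟨0, rfl⟩)
      have h3 := (hmk _).2 h2
      rw [map_add, map_mul, map_mul] at h3
      exact h3)
  rw [← map_pow, hmk] at h0 h1
  refine ⟨w, ⟨a, b, rfl⟩, rfl, rfl, fun i => ?_⟩
  refine Fin.lastCases ⟨d, h1⟩ (fun c => ?_) i
  obtain ⟨N, hN⟩ := WZR_.powI2 D hz c
  refine ⟨N * d, ?_⟩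
  rw [pow_mul]
  obtain ⟨p, hp, q, hq, hpq⟩ := Submodule.mem_sup.1 hN
  obtain ⟨g, hg⟩ := Ideal.mem_span_singleton'.1 hq
  rw [← hmk, map_pow, ← hpq, map_add, (hmk p).2 (hI2 hp), zero_add, ← hg, ← map_pow, mul_pow,
    hmk]
  exact I.mul_mem_left _ h0

end Pool.Agent.RST
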