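import Pool.Agent.RST.Stmts
import Pool.Agent.GML.CMP
import Pool.Agent.GML.DIM

/-!
# RST, module YGR: growth of `R' M`
-/

set_option autoImplicit false

open MvPolynomial Pool.Agent.GML

namespace Pool.Agent.RST

noncomputable section

namespace YGR_

variable {κ : Type} [Field κ] {n : ℕ}

/-- multiples of `u` -/
def th (M : GMod κ n) (u : M.M) : Po κ n →ₗ[κ] M.M :=
  (LinearMap.toSpanSingleton (Po κ n) M.M u).restrictScalars κ

theorem th_apply (M : GMod κ n) (u : M.M) (p : Po κ n) : th M u p = p • u := rfl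

/-- the induced map on the quotient -/
def thq (M : GMod κ n) (J : Ideal (Po κ n)) (u : M.M) (h : ∀ f ∈ J, f • u = 0) :
    (Po κ n ⧸ J) →ₗ[κ] M.M :=
  (Submodule.liftQ (J.restrictScalars κ) (th M u) (fun f hf => h f hf)) ∘ₗ
    (Submodule.Quotient.restrictScalarsEquiv κ J).symm.toLinearMap

theorem thq_mk (M : GMod κ n) (J : Ideal (Po κ n)) (u : M.M) (h : ∀ f ∈ J, f • u = 0)
    (p : Po κ n) : thq M J u h (Ideal.Quotient.mkₐ κ J p) = p • u := rfl

theorem fin_hom (d : ℕ) : Module.Finite κ (homogeneousSubmodule (Fin n) κ d) :=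
  Module.Finite.iff_fg.2 (homogeneousSubmodule_fg (Fin n) κ d)

theorem map_le (M : GMod κ n) (J : Ideal (Po κ n)) (u : M.M) (h : ∀ f ∈ J, f • u = 0) (e : ℤ) :
    Module.Finite κ ((Agr κ n e).map (th M u)) ∧
      Module.finrank κ ((Agr κ n e).map (th M u)) ≤ if 0 ≤ e then hf J e.toNat else 0 := by
  by_cases he : 0 ≤ e
  · have hA : Agr κ n e = homogeneousSubmodule (Fin n) κ e.toNat := if_pos he
    rw [hA, if_pos he]
    have := fin_hom (κ := κ) (n := n) e.toNat
    refine ⟨inferInstance, ?_⟩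
    have h1 : (homogeneousSubmodule (Fin n) κ e.toNat).map (th M u) =
        ((homogeneousSubmodule (Fin n) κ e.toNat).map
          (Ideal.Quotient.mkₐ κ J).toLinearMap).map (thq M J u h) := by
      rw [← Submodule.map_comp]
      rfl
    rw [h1]
    exact Submodule.finrank_map_le _ _
  · have hA : Agr κ n e = ⊥ := if_neg he
    rw [hA, if_neg he, Submodule.map_bot, finrank_bot]
    exact ⟨inferInstance, le_rfl⟩

theorem cmp_sum (M : GMod κ n) (t : ℤ) {ι : Type} (S : Finset ι) (f : ι → M.M) :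
    M.cmp t (∑ i ∈ S, f i) = ∑ i ∈ S, M.cmp t (f i) := by
  classical
  induction S using Finset.induction_on with
  | empty => rw [Finset.sum_empty, Finset.sum_empty, CMP_.c0]
  | insert a S ha ih => rw [Finset.sum_insert ha, Finset.sum_insert ha, CMP_.c4, ih]

variable {D : XD κ n} {v : Fin n → κ} {M : GMod κ n} {M' : GMod κ (n + 1)} {j : M.M →+ M'.M}

theorem ginj_pow (h : Ymd D v M M' j) (N : ℕ) (x : M'.M)
    (hx : emb κ n (lin v) ^ N • x = 0) : x = 0 := by
  induction N generalizing x with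
  | zero => simpa using hx
  | succ N ih =>
    refine h.ginj x (ih _ ?_)
    rw [smul_smul, ← pow_succ]
    exact hx

theorem f_inj (h : Ymd D v M M' j) (hT : RTf D M) (f : Po κ n) (hf : f ∉ D.IX) (t : ℤ)
    (x : M'.M) (hx : x ∈ M'.gr t) (h0 : emb κ n f • x = 0) : x = 0 := by
  obtain ⟨N, m, _, hm⟩ := h.back t x hx
  have h1 : j (f • m) = 0 := by
    rw [h.smul, ← hm, smul_smul, mul_comm, mul_smul, h0, smul_zero]
  have h2 : f • m = 0 := h.inj (by rw [h1, map_zero])
  have h3 : m = 0 := hT f hf m h2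
  rw [h3, map_zero] at hm
  exact ginj_pow h N x hm

theorem j_span (h : Ymd D v M M' j) {r : ℕ} (b : Fin r → M.M) (y : M.M)
    (hy : y ∈ Submodule.span (Po κ n) (Set.range b)) :
    j y ∈ Submodule.span (Po κ (n + 1)) (Set.range fun i => j (b i)) := by
  refine Submodule.span_induction (p := fun y _ =>
    j y ∈ Submodule.span (Po κ (n + 1)) (Set.range fun i => j (b i))) ?_ ?_ ?_ ?_ hy
  · rintro _ ⟨i, rfl⟩
    exact Submodule.subset_span ⟨i, rfl⟩
  · rw [map_zero]
    exact Submodule.zero_mem _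
  · intro y z _ _ hy hz
    rw [map_add]
    exact Submodule.add_mem _ hy hz
  · intro p y _ hy
    rw [h.smul]
    exact Submodule.smul_mem _ _ hy

theorem f_span (h : Ymd D v M M' j) {r : ℕ} (b : Fin r → M.M) (f : Po κ n)
    (hf : ∀ m : M.M, f • m ∈ Submodule.span (Po κ n) (Set.range b)) (x : M'.M) :
    emb κ n f • x ∈ Submodule.span (Po κ (n + 1)) (Set.range fun i => j (b i)) := by
  have hx : x ∈ Submodule.span (Po κ (n + 1)) (Set.range j) := by
    rw [h.gen]
    exact Submodule.mem_top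
  refine Submodule.span_induction (p := fun x _ => emb κ n f • x ∈
    Submodule.span (Po κ (n + 1)) (Set.range fun i => j (b i))) ?_ ?_ ?_ ?_ hx
  · rintro _ ⟨m, rfl⟩
    rw [← h.smul]
    exact j_span h b _ (hf m)
  · rw [smul_zero]
    exact Submodule.zero_mem _
  · intro y z _ _ hy hz
    rw [smul_add]
    exact Submodule.add_mem _ hy hz
  · intro p y _ hy
    rw [smul_comm]
    exact Submodule.smul_mem _ _ hy

/-- the sum map -/
def Psi {r : ℕ} (N : Fin r → Submodule κ M'.M) : (∀ i, N i) →ₗ[κ] M'.M :=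
  ∑ i, (N i).subtype ∘ₗ LinearMap.proj i

theorem Psi_apply {r : ℕ} (N : Fin r → Submodule κ M'.M) (x : ∀ i, N i) :
    Psi N x = ∑ i, (x i : M'.M) := by
  simp [Psi]

/-- the dimension bound -/
theorem bound (h : Ymd D v M M' j) (hT : RTf D M) {r : ℕ} (b : Fin r → M.M) (d : Fin r → ℤ)
    (f : Po κ n) (k : ℕ) (hb : ∀ i, b i ∈ M.gr (d i)) (hfI : f ∉ D.IX) (hk : f.IsHomogeneous k)
    (hs : ∀ m : M.M, f • m ∈ Submodule.span (Po κ n) (Set.range b)) (t : ℤ) :
    Module.Finite κ (M'.gr t) ∧ Module.finrank κ (M'.gr t) ≤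
      ∑ i, if 0 ≤ t + k - d i then hf D.I' (t + k - d i).toNat else 0 := by
  set N : Fin r → Submodule κ M'.M := fun i => (Agr κ (n + 1) (t + k - d i)).map (th M' (j (b i)))
    with hN
  have hN1 : ∀ i, Module.Finite κ (N i) := fun i =>
    (map_le M' D.I' (j (b i)) (fun g hg => h.kill g hg _) _).1
  have hN2 : ∀ i, Module.finrank κ (N i) ≤
      if 0 ≤ t + k - d i then hf D.I' (t + k - d i).toNat else 0 := fun i =>
    (map_le M' D.I' (j (b i)) (fun g hg => h.kill g hg _) _).2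
  have hmem : ∀ x ∈ M'.gr t, emb κ n f • x ∈ LinearMap.range (Psi N) := by
    intro x hx
    have h1 : emb κ n f • x ∈ M'.gr (t + k) :=
      DIM_.hom_smul_mem M' ((mem_homogeneousSubmodule _ _).2 hk.rename_isHomogeneous) hx
    obtain ⟨c, hc⟩ := (Submodule.mem_span_range_iff_exists_fun _).1 (f_span h b f hs x)
    have h2 : emb κ n f • x = ∑ i, DIM_.comp (t + k - d i) (c i) • j (b i) := by
      conv_lhs => rw [← CMP_.c2 M' _ _ h1, ← hc, cmp_sum]
      refine Finset.sum_congr rfl fun i _ => ?_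
      exact DIM_.cmp_smul cmp_proof M' (h.deg _ _ (hb i)) _ _
    refine ⟨fun i => ⟨DIM_.comp (t + k - d i) (c i) • j (b i), ?_⟩, ?_⟩
    · exact ⟨_, DIM_.comp_mem _ _, rfl⟩
    · rw [Psi_apply, h2]
  let μ : M'.gr t →ₗ[κ] LinearMap.range (Psi N) :=
    { toFun := fun x => ⟨emb κ n f • (x : M'.M), hmem x x.2⟩
      map_add' := by
        intro x y
        ext
        simp
      map_smul' := by
        intro a x
        ext
        simp only [Submodule.coe_smul, RingHom.id_apply]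
        exact smul_comm _ _ _ }
  have hμ : Function.Injective μ := by
    rw [injective_iff_map_eq_zero]
    intro x hx
    have h3 : emb κ n f • (x : M'.M) = 0 := congrArg Subtype.val hx
    exact Subtype.ext (f_inj h hT f hfI t x x.2 h3)
  refine ⟨Module.Finite.of_injective μ hμ, ?_⟩
  calc Module.finrank κ (M'.gr t) ≤ Module.finrank κ (LinearMap.range (Psi N)) :=
        LinearMap.finrank_le_finrank_of_injective hμ
    _ ≤ Module.finrank κ (∀ i, N i) := LinearMap.finrank_range_le _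
    _ = ∑ i, Module.finrank κ (N i) := Module.finrank_pi_fintype κ
    _ ≤ _ := Finset.sum_le_sum fun i _ => hN2 i

/-- the growth estimate -/
theorem arith (e C a m t : ℚ) (he : 0 ≤ e) (hC : 0 ≤ C) (ha : 0 ≤ a) (hm : 0 ≤ m) (ht0 : 0 ≤ t)
    (ht : t ≤ m + a) : e * t ^ 3 / 6 + C * (t + 1) ^ 2 ≤
      e * m ^ 3 / 6 + (e * (3 * a + 3 * a ^ 2 + a ^ 3) + C * (a + 1) ^ 2) * (m + 1) ^ 2 := by
  have h1 : t ^ 3 ≤ (m + a) ^ 3 := by gcongr
  have h2 : (t + 1) ^ 2 ≤ ((a + 1) * (m + 1)) ^ 2 := by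
    have : t + 1 ≤ (a + 1) * (m + 1) := by nlinarith
    gcongr
  have h3 : (m + a) ^ 3 ≤ m ^ 3 + 6 * ((3 * a + 3 * a ^ 2 + a ^ 3) * (m + 1) ^ 2) := by
    have e1 : 0 ≤ a * m := by positivity
    have e2 : 0 ≤ a * m ^ 2 := by positivity
    have e3 : 0 ≤ a ^ 2 * m := by positivity
    have e4 : 0 ≤ a ^ 2 * m ^ 2 := by positivity
    have e5 : 0 ≤ a ^ 3 * m := by positivity
    have e6 : 0 ≤ a ^ 3 * m ^ 2 := by positivity
    have e7 : 0 ≤ a ^ 2 := by positivity
    have e8 : 0 ≤ a ^ 3 := by positivity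
    nlinarith
  have h4 : e * t ^ 3 ≤ e * (m ^ 3 + 6 * ((3 * a + 3 * a ^ 2 + a ^ 3) * (m + 1) ^ 2)) :=
    mul_le_mul_of_nonneg_left (h1.trans h3) he
  have h5 : C * (t + 1) ^ 2 ≤ C * ((a + 1) * (m + 1)) ^ 2 := mul_le_mul_of_nonneg_left h2 hC
  nlinarith

end YGR_

open YGR_

theorem ygr_proof : Stmt_YGR := by
  intro κ _ n D v r _ _ M _ _ hT hR M' j hY
  obtain ⟨b, d, f, k, hb, hfI, hk, hs⟩ := hR
  obtain ⟨C, hC⟩ := D.gI
  have hbd := fun t => bound hY hT b d f k hb hfI hk hs t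
  set a : ℕ := k + ∑ i, (d i).natAbs with ha
  have had : ∀ i, (k : ℤ) - d i ≤ a := by
    intro i
    have h1 : (d i).natAbs ≤ ∑ i, (d i).natAbs :=
      Finset.single_le_sum (f := fun i => (d i).natAbs) (fun _ _ => Nat.zero_le _)
        (Finset.mem_univ i)
    omega
  refine ⟨r * (D.e' * (3 * a + 3 * a ^ 2 + a ^ 3) + C * (a + 1) ^ 2), fun m =>
    ⟨(hbd m).1, ?_⟩⟩
  have h1 : ∀ i : Fin r, (((if 0 ≤ (m : ℤ) + k - d i then
      hf D.I' ((m : ℤ) + k - d i).toNat else 0 : ℕ)) : ℚ) ≤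
      D.e' * (m : ℚ) ^ 3 / 6 + (D.e' * (3 * a + 3 * a ^ 2 + a ^ 3) + C * (a + 1) ^ 2) *
        ((m : ℚ) + 1) ^ 2 := by
    intro i
    split_ifs with h0
    · refine (hC _).trans ?_
      have h2 : (((m : ℤ) + k - d i).toNat : ℤ) ≤ m + a := by
        rw [Int.toNat_of_nonneg h0]
        have := had i
        omega
      have h3 : ((((m : ℤ) + k - d i).toNat : ℕ) : ℚ) ≤ m + a := by exact_mod_cast h2
      exact arith _ _ _ _ _ (by positivity) (by positivity) (by positivity) (by positivity)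
        (by positivity) h3
    · push_cast
      positivity
  have h2 : (Module.finrank κ (M'.gr m) : ℚ) ≤ ∑ i : Fin r,
      (((if 0 ≤ (m : ℤ) + k - d i then hf D.I' ((m : ℤ) + k - d i).toNat else 0 : ℕ)) : ℚ) := by
    exact_mod_cast (hbd m).2
  refine h2.trans ((Finset.sum_le_sum fun i _ => h1 i).trans ?_)
  rw [Finset.sum_const, Finset.card_univ, Fintype.card_fin, nsmul_eq_mul]
  push_cast
  apply le_of_eq
  ring

end

end Pool.Agent.RST
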