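import Pool.Agent.RST.Stmts

/-!
# RST: module YLF (`R' M` is a submodule of the localisation)
-/

set_option autoImplicit false

open MvPolynomial Pool.Agent.GML

namespace Pool.Agent.RST

namespace YLF_

variable {κ : Type} [Field κ] {n : ℕ} {D : XD κ n} {c : ℕ} {z : Fin 3 → Po κ n} {v : Fin n → κ}
  {M : GMod κ n} {M' : GMod κ (n + 1)} {j : M.M →+ M'.M}
  {E : Type} [AddCommGroup E] [Module (Po κ (n + 1)) E] {ι : M.M →+ E}

lemma kilE (hM : Kil M (aF D c)) (hE : Eta D z M E ι) {a : Po κ n} (ha : a ∈ aF D c) (u : E) :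
    emb κ n a • u = 0 := by
  obtain ⟨p, hp, m, hm⟩ := hE.gen u
  apply hE.inj p hp
  rw [smul_smul, mul_comm, ← smul_smul, hm, ← hE.smul, hM a ha, map_zero]

lemma g_inj (hv : GG D c z v) (hM : Kil M (aF D c)) (hE : Eta D z M E ι) (u : E)
    (h : emb κ n (lin v) • u = 0) : u = 0 := by
  obtain ⟨-, g', r, hr, hg⟩ := hv
  apply hE.inj r hr
  have h1 := kilE hM hE hg u
  rw [map_sub, map_mul, sub_smul, sub_eq_zero] at h1
  rw [← h1, mul_comm, mul_smul, h, smul_zero]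

lemma g_surj (hv : GG D c z v) (hM : Kil M (aF D c)) (hE : Eta D z M E ι) (u : E) :
    ∃ u' : E, emb κ n (lin v) • u' = u := by
  obtain ⟨-, g', r, hr, hg⟩ := hv
  obtain ⟨u', hu'⟩ := hE.surj r hr u
  refine ⟨emb κ n g' • u', ?_⟩
  have h1 := kilE hM hE hg u'
  rw [map_sub, map_mul, sub_smul, sub_eq_zero] at h1
  rw [smul_smul, h1, hu']

lemma pow_inj {F : Type} [AddCommGroup F] [Module (Po κ (n + 1)) F] {g : Po κ (n + 1)}
    (h : ∀ u : F, g • u = 0 → u = 0) (N : ℕ) : ∀ u : F, g ^ N • u = 0 → u = 0 := by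
  induction N with
  | zero => intro u hu; rwa [pow_zero, one_smul] at hu
  | succ N ih =>
    intro u hu
    rw [pow_succ, mul_smul] at hu
    exact h u (ih _ hu)

lemma pow_surj {F : Type} [AddCommGroup F] [Module (Po κ (n + 1)) F] {g : Po κ (n + 1)}
    (h : ∀ u : F, ∃ u', g • u' = u) (N : ℕ) : ∀ u : F, ∃ u', g ^ N • u' = u := by
  induction N with
  | zero => intro u; exact ⟨u, by rw [pow_zero, one_smul]⟩
  | succ N ih =>
    intro u
    obtain ⟨u', hu'⟩ := ih u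
    obtain ⟨u'', hu''⟩ := h u'
    exact ⟨u'', by rw [pow_succ, mul_smul, hu'', hu']⟩

/-- the relation which defines `j'` -/
def Rl (v : Fin n → κ) (j : M.M →+ M'.M) (ι : M.M →+ E) (x : M'.M) (u : E) : Prop :=
  ∃ (N : ℕ) (m : M.M), emb κ n (lin v) ^ N • x = j m ∧ emb κ n (lin v) ^ N • u = ι m

lemma gpow (p : Po κ n) (N : ℕ) : emb κ n p ^ N = emb κ n (p ^ N) := (map_pow (emb κ n) p N).symm

lemma exB (hY : Ymd D v M M' j) (x : M'.M) :
    ∃ (N : ℕ) (m : M.M), emb κ n (lin v) ^ N • x = j m := by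
  have hx : x ∈ ⨆ k, M'.gr k := by
    rw [M'.int.submodule_iSup_eq_top]
    exact Submodule.mem_top
  induction hx using Submodule.iSup_induction' with
  | mem k x hx =>
    obtain ⟨N, m, -, h⟩ := hY.back k x hx
    exact ⟨N, m, h⟩
  | zero => exact ⟨0, 0, by rw [smul_zero, map_zero]⟩
  | add x y _ _ hx hy =>
    obtain ⟨N, m, h⟩ := hx
    obtain ⟨N', m', h'⟩ := hy
    refine ⟨N + N', lin v ^ N' • m + lin v ^ N • m', ?_⟩
    rw [map_add, hY.smul, hY.smul, smul_add, ← h, ← h', smul_smul, smul_smul, ← gpow, ← gpow,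
      ← pow_add, ← pow_add, add_comm N' N]

lemma Rl_ex (hv : GG D c z v) (hM : Kil M (aF D c)) (hE : Eta D z M E ι)
    (hY : Ymd D v M M' j) (x : M'.M) : ∃ u : E, Rl v j ι x u := by
  obtain ⟨N, m, h⟩ := exB hY x
  obtain ⟨u, hu⟩ := pow_surj (g_surj hv hM hE) N (ι m)
  exact ⟨u, N, m, h, hu⟩

lemma Rl_uniq (hv : GG D c z v) (hM : Kil M (aF D c)) (hE : Eta D z M E ι)
    (hY : Ymd D v M M' j) {x : M'.M} {u u' : E} (h : Rl v j ι x u) (h' : Rl v j ι x u') :
    u = u' := by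
  obtain ⟨N, m, h1, h2⟩ := h
  obtain ⟨N', m', h1', h2'⟩ := h'
  have e : lin v ^ N' • m = lin v ^ N • m' := by
    apply hY.inj
    rw [hY.smul, hY.smul, ← h1, ← h1', smul_smul, smul_smul, ← gpow, ← gpow, ← pow_add,
      ← pow_add, add_comm N' N]
  have e2 : emb κ n (lin v) ^ (N + N') • u = emb κ n (lin v) ^ (N + N') • u' := by
    have e3 : emb κ n (lin v) ^ (N + N') • u = emb κ n (lin v) ^ N' • ι m := by
      rw [add_comm N N', pow_add, mul_smul, h2]
    rw [e3, pow_add, mul_smul, h2', gpow, gpow, ← hE.smul, ← hE.smul, e]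
  rw [← sub_eq_zero]
  apply pow_inj (g_inj hv hM hE) (N + N')
  rw [smul_sub, e2, sub_self]

lemma Rl_add (hE : Eta D z M E ι) (hY : Ymd D v M M' j) {x y : M'.M} {u w : E}
    (h : Rl v j ι x u) (h' : Rl v j ι y w) : Rl v j ι (x + y) (u + w) := by
  obtain ⟨N, m, h1, h2⟩ := h
  obtain ⟨N', m', h1', h2'⟩ := h'
  refine ⟨N + N', lin v ^ N' • m + lin v ^ N • m', ?_, ?_⟩
  · rw [map_add, hY.smul, hY.smul, smul_add, ← h1, ← h1', smul_smul, smul_smul, ← gpow, ← gpow,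
      ← pow_add, ← pow_add, add_comm N' N]
  · rw [map_add, hE.smul, hE.smul, smul_add, ← h2, ← h2', smul_smul, smul_smul, ← gpow, ← gpow,
      ← pow_add, ← pow_add, add_comm N' N]

lemma Rl_emb (hE : Eta D z M E ι) (hY : Ymd D v M M' j) (p : Po κ n) {x : M'.M} {u : E}
    (h : Rl v j ι x u) : Rl v j ι (emb κ n p • x) (emb κ n p • u) := by
  obtain ⟨N, m, h1, h2⟩ := h
  refine ⟨N, p • m, ?_, ?_⟩
  · rw [smul_comm, h1, hY.smul]
  · rw [smul_comm, h2, hE.smul]

lemma lin_mem (hv : GG D c z v) : lin v ∈ VI κ D.A := by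
  unfold lin
  apply Ideal.sum_mem
  intro i _
  by_cases hi : i ∈ D.A
  · exact Ideal.mul_mem_left _ _ (Ideal.subset_span ⟨i, hi, rfl⟩)
  · rw [hv.1 i hi, map_zero, zero_mul]
    exact zero_mem _

lemma Rl_Y (hv : GG D c z v) (hE : Eta D z M E ι) (hY : Ymd D v M M' j) {x : M'.M} {u : E}
    (h : Rl v j ι x u) : Rl v j ι (Yv κ n • x) (Yv κ n • u) := by
  obtain ⟨N, m, h1, h2⟩ := h
  obtain ⟨N₀, hN₀⟩ := D.yA
  obtain ⟨a, ha⟩ := hN₀ (lin v ^ N₀) (Ideal.pow_mem_pow (lin_mem hv) N₀)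
  refine ⟨N₀ + N, a • m, ?_, ?_⟩
  · have h3 := hY.kill _ ha (j m)
    rw [sub_smul, sub_eq_zero] at h3
    rw [hY.smul, ← h3, ← h1, smul_smul, smul_smul, ← gpow]
    congr 1
    ring
  · have h3 := hE.kill _ ha (ι m)
    rw [sub_smul, sub_eq_zero] at h3
    rw [hE.smul, ← h3, ← h2, smul_smul, smul_smul, ← gpow]
    congr 1
    ring

lemma Rl_smul (hv : GG D c z v) (hE : Eta D z M E ι) (hY : Ymd D v M M' j)
    (a : Po κ (n + 1)) : ∀ {x : M'.M} {u : E},
    Rl v j ι x u → Rl v j ι (a • x) (a • u) := by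
  induction a using MvPolynomial.induction_on with
  | C k =>
    intro x u h
    have := Rl_emb hE hY (C k) h
    rwa [emb, rename_C] at this
  | add p q hp hq =>
    intro x u h
    rw [add_smul, add_smul]
    exact Rl_add hE hY (hp h) (hq h)
  | mul_X p i hp =>
    intro x u h
    rw [mul_smul, mul_smul]
    apply hp
    refine Fin.lastCases ?_ (fun i => ?_) i
    · exact Rl_Y hv hE hY h
    · have := Rl_emb hE hY (X i) h
      rwa [emb, rename_X] at this

end YLF_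

open YLF_ in
theorem ylf_proof : Stmt_YLF := by
  intro κ _ n D c z v hv M hM M' j hY E _ _ ι hE
  classical
  choose f hf using Rl_ex hv hM hE hY
  have fadd : ∀ x y, f (x + y) = f x + f y := fun x y =>
    Rl_uniq hv hM hE hY (hf _) (Rl_add hE hY (hf x) (hf y))
  have fsm : ∀ (a : Po κ (n + 1)) x, f (a • x) = a • f x := fun a x =>
    Rl_uniq hv hM hE hY (hf _) (Rl_smul hv hE hY a (hf x))
  have fj : ∀ m, f (j m) = ι m := fun m =>
    Rl_uniq hv hM hE hY (hf _) ⟨0, m, by rw [pow_zero, one_smul], by rw [pow_zero, one_smul]⟩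
  refine ⟨{ toFun := f, map_add' := fadd, map_smul' := fsm }, fj, ?_, ?_⟩
  · intro hι
    rw [injective_iff_map_eq_zero]
    intro x hx
    obtain ⟨N, m, h1, h2⟩ := hf x
    have hx' : f x = 0 := hx
    rw [hx', smul_zero] at h2
    have hm : m = 0 := hι (by rw [← h2, map_zero])
    rw [hm, map_zero] at h1
    exact pow_inj hY.ginj N x h1
  · intro u
    obtain ⟨p, hp, m, hm⟩ := hE.gen u
    exact ⟨p, hp, j m, by rw [hm]; exact fj m⟩

end Pool.Agent.RST
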