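import Pool.Agent.RST.Stmts
import Pool.Agent.GML.SUB
import Pool.Agent.GML.CMP
import Pool.Agent.GML.DEG
import Pool.Agent.GML.FRE

/-!
# RST: YMD, construction of `R' M`
-/

set_option autoImplicit false

open MvPolynomial Pool.Agent.GML

namespace Pool.Agent.RST

noncomputable section

namespace YMD_

section loc

variable {κ : Type} [Field κ] {n : ℕ}

/-- the homomorphism to the localisation -/
def th (g a : Po κ n) (N₀ : ℕ) : Po κ (n + 1) →ₐ[κ] Localization.Away g :=
  aeval (Fin.lastCases (algebraMap (Po κ n) (Localization.Away g) a *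
    (IsLocalization.Away.invSelf g) ^ N₀)
    (fun i => algebraMap (Po κ n) (Localization.Away g) (X i)))

lemma th_emb (g a : Po κ n) (N₀ : ℕ) (p : Po κ n) :
    th g a N₀ (emb κ n p) = algebraMap (Po κ n) (Localization.Away g) p := by
  have h : (th g a N₀).comp (emb κ n) = IsScalarTower.toAlgHom κ (Po κ n) (Localization.Away g) := by
    apply MvPolynomial.algHom_ext
    intro i
    simp [th, emb]
  exact congrArg (fun φ => φ p) h

lemma th_Y (g a : Po κ n) (N₀ : ℕ) :
    th g a N₀ (emb κ n g ^ N₀ * Yv κ n) = algebraMap (Po κ n) (Localization.Away g) a := by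
  rw [map_mul, map_pow, th_emb]
  have h1 : th g a N₀ (Yv κ n) = algebraMap (Po κ n) (Localization.Away g) a *
    (IsLocalization.Away.invSelf g) ^ N₀ := by
    simp [th, Yv]
  rw [h1, mul_left_comm, ← mul_pow, IsLocalization.Away.mul_invSelf, one_pow, mul_one]

/-- the localisation of `M` at `g` -/
@[nolint unusedArguments]
def EE (g _a : Po κ n) (_N₀ : ℕ) (M : GMod κ n) : Type :=
  LocalizedModule (Submonoid.powers g) M.M

variable (g a : Po κ n) (N₀ : ℕ) (M : GMod κ n)

instance : AddCommGroup (EE g a N₀ M) :=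
  inferInstanceAs (AddCommGroup (LocalizedModule (Submonoid.powers g) M.M))

instance mC : Module (Localization.Away g) (EE g a N₀ M) :=
  inferInstanceAs (Module (Localization (Submonoid.powers g))
    (LocalizedModule (Submonoid.powers g) M.M))

instance mA : Module (Po κ (n + 1)) (EE g a N₀ M) :=
  Module.compHom (EE g a N₀ M) (th g a N₀).toRingHom

instance mV : Module κ (EE g a N₀ M) :=
  Module.compHom (EE g a N₀ M) (algebraMap κ (Po κ (n + 1)))

lemma mA_def (p : Po κ (n + 1)) (x : EE g a N₀ M) : p • x = th g a N₀ p • x := rfl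

lemma mV_def (k : κ) (x : EE g a N₀ M) : k • x = algebraMap κ (Po κ (n + 1)) k • x := rfl

instance : IsScalarTower κ (Po κ (n + 1)) (EE g a N₀ M) where
  smul_assoc k p x := by
    rw [mV_def, ← mul_smul, Algebra.smul_def]

/-- the map to the localisation -/
def jj : M.M →+ EE g a N₀ M :=
  (LocalizedModule.mkLinearMap (Submonoid.powers g) M.M).toAddMonoidHom

lemma jj_smul (p : Po κ n) (m : M.M) :
    jj g a N₀ M (p • m) = emb κ n p • jj g a N₀ M m := by
  rw [mA_def, th_emb]
  have h1 : (LocalizedModule.mkLinearMap (Submonoid.powers g) M.M) (p • m) =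
      (algebraMap (Po κ n) (Localization (Submonoid.powers g)) p) •
        (LocalizedModule.mkLinearMap (Submonoid.powers g) M.M) m := by
    rw [map_smul, algebraMap_smul]
  exact h1

lemma ginj (x : EE g a N₀ M) (h : emb κ n g • x = 0) : x = 0 := by
  rw [mA_def, th_emb] at h
  have h1 : (IsLocalization.Away.invSelf g : Localization.Away g) •
      (algebraMap (Po κ n) (Localization.Away g) g • x) = x := by
    rw [← mul_smul, mul_comm, IsLocalization.Away.mul_invSelf, one_smul]
  rw [← h1, h, smul_zero]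

lemma ginj_pow (N : ℕ) (x : EE g a N₀ M) (h : emb κ n g ^ N • x = 0) : x = 0 := by
  induction N with
  | zero => simpa using h
  | succ N ih =>
    rw [pow_succ', mul_smul] at h
    exact ih (ginj g a N₀ M _ h)

lemma surj (x : EE g a N₀ M) : ∃ (N : ℕ) (m : M.M), emb κ n g ^ N • x = jj g a N₀ M m := by
  obtain ⟨x', hx'⟩ : ∃ x' : LocalizedModule (Submonoid.powers g) M.M, x' = x := ⟨x, rfl⟩
  obtain ⟨⟨m, s⟩, hs⟩ := IsLocalizedModule.surj (Submonoid.powers g)
    (LocalizedModule.mkLinearMap (Submonoid.powers g) M.M) x'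
  obtain ⟨N, hN⟩ := s.2
  refine ⟨N, m, ?_⟩
  rw [← map_pow, mA_def, th_emb]
  have h2 : g ^ N = (s : Po κ n) := hN
  rw [h2]
  have h3 : (algebraMap (Po κ n) (Localization (Submonoid.powers g)) (s : Po κ n)) • x' =
    (s : Po κ n) • x' := algebraMap_smul _ _ _
  subst hx'
  exact h3.trans hs

lemma jj_inj (hg : ∀ m : M.M, g • m = 0 → m = 0) : Function.Injective (jj g a N₀ M) := by
  have hgp : ∀ (N : ℕ) (m : M.M), g ^ N • m = 0 → m = 0 := by
    intro N
    induction N with
    | zero => intro m h; simpa using h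
    | succ N ih =>
      intro m h
      rw [pow_succ', mul_smul] at h
      exact ih m (hg _ h)
  rw [injective_iff_map_eq_zero]
  intro m hm
  have h1 : (LocalizedModule.mkLinearMap (Submonoid.powers g) M.M) m =
    (LocalizedModule.mkLinearMap (Submonoid.powers g) M.M) 0 := by
    rw [map_zero]; exact hm
  obtain ⟨s, hs⟩ := (IsLocalizedModule.eq_iff_exists (Submonoid.powers g)
    (LocalizedModule.mkLinearMap (Submonoid.powers g) M.M)).1 h1
  obtain ⟨N, hN⟩ := s.2
  rw [smul_zero] at hs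
  have h2 : g ^ N = (s : Po κ n) := hN
  apply hgp N
  rw [h2]
  exact hs

lemma relY (x : EE g a N₀ M) : emb κ n g ^ N₀ • (Yv κ n • x) = emb κ n a • x := by
  rw [← mul_smul, mA_def, mA_def, th_Y, th_emb]

/-- every polynomial in `X, Y` is, up to a power of `g`, a polynomial in `X`, modulo the relation -/
lemma red (f : Po κ (n + 1)) : ∃ (k : ℕ) (p : Po κ n),
    emb κ n g ^ k * f - emb κ n p ∈ Ideal.span {Yv κ n * emb κ n (g ^ N₀) - emb κ n a} := by
  induction f using MvPolynomial.induction_on with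
  | C c => exact ⟨0, C c, by simp [emb]⟩
  | add f₁ f₂ h₁ h₂ =>
    obtain ⟨k₁, p₁, h₁⟩ := h₁
    obtain ⟨k₂, p₂, h₂⟩ := h₂
    refine ⟨k₁ + k₂, g ^ k₂ * p₁ + g ^ k₁ * p₂, ?_⟩
    have h := Ideal.add_mem _ (Ideal.mul_mem_left _ (emb κ n g ^ k₂) h₁)
      (Ideal.mul_mem_left _ (emb κ n g ^ k₁) h₂)
    convert h using 1
    rw [map_add, map_mul, map_mul, map_pow, map_pow]
    ring
  | mul_X f i h =>
    obtain ⟨k, p, h⟩ := h
    refine Fin.lastCases ?_ (fun i => ?_) i
    · refine ⟨k + N₀, p * a, ?_⟩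
      have h' := Ideal.add_mem _ (Ideal.mul_mem_left _ (Yv κ n * emb κ n (g ^ N₀)) h)
        (Ideal.mul_mem_left _ (emb κ n p) (Ideal.subset_span (Set.mem_singleton
          (Yv κ n * emb κ n (g ^ N₀) - emb κ n a))))
      convert h' using 1
      rw [map_mul, map_pow, Yv]
      ring
    · refine ⟨k, p * X i, ?_⟩
      have h' := Ideal.mul_mem_left _ (X (Fin.castSucc i)) h
      convert h' using 1
      have h2 : emb κ n (X i) = X (Fin.castSucc i) := by simp [emb]
      rw [map_mul, h2]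
      ring

lemma kill (I : Ideal (Po κ (n + 1))) (hI : Yv κ n * emb κ n (g ^ N₀) - emb κ n a ∈ I)
    (hM : Kil M (I.comap (emb κ n))) (f : Po κ (n + 1)) (hf : f ∈ I) (x : EE g a N₀ M) :
    f • x = 0 := by
  obtain ⟨k, p, h⟩ := red g a N₀ f
  have hle : Ideal.span {Yv κ n * emb κ n (g ^ N₀) - emb κ n a} ≤ I := by
    rw [Ideal.span_singleton_le_iff_mem]
    exact hI
  have hp : p ∈ I.comap (emb κ n) := by
    rw [Ideal.mem_comap]
    have h2 := I.sub_mem (I.mul_mem_left (emb κ n g ^ k) hf) (hle h)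
    convert h2 using 1
    ring
  have hpx : ∀ y : EE g a N₀ M, emb κ n p • y = 0 := by
    intro y
    obtain ⟨N, m, hm⟩ := surj g a N₀ M y
    apply ginj_pow g a N₀ M N
    rw [smul_comm, hm, ← jj_smul, hM p hp, map_zero]
  have hrel : ∀ y : EE g a N₀ M, (Yv κ n * emb κ n (g ^ N₀) - emb κ n a) • y = 0 := by
    intro y
    rw [sub_smul, map_pow, mul_comm, mul_smul, relY, sub_self]
  have hspan : ∀ q ∈ Ideal.span {Yv κ n * emb κ n (g ^ N₀) - emb κ n a}, ∀ y : EE g a N₀ M,
      q • y = 0 := by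
    intro q hq y
    rw [Ideal.mem_span_singleton'] at hq
    obtain ⟨r, rfl⟩ := hq
    rw [mul_smul, hrel, smul_zero]
  apply ginj_pow g a N₀ M k
  rw [← mul_smul]
  have h3 := hspan _ h x
  rw [sub_smul, hpx, sub_zero] at h3
  exact h3

end loc

section grading

variable {κ : Type} [Field κ] {n : ℕ} (g a : Po κ n) (N₀ : ℕ) (M : GMod κ n)

/-- `g^N x = j m` with `m` of degree `k + N` -/
def Rep (k : ℤ) (x : EE g a N₀ M) (N : ℕ) (m : M.M) : Prop :=
  m ∈ M.gr (k + N) ∧ emb κ n g ^ N • x = jj g a N₀ M m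

lemma pow_jj (N : ℕ) (m : M.M) : jj g a N₀ M (g ^ N • m) = emb κ n g ^ N • jj g a N₀ M m := by
  rw [jj_smul, map_pow]

lemma Rep_up (hg1 : g.IsHomogeneous 1) {k : ℤ} {x : EE g a N₀ M} {N : ℕ} {m : M.M}
    (h : Rep g a N₀ M k x N m) (N' : ℕ) : Rep g a N₀ M k x (N' + N) (g ^ N' • m) := by
  refine ⟨?_, ?_⟩
  · have h1 := FRE_.hom_smul M (hg1.pow N') (k + N) m h.1
    convert h1 using 2
    push_cast; ring
  · rw [pow_jj, ← h.2, ← mul_smul, pow_add]

lemma jj_kappa (c : κ) (m : M.M) : jj g a N₀ M (c • m) = c • jj g a N₀ M m := by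
  have h1 : c • m = (C c : Po κ n) • m := by
    rw [← algebraMap_eq, algebraMap_smul]
  rw [h1, jj_smul, mV_def]
  congr 1
  simp [emb]

/-- the grading -/
def gE (hg1 : g.IsHomogeneous 1) (k : ℤ) : Submodule κ (EE g a N₀ M) where
  carrier := {x | ∃ N m, Rep g a N₀ M k x N m}
  add_mem' := by
    rintro x y ⟨N, m, hx⟩ ⟨N', m', hy⟩
    have hx' := Rep_up g a N₀ M hg1 hx N'
    have hy' := Rep_up g a N₀ M hg1 hy N
    rw [add_comm N' N] at hx'
    refine ⟨N + N', _, Submodule.add_mem _ hx'.1 hy'.1, ?_⟩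
    rw [smul_add, hx'.2, hy'.2, map_add]
  zero_mem' := ⟨0, 0, Submodule.zero_mem _, by rw [smul_zero, map_zero]⟩
  smul_mem' := by
    rintro c x ⟨N, m, hx⟩
    refine ⟨N, c • m, Submodule.smul_mem _ c hx.1, ?_⟩
    rw [jj_kappa, ← hx.2, mV_def, mV_def, smul_comm]

lemma cmp_sum {V : Type} [CommRing V] {r : ℕ} (M : GMod V r) {ι : Type} (S : Finset ι)
    (f : ι → M.M) (k : ℤ) : M.cmp k (∑ i ∈ S, f i) = ∑ i ∈ S, M.cmp k (f i) := by
  classical
  obtain ⟨c1, c2, c3, c4, c5, c6, c7, c8, c9, c10⟩ := cmp_proof V r M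
  have c0 : M.cmp k 0 = 0 := by
    have h := c4 k 0 0
    rw [add_zero] at h
    have h' := congrArg (fun t => t - M.cmp k 0) h
    simpa using h'.symm
  induction S using Finset.induction_on with
  | empty => simp [c0]
  | insert i S hi ih => rw [Finset.sum_insert hi, Finset.sum_insert hi, c4, ih]

lemma cmp_hom {V : Type} [CommRing V] {r : ℕ} (M : GMod V r) (p : Po V r) (e : ℕ)
    (hp : p.IsHomogeneous e) (k : ℤ) (m : M.M) : M.cmp (k + e) (p • m) = p • M.cmp k m := by
  classical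
  obtain ⟨c1, c2, c3, c4, c5, c6, c7, c8, c9, c10⟩ := cmp_proof V r M
  obtain ⟨S, hS, hS'⟩ := c7 m
  conv_lhs => rw [hS]
  rw [Finset.smul_sum, cmp_sum]
  have h1 : ∀ i ∈ S, M.cmp (k + e) (p • M.cmp i m) = if i = k then p • M.cmp k m else 0 := by
    intro i _
    have h2 := FRE_.hom_smul M hp i _ (c1 i m)
    split_ifs with h
    · subst h
      exact c2 _ _ h2
    · exact c3 _ _ _ h2 (by omega)
  rw [Finset.sum_congr rfl h1, Finset.sum_ite_eq']
  split_ifs with h
  · rfl
  · rw [hS' k h, smul_zero]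

variable (hg1 : g.IsHomogeneous 1) (hg : ∀ m : M.M, g • m = 0 → m = 0)

include hg1 hg in
/-- the homogeneous component of an element of the localisation -/
lemma ex_cmp (k : ℤ) (x : EE g a N₀ M) : ∃ y : EE g a N₀ M, ∀ (N : ℕ) (m : M.M),
    emb κ n g ^ N • x = jj g a N₀ M m → emb κ n g ^ N • y = jj g a N₀ M (M.cmp (k + N) m) := by
  obtain ⟨N, m, h⟩ := surj g a N₀ M x
  -- divide `j (cmp (k + N) m)` by `g ^ N`
  obtain ⟨y, hy⟩ : ∃ y : EE g a N₀ M, emb κ n g ^ N • y = jj g a N₀ M (M.cmp (k + N) m) := by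
    refine ⟨(IsLocalization.Away.invSelf g : Localization.Away g) ^ N •
      jj g a N₀ M (M.cmp (k + N) m), ?_⟩
    rw [mA_def, map_pow, th_emb, ← mul_smul, ← mul_pow, IsLocalization.Away.mul_invSelf, one_pow,
      one_smul]
  refine ⟨y, fun N' m' h' => ?_⟩
  have h1 : g ^ N' • m = g ^ N • m' := by
    apply jj_inj g a N₀ M hg
    rw [pow_jj, pow_jj, ← h, ← h', smul_comm]
  have h2 : g ^ N' • M.cmp (k + N) m = g ^ N • M.cmp (k + N') m' := by
    have e1 := cmp_hom M (g ^ N') N' (by simpa using hg1.pow N') (k + N) m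
    have e2 := cmp_hom M (g ^ N) N (by simpa using hg1.pow N) (k + N') m'
    rw [← e1, ← e2, h1]
    congr 1
    ring
  have h3 : emb κ n g ^ N • (emb κ n g ^ N' • y - jj g a N₀ M (M.cmp (k + N') m')) = 0 := by
    rw [smul_sub, smul_comm, hy, ← pow_jj, ← pow_jj, h2, sub_self]
  exact sub_eq_zero.1 (ginj_pow g a N₀ M N _ h3)

include hg in
lemma int : DirectSum.IsInternal (gE g a N₀ M hg1) := by
  classical
  obtain ⟨c1, c2, c3, c4, c5, c6, c7, c8, c9, c10⟩ := cmp_proof κ n M
  choose c hc using ex_cmp g a N₀ M hg1 hg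
  refine SUB_.internal _ c ?_ ?_ ?_ ?_ ?_
  · intro k x y
    obtain ⟨N, m, h⟩ := surj g a N₀ M x
    obtain ⟨N', m', h'⟩ := surj g a N₀ M y
    have e1 : emb κ n g ^ (N' + N) • x = jj g a N₀ M (g ^ N' • m) := by
      rw [pow_jj, ← h, ← mul_smul, pow_add]
    have e2 : emb κ n g ^ (N' + N) • y = jj g a N₀ M (g ^ N • m') := by
      rw [pow_jj, ← h', ← mul_smul, ← pow_add, add_comm N N']
    have e3 : emb κ n g ^ (N' + N) • (x + y) = jj g a N₀ M (g ^ N' • m + g ^ N • m') := by
      rw [smul_add, e1, e2, map_add]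
    have h1 := hc k x _ _ e1
    have h2 := hc k y _ _ e2
    have h3 := hc k (x + y) _ _ e3
    have h4 : emb κ n g ^ (N' + N) • (c k (x + y) - (c k x + c k y)) = 0 := by
      rw [smul_sub, smul_add, h1, h2, h3, c4, map_add, sub_self]
    exact sub_eq_zero.1 (ginj_pow g a N₀ M _ _ h4)
  · rintro k x ⟨N, m, hm, h⟩
    have h1 := hc k x N m h
    rw [c2 _ _ hm, ← h] at h1
    have h4 : emb κ n g ^ N • (c k x - x) = 0 := by
      rw [smul_sub, h1, sub_self]
    exact sub_eq_zero.1 (ginj_pow g a N₀ M _ _ h4)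
  · rintro k k' x ⟨N, m, hm, h⟩ hk
    have h1 := hc k x N m h
    rw [c3 _ _ _ hm (by omega), map_zero] at h1
    exact ginj_pow g a N₀ M _ _ h1
  · intro x
    obtain ⟨N, m, h⟩ := surj g a N₀ M x
    obtain ⟨S, hS, hS'⟩ := c7 m
    refine ⟨S.image (fun k => k - (N : ℤ)), ?_⟩
    have h4 : emb κ n g ^ N • (x - ∑ k ∈ S.image (fun k => k - (N : ℤ)), c k x) = 0 := by
      rw [smul_sub, Finset.smul_sum, Finset.sum_image (by intro i _ j _ hij; simpa using hij), h]
      have e : ∀ i ∈ S, emb κ n g ^ N • c (i - (N : ℤ)) x = jj g a N₀ M (M.cmp i m) := by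
        intro i _
        rw [hc _ x N m h]
        congr 2
        ring
      rw [Finset.sum_congr rfl e, ← map_sum, ← hS, sub_self]
    exact sub_eq_zero.1 (ginj_pow g a N₀ M _ _ h4)
  · intro k x
    obtain ⟨N, m, h⟩ := surj g a N₀ M x
    exact ⟨N, M.cmp (k + N) m, c1 _ _, hc k x N m h⟩

/-- the graded module -/
def GE (ha : a.IsHomogeneous (N₀ + 1)) : GMod κ (n + 1) where
  M := EE g a N₀ M
  gr := gE g a N₀ M hg1
  int := int g a N₀ M hg1 hg
  mul_mem := by
    rintro i k x ⟨N, m, hm, h⟩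
    refine Fin.lastCases ?_ (fun i => ?_) i
    · refine ⟨N₀ + N, a • m, ?_, ?_⟩
      · have h1 := FRE_.hom_smul M ha (k + N) m hm
        convert h1 using 2
        push_cast; ring
      · rw [pow_add, mul_comm, mul_smul]
        have h2 := relY g a N₀ M x
        rw [Yv] at h2
        rw [h2, smul_comm, h, jj_smul]
    · refine ⟨N, (X i : Po κ n) • m, ?_, ?_⟩
      · have h1 := M.mul_mem i (k + N) m hm
        convert h1 using 2
        ring
      · rw [smul_comm, h, jj_smul]
        congr 1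
        simp [emb]

end grading

lemma lin_hom {κ : Type} [Field κ] {n : ℕ} (v : Fin n → κ) : (lin v).IsHomogeneous 1 := by
  unfold lin
  refine IsHomogeneous.sum _ _ _ fun c _ => ?_
  have h := (isHomogeneous_C (Fin n) (v c)).mul (isHomogeneous_X κ c)
  simpa using h

lemma lin_mem {κ : Type} [Field κ] {n : ℕ} (v : Fin n → κ) (A : Set (Fin n))
    (hv : ∀ i, i ∉ A → v i = 0) : lin v ∈ VI κ A := by
  unfold lin
  refine Ideal.sum_mem _ fun c _ => ?_
  by_cases hc : c ∈ A
  · exact Ideal.mul_mem_left _ _ (Ideal.subset_span ⟨c, hc, rfl⟩)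
  · rw [hv c hc, C_0, zero_mul]
    exact zero_mem _

end YMD_

open YMD_ in
theorem ymd_proof : Stmt_YMD := by
  classical
  intro κ _ n D v hv M hK hg
  obtain ⟨N₀, hN₀⟩ := D.yA
  obtain ⟨a', ha'⟩ := hN₀ ((lin v) ^ N₀) (Ideal.pow_mem_pow (lin_mem v D.A hv) N₀)
  have hg1 := lin_hom v
  have ha : (homogeneousComponent (N₀ + 1) a').IsHomogeneous (N₀ + 1) :=
    homogeneousComponent_isHomogeneous _ _
  have hrel : Yv κ n * emb κ n ((lin v) ^ N₀) - emb κ n (homogeneousComponent (N₀ + 1) a') ∈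
      D.I' := by
    have h1 := D.hom _ ha' (N₀ + 1)
    rw [map_sub] at h1
    have h2 : homogeneousComponent (N₀ + 1) (Yv κ n * emb κ n ((lin v) ^ N₀)) =
        Yv κ n * emb κ n ((lin v) ^ N₀) := by
      apply homogeneousComponent_eq_self
      have h3 : (emb κ n ((lin v) ^ N₀)).IsHomogeneous N₀ := by
        have h4 := (hg1.pow N₀)
        rw [one_mul] at h4
        exact h4.rename_isHomogeneous
      have h5 := (isHomogeneous_X κ (Fin.last n)).mul h3
      exact (add_comm 1 N₀) ▸ h5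
    have h6 : homogeneousComponent (N₀ + 1) (emb κ n a') =
        emb κ n (homogeneousComponent (N₀ + 1) a') := (rename_homogeneousComponent _ _).symm
    rw [h2, h6] at h1
    exact h1
  generalize homogeneousComponent (N₀ + 1) a' = a at ha hrel
  generalize hgdef : lin v = g at *
  obtain ⟨c1, c2, c3, c4, c5, c6, c7, c8, c9, c10⟩ := cmp_proof κ n M
  have hN : IsHom (GE g a N₀ M hg1 hg ha)
      (Submodule.span (Po κ (n + 1)) (Set.range (jj g a N₀ M))) := by
    refine le_antisymm ?_ ?_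
    · rw [Submodule.span_le]
      rintro x ⟨hx, -⟩
      exact hx
    · rw [Submodule.span_le]
      rintro _ ⟨m, rfl⟩
      obtain ⟨S, hS, -⟩ := c7 m
      have h1 : jj g a N₀ M m = ∑ k ∈ S, jj g a N₀ M (M.cmp k m) := by
        conv_lhs => rw [hS]
        rw [map_sum]
      rw [h1]
      refine Submodule.sum_mem _ fun k _ => Submodule.subset_span
        ⟨Submodule.subset_span ⟨_, rfl⟩, k, 0, M.cmp k m, ?_, ?_⟩
      · have := c1 k m
        simpa using this
      · rw [pow_zero, one_smul]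
  obtain ⟨M', f, hf, hfr, hfd⟩ := sub_proof cmp_proof κ (n + 1) (GE g a N₀ M hg1 hg ha) _ hN
  have hex : ∀ m : M.M, ∃ y : M'.M, f.f y = jj g a N₀ M m := by
    intro m
    have h1 : jj g a N₀ M m ∈ LinearMap.range f.f := by
      rw [hfr]
      exact Submodule.subset_span ⟨m, rfl⟩
    exact h1
  choose j hj using hex
  let jh : M.M →+ M'.M :=
    { toFun := j
      map_zero' := by
        apply hf
        rw [hj, map_zero, map_zero]
        rfl
      map_add' := fun x y => by
        apply hf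
        rw [hj, map_add, map_add, hj, hj]
        rfl }
  have hjh : ∀ m, f.f (jh m) = jj g a N₀ M m := hj
  refine ⟨M', jh, ?_⟩
  refine { inj := ?_, smul := ?_, deg := ?_, gen := ?_, kill := ?_, back := ?_, ginj := ?_ }
  · intro m m' h
    apply jj_inj g a N₀ M hg
    rw [← hjh, ← hjh, h]
  · intro p m
    apply hf
    have e := f.f.map_smul (emb κ n p) (jh m)
    rw [hjh m] at e
    exact (hjh (p • m)).trans ((jj_smul g a N₀ M p m).trans e.symm)
  · intro k m hm
    apply hfd
    rw [hjh]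
    exact ⟨0, m, by simpa using hm, by rw [pow_zero, one_smul]⟩
  · rw [eq_top_iff]
    intro y _
    have h1 : f.f y ∈ Submodule.span (Po κ (n + 1)) (Set.range (jj g a N₀ M)) :=
      hfr.le ⟨y, rfl⟩
    have h2 : Set.range (jj g a N₀ M) = f.f '' Set.range jh := by
      ext x
      constructor
      · rintro ⟨m, rfl⟩
        exact ⟨jh m, ⟨m, rfl⟩, hjh m⟩
      · rintro ⟨_, ⟨m, rfl⟩, rfl⟩
        exact ⟨m, (hjh m).symm⟩
    rw [h2] at h1
    have h3 : f.f y ∈ (Submodule.span (Po κ (n + 1)) (Set.range jh)).map f.f := by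
      rw [Submodule.map_span]
      exact h1
    obtain ⟨y', hy', hyy⟩ := h3
    rw [← hf hyy]
    exact hy'
  · intro p hp x
    apply hf
    rw [map_smul, map_zero]
    exact kill g a N₀ M D.I' hrel hK p hp (f.f x)
  · intro k x hx
    obtain ⟨N, m, hm, h⟩ := f.deg k x hx
    refine ⟨N, m, hm, ?_⟩
    apply hf
    rw [map_smul, hjh, hgdef]
    exact h
  · intro x hx
    apply hf
    rw [map_zero]
    apply ginj g a N₀ M
    have h1 := congrArg f.f hx
    rw [map_smul, map_zero, hgdef] at h1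
    exact h1

end

end Pool.Agent.RST
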