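import Pool.Agent.RST.Stmts
import Pool.Agent.GML.GRO
import Pool.Agent.GML.AGR
import Pool.Agent.GML.CMP
import Pool.Agent.GML.DEG
import Pool.Agent.GML.DIM
import Pool.Agent.GML.FRE
import Pool.Agent.GML.QUO

/-!
# RST: YTL, rank of `R' M / X c₀ ^ c R' M`
-/

set_option autoImplicit false

open MvPolynomial Pool.Agent.GML

namespace Pool.Agent.RST

namespace YTL_

theorem gro : Pool.Agent.GML.Stmt_GRO :=
  gro_proof agr_proof cmp_proof (fre_proof cmp_proof (deg_proof cmp_proof))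
    (dim_proof agr_proof cmp_proof) (deg_proof cmp_proof) (quo_proof cmp_proof)

/-- dimensions of the components in the sequence `M'(-c) → M' → Q'` -/
theorem dim_step {κ : Type} [Field κ] {r : ℕ} (M Q : GMod κ r) (π : GHom M Q)
    (hπ : Function.Surjective π.f) (p : Po κ r) (c : ℕ) (hp : p.IsHomogeneous c)
    (hker : ∀ y : M.M, π.f (p • y) = 0) (hinj : ∀ x : M.M, p • x = 0 → x = 0) (k l : ℤ)
    (hkl : l + c = k) (hfin : Module.Finite κ (M.gr k)) :
    Module.finrank κ (M.gr l) + Module.finrank κ (Q.gr k) ≤ Module.finrank κ (M.gr k) := by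
  obtain ⟨hlift, -⟩ := deg_proof cmp_proof κ r M Q π
  -- the projection
  let f : M.gr k →ₗ[κ] Q.gr k :=
    ((π.f.restrictScalars κ).comp (M.gr k).subtype).codRestrict (Q.gr k)
      (fun x => π.deg k x.1 x.2)
  have hf : Function.Surjective f := by
    intro y
    obtain ⟨x, hx, hxy⟩ := hlift k y.1 y.2 (by rw [LinearMap.range_eq_top.2 hπ]; trivial)
    exact ⟨⟨x, hx⟩, Subtype.ext hxy⟩
  -- the multiplication
  let g : M.gr l →ₗ[κ] LinearMap.ker f :=
    { toFun := fun x => ⟨⟨p • x.1, by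
        have h := DIM_.hom_smul_mem M (N := c) (p := p) hp (m := l) x.2
        rwa [hkl] at h⟩, by
          rw [LinearMap.mem_ker]
          exact Subtype.ext (hker x.1)⟩
      map_add' := fun x y => by
        apply Subtype.ext; apply Subtype.ext
        exact smul_add p x.1 y.1
      map_smul' := fun a x => by
        apply Subtype.ext; apply Subtype.ext
        exact smul_comm p a x.1 }
  have hg : Function.Injective g := by
    rw [injective_iff_map_eq_zero]
    intro x hx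
    apply Subtype.ext
    apply hinj
    exact congrArg (fun t => ((t : LinearMap.ker f) : M.gr k).1) hx
  have h1 := LinearMap.finrank_range_add_finrank_ker f
  rw [LinearMap.range_eq_top.2 hf, finrank_top] at h1
  have h2 := LinearMap.finrank_le_finrank_of_injective hg
  omega

theorem arith (a q : ℕ → ℕ) (A c ρ : ℕ) (hc : 0 < c) (C C' : ℕ)
    (hstep : ∀ k, a k + q (k + 1) ≤ a (k + 1))
    (ha : ∀ k : ℕ, (a k : ℚ) ≤ A * ((c * k : ℕ) : ℚ) ^ 3 / 6 + C * (((c * k : ℕ) : ℚ) + 1) ^ 2)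
    (hq : ∀ k : ℕ, (ρ : ℚ) * ((c * k : ℕ) : ℚ) ^ 2 / 2 ≤ q k + C' * (((c * k : ℕ) : ℚ) + 1)) :
    ρ ≤ A * c := by
  have hc' : (1 : ℚ) ≤ c := by exact_mod_cast hc
  have hρ0 : (0 : ℚ) ≤ ρ := Nat.cast_nonneg _
  have hC0 : (0 : ℚ) ≤ C := Nat.cast_nonneg _
  have hC0' : (0 : ℚ) ≤ C' := Nat.cast_nonneg _
  have key : ∀ k : ℕ, (ρ : ℚ) * c ^ 2 * k ^ 3 / 6 - C' * k * (c * k + 1) ≤ a k := by
    intro k
    induction k with
    | zero => simp
    | succ k ih =>
      have h1 : (a k : ℚ) + q (k + 1) ≤ a (k + 1) := by exact_mod_cast hstep k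
      have h2 := hq (k + 1)
      push_cast at h2 ⊢
      have hk : (0 : ℚ) ≤ k := Nat.cast_nonneg _
      have h3 : (ρ : ℚ) * c ^ 2 * ((k : ℚ) + 1) ^ 3 / 6 ≤
          ρ * c ^ 2 * k ^ 3 / 6 + ρ * (c * (k + 1)) ^ 2 / 2 := by
        have h4 : (0 : ℚ) ≤ ρ * c ^ 2 := by positivity
        nlinarith [mul_nonneg h4 hk]
      have h5 : (C' : ℚ) * k * (c * k + 1) + C' * (c * (k + 1) + 1) ≤
          C' * ((k : ℚ) + 1) * (c * (k + 1) + 1) := by
        have h6 : (0 : ℚ) ≤ C' * k * c := by positivity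
        nlinarith
      linarith
  by_contra hlt
  have hρ : (A : ℚ) * c + 1 ≤ ρ := by
    have : A * c + 1 ≤ ρ := by omega
    exact_mod_cast this
  set k : ℕ := 6 * (2 * C' * c + 4 * C * c ^ 2) + 1 with hk
  have h1 := key k
  have h2 := ha k
  have hk1 : (1 : ℚ) ≤ k := by rw [hk]; push_cast; nlinarith
  have hk2 : (k : ℚ) = 6 * (2 * C' * c + 4 * C * c ^ 2) + 1 := by rw [hk]; push_cast; ring
  push_cast at h2
  have h3 : (c : ℚ) * k + 1 ≤ 2 * (c * k) := by nlinarith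
  have hck : (0 : ℚ) ≤ (c : ℚ) * k := by positivity
  have h4 : (C' : ℚ) * k * (c * k + 1) ≤ C' * k * (2 * (c * k)) :=
    mul_le_mul_of_nonneg_left h3 (by positivity)
  have h5 : (C : ℚ) * (c * k + 1) ^ 2 ≤ C * (2 * (c * k)) ^ 2 :=
    mul_le_mul_of_nonneg_left (pow_le_pow_left₀ (by positivity) h3 2) hC0
  have h6 : ((A : ℚ) * c + 1) * (c ^ 2 * k ^ 3) ≤ ρ * (c ^ 2 * k ^ 3) :=
    mul_le_mul_of_nonneg_right hρ (by positivity)
  have h7 : (c : ℚ) ^ 2 * k ^ 3 / 6 ≤ (2 * C' * c + 4 * C * c ^ 2) * k ^ 2 := by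
    nlinarith
  have h8 : (k : ℚ) ^ 2 * k ≤ c ^ 2 * k ^ 3 := by
    have h9 : (1 : ℚ) ≤ c ^ 2 := one_le_pow₀ hc'
    have h10 : (0 : ℚ) ≤ (k : ℚ) ^ 3 := by positivity
    nlinarith
  have h11 : (k : ℚ) ^ 2 * k ≤ k ^ 2 * (6 * (2 * C' * c + 4 * C * c ^ 2)) := by nlinarith
  have h12 : (k : ℚ) ≤ 6 * (2 * C' * c + 4 * C * c ^ 2) :=
    le_of_mul_le_mul_left h11 (by positivity)
  linarith

theorem w_hom {κ : Type} [Field κ] {n : ℕ} {D : XD κ n} {z : Fin 3 → Po κ n}
    {w : Fin 3 → Po κ (n + 1)} (hz : Zp D z) (hw : WG D z w) (i : Fin 3) :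
    (w i).IsHomogeneous 1 := by
  have he : ∀ j, (emb κ n (z j)).IsHomogeneous 1 := fun j =>
    IsHomogeneous.rename_isHomogeneous (hz.1 j)
  obtain ⟨⟨a, b, h0⟩, h1, h2, -⟩ := hw
  fin_cases i
  · change (w 0).IsHomogeneous 1
    rw [h0]
    exact ((he 0).C_mul a).add ((isHomogeneous_X κ (Fin.last n)).C_mul b)
  · change (w 1).IsHomogeneous 1
    rw [h1]
    exact he 1
  · change (w 2).IsHomogeneous 1
    rw [h2]
    exact he 2

end YTL_

open YTL_ in
theorem ytl_proof (hWFN : Stmt_WFN) (hRSC : Stmt_RSC) : Stmt_YTL := by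
  classical
  intro κ _ n D z w hz hw c hc A M' Q' π hπ hker hinj hfin hkil hgrow
  obtain ⟨r', rfl⟩ : ∃ r', n = r' + 1 := ⟨n - 1, by have := D.c₀.isLt; omega⟩
  set x₀ : Po κ (r' + 1 + 1) := X (Fin.castSucc D.c₀) with hx₀
  -- `Q'` is finite over `κ[w]`
  have hQfin : Module.Finite (Po κ (r' + 1 + 1)) Q'.M := Module.Finite.of_surjective π.f hπ
  have hQkil : ∀ f ∈ D.I', ∀ v : Q'.M, f • v = 0 := by
    intro f hf v
    obtain ⟨x, rfl⟩ := hπ v
    rw [← map_smul, hkil f hf x, map_zero]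
  have hQc : ∀ v : Q'.M, x₀ ^ c • v = 0 := by
    intro v
    obtain ⟨x, rfl⟩ := hπ v
    rw [← map_smul]
    exact (hker _).2 ⟨x, rfl⟩
  have hT := hWFN.1 κ (r' + 1) D z w hz hw Q'.M hQfin hQkil ⟨c, hQc⟩
  obtain ⟨N, e, he, heκ, hegr, hrk, hNfin⟩ := hRSC κ (r' + 1 + 1) w (w_hom hz hw) Q'
  have hNf : Module.Finite (Po κ 3) N.M := hNfin hT
  obtain ⟨hNg, -, C', hC'⟩ := gro κ 1 N hNf
  obtain ⟨hMg, -, -⟩ := gro κ r' M' hfin
  obtain ⟨C, hC⟩ := hgrow
  -- dimensions of `Q'` and `N`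
  have hdim : ∀ k : ℤ, Module.finrank κ (Q'.gr k) = Module.finrank κ (N.gr k) := by
    intro k
    exact LinearEquiv.finrank_eq
      { toFun := fun x => ⟨e x.1, (hegr k x.1).1 x.2⟩
        map_add' := fun x y => Subtype.ext (map_add e x.1 y.1)
        map_smul' := fun a x => Subtype.ext (heκ a x.1)
        invFun := fun y => ⟨e.symm y.1, (hegr k _).2 (by rw [e.apply_symm_apply]; exact y.2)⟩
        left_inv := fun x => Subtype.ext (e.symm_apply_apply x.1)
        right_inv := fun y => Subtype.ext (e.apply_symm_apply y.1) }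
  refine ⟨?_, ?_⟩
  · unfold Fw
    letI : Module (Po κ 3) Q'.M :=
      Module.compHom Q'.M (aeval w : Po κ 3 →ₐ[κ] Po κ (r' + 1 + 1)).toRingHom
    let e' : Q'.M ≃ₗ[Po κ 3] N.M :=
      { toFun := e
        map_add' := map_add e
        map_smul' := fun P m => he P m
        invFun := e.symm
        left_inv := e.symm_apply_apply
        right_inv := e.apply_symm_apply }
    rw [e'.rank_eq]
    exact Module.rank_lt_aleph0 _ _
  · rw [← hrk]
    refine arith (fun k => Module.finrank κ (M'.gr ((c * k : ℕ) : ℤ)))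
      (fun k => Module.finrank κ (Q'.gr ((c * k : ℕ) : ℤ))) A c _ hc C C' ?_ (fun k => hC _) ?_
    · intro k
      refine dim_step M' Q' π hπ (x₀ ^ c) c ?_ (fun y => (hker _).2 ⟨y, rfl⟩) ?_ _ _ ?_ (hMg _)
      · have := (isHomogeneous_X κ (Fin.castSucc D.c₀)).pow c
        rwa [one_mul] at this
      · intro x hx
        have : ∀ m : ℕ, ∀ x : M'.M, x₀ ^ m • x = 0 → x = 0 := by
          intro m
          induction m with
          | zero => intro x hx; rwa [pow_zero, one_smul] at hx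
          | succ m ih =>
            intro x hx
            rw [pow_succ, mul_smul] at hx
            exact hinj x (ih _ hx)
        exact this c x hx
      · push_cast; ring
    · intro k
      have h1 := hC' (c * k)
      rw [hdim]
      have h2 := (abs_le.1 h1).1
      have h3 : (Module.finrank (Po κ 3) N.M : ℚ) * ((c * k + 2).choose 2 : ℕ) ≤
          Module.finrank κ (N.gr ((c * k : ℕ) : ℤ)) + C' * (((c * k : ℕ) : ℚ) + 1) := by
        have h4 : (Module.finrank (Po κ 3) N.M : ℤ) * ((c * k + 2).choose 2 : ℕ) ≤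
          Module.finrank κ (N.gr ((c * k : ℕ) : ℤ)) + C' * (((c * k : ℕ) : ℤ) + 1) := by
          rw [pow_one] at h2
          linarith
        exact_mod_cast h4
      refine le_trans ?_ h3
      rw [Nat.cast_choose_two]
      push_cast
      have h5 : (0 : ℚ) ≤ (c : ℚ) * k := by positivity
      have h6 : (0 : ℚ) ≤ (Module.finrank (Po κ 3) N.M : ℚ) := Nat.cast_nonneg _
      have h7 : ((c : ℚ) * k) ^ 2 / 2 ≤ (c * k + 2) * (c * k + 2 - 1) / 2 := by nlinarith
      calc (Module.finrank (Po κ 3) N.M : ℚ) * (c * k) ^ 2 / 2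
          = (Module.finrank (Po κ 3) N.M : ℚ) * ((c * k) ^ 2 / 2) := by ring
        _ ≤ _ := mul_le_mul_of_nonneg_left h7 h6

end Pool.Agent.RST
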