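import Pool.Agent.RST.Stmts

/-!
# RST, module ZPC: `z` are parameters modulo every power of `X c₀`
-/

set_option autoImplicit false

open MvPolynomial Pool.Agent.GML

namespace Pool.Agent.RST

namespace ZPC_

variable {κ : Type} [Field κ] {n : ℕ}

theorem hc_mul {p : Po κ n} {k : ℕ} (hp : p.IsHomogeneous k) (h : Po κ n) (d : ℕ) :
    homogeneousComponent (k + d) (p * h) = p * homogeneousComponent d h := by
  conv_lhs => rw [← sum_homogeneousComponent h]
  rw [Finset.mul_sum, map_sum]
  have h1 : ∀ i ∈ Finset.range (h.totalDegree + 1),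
      homogeneousComponent (k + d) (p * homogeneousComponent i h) =
        if i = d then p * homogeneousComponent d h else 0 := by
    intro i _
    have h2 : p * homogeneousComponent i h ∈ homogeneousSubmodule (Fin n) κ (k + i) :=
      hp.mul (homogeneousComponent_isHomogeneous i h)
    rw [homogeneousComponent_of_mem h2]
    by_cases h3 : i = d
    · subst h3
      simp
    · rw [if_neg h3, if_neg (by omega)]
  rw [Finset.sum_congr rfl h1, Finset.sum_ite_eq']
  split_ifs with h4
  · rfl
  · rw [homogeneousComponent_eq_zero, mul_zero]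
    rw [Finset.mem_range] at h4
    omega

theorem hc_mul_lt {p : Po κ n} {k : ℕ} (hp : p.IsHomogeneous k) (h : Po κ n) (d : ℕ)
    (hd : d < k) : homogeneousComponent d (p * h) = 0 := by
  conv_lhs => rw [← sum_homogeneousComponent h]
  rw [Finset.mul_sum, map_sum]
  refine Finset.sum_eq_zero fun i _ => ?_
  have h2 : p * homogeneousComponent i h ∈ homogeneousSubmodule (Fin n) κ (k + i) :=
    hp.mul (homogeneousComponent_isHomogeneous i h)
  rw [homogeneousComponent_of_mem h2, if_neg (by omega)]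

theorem homI_aF (D : XD κ n) (c : ℕ) : HomI (aF D c) := by
  intro p hp d
  obtain ⟨a, ha, b, hb, rfl⟩ := Submodule.mem_sup.1 hp
  obtain ⟨h, rfl⟩ := Ideal.mem_span_singleton'.1 hb
  rw [map_add]
  refine Ideal.add_mem _ ?_ ?_
  · refine Ideal.mem_sup_left ?_
    show emb κ n (homogeneousComponent d a) ∈ D.I'
    have h1 : emb κ n (homogeneousComponent d a) = homogeneousComponent d (emb κ n a) :=
      rename_homogeneousComponent d a
    rw [h1]
    exact D.hom _ ha d
  · refine Ideal.mem_sup_right ?_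
    have hX : ((X D.c₀ : Po κ n) ^ c).IsHomogeneous c := isHomogeneous_X_pow _ _
    rw [mul_comm]
    by_cases hd : c ≤ d
    · obtain ⟨e, rfl⟩ := Nat.exists_eq_add_of_le hd
      rw [hc_mul hX]
      exact Ideal.mul_mem_right _ _ (Ideal.subset_span rfl)
    · rw [hc_mul_lt hX h d (by omega)]
      exact Ideal.zero_mem _

/-- the elements generated by `T` over `κ[z]`, modulo `I` -/
def SS (I : Ideal (Po κ n)) (z : Fin 3 → Po κ n) (T : Finset (Po κ n)) : Submodule κ (Po κ n) where
  carrier := {f | ∃ P : Po κ n → Po κ 3, f - ∑ t ∈ T, aeval z (P t) * t ∈ I}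
  add_mem' := by
    rintro f g ⟨P, hP⟩ ⟨Q, hQ⟩
    refine ⟨fun t => P t + Q t, ?_⟩
    have : f + g - ∑ t ∈ T, aeval z (P t + Q t) * t =
        (f - ∑ t ∈ T, aeval z (P t) * t) + (g - ∑ t ∈ T, aeval z (Q t) * t) := by
      simp only [map_add, add_mul, Finset.sum_add_distrib]
      ring
    rw [this]
    exact I.add_mem hP hQ
  zero_mem' := ⟨fun _ => 0, by simp⟩
  smul_mem' := by
    rintro v f ⟨P, hP⟩
    refine ⟨fun t => v • P t, ?_⟩
    have : v • f - ∑ t ∈ T, aeval z (v • P t) * t = C v * (f - ∑ t ∈ T, aeval z (P t) * t) := by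
      rw [mul_sub, Finset.mul_sum, smul_eq_C_mul]
      congr 1
      refine Finset.sum_congr rfl fun t _ => ?_
      rw [map_smul, smul_eq_C_mul, mul_assoc]
    rw [this]
    exact I.mul_mem_left _ hP

theorem SS_I {I : Ideal (Po κ n)} {z : Fin 3 → Po κ n} {T : Finset (Po κ n)} {f : Po κ n}
    (hf : f ∈ I) : f ∈ SS I z T := ⟨fun _ => 0, by simpa using hf⟩

theorem SS_T {I : Ideal (Po κ n)} {z : Fin 3 → Po κ n} {T : Finset (Po κ n)} {f : Po κ n}
    (hf : f ∈ T) : f ∈ SS I z T := by
  classical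
  refine ⟨fun t => if t = f then 1 else 0, ?_⟩
  have : ∑ t ∈ T, aeval z (if t = f then (1 : Po κ 3) else 0) * t = f := by
    rw [Finset.sum_eq_single f]
    · simp
    · intro b _ hb
      rw [if_neg hb, map_zero, zero_mul]
    · intro h
      exact absurd hf h
  rw [this, sub_self]
  exact I.zero_mem

theorem SS_z {I : Ideal (Po κ n)} {z : Fin 3 → Po κ n} {T : Finset (Po κ n)} {f : Po κ n}
    (i : Fin 3) (hf : f ∈ SS I z T) : f * z i ∈ SS I z T := by
  obtain ⟨P, hP⟩ := hf
  refine ⟨fun t => X i * P t, ?_⟩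
  have : f * z i - ∑ t ∈ T, aeval z (X i * P t) * t =
      z i * (f - ∑ t ∈ T, aeval z (P t) * t) := by
    rw [mul_sub, Finset.mul_sum]
    congr 1
    · ring
    · refine Finset.sum_congr rfl fun t _ => ?_
      rw [map_mul, aeval_X, mul_assoc]
  rw [this]
  exact I.mul_mem_left _ hP

theorem big_mem (J : Ideal (Po κ n)) (N : ℕ) (hN : ∀ c, (X c : Po κ n) ^ N ∈ J) {m : ℕ}
    (hm : n * N < m) {f : Po κ n} (hf : f.IsHomogeneous m) : f ∈ J := by
  rw [← support_sum_monomial_coeff f]
  refine Ideal.sum_mem _ fun β hβ => ?_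
  have hdeg : β.degree = m := by
    by_contra h
    exact (mem_support_iff.1 hβ) (hf.coeff_eq_zero h)
  obtain ⟨i, hi⟩ : ∃ i, N ≤ β i := by
    by_contra h
    push Not at h
    have h1 : ∑ i, β i ≤ ∑ _i : Fin n, N := Finset.sum_le_sum fun i _ => (h i).le
    rw [Finset.sum_const, Finset.card_univ, Fintype.card_fin, smul_eq_mul] at h1
    rw [Finsupp.degree_eq_sum] at hdeg
    omega
  have h2 : monomial β (coeff β f) =
      (X i : Po κ n) ^ N * monomial (β - Finsupp.single i N) (coeff β f) := by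
    rw [X_pow_eq_monomial, monomial_mul, one_mul,
      add_tsub_cancel_of_le (Finsupp.single_le_iff.2 hi)]
  rw [h2]
  exact Ideal.mul_mem_right _ _ (hN i)

/-- graded Nakayama -/
theorem nak (I : Ideal (Po κ n)) (hI : HomI I) (z : Fin 3 → Po κ n)
    (hz : ∀ i, (z i).IsHomogeneous 1) (N : ℕ)
    (hN : ∀ c, (X c : Po κ n) ^ N ∈ I ⊔ Ideal.span (Set.range z)) :
    ∃ T : Finset (Po κ n), ∀ f, f ∈ SS I z T := by
  classical
  obtain ⟨T, hT⟩ : ∃ T : Finset (Po κ n), T =
    (Finsupp.finite_of_degree_le (σ := Fin n) (n * N)).toFinset.image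
      (fun β => (monomial β 1 : Po κ n)) := ⟨_, rfl⟩
  refine ⟨T, ?_⟩
  have key : ∀ m : ℕ, ∀ f : Po κ n, f.IsHomogeneous m → f ∈ SS I z T := by
    intro m
    induction m using Nat.strong_induction_on with
    | _ m ih =>
      intro f hf
      by_cases hm : m ≤ n * N
      · rw [← support_sum_monomial_coeff f]
        refine Submodule.sum_mem _ fun β hβ => ?_
        have hdeg : β.degree = m := by
          by_contra h
          exact (mem_support_iff.1 hβ) (hf.coeff_eq_zero h)
        have h1 : monomial β (coeff β f) = (coeff β f) • (monomial β 1 : Po κ n) := by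
          rw [smul_monomial, smul_eq_mul, mul_one]
        rw [h1]
        refine Submodule.smul_mem _ _ (SS_T ?_)
        rw [hT, Finset.mem_image]
        refine ⟨β, ?_, rfl⟩
        rw [Set.Finite.mem_toFinset]
        show β.degree ≤ n * N
        omega
      · have h1 := big_mem _ N hN (by omega : n * N < m) hf
        obtain ⟨a, ha, b, hb, hab⟩ := Submodule.mem_sup.1 h1
        obtain ⟨h, hh⟩ := (Ideal.mem_span_range_iff_exists_fun).1 hb
        obtain ⟨m', rfl⟩ : ∃ m', m = m' + 1 := ⟨m - 1, by omega⟩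
        have h2 : f = homogeneousComponent (m' + 1) a +
            ∑ i, homogeneousComponent m' (h i) * z i := by
          have h3 : homogeneousComponent (m' + 1) f = f := by
            rw [homogeneousComponent_of_mem hf, if_pos rfl]
          rw [← h3, ← hab, map_add, ← hh, map_sum]
          congr 1
          refine Finset.sum_congr rfl fun i _ => ?_
          rw [mul_comm (h i), add_comm m' 1, hc_mul (hz i), mul_comm]
        rw [h2]
        refine Submodule.add_mem _ (SS_I (hI a ha _)) (Submodule.sum_mem _ fun i _ => ?_)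
        exact SS_z i (ih m' (by omega) _ (homogeneousComponent_isHomogeneous _ _))
  intro f
  rw [← sum_homogeneousComponent f]
  exact Submodule.sum_mem _ fun i _ => key i _ (homogeneousComponent_isHomogeneous _ _)

theorem pow_sup {A : Ideal (Po κ n)} {x y : Po κ n} (h : x ∈ A ⊔ Ideal.span {y}) (c : ℕ) :
    x ^ c ∈ A ⊔ Ideal.span {y ^ c} := by
  obtain ⟨a, ha, b, hb, rfl⟩ := Submodule.mem_sup.1 h
  obtain ⟨g, rfl⟩ := Ideal.mem_span_singleton'.1 hb
  have h1 : (a + g * y) ^ c - (g * y) ^ c ∈ A := by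
    have h2 : (a + g * y) - (g * y) ∣ (a + g * y) ^ c - (g * y) ^ c := sub_dvd_pow_sub_pow _ _ c
    obtain ⟨q, hq⟩ := h2
    rw [hq, add_sub_cancel_right]
    exact A.mul_mem_right _ ha
  have h3 : (a + g * y) ^ c = ((a + g * y) ^ c - (g * y) ^ c) + g ^ c * y ^ c := by
    rw [mul_pow]
    ring
  rw [h3]
  exact Ideal.add_mem _ (Ideal.mem_sup_left h1)
    (Ideal.mem_sup_right (Ideal.mul_mem_left _ _ (Ideal.subset_span rfl)))

end ZPC_

open ZPC_ in
theorem zpc_proof : Stmt_ZPC := by
  intro κ _ n D c z hz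
  obtain ⟨hz1, hz2⟩ := hz
  choose N hN using hz2
  obtain ⟨T, hT⟩ := nak (aF D c) (homI_aF D c) z hz1 (∑ i, N i * c) (by
    intro i
    have h1 : (X i : Po κ n) ^ (N i) ∈ (D.IX ⊔ Ideal.span (Set.range z)) ⊔
        Ideal.span {(X D.c₀ : Po κ n)} := by
      have h := hN i
      rw [sup_assoc, sup_comm (Ideal.span {(X D.c₀ : Po κ n)}), ← sup_assoc] at h
      exact h
    have h2 := pow_sup h1 c
    rw [← pow_mul] at h2
    have h3 : (X i : Po κ n) ^ (N i * c) ∈ aF D c ⊔ Ideal.span (Set.range z) := by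
      rw [aF, sup_assoc, sup_comm (Ideal.span {(X D.c₀ : Po κ n) ^ c}), ← sup_assoc]
      exact h2
    exact Ideal.pow_mem_of_pow_mem _ h3
      (Finset.single_le_sum (f := fun i => N i * c) (fun _ _ => Nat.zero_le _) (Finset.mem_univ i)))
  exact ⟨T, hT⟩

end Pool.Agent.RST
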