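import Pool.Agent.RST.Stmts
import Pool.Agent.GML.All

/-!
# RST, module ZRK: growth and the rank over `κ[z]`
-/

namespace Pool.Agent.RST

open MvPolynomial Pool.Agent.GML

noncomputable section

namespace ZRK_

/-- a module of finite rank does not lose rank when mapped with torsion kernel -/
theorem rank_le {P M E : Type} [CommRing P] [IsDomain P] [AddCommGroup M] [AddCommGroup E]
    [Module P M] [Module P E] (f : M →ₗ[P] E)
    (hker : ∀ m, f m = 0 → ∃ p : P, p ≠ 0 ∧ p • m = 0) (hfin : Module.Finite P M)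
    (hE : Module.rank P E < Cardinal.aleph0) : Module.finrank P M ≤ Module.finrank P E := by
  have h1 : Module.rank P M = (Module.finrank P M : Cardinal) := (Module.finrank_eq_rank P M).symm
  obtain ⟨m, hm⟩ := exists_linearIndependent_of_le_finrank (R := P) (M := M)
    (n := Module.finrank P M) le_rfl
  have h2 : LinearIndependent P (fun i => f (m i)) := by
    rw [Fintype.linearIndependent_iff] at hm ⊢
    intro g hg i
    have h3 : f (∑ i, g i • m i) = 0 := by
      rw [map_sum, ← hg]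
      exact Finset.sum_congr rfl fun i _ => map_smul f _ _
    obtain ⟨p, hp, hp0⟩ := hker _ h3
    rw [Finset.smul_sum] at hp0
    have h4 := hm (fun i => p * g i) (by
      rw [← hp0]
      exact Finset.sum_congr rfl fun i _ => mul_smul _ _ _) i
    exact (mul_eq_zero.1 h4).resolve_left hp
  have h5 := h2.cardinal_le_rank
  have h6 : Module.rank P E = (Module.finrank P E : Cardinal) :=
    (Cardinal.cast_toNat_of_lt_aleph0 hE).symm
  rw [h6, Cardinal.mk_fin] at h5
  exact_mod_cast h5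

theorem finrank_congr {P E : Type} [CommRing P] [AddCommGroup E] (m1 m2 : Module P E)
    (h : ∀ (p : P) (v : E), (haveI := m1; p • v) = (haveI := m2; p • v)) :
    @Module.finrank P E _ _ m1 = @Module.finrank P E _ _ m2 := by
  have : m1 = m2 := Module.ext' m1 m2 h
  rw [this]

/-- elementary comparison of growths -/
theorem growth (δ ρ : ℕ) (C C' : ℕ)
    (h : ∀ m : ℕ, δ * (m : ℚ) ^ 2 / 2 ≤
      ρ * (((m : ℚ) + 2) * ((m : ℚ) + 1) / 2) + C' * ((m : ℚ) + 1) + C * ((m : ℚ) + 1)) :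
    δ ≤ ρ := by
  by_contra hcon
  have h1 : ρ + 1 ≤ δ := by omega
  have h2 : (ρ : ℚ) + 1 ≤ δ := by exact_mod_cast h1
  set K : ℕ := 8 * (ρ + C + C' + 1) with hK
  have h3 := h K
  have h4 : ((ρ : ℚ) + 1) * (K : ℚ) ^ 2 / 2 ≤ δ * (K : ℚ) ^ 2 / 2 := by
    have : (0 : ℚ) ≤ (K : ℚ) ^ 2 := by positivity
    nlinarith
  have h5 : (K : ℚ) = 8 * (ρ + C + C' + 1) := by rw [hK]; push_cast; ring
  have h6 : (0 : ℚ) ≤ ρ := by positivity
  have h7 : (0 : ℚ) ≤ C := by positivity
  have h8 : (0 : ℚ) ≤ C' := by positivity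
  have h9 : (K : ℚ) ^ 2 ≤ ρ * (3 * K + 2) + 2 * (C' + C) * (K + 1) := by nlinarith
  have h10 : (1 : ℚ) ≤ K := by rw [h5]; nlinarith
  nlinarith [mul_nonneg h6 (by linarith : (0 : ℚ) ≤ K), mul_nonneg (add_nonneg h8 h7)
    (by linarith : (0 : ℚ) ≤ K)]

end ZRK_

open ZRK_ in
theorem zrk_proof (hWFN : Stmt_WFN) (hRSC : Stmt_RSC) (_hRWA : Stmt_RWA) (hRWL : Stmt_RWL) :
    Stmt_ZRK := by
  intro κ _ n D c z hc hz M hM hkil E _ _ ι hι δ hδ
  have hT := hWFN.2 κ n D c z hz M.M hM (fun f hf v => hkil f hf v)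
  obtain ⟨N, e, he1, he2, he3, he4, he5⟩ := hRSC κ n z hz.1 M
  haveI hNf := he5 hT
  -- rank over `κ[z]`
  letI mM : Module (Po κ 3) M.M := Module.compHom M.M (aeval z : Po κ 3 →ₐ[κ] Po κ n).toRingHom
  have hMfin : Module.Finite (Po κ 3) M.M := by
    obtain ⟨T, hT⟩ := hT
    refine ⟨⟨T, eq_top_iff.2 fun v _ => ?_⟩⟩
    obtain ⟨P, hP⟩ := hT v
    rw [hP]
    exact Submodule.sum_mem _ fun t ht =>
      (Submodule.smul_mem (Submodule.span (Po κ 3) (T : Set M.M)) (P t)
        (Submodule.subset_span ht))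
  have hrkM : rkw z M.M = Module.finrank (Po κ 3) M.M := rfl
  have hFwM : Fw z M.M := Module.rank_lt_aleph0 (Po κ 3) M.M
  -- `E` as a module over `κ[X]`
  letI mE : Module (Po κ n) E := Module.compHom E (emb κ n).toRingHom
  let j : M.M →ₗ[Po κ n] E :=
    { toFun := ι
      map_add' := map_add ι
      map_smul' := fun p m => hι.smul p m }
  obtain ⟨hFE, -, -⟩ := hRWL κ n z {s | ∃ p : Po κ 3, p ≠ 0 ∧ s = aeval z p}
    (by
      rintro _ ⟨p, hp, rfl⟩ _ ⟨q, hq, rfl⟩
      exact ⟨p * q, mul_ne_zero hp hq, by rw [map_mul]⟩)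
    M.M E j
    (by
      rintro _ ⟨p, hp, rfl⟩ v hv
      exact hι.inj p hp v hv)
    (by
      intro v
      obtain ⟨p, hp, m, hm⟩ := hι.gen v
      exact ⟨_, ⟨p, hp, rfl⟩, m, hm.symm⟩) hFwM
  -- comparison of the two module structures over `κ[z]`
  letI mE1 : Module (Po κ 3) E := Module.compHom E (aeval z : Po κ 3 →ₐ[κ] Po κ n).toRingHom
  have hemb : ∀ p : Po κ 3, emb κ n (aeval z p) =
      (aeval (fun i => emb κ n (z i)) : Po κ 3 →ₐ[κ] Po κ (n + 1)) p := by
    intro p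
    rw [MvPolynomial.comp_aeval_apply]
  have hr2 : rkw (fun i => emb κ n (z i)) E = Module.finrank (Po κ 3) E := by
    refine finrank_congr _ mE1 fun p v => ?_
    show (aeval (fun i => emb κ n (z i)) : Po κ 3 →ₐ[κ] Po κ (n + 1)) p • v =
      emb κ n (aeval z p) • v
    rw [hemb]
  rw [hr2]
  have hrk : Module.finrank (Po κ 3) M.M ≤ Module.finrank (Po κ 3) E :=
    rank_le ({ toFun := ι
               map_add' := map_add ι
               map_smul' := fun p m => hι.smul (aeval z p) m } : M.M →ₗ[Po κ 3] E)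
      (fun m hm => hι.ker m hm) hMfin hFE
  refine le_trans ?_ hrk
  rw [← hrkM, ← he4]
  -- growth
  obtain ⟨-, -, C', hC'⟩ := a_gro κ 1 N hNf
  obtain ⟨C, hC⟩ := hδ
  refine growth δ _ C C' fun m => ?_
  have h1 := hC m
  have h2 := hC' m
  have h3 : Module.finrank κ (M.gr m) = Module.finrank κ (N.gr m) := by
    let eκ : M.M ≃ₗ[κ] N.M :=
      { e with
        map_smul' := fun a m => he2 a m }
    refine LinearEquiv.finrank_eq (LinearEquiv.ofSubmodules eκ (M.gr m) (N.gr m) ?_)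
    ext x
    rw [Submodule.mem_map]
    constructor
    · rintro ⟨y, hy, rfl⟩
      exact (he3 m y).1 hy
    · intro hx
      refine ⟨e.symm x, (he3 m _).2 ?_, e.apply_symm_apply x⟩
      rw [e.apply_symm_apply]
      exact hx
  have h4 := (abs_le.1 h2).2
  have h5 : (Module.finrank κ (N.gr m) : ℚ) ≤
      Module.finrank (Po κ 3) N.M * (((m : ℚ) + 2) * ((m : ℚ) + 1) / 2) + C' * ((m : ℚ) + 1) := by
    have h6 : (Module.finrank κ (N.gr m) : ℤ) ≤
        Module.finrank (Po κ (1 + 2)) N.M * ((m + 1 + 1).choose (1 + 1) : ℕ) +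
          C' * ((m : ℤ) + 1) ^ 1 := by linarith
    have h7 : (Module.finrank κ (N.gr m) : ℚ) ≤
        Module.finrank (Po κ (1 + 2)) N.M * ((m + 1 + 1).choose (1 + 1) : ℕ) +
          C' * ((m : ℚ) + 1) ^ 1 := by exact_mod_cast h6
    have h8 : (((m + 1 + 1).choose (1 + 1) : ℕ) : ℚ) = ((m : ℚ) + 2) * ((m : ℚ) + 1) / 2 := by
      rw [Nat.cast_choose_two ℚ (m + 1 + 1)]
      push_cast
      ring
    rw [h8, pow_one] at h7
    exact h7
  rw [h3] at h1
  linarith

end

end Pool.Agent.RST
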