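import Pool.Agent.RST.Main
import Pool.Agent.RST.CAI
import Pool.Agent.RST.CFI
import Pool.Agent.RST.CFS
import Pool.Agent.RST.CST
import Pool.Agent.RST.CTF
import Pool.Agent.RST.CUT
import Pool.Agent.RST.EEE
import Pool.Agent.RST.ETF
import Pool.Agent.RST.ETX
import Pool.Agent.RST.GEN
import Pool.Agent.RST.GNB
import Pool.Agent.RST.LAT
import Pool.Agent.RST.LWI
import Pool.Agent.RST.LWS
import Pool.Agent.RST.MSP
import Pool.Agent.RST.MSQ
import Pool.Agent.RST.QMF
import Pool.Agent.RST.QMX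
import Pool.Agent.RST.QQQ
import Pool.Agent.RST.RSC
import Pool.Agent.RST.RWA
import Pool.Agent.RST.RWL
import Pool.Agent.RST.SEQ
import Pool.Agent.RST.SSS
import Pool.Agent.RST.TEL
import Pool.Agent.RST.UPE
import Pool.Agent.RST.WFN
import Pool.Agent.RST.WFS
import Pool.Agent.RST.WMN
import Pool.Agent.RST.WZR
import Pool.Agent.RST.YGR
import Pool.Agent.RST.YLF
import Pool.Agent.RST.YMD
import Pool.Agent.RST.YTL
import Pool.Agent.RST.ZPC
import Pool.Agent.RST.ZRK

/-!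
# RST: all statements, without hypotheses
-/

set_option autoImplicit false

namespace Pool.Agent.RST

theorem a_zpc : Stmt_ZPC := zpc_proof
theorem a_gen : Stmt_GEN := gen_proof a_zpc
theorem a_wzr : Stmt_WZR := wzr_proof
theorem a_etx : Stmt_ETX := etx_proof
theorem a_etf : Stmt_ETF := etf_proof
theorem a_rwa : Stmt_RWA := rwa_proof
theorem a_rwl : Stmt_RWL := rwl_proof
theorem a_wfn : Stmt_WFN := wfn_proof a_zpc
theorem a_rsc : Stmt_RSC := rsc_proof
theorem a_ymd : Stmt_YMD := ymd_proof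
theorem a_ylf : Stmt_YLF := ylf_proof
theorem a_lws : Stmt_LWS := lws_proof a_zpc a_wfn a_rsc a_rwa a_rwl
theorem a_zrk : Stmt_ZRK := zrk_proof a_wfn a_rsc a_rwa a_rwl
theorem a_ygr : Stmt_YGR := ygr_proof
theorem a_ytl : Stmt_YTL := ytl_proof a_wfn a_rsc
theorem a_upe : Stmt_UPE := upe_proof a_ymd a_ygr a_ytl a_rwl
theorem a_cfi : Stmt_CFI := cfi_proof
theorem a_cfs : Stmt_CFS := cfs_proof
theorem a_cai : Stmt_CAI := cai_proof a_cfs
theorem a_ctf : Stmt_CTF := ctf_proof a_cfi a_cai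
theorem a_cst : Stmt_CST := cst_proof a_cfs
theorem a_cut : Stmt_CUT := cut_proof
theorem a_qmx : Stmt_QMX := qmx_proof
theorem a_qmf : Stmt_QMF := qmf_proof
theorem a_msp : Stmt_MSP := msp_proof a_cfi a_ctf
theorem a_msq : Stmt_MSQ := msq_proof a_cfi a_ctf a_cfs a_cst a_qmf
theorem a_qqq : Stmt_QQQ := qqq_proof a_cfs a_qmf
theorem a_sss : Stmt_SSS := sss_proof a_cfs a_qmf
theorem a_seq : Stmt_SEQ := seq_proof a_cfs a_cst a_qmx a_qmf a_msq a_sss
theorem a_lat : Stmt_LAT := lat_proof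
theorem a_gnb : Stmt_GNB := gnb_proof a_cfs a_cst a_msq a_msp a_lat a_qmf
theorem a_wfs : Stmt_WFS := wfs_proof a_cfs
theorem a_wmn : Stmt_WMN := wmn_proof
theorem a_tel : Stmt_TEL := tel_proof

end Pool.Agent.RST
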