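import Pool.Agent.RST.Stmts

/-!
# RST: assembly of the full counts from the modules
-/

set_option autoImplicit false

open MvPolynomial Pool.Agent.GML

namespace Pool.Agent.RST

theorem WP_mono {K B L : Type} [Field K] [CommRing B] [Algebra K B] [Field L] [Algebra B L]
    [Algebra K L] [IsScalarTower K B L] (ℬ : ℕ → Submodule K B) (JJ : Set (Ideal B))
    (hne : JJ.Nonempty) (hmul : ∀ J ∈ JJ, ∀ J' ∈ JJ, J * J' ∈ JJ) {P P' : Ideal B} (h : P ≤ P')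
    (m : ℕ) : WP (L := L) ℬ JJ hne hmul P m ≤ WP ℬ JJ hne hmul P' m := by
  rintro b ⟨J, hJ, hb⟩
  refine ⟨J, hJ, fun i j hj hji => ?_⟩
  obtain ⟨b', hb', h2⟩ := hb i j hj hji
  exact ⟨b', h hb', h2⟩

theorem rst_proof (hCUT : Stmt_CUT) (hEEE : Stmt_EEE) (hCST : Stmt_CST) (hQMX : Stmt_QMX)
    (hMSQ : Stmt_MSQ) (hSEQ : Stmt_SEQ) (hQQQ : Stmt_QQQ) (hSSS : Stmt_SSS) (hGNB : Stmt_GNB)
    (hWFS : Stmt_WFS) (hWMN : Stmt_WMN) (hTEL : Stmt_TEL) : Stmt_RST := by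
  intro Z ε hε
  have hle : ∀ m, Module.finrank Z.K (Z.WP' Z.q m) ≤ Module.finrank Z.K (Z.WP' ⊤ m) := by
    intro m
    have := Z.W_fin m
    exact Submodule.finrank_mono (WP_mono Z.ℬ Z.JJ Z.JJ_ne Z.JJ_mul le_top m)
  rcases Nat.eq_zero_or_pos Z.δ with hδ | hδ
  · refine ⟨0, fun m _ => ?_⟩
    have h1 : (Module.finrank Z.K (Z.WP' Z.q m) : ℝ) ≤ Module.finrank Z.K (Z.WP' ⊤ m) := by
      exact_mod_cast hle m
    rw [hδ]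
    simp only [Nat.cast_zero, mul_zero, zero_div, zero_sub]
    nlinarith [sq_nonneg (m : ℝ)]
  obtain ⟨Y⟩ := hCUT Z
  obtain ⟨stS, stW, stF, stQ, stM, stM1, leWF, leFQ, leQS, leM, pS, pM⟩ := hCST Z Y
  obtain ⟨⟨v, hv⟩, e, hadd, htor, hgam, hlow, hup⟩ := hEEE Z.κ Z.n Z.D Y.c Y.zk Y.c_pos Y.z_par
  obtain ⟨Qm, pm, hQm⟩ := hQMX Z (mM Y) (mM1 Y) stM stM1 leM pM
  obtain ⟨Qk, pq, hQq⟩ := hQMX Z (mS Z) (mQ Z) stS stQ leQS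
    (fun y hy => leFQ (leWF (pS y hy)))
  obtain ⟨Qf, pf, hQf⟩ := hQMX Z (mS Z) (mF Y) stS stF (le_trans leFQ leQS)
    (fun y hy => leWF (pS y hy))
  obtain ⟨Qs, ps, hQs⟩ := hQMX Z (mS Z) (mW Z) stS stW (le_trans leWF (le_trans leFQ leQS)) pS
  obtain ⟨fm, ztf, kilm⟩ := hMSQ Z Y Qm pm hQm
  have hseq := hSEQ Z Y e hadd htor Qm pm hQm Qk pq hQq Qf pf hQf
  obtain ⟨fq, kilq, nilq, growq⟩ := hQQQ Z Y Qk pq hQq
  obtain ⟨fs, kils, rtf, rrk, ff, kilf, π, πs, πk⟩ := hSSS Z Y Qs ps hQs Qf pf hQf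
  have h1 : e Qf ≤ Z.r * Z.D.e' * Y.c := hup Z.r Qs Qf π πs πk fs kils rtf rrk
  have h2 : Z.D.s₁ * Z.δ ≤ Z.D.s₂ * e Qk := by
    refine hlow Qk fq kilq nilq Z.δ ?_
    obtain ⟨C, hC⟩ := Z.q_grow
    refine ⟨C, fun m => ?_⟩
    have := hC m
    rw [growq m]
    exact this
  obtain ⟨C₁, hC₁⟩ := hgam Qm fm kilm ztf
  obtain ⟨C₂, hC₂⟩ := Z.W_grow
  have h3 : ∀ m, Y.c ≤ m → (Module.finrank Z.K (Z.WP' Z.q m) : ℝ) ≤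
      Module.finrank Z.K (Z.WP' ⊤ (m - Y.c)) + e Qm * (m : ℝ) ^ 2 / 2 + C₁ * ((m : ℝ) + 1) := by
    intro m hm
    have hnn : (0 : ℚ) ≤ e Qm * (m : ℚ) ^ 2 / 2 + C₁ * ((m : ℚ) + 1) := by positivity
    obtain ⟨B₀, hB₀⟩ : ∃ B₀ : ℕ, B₀ = ⌊(e Qm * (m : ℚ) ^ 2 / 2 + C₁ * ((m : ℚ) + 1))⌋₊ :=
      ⟨_, rfl⟩
    have h4 : ∀ N : ℕ, Module.finrank Z.κ (Gam Z.D.A Qm N m) ≤ B₀ := by
      intro N
      rw [hB₀]
      exact Nat.le_floor (hC₁ N m)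
    have h5 := hGNB Z Y v hv Qm pm hQm m B₀ h4
    have h6 := hWFS Z Y m hm
    have h7 : ((B₀ : ℚ)) ≤ e Qm * (m : ℚ) ^ 2 / 2 + C₁ * ((m : ℚ) + 1) := by
      rw [hB₀]
      exact Nat.floor_le hnn
    have h8 : ((B₀ : ℝ)) ≤ e Qm * (m : ℝ) ^ 2 / 2 + C₁ * ((m : ℝ) + 1) := by
      have h7' := (Rat.cast_le (K := ℝ)).2 h7
      push_cast at h7'
      exact h7'
    have h9 : (Module.finrank Z.K (Z.WP' Z.q m) : ℝ) ≤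
        Module.finrank Z.K (Z.WP' (Ideal.span {Y.F}) m) + B₀ := by exact_mod_cast h5
    have h10 : (Module.finrank Z.K (Z.WP' (Ideal.span {Y.F}) m) : ℝ) ≤
        Module.finrank Z.K (Z.WP' ⊤ (m - Y.c)) := by exact_mod_cast h6
    linarith
  have hs₂ : (0 : ℝ) < Z.D.s₂ := by exact_mod_cast Z.D.s₂pos
  have h11 : (e Qm : ℝ) + (Z.D.s₁ / Z.D.s₂ : ℝ) * Z.δ ≤ ((Z.r * Z.D.e' : ℕ) : ℝ) * Y.c := by
    have h12 : (Z.D.s₁ / Z.D.s₂ : ℝ) * Z.δ ≤ e Qk := by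
      rw [div_mul_eq_mul_div, div_le_iff₀ hs₂]
      have : ((Z.D.s₁ * Z.δ : ℕ) : ℝ) ≤ ((Z.D.s₂ * e Qk : ℕ) : ℝ) := by exact_mod_cast h2
      push_cast at this
      linarith
    have h13 : ((e Qm + e Qk : ℕ) : ℝ) ≤ ((Z.r * Z.D.e' * Y.c : ℕ) : ℝ) := by
      exact_mod_cast le_trans hseq h1
    push_cast at h13 ⊢
    linarith
  obtain ⟨m₀, hm₀⟩ := hTEL (fun m => Module.finrank Z.K (Z.WP' ⊤ m))
    (fun m => Module.finrank Z.K (Z.WP' Z.q m)) Y.c (e Qm) (Z.r * Z.D.e') (max C₁ C₂)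
    ((Z.D.s₁ / Z.D.s₂ : ℝ) * Z.δ) Y.c_pos (fun m => hWMN Z hδ m)
    (by
      intro m hm
      have := h3 m hm
      have h14 : (C₁ : ℝ) * ((m : ℝ) + 1) ≤ ((max C₁ C₂ : ℕ) : ℝ) * ((m : ℝ) + 1) := by
        apply mul_le_mul_of_nonneg_right _ (by positivity)
        exact_mod_cast le_max_left C₁ C₂
      linarith)
    (by
      intro m
      have h15 : |(Module.finrank Z.K (Z.WP' ⊤ m) : ℝ) -
          ((Z.r * Z.D.e' : ℕ) : ℝ) * (m : ℝ) ^ 3 / 6| ≤ C₂ * ((m : ℝ) + 1) ^ 2 := by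
        have := hC₂ m
        have h16 : ((|(Module.finrank Z.K (Z.WP' ⊤ m) : ℚ) -
          Z.r * Z.D.e' * (m : ℚ) ^ 3 / 6| : ℚ) : ℝ) ≤ ((C₂ * ((m : ℚ) + 1) ^ 2 : ℚ) : ℝ) := by
          exact_mod_cast this
        push_cast at h16 ⊢
        exact h16
      have h17 : (C₂ : ℝ) * ((m : ℝ) + 1) ^ 2 ≤ ((max C₁ C₂ : ℕ) : ℝ) * ((m : ℝ) + 1) ^ 2 := by
        apply mul_le_mul_of_nonneg_right _ (by positivity)
        exact_mod_cast le_max_right C₁ C₂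
      exact le_trans h15 h17)
    h11 ε hε
  exact ⟨m₀, fun m hm => hm₀ m hm⟩

end Pool.Agent.RST
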