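import Pool.Agent.RST.Stmts

/-!
# QMX: quotients of homogeneous stable submodules are graded modules over `κ[X]`
-/

set_option autoImplicit false

open MvPolynomial Pool.Agent.GML

namespace Pool.Agent.RST

namespace QMX_

noncomputable section

open scoped Classical in
/-- A criterion for gradings. -/
theorem internal_of {κ N : Type} [Field κ] [AddCommGroup N] [Module κ N]
    (gr : ℤ → Submodule κ N) (pr : ℤ → N →+ N) (h1 : ∀ m, ∀ u ∈ gr m, pr m u = u)
    (h2 : ∀ m m', m ≠ m' → ∀ u ∈ gr m', pr m u = 0) (h3 : ∀ u, u ∈ ⨆ m, gr m) :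
    DirectSum.IsInternal gr := by
  have hpr : ∀ (m : ℤ) (f : DirectSum ℤ fun i => gr i),
      pr m (DirectSum.coeAddMonoidHom gr f) = (f m : N) := by
    intro m f
    induction f using DirectSum.induction_on with
    | zero => simp
    | of i x =>
      rw [DirectSum.coeAddMonoidHom_of]
      by_cases hm : m = i
      · subst hm
        rw [DirectSum.of_eq_same]
        exact h1 m x x.2
      · rw [DirectSum.of_eq_of_ne _ _ _ hm, h2 m i hm x x.2]
        rfl
    | add x y hx hy =>
      rw [map_add, map_add, hx, hy]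
      rfl
  constructor
  · intro f g hfg
    apply DFinsupp.ext
    intro m
    apply Subtype.ext
    rw [← hpr m f, ← hpr m g, hfg]
  · intro u
    have h4 := h3 u
    rw [Submodule.iSup_eq_range_dfinsupp_lsum] at h4
    obtain ⟨f, hf⟩ := h4
    refine ⟨f, ?_⟩
    rw [← hf]
    rfl

/-- The general statement. -/
theorem key {V κ K B : Type} [CommRing V] [Field κ] [Field K] [Algebra V K] [CommRing B]
    [Algebra K B] [Algebra V B] [IsScalarTower V K B] (σ : V →+* κ) (ϖ : V)
    (hσ : Function.Surjective σ) (hk : RingHom.ker σ = Ideal.span {ϖ})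
    (ℬ : ℕ → Submodule K B) [GradedAlgebra ℬ] (n : ℕ) (x : Fin n → B) (hx : ∀ c, x c ∈ ℬ 1)
    (M₀ M₁ : Submodule V B) (mul0 : ∀ (G : Po V n), ∀ y ∈ M₀, aeval x G * y ∈ M₀)
    (mul1 : ∀ (G : Po V n), ∀ y ∈ M₁, aeval x G * y ∈ M₁)
    (hom0 : ∀ y ∈ M₀, ∀ m, GradedRing.proj ℬ m y ∈ M₀)
    (hom1 : ∀ y ∈ M₁, ∀ m, GradedRing.proj ℬ m y ∈ M₁) (hle : M₁ ≤ M₀)
    (hϖ : ∀ y ∈ M₀, ϖ • y ∈ M₁) :
    ∃ (Q : GMod κ n) (p : M₀ →+ Q.M), Function.Surjective p ∧
      (∀ y : M₀, p y = 0 ↔ (y : B) ∈ M₁) ∧
      (∀ (G : Po V n) (y y' : M₀), (y' : B) = aeval x G * (y : B) →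
        p y' = MvPolynomial.map σ G • p y) ∧
      (∀ (m : ℕ) (y : M₀), (y : B) ∈ ℬ m → p y ∈ Q.gr m) ∧
      (∀ (m : ℤ) (u : Q.M), u ∈ Q.gr m → u = 0 ∨ ∃ m' : ℕ, m = m' ∧
        ∃ y : M₀, (y : B) ∈ ℬ m' ∧ p y = u) := by
  classical
  -- the quotient as a module over `V`
  let M₁' : Submodule V M₀ := M₁.comap M₀.subtype
  let N : Type := M₀ ⧸ M₁'
  let p : M₀ →ₗ[V] N := M₁'.mkQ
  have hsurj : Function.Surjective p := Submodule.mkQ_surjective _
  have hker : ∀ y : M₀, p y = 0 ↔ (y : B) ∈ M₁ := by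
    intro y
    show Submodule.Quotient.mk y = 0 ↔ _
    rw [Submodule.Quotient.mk_eq_zero]
    rfl
  -- the action of the polynomials over `V`
  let a0 : Po V n → M₀ →+ M₀ := fun G =>
    { toFun := fun y => ⟨aeval x G * (y : B), mul0 G y y.2⟩
      map_zero' := Subtype.ext (by simp)
      map_add' := fun y z => Subtype.ext (by simp [mul_add]) }
  let a1 : Po V n → N →+ N := fun G =>
    QuotientAddGroup.map M₁'.toAddSubgroup M₁'.toAddSubgroup (a0 G) (by
      intro y hy
      exact mul1 G y hy)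
  have ha1 : ∀ G y, a1 G (p y) = p (a0 G y) := fun G y => rfl
  have hN : ∀ {T : Type} (f g : N →+ N), (∀ y, f (p y) = g (p y)) → f = g := by
    intro T f g h
    ext u
    obtain ⟨y, rfl⟩ := hsurj u
    exact h y
  -- the kernel of the reduction
  have hmk : ∀ G G' : Po V n, MvPolynomial.map σ G = MvPolynomial.map σ G' → a1 G = a1 G' := by
    intro G G' h
    have h1 : G - G' ∈ RingHom.ker (MvPolynomial.map (σ := Fin n) σ) := by
      rw [RingHom.mem_ker, map_sub, h, sub_self]
    rw [MvPolynomial.ker_map, hk, Ideal.map_span, Set.image_singleton] at h1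
    obtain ⟨H, hH⟩ := Ideal.mem_span_singleton'.1 h1
    refine hN (T := Unit) _ _ fun y => ?_
    rw [ha1, ha1, ← sub_eq_zero, ← map_sub, hker]
    show aeval x G * (y : B) - aeval x G' * (y : B) ∈ M₁
    rw [← sub_mul, ← map_sub, ← hH, map_mul, aeval_C, mul_assoc, ← Algebra.smul_def]
    exact mul1 H _ (hϖ y y.2)
  have hms : Function.Surjective (MvPolynomial.map (σ := Fin n) σ) :=
    MvPolynomial.map_surjective σ hσ
  let t : Po κ n → Po V n := Function.surjInv hms
  have ht : ∀ q, MvPolynomial.map σ (t q) = q := fun q => Function.surjInv_eq hms q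
  have hzero : a1 0 = 0 := by
    refine hN (T := Unit) _ _ fun y => ?_
    rw [ha1, AddMonoidHom.zero_apply, hker]
    show aeval x 0 * (y : B) ∈ M₁
    rw [map_zero, zero_mul]
    exact M₁.zero_mem
  have hone : ∀ u, a1 1 u = u := by
    intro u
    obtain ⟨y, rfl⟩ := hsurj u
    rw [ha1]
    congr 1
    apply Subtype.ext
    show aeval x 1 * (y : B) = y
    rw [map_one, one_mul]
  have hmul : ∀ G H u, a1 (G * H) u = a1 G (a1 H u) := by
    intro G H u
    obtain ⟨y, rfl⟩ := hsurj u
    rw [ha1, ha1, ha1]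
    congr 1
    apply Subtype.ext
    show aeval x (G * H) * (y : B) = aeval x G * (aeval x H * (y : B))
    rw [map_mul, mul_assoc]
  have hadd : ∀ G H u, a1 (G + H) u = a1 G u + a1 H u := by
    intro G H u
    obtain ⟨y, rfl⟩ := hsurj u
    rw [ha1, ha1, ha1, ← map_add]
    congr 1
    apply Subtype.ext
    show aeval x (G + H) * (y : B) = aeval x G * (y : B) + aeval x H * (y : B)
    rw [map_add, add_mul]
  let mA : Module (Po κ n) N :=
    { smul := fun q u => a1 (t q) u
      one_smul := fun u => by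
        show a1 (t 1) u = u
        rw [hmk (t 1) 1 (by rw [ht, map_one]), hone]
      mul_smul := fun q r u => by
        show a1 (t (q * r)) u = a1 (t q) (a1 (t r) u)
        rw [hmk (t (q * r)) (t q * t r) (by rw [ht, map_mul, ht, ht]), hmul]
      smul_zero := fun q => map_zero (a1 (t q))
      smul_add := fun q u v => map_add (a1 (t q)) u v
      add_smul := fun q r u => by
        show a1 (t (q + r)) u = a1 (t q) u + a1 (t r) u
        rw [hmk (t (q + r)) (t q + t r) (by rw [ht, map_add, ht, ht]), hadd]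
      zero_smul := fun u => by
        show a1 (t 0) u = 0
        rw [hmk (t 0) 0 (by rw [ht, map_zero]), hzero]
        rfl }
  have hsA : ∀ (G : Po V n) (u : N), MvPolynomial.map σ G • u = a1 G u := by
    intro G u
    show a1 (t (MvPolynomial.map σ G)) u = a1 G u
    rw [hmk _ G (ht _)]
  let mK : Module κ N := Module.compHom N (C : κ →+* Po κ n)
  have hsK : ∀ (a : κ) (u : N), a • u = (C a : Po κ n) • u := fun _ _ => rfl
  have htow : IsScalarTower κ (Po κ n) N := by
    constructor
    intro a q u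
    rw [hsK, MvPolynomial.smul_eq_C_mul, mul_smul]
  have hsV : ∀ (v : V) (y : M₀), σ v • p y = p (v • y) := by
    intro v y
    rw [hsK, ← MvPolynomial.map_C, hsA, ha1]
    congr 1
    apply Subtype.ext
    show aeval x (C v) * (y : B) = v • (y : B)
    rw [aeval_C, ← Algebra.smul_def]
  -- the grading
  have hVB : ∀ (m : ℕ) (v : V) (b : B), b ∈ ℬ m → v • b ∈ ℬ m := by
    intro m v b hb
    have : v • b = algebraMap V K v • b := by
      rw [algebraMap_smul]
    rw [this]
    exact Submodule.smul_mem _ _ hb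
  let gr : ℤ → Submodule κ N := fun m =>
    { carrier := {u | u = 0 ∨ ∃ m' : ℕ, m = m' ∧ ∃ y : M₀, (y : B) ∈ ℬ m' ∧ p y = u}
      add_mem' := by
        rintro u v hu hv
        rcases hu with rfl | ⟨m', hm', y, hy, rfl⟩
        · rw [zero_add]
          exact hv
        · rcases hv with rfl | ⟨m'', hm'', z, hz, rfl⟩
          · rw [add_zero]
            exact Or.inr ⟨m', hm', y, hy, rfl⟩
          · have : m'' = m' := by
              rw [hm'] at hm''
              exact_mod_cast hm''.symm
            subst this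
            refine Or.inr ⟨m'', hm'', y + z, ?_, map_add _ _ _⟩
            exact Submodule.add_mem _ hy hz
      zero_mem' := Or.inl rfl
      smul_mem' := by
        rintro a u hu
        rcases hu with rfl | ⟨m', hm', y, hy, rfl⟩
        · exact Or.inl (smul_zero _)
        · obtain ⟨v, rfl⟩ := hσ a
          exact Or.inr ⟨m', hm', v • y, hVB m' v _ hy, (hsV v y).symm⟩ }
  -- projections
  let q0 : ℕ → M₀ →+ M₀ := fun m =>
    { toFun := fun y => ⟨GradedRing.proj ℬ m (y : B), hom0 y y.2 m⟩
      map_zero' := Subtype.ext (by simp)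
      map_add' := fun y z => Subtype.ext (by simp) }
  let q1 : ℕ → N →+ N := fun m =>
    QuotientAddGroup.map M₁'.toAddSubgroup M₁'.toAddSubgroup (q0 m) (by
      intro y hy
      exact hom1 y hy m)
  have hq1 : ∀ m y, q1 m (p y) = p (q0 m y) := fun m y => rfl
  have hint : DirectSum.IsInternal gr := by
    refine internal_of gr (fun m => if 0 ≤ m then q1 m.toNat else 0) ?_ ?_ ?_
    · rintro m u (rfl | ⟨m', rfl, y, hy, rfl⟩)
      · exact map_zero _
      · show (if (0 : ℤ) ≤ (m' : ℤ) then q1 (m' : ℤ).toNat else 0) (p y) = p y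
        rw [if_pos (Int.natCast_nonneg m'), Int.toNat_natCast, hq1]
        congr 1
        apply Subtype.ext
        show GradedRing.proj ℬ m' (y : B) = y
        rw [GradedRing.proj_apply, DirectSum.decompose_of_mem_same _ hy]
    · rintro m m' hne u (rfl | ⟨m'', rfl, y, hy, rfl⟩)
      · exact map_zero _
      · show (if (0 : ℤ) ≤ m then q1 m.toNat else 0) (p y) = 0
        split_ifs with h0
        · rw [hq1]
          have : q0 m.toNat y = 0 := by
            apply Subtype.ext
            show GradedRing.proj ℬ m.toNat (y : B) = 0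
            rw [GradedRing.proj_apply, DirectSum.decompose_of_mem_ne _ hy]
            intro h
            apply hne
            rw [h]
            exact (Int.toNat_of_nonneg h0).symm
          rw [this, map_zero]
        · rfl
    · intro u
      obtain ⟨y, rfl⟩ := hsurj u
      have h1 : y = ∑ i ∈ (DirectSum.decompose ℬ (y : B)).support, q0 i y := by
        apply Subtype.ext
        rw [AddSubmonoidClass.coe_finsetSum]
        exact (DirectSum.sum_support_decompose ℬ (y : B)).symm
      rw [h1, map_sum]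
      refine Submodule.sum_mem _ fun i _ => ?_
      apply Submodule.mem_iSup_of_mem (i : ℤ)
      refine Or.inr ⟨i, rfl, q0 i y, ?_, rfl⟩
      show GradedRing.proj ℬ i (y : B) ∈ ℬ i
      rw [GradedRing.proj_apply]
      exact SetLike.coe_mem _
  have hmm : ∀ (i : Fin n) (m : ℤ) (u : N), u ∈ gr m → (X i : Po κ n) • u ∈ gr (m + 1) := by
    rintro i m u (rfl | ⟨m', rfl, y, hy, rfl⟩)
    · rw [smul_zero]
      exact Submodule.zero_mem _
    · refine Or.inr ⟨m' + 1, by push_cast; rfl, a0 (X i) y, ?_, ?_⟩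
      · show aeval x (X i) * (y : B) ∈ ℬ (m' + 1)
        rw [aeval_X, add_comm]
        exact SetLike.mul_mem_graded (hx i) hy
      · rw [← ha1, ← hsA, MvPolynomial.map_X]
  let Q : GMod κ n :=
    { M := N
      mdV := mK
      mdA := mA
      tow := htow
      gr := gr
      int := hint
      mul_mem := hmm }
  refine ⟨Q, p.toAddMonoidHom, hsurj, hker, ?_, ?_, ?_⟩
  · intro G y y' h
    show p y' = MvPolynomial.map σ G • p y
    rw [hsA, ha1]
    congr 1
    exact Subtype.ext h
  · intro m y hy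
    exact Or.inr ⟨m, rfl, y, hy, rfl⟩
  · intro m u hu
    exact hu

end

end QMX_

theorem qmx_proof : Stmt_QMX := by
  intro Z M₀ M₁ h0 h1 hle hϖ
  obtain ⟨Q, p, a1, a2, a3, a4, a5⟩ := QMX_.key Z.σ Z.ϖ Z.surjσ Z.kerσ Z.ℬ Z.n Z.x Z.x_deg M₀ M₁
    h0.mul h1.mul h0.hom h1.hom hle hϖ
  exact ⟨Q, p, a1, a2, a3, a4, a5, h0.mul⟩

end Pool.Agent.RST
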