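import Pool.Agent.RST.Defs

/-!
# RST: statements of the modules
-/

namespace Pool.Agent.RST

open MvPolynomial Pool.Agent.GML

noncomputable section

/-! ## part 1: the special fibre -/

/-- ZPC: `z` are parameters modulo every power of `X c₀` -/
def Stmt_ZPC : Prop :=
  ∀ (κ : Type) [Field κ] (n : ℕ) (D : XD κ n) (c : ℕ) (z : Fin 3 → Po κ n), Zp D z →
    ∃ T : Finset (Po κ n), ∀ f : Po κ n, ∃ P : Po κ n → Po κ 3,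
      f - ∑ t ∈ T, aeval z (P t) * t ∈ aF D c

/-- GEN: a linear form which vanishes on `P` and is invertible at the generic points of
`X c₀ = 0` -/
def Stmt_GEN : Prop :=
  ∀ (κ : Type) [Field κ] [Infinite κ] (n : ℕ) (D : XD κ n) (c : ℕ) (z : Fin 3 → Po κ n),
    0 < c → Zp D z → ∃ v : Fin n → κ, GG D c z v

/-- WZR: the parameters `w` for `R' / (X c₀)` -/
def Stmt_WZR : Prop :=
  ∀ (κ : Type) [Field κ] [Infinite κ] (n : ℕ) (D : XD κ n) (z : Fin 3 → Po κ n), Zp D z →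
    ∃ w : Fin 3 → Po κ (n + 1), WG D z w

/-- ETX: the localisation exists -/
def Stmt_ETX : Prop :=
  ∀ (κ : Type) [Field κ] (n : ℕ) (D : XD κ n) (c : ℕ) (z : Fin 3 → Po κ n) (v : Fin n → κ),
    GG D c z v → ∀ M : GMod κ n, Kil M (aF D c) →
    ∃ (E : Type) (_ : AddCommGroup E) (_ : Module (Po κ (n + 1)) E) (ι : M.M →+ E),
      Eta D z M E ι

/-- ETF: the localisation is an exact functor -/
def Stmt_ETF : Prop :=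
  ∀ (κ : Type) [Field κ] (n : ℕ) (D : XD κ n) (c : ℕ) (z : Fin 3 → Po κ n) (v : Fin n → κ),
    GG D c z v →
    (∀ (M N : GMod κ n), Kil M (aF D c) → Kil N (aF D c) → ∀ (f : GHom M N)
      (E : Type) [AddCommGroup E] [Module (Po κ (n + 1)) E] (ι : M.M →+ E)
      (E' : Type) [AddCommGroup E'] [Module (Po κ (n + 1)) E'] (ι' : N.M →+ E'),
      Eta D z M E ι → Eta D z N E' ι' →
      ∃ f' : E →ₗ[Po κ (n + 1)] E', (∀ m, f' (ι m) = ι' (f.f m)) ∧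
        (Function.Injective f.f → Function.Injective f') ∧
        (Function.Surjective f.f → Function.Surjective f')) ∧
    (∀ (M' M M'' : GMod κ n), Kil M' (aF D c) → Kil M (aF D c) → Kil M'' (aF D c) →
      ∀ (f : GHom M' M) (g : GHom M M''), SES f g →
      ∀ (E' : Type) [AddCommGroup E'] [Module (Po κ (n + 1)) E'] (ι' : M'.M →+ E')
        (E : Type) [AddCommGroup E] [Module (Po κ (n + 1)) E] (ι : M.M →+ E)
        (E'' : Type) [AddCommGroup E''] [Module (Po κ (n + 1)) E''] (ι'' : M''.M →+ E''),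
      Eta D z M' E' ι' → Eta D z M E ι → Eta D z M'' E'' ι'' →
      ∃ (f' : E' →ₗ[Po κ (n + 1)] E) (g' : E →ₗ[Po κ (n + 1)] E''),
        Function.Injective f' ∧ Function.Exact f' g' ∧ Function.Surjective g')

/-- RWA: the rank over `κ[w]` is additive -/
def Stmt_RWA : Prop :=
  ∀ (κ : Type) [Field κ] (r : ℕ) (w : Fin 3 → Po κ r)
    (E' E E'' : Type) [AddCommGroup E'] [Module (Po κ r) E'] [AddCommGroup E]
    [Module (Po κ r) E] [AddCommGroup E''] [Module (Po κ r) E'']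
    (f : E' →ₗ[Po κ r] E) (g : E →ₗ[Po κ r] E''),
    Function.Injective f → Function.Exact f g → Function.Surjective g →
    (Fw w E ↔ Fw w E' ∧ Fw w E'') ∧ (Fw w E → rkw w E = rkw w E' + rkw w E'')

/-- RWL: rank of a module obtained by inverting a set of operators -/
def Stmt_RWL : Prop :=
  ∀ (κ : Type) [Field κ] (r : ℕ) (w : Fin 3 → Po κ r) (Sg : Set (Po κ r))
    (_ : ∀ s ∈ Sg, ∀ t ∈ Sg, s * t ∈ Sg)
    (M E : Type) [AddCommGroup M] [Module (Po κ r) M] [AddCommGroup E] [Module (Po κ r) E]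
    (j : M →ₗ[Po κ r] E), (∀ s ∈ Sg, ∀ v : E, s • v = 0 → v = 0) →
    (∀ v : E, ∃ s ∈ Sg, s • v ∈ LinearMap.range j) → Fw w M →
    Fw w E ∧ rkw w E ≤ rkw w M ∧ (Function.Injective j → rkw w E = rkw w M)

/-- WFN: modules over `R'` killed by a power of `X c₀` are finite over `κ[w]`; modules over `R`
killed by a power of `X c₀` are finite over `κ[z]` -/
def Stmt_WFN : Prop :=
  (∀ (κ : Type) [Field κ] (n : ℕ) (D : XD κ n) (z : Fin 3 → Po κ n)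
    (w : Fin 3 → Po κ (n + 1)), Zp D z → WG D z w → ∀ (E : Type) [AddCommGroup E]
    [Module (Po κ (n + 1)) E], Module.Finite (Po κ (n + 1)) E → (∀ f ∈ D.I', ∀ v : E, f • v = 0) →
    (∃ c : ℕ, ∀ v : E, (X (Fin.castSucc D.c₀) : Po κ (n + 1)) ^ c • v = 0) →
    ∃ T : Finset E, ∀ v : E, ∃ P : E → Po κ 3, v = ∑ t ∈ T, (aeval w (P t) : Po κ (n + 1)) • t) ∧
  (∀ (κ : Type) [Field κ] (n : ℕ) (D : XD κ n) (c : ℕ) (z : Fin 3 → Po κ n), Zp D z →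
    ∀ (E : Type) [AddCommGroup E] [Module (Po κ n) E], Module.Finite (Po κ n) E →
    (∀ f ∈ aF D c, ∀ v : E, f • v = 0) →
    ∃ T : Finset E, ∀ v : E, ∃ P : E → Po κ 3, v = ∑ t ∈ T, (aeval z (P t) : Po κ n) • t)

/-- RSC: restriction of graded modules along linear forms -/
def Stmt_RSC : Prop :=
  ∀ (κ : Type) [Field κ] (r : ℕ) (w : Fin 3 → Po κ r), (∀ i, (w i).IsHomogeneous 1) →
    ∀ M : GMod κ r, ∃ (N : GMod κ 3) (e : M.M ≃+ N.M),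
      (∀ (P : Po κ 3) (m : M.M), e ((aeval w P : Po κ r) • m) = P • e m) ∧
      (∀ (a : κ) (m : M.M), e (a • m) = a • e m) ∧
      (∀ (k : ℤ) (m : M.M), m ∈ M.gr k ↔ e m ∈ N.gr k) ∧
      Module.finrank (Po κ 3) N.M = rkw w M.M ∧
      ((∃ T : Finset M.M, ∀ m : M.M, ∃ P : M.M → Po κ 3,
        m = ∑ t ∈ T, (aeval w (P t) : Po κ r) • t) → Module.Finite (Po κ 3) N.M)

/-- YMD: construction of `R' M` -/
def Stmt_YMD : Prop :=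
  ∀ (κ : Type) [Field κ] (n : ℕ) (D : XD κ n) (v : Fin n → κ), (∀ i, i ∉ D.A → v i = 0) →
    ∀ M : GMod κ n, Kil M D.IX → (∀ m : M.M, lin v • m = 0 → m = 0) →
    ∃ (M' : GMod κ (n + 1)) (j : M.M →+ M'.M), Ymd D v M M' j

/-- YLF: `R' M` is a submodule of the localisation -/
def Stmt_YLF : Prop :=
  ∀ (κ : Type) [Field κ] (n : ℕ) (D : XD κ n) (c : ℕ) (z : Fin 3 → Po κ n) (v : Fin n → κ),
    GG D c z v → ∀ M : GMod κ n, Kil M (aF D c) →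
    ∀ (M' : GMod κ (n + 1)) (j : M.M →+ M'.M), Ymd D v M M' j →
    ∀ (E : Type) [AddCommGroup E] [Module (Po κ (n + 1)) E] (ι : M.M →+ E), Eta D z M E ι →
    ∃ j' : M'.M →ₗ[Po κ (n + 1)] E, (∀ m, j' (j m) = ι m) ∧
      (Function.Injective ι → Function.Injective j') ∧
      ∀ u : E, ∃ p : Po κ 3, p ≠ 0 ∧ emb κ n (aeval z p) • u ∈ LinearMap.range j'

/-- PTF: `E` is torsion free over `κ[w]`, of finite rank -/
def Stmt_PTF : Prop :=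
  ∀ (κ : Type) [Field κ] (n : ℕ) (D : XD κ n) (c : ℕ) (z : Fin 3 → Po κ n) (v : Fin n → κ)
    (w : Fin 3 → Po κ (n + 1)), 0 < c → Zp D z → GG D c z v → WG D z w →
    ∀ M : GMod κ n, Module.Finite (Po κ n) M.M → Kil M (aF D c) →
    ∀ (E : Type) [AddCommGroup E] [Module (Po κ (n + 1)) E] (ι : M.M →+ E), Eta D z M E ι →
    Fw w E ∧ Fw (fun i => emb κ n (z i)) E ∧
      ∀ p : Po κ 3, p ≠ 0 → ∀ u : E, (aeval w p : Po κ (n + 1)) • u = 0 → u = 0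

/-- GAM: sections outside of `P` -/
def Stmt_GAM : Prop :=
  ∀ (κ : Type) [Field κ] (n : ℕ) (D : XD κ n) (c : ℕ) (z : Fin 3 → Po κ n) (v : Fin n → κ)
    (w : Fin 3 → Po κ (n + 1)), 0 < c → Zp D z → GG D c z v → WG D z w →
    ∀ M : GMod κ n, Module.Finite (Po κ n) M.M → Kil M (aF D c) → ZTf z M →
    ∀ (E : Type) [AddCommGroup E] [Module (Po κ (n + 1)) E] (ι : M.M →+ E), Eta D z M E ι →
    ∃ C : ℕ, ∀ N m : ℕ, (Module.finrank κ (Gam D.A M N m) : ℚ) ≤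
      rkw w E * (m : ℚ) ^ 2 / 2 + C * ((m : ℚ) + 1)

/-- LWS: modules over the ring of the surface `S` -/
def Stmt_LWS : Prop :=
  ∀ (κ : Type) [Field κ] (n : ℕ) (D : XD κ n) (c : ℕ) (z : Fin 3 → Po κ n) (v : Fin n → κ)
    (w : Fin 3 → Po κ (n + 1)), 0 < c → Zp D z → GG D c z v → WG D z w →
    ∀ M : GMod κ n, Module.Finite (Po κ n) M.M → Kil M (D.J'.comap (emb κ n)) →
    ∀ (E : Type) [AddCommGroup E] [Module (Po κ (n + 1)) E] (ι : M.M →+ E), Eta D z M E ι →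
    D.s₁ * rkw (fun i => emb κ n (z i)) E ≤ D.s₂ * rkw w E

/-- LWI: modules supported on the surface `S` -/
def Stmt_LWI : Prop :=
  ∀ (κ : Type) [Field κ] (n : ℕ) (D : XD κ n) (c : ℕ) (z : Fin 3 → Po κ n) (v : Fin n → κ)
    (w : Fin 3 → Po κ (n + 1)), 0 < c → Zp D z → GG D c z v → WG D z w →
    ∀ (k : ℕ) (M : GMod κ n), Module.Finite (Po κ n) M.M → Kil M (aF D c) →
    Kil M (VI κ D.W ^ k) →
    ∀ (E : Type) [AddCommGroup E] [Module (Po κ (n + 1)) E] (ι : M.M →+ E), Eta D z M E ι →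
    D.s₁ * rkw (fun i => emb κ n (z i)) E ≤ D.s₂ * rkw w E

/-- ZRK: growth and the rank over `κ[z]` -/
def Stmt_ZRK : Prop :=
  ∀ (κ : Type) [Field κ] (n : ℕ) (D : XD κ n) (c : ℕ) (z : Fin 3 → Po κ n), 0 < c → Zp D z →
    ∀ M : GMod κ n, Module.Finite (Po κ n) M.M → Kil M (aF D c) →
    ∀ (E : Type) [AddCommGroup E] [Module (Po κ (n + 1)) E] (ι : M.M →+ E), Eta D z M E ι →
    ∀ δ : ℕ, (∃ C : ℕ, ∀ m : ℕ, δ * (m : ℚ) ^ 2 / 2 ≤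
      Module.finrank κ (M.gr m) + C * ((m : ℚ) + 1)) →
    δ ≤ rkw (fun i => emb κ n (z i)) E

/-- YGR: growth of `R' M`, `M` torsion free of rank `r` -/
def Stmt_YGR : Prop :=
  ∀ (κ : Type) [Field κ] (n : ℕ) (D : XD κ n) (v : Fin n → κ) (r : ℕ),
    (∀ i, i ∉ D.A → v i = 0) → lin v ∉ D.IX →
    ∀ M : GMod κ n, Module.Finite (Po κ n) M.M → Kil M D.IX → RTf D M → RRk D M r →
    ∀ (M' : GMod κ (n + 1)) (j : M.M →+ M'.M), Ymd D v M M' j →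
    ∃ C : ℕ, ∀ m : ℕ, Module.Finite κ (M'.gr m) ∧ (Module.finrank κ (M'.gr m) : ℚ) ≤
      r * D.e' * (m : ℚ) ^ 3 / 6 + C * ((m : ℚ) + 1) ^ 2

/-- YTL: rank of `R' M / X c₀ ^ c R' M` -/
def Stmt_YTL : Prop :=
  ∀ (κ : Type) [Field κ] (n : ℕ) (D : XD κ n) (z : Fin 3 → Po κ n)
    (w : Fin 3 → Po κ (n + 1)), Zp D z → WG D z w → ∀ (c : ℕ), 0 < c → ∀ (A : ℕ)
    (M' Q' : GMod κ (n + 1)) (π : GHom M' Q'), Function.Surjective π.f →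
    (∀ x : M'.M, π.f x = 0 ↔ ∃ y : M'.M, x = (X (Fin.castSucc D.c₀) : Po κ (n + 1)) ^ c • y) →
    (∀ x : M'.M, (X (Fin.castSucc D.c₀) : Po κ (n + 1)) • x = 0 → x = 0) →
    Module.Finite (Po κ (n + 1)) M'.M → Kil M' D.I' →
    (∃ C : ℕ, ∀ m : ℕ, (Module.finrank κ (M'.gr m) : ℚ) ≤
      A * (m : ℚ) ^ 3 / 6 + C * ((m : ℚ) + 1) ^ 2) →
    Fw w Q'.M ∧ rkw w Q'.M ≤ A * c

/-- UPE: the rank of `(M / X c₀ ^ c M)` for `M` torsion free of rank `r` over `R` -/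
def Stmt_UPE : Prop :=
  ∀ (κ : Type) [Field κ] (n : ℕ) (D : XD κ n) (c : ℕ) (z : Fin 3 → Po κ n) (v : Fin n → κ)
    (w : Fin 3 → Po κ (n + 1)), 0 < c → Zp D z → GG D c z v → WG D z w →
    ∀ (r : ℕ) (M Q : GMod κ n) (π : GHom M Q), Function.Surjective π.f →
    (∀ x : M.M, π.f x = 0 ↔ ∃ y : M.M, x = (X D.c₀ : Po κ n) ^ c • y) →
    Module.Finite (Po κ n) M.M → Kil M D.IX → RTf D M → RRk D M r →
    ∀ (E : Type) [AddCommGroup E] [Module (Po κ (n + 1)) E] (ι : Q.M →+ E), Eta D z Q E ι →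
    rkw w E ≤ r * D.e' * c

/-- **The function `e`** (rank over `κ[w]`): assembly of part 1 -/
def Stmt_EEE : Prop :=
  ∀ (κ : Type) [Field κ] [Infinite κ] (n : ℕ) (D : XD κ n) (c : ℕ) (z : Fin 3 → Po κ n), 0 < c →
    Zp D z →
    (∃ v : Fin n → κ, GG D c z v) ∧ ∃ e : GMod κ n → ℕ,
      (∀ (M' M M'' : GMod κ n) (f : GHom M' M) (g : GHom M M''), SES f g →
        Module.Finite (Po κ n) M.M → Kil M (aF D c) → e M = e M' + e M'') ∧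
      (∀ M : GMod κ n, Module.Finite (Po κ n) M.M → Kil M (aF D c) → ZTor z M → e M = 0) ∧
      (∀ M : GMod κ n, Module.Finite (Po κ n) M.M → Kil M (aF D c) → ZTf z M →
        ∃ C : ℕ, ∀ N m : ℕ, (Module.finrank κ (Gam D.A M N m) : ℚ) ≤
          e M * (m : ℚ) ^ 2 / 2 + C * ((m : ℚ) + 1)) ∧
      (∀ M : GMod κ n, Module.Finite (Po κ n) M.M → Kil M (aF D c) →
        (∃ k : ℕ, Kil M (VI κ D.W ^ k)) → ∀ δ : ℕ,
        (∃ C : ℕ, ∀ m : ℕ, δ * (m : ℚ) ^ 2 / 2 ≤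
          Module.finrank κ (M.gr m) + C * ((m : ℚ) + 1)) → D.s₁ * δ ≤ D.s₂ * e M) ∧
      (∀ (r : ℕ) (M Q : GMod κ n) (π : GHom M Q), Function.Surjective π.f →
        (∀ x : M.M, π.f x = 0 ↔ ∃ y : M.M, x = (X D.c₀ : Po κ n) ^ c • y) →
        Module.Finite (Po κ n) M.M → Kil M D.IX → RTf D M → RRk D M r →
        e Q ≤ r * D.e' * c)

/-! ## part 2: over the discrete valuation ring -/

/-- CUT: choice of `F` and `z` -/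
def Stmt_CUT : Prop := ∀ Z : Ctx, Nonempty (Cut Z)

/-- CFI: `S` is finite over `V[z_0, z_1, z_2, F]` -/
def Stmt_CFI : Prop :=
  ∀ (Z : Ctx) (Y : Cut Z),
    (∃ T : Finset Z.B, (∀ t ∈ T, t ∈ Z.S) ∧ ∀ s ∈ Z.S, ∃ P : Z.B → Po Z.V 4,
      s = ∑ t ∈ T, aeval ![Y.zb 0, Y.zb 1, Y.zb 2, Y.F] (P t) * t) ∧
    ∀ b : Z.B, IsIntegral (Algebra.adjoin Z.K {Y.zb 0, Y.zb 1, Y.zb 2, Y.F}) b

/-- CAI: `z_0, z_1, z_2, F` are algebraically independent -/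
def Stmt_CAI : Prop :=
  ∀ (Z : Ctx) (Y : Cut Z), AlgebraicIndependent Z.K ![Y.zb 0, Y.zb 1, Y.zb 2, Y.F]

/-- CTF: `B / F B` is torsion free over `K[z]` (uses CFI CAI; normality of `B`) -/
def Stmt_CTF : Prop :=
  ∀ (Z : Ctx) (Y : Cut Z) (P : Po Z.K 3), P ≠ 0 → ∀ b : Z.B,
    (∃ b', aeval Y.zb P * b = Y.F * b') → ∃ b', b = Y.F * b'

/-- CFS: `F B ∩ S = F S`; nonzero forms of `R` are not zero divisors modulo powers of `ϖ` -/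
def Stmt_CFS : Prop :=
  (∀ (Z : Ctx) (G : Po Z.V Z.n), MvPolynomial.map Z.σ G ∉ Z.D.IX → aeval Z.x G ≠ 0 ∧
    ∀ b : Z.B, aeval Z.x G * b ∈ Z.S → b ∈ Z.S) ∧
  (∀ (Z : Ctx) (Y : Cut Z), Y.F ≠ 0 ∧ Y.F ∈ Z.q ∧ Y.F ∈ Z.S ∧ Y.F ∈ Z.ℬ Y.c ∧
    (∀ b : Z.B, Y.F * b ∈ Z.S → b ∈ Z.S) ∧ (∀ i, Y.zb i ∈ Z.S ∧ Y.zb i ∈ Z.ℬ 1) ∧
    ∀ P : Po Z.V 3, MvPolynomial.map Z.σ P ≠ 0 → MvPolynomial.map Z.σ (aeval Y.z P) ∉ Z.D.IX)

/-- CST: the submodules are homogeneous and stable -/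
def Stmt_CST : Prop :=
  ∀ (Z : Ctx) (Y : Cut Z), St (mS Z) ∧ St (mW Z) ∧ St (mF Y) ∧ St (mQ Z) ∧ St (mM Y) ∧
    St (mM1 Y) ∧ mW Z ≤ mF Y ∧ mF Y ≤ mQ Z ∧ mQ Z ≤ mS Z ∧ mM1 Y ≤ mM Y ∧
    (∀ y ∈ mS Z, Z.ϖ • y ∈ mW Z) ∧ ∀ y ∈ mM Y, Z.ϖ • y ∈ mM1 Y

/-- QMX: quotients of homogeneous stable submodules are graded modules over `κ[X]` -/
def Stmt_QMX : Prop :=
  ∀ (Z : Ctx) (M₀ M₁ : Submodule Z.V Z.B), St M₀ → St M₁ → M₁ ≤ M₀ →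
    (∀ y ∈ M₀, Z.ϖ • y ∈ M₁) → ∃ (Q : GMod Z.κ Z.n) (p : M₀ →+ Q.M), QM M₀ M₁ Q p

/-- QMF: finiteness and annihilators of these quotients -/
def Stmt_QMF : Prop :=
  ∀ (Z : Ctx) (M₀ M₁ : Submodule Z.V Z.B) (Q : GMod Z.κ Z.n) (p : M₀ →+ Q.M), QM M₀ M₁ Q p →
    ((∃ T : Finset Z.B, (∀ t ∈ T, t ∈ M₀) ∧ ∀ y ∈ M₀, ∃ G : Z.B → Po Z.V Z.n,
      y - ∑ t ∈ T, aeval Z.x (G t) * t ∈ M₁) → Module.Finite (Po Z.κ Z.n) Q.M) ∧
    (∀ G : Po Z.V Z.n, (∀ y ∈ M₀, aeval Z.x G * y ∈ M₁) →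
      ∀ u : Q.M, MvPolynomial.map Z.σ G • u = 0) ∧
    (∀ (v : Z.V) (y y' : M₀), (y' : Z.B) = v • (y : Z.B) → p y' = Z.σ v • p y) ∧
    ∀ (m : ℤ), m < 0 → Q.gr m = ⊥

/-- MSQ: the graded module `M / (ϖ M + F B)`, `M` the saturation of `q ∩ S + F B` -/
def Stmt_MSQ : Prop :=
  ∀ (Z : Ctx) (Y : Cut Z) (Q : GMod Z.κ Z.n) (p : mM Y →+ Q.M), QM (mM Y) (mM1 Y) Q p →
    Module.Finite (Po Z.κ Z.n) Q.M ∧ ZTf Y.zk Q ∧ Kil Q (aF Z.D Y.c)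

/-- MSP: `M / F B` is separated for the `ϖ`-adic topology -/
def Stmt_MSP : Prop :=
  ∀ (Z : Ctx) (Y : Cut Z) (y : Z.B), (∀ k : ℕ, ∃ m ∈ mM Y, ∃ b : Z.B,
    y = Z.ϖ ^ k • m + Y.F * b) → ∃ b : Z.B, y = Y.F * b

/-- SEQ: additivity: `e (M / (ϖ M + F B)) + e (S / (q ∩ S + ϖ S)) ≤ e (S / (F S + ϖ S))` -/
def Stmt_SEQ : Prop :=
  ∀ (Z : Ctx) (Y : Cut Z) (e : GMod Z.κ Z.n → ℕ),
    (∀ (M' M M'' : GMod Z.κ Z.n) (f : GHom M' M) (g : GHom M M''), SES f g →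
      Module.Finite (Po Z.κ Z.n) M.M → Kil M (aF Z.D Y.c) → e M = e M' + e M'') →
    (∀ M : GMod Z.κ Z.n, Module.Finite (Po Z.κ Z.n) M.M → Kil M (aF Z.D Y.c) →
      ZTor Y.zk M → e M = 0) →
    ∀ (Qm : GMod Z.κ Z.n) (pm : mM Y →+ Qm.M), QM (mM Y) (mM1 Y) Qm pm →
    ∀ (Qk : GMod Z.κ Z.n) (pq : mS Z →+ Qk.M), QM (mS Z) (mQ Z) Qk pq →
    ∀ (Qf : GMod Z.κ Z.n) (pf : mS Z →+ Qf.M), QM (mS Z) (mF Y) Qf pf →
    e Qm + e Qk ≤ e Qf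

/-- QQQ: the graded module `S / (q ∩ S + ϖ S)` -/
def Stmt_QQQ : Prop :=
  ∀ (Z : Ctx) (Y : Cut Z) (Q : GMod Z.κ Z.n) (p : mS Z →+ Q.M), QM (mS Z) (mQ Z) Q p →
    Module.Finite (Po Z.κ Z.n) Q.M ∧ Kil Q (aF Z.D Y.c) ∧ (∃ k : ℕ, Kil Q (VI Z.κ Z.D.W ^ k)) ∧
    ∀ m : ℕ, Module.finrank Z.κ (Q.gr m) =
      Module.finrank Z.K ((Z.ℬ m).map (Ideal.Quotient.mkₐ Z.K Z.q).toLinearMap)

/-- SSS: the graded modules `S / ϖ S` and `S / (F S + ϖ S)` -/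
def Stmt_SSS : Prop :=
  ∀ (Z : Ctx) (Y : Cut Z) (Qs : GMod Z.κ Z.n) (ps : mS Z →+ Qs.M), QM (mS Z) (mW Z) Qs ps →
    ∀ (Qf : GMod Z.κ Z.n) (pf : mS Z →+ Qf.M), QM (mS Z) (mF Y) Qf pf →
    Module.Finite (Po Z.κ Z.n) Qs.M ∧ Kil Qs Z.D.IX ∧ RTf Z.D Qs ∧ RRk Z.D Qs Z.r ∧
    Module.Finite (Po Z.κ Z.n) Qf.M ∧ Kil Qf (aF Z.D Y.c) ∧
    ∃ π : GHom Qs Qf, Function.Surjective π.f ∧
      ∀ x : Qs.M, π.f x = 0 ↔ ∃ y : Qs.M, x = (X Z.D.c₀ : Po Z.κ Z.n) ^ Y.c • y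

/-- LAT: lattices over a complete discrete valuation ring -/
def Stmt_LAT : Prop :=
  ∀ (V : Type) [CommRing V] [IsDomain V] [IsDiscreteValuationRing V]
    [IsAdicComplete (IsLocalRing.maximalIdeal V) V] (κ : Type) [Field κ] (σ : V →+* κ) (ϖ : V),
    Irreducible ϖ → Function.Surjective σ → RingHom.ker σ = Ideal.span {ϖ} →
    ∀ (K : Type) [Field K] [Algebra V K] [IsFractionRing V K] (E : Type) [AddCommGroup E]
      [Module K E] [Module V E] [IsScalarTower V K E] [Module.Finite K E]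
      (E₀ : Submodule K E) (G : Submodule V E) (B₀ : ℕ),
      (∀ y ∈ E₀, y ∈ G) → (∀ y : E, ∃ k : ℕ, ϖ ^ k • y ∈ G) →
      (∀ y : E, (∀ k : ℕ, ∃ y' ∈ G, y = ϖ ^ k • y') → y ∈ E₀) →
      (∀ G₁ : Submodule V E, G₁ ≤ G → G₁.FG →
        ∃ (Γ : Type) (_ : AddCommGroup Γ) (_ : Module κ Γ) (p : G₁ →+ Γ),
          Module.Finite κ Γ ∧ Module.finrank κ Γ ≤ B₀ ∧ (∀ (v : V) y, p (v • y) = σ v • p y) ∧
          ∀ y : G₁, p y = 0 → ∃ y' ∈ G, (y : E) = ϖ • y') →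
      Module.finrank K E ≤ Module.finrank K E₀ + B₀

/-- GNB: the sections in `q` modulo the sections in `F B` are bounded by the sections outside of
`P` of the special fibre -/
def Stmt_GNB : Prop :=
  ∀ (Z : Ctx) (Y : Cut Z) (v : Fin Z.n → Z.κ), GG Z.D Y.c Y.zk v →
    ∀ (Qm : GMod Z.κ Z.n) (pm : mM Y →+ Qm.M), QM (mM Y) (mM1 Y) Qm pm →
    ∀ (m B₀ : ℕ), (∀ N : ℕ, Module.finrank Z.κ (Gam Z.D.A Qm N m) ≤ B₀) →
    Module.finrank Z.K (Z.WP' Z.q m) ≤ Module.finrank Z.K (Z.WP' (Ideal.span {Y.F}) m) + B₀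

/-- WFS: the sections in `F B` are `F` times sections -/
def Stmt_WFS : Prop :=
  ∀ (Z : Ctx) (Y : Cut Z) (m : ℕ), Y.c ≤ m →
    Module.finrank Z.K (Z.WP' (Ideal.span {Y.F}) m) ≤ Module.finrank Z.K (Z.WP' ⊤ (m - Y.c))

/-- WMN: the number of sections modulo `q` is nondecreasing -/
def Stmt_WMN : Prop :=
  ∀ (Z : Ctx), 0 < Z.δ → ∀ m : ℕ,
    Module.finrank Z.K (Z.WP' Z.q m) ≤ Module.finrank Z.K (Z.WP' ⊤ m) ∧
    Module.finrank Z.K (Z.WP' ⊤ m) + Module.finrank Z.K (Z.WP' Z.q (m + 1)) ≤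
      Module.finrank Z.K (Z.WP' ⊤ (m + 1)) + Module.finrank Z.K (Z.WP' Z.q m)

/-- TEL: telescoping -/
def Stmt_TEL : Prop :=
  ∀ (a b : ℕ → ℕ) (c e₂ A C : ℕ) (τ : ℝ), 0 < c →
    (∀ m, b m ≤ a m ∧ a m + b (m + 1) ≤ a (m + 1) + b m) →
    (∀ m, c ≤ m → (b m : ℝ) ≤ a (m - c) + e₂ * (m : ℝ) ^ 2 / 2 + C * (m + 1)) →
    (∀ m, |(a m : ℝ) - A * (m : ℝ) ^ 3 / 6| ≤ C * ((m : ℝ) + 1) ^ 2) →
    (e₂ : ℝ) + τ ≤ A * c →
    ∀ ε : ℝ, 0 < ε → ∃ m₀ : ℕ, ∀ m, m₀ ≤ m → (τ / 2 - ε) * (m : ℝ) ^ 2 ≤ (a m : ℝ) - b m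

/-- **Full counts for the normal model** -/
def Stmt_RST : Prop :=
  ∀ (Z : Ctx) (ε : ℝ), 0 < ε → ∃ m₀ : ℕ, ∀ m, m₀ ≤ m →
    ((Z.D.s₁ / Z.D.s₂ : ℝ) * Z.δ / 2 - ε) * (m : ℝ) ^ 2 ≤
      (Module.finrank Z.K (Z.WP' ⊤ m) : ℝ) - Module.finrank Z.K (Z.WP' Z.q m)

end

end Pool.Agent.RST
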